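import Mathlib

/-! The polynomial ring in `τ_i, z_i` over `k[v]`, the shear, the two by two minors. -/

namespace Pool.Agent.Lib.MP_5f3851_al

open MvPolynomial

/-- Variables `(false, i) = τ_i` and `(true, i) = z_i`, coefficients in `k[v]`. -/
abbrev SP (k : Type*) [CommRing k] (r : ℕ) := MvPolynomial (Bool × Fin r) (Polynomial k)

/-- The shear `z_i ↦ z_i + κ^(p^(i+1)) τ_i` (nothing at the top level `i + 1 = r`). -/
noncomputable def delta (B : Type*) [CommRing B] (p r : ℕ) :
    MvPolynomial (Bool × Fin r) B →+* Polynomial (MvPolynomial (Bool × Fin r) B) :=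
  eval₂Hom (Polynomial.C.comp C) fun v =>
    if v.1 = true ∧ (v.2 : ℕ) + 1 < r then
      Polynomial.C (X v) + Polynomial.X ^ p ^ ((v.2 : ℕ) + 1) * Polynomial.C (X (false, v.2))
    else Polynomial.C (X v)

/-- `z_i^(p^(j-i)) τ_j - z_j τ_i^(p^(j-i))`. -/
noncomputable def wpoly (B : Type*) [CommRing B] (p : ℕ) {r : ℕ} (i j : Fin r) :
    MvPolynomial (Bool × Fin r) B :=
  X (true, i) ^ p ^ ((j : ℕ) - i) * X (false, j) - X (true, j) * X (false, i) ^ p ^ ((j : ℕ) - i)

end Pool.Agent.Lib.MP_5f3851_al
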