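import Pool.Agent.Lib.MP_5f3851_al.Defs

/-! Homogeneous cochains, classes, maps of sites, the prism lemma. -/

namespace Pool.Agent.Lib.MP_5f3851_al

open Finset

universe u v

namespace Cochain
variable {S : Site.{u, v}}

/-- Evaluation as an additive map. -/
def valA (i : S.ι) (l : List (S.V i)) : Cochain S →+ S.R i :=
  AddMonoidHom.mk' (fun f => f.val i l) fun _ _ => rfl

@[simp] lemma sub_val (f g : Cochain S) (i : S.ι) (l : List (S.V i)) :
    (f - g).val i l = f.val i l - g.val i l := map_sub (valA i l) f g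
@[simp] lemma zsmul_val (c : ℤ) (f : Cochain S) (i : S.ι) (l : List (S.V i)) :
    (c • f).val i l = c • f.val i l := map_zsmul (valA i l) c f
@[simp] lemma nsmul_val (c : ℕ) (f : Cochain S) (i : S.ι) (l : List (S.V i)) :
    (c • f).val i l = c • f.val i l := map_nsmul (valA i l) c f
lemma sum_val {α : Type*} (s : Finset α) (f : α → Cochain S) (i : S.ι) (l : List (S.V i)) :
    (∑ a ∈ s, f a).val i l = ∑ a ∈ s, (f a).val i l := map_sum (valA i l) f s

/-- The coboundary as an additive map. -/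
def dA : Cochain S →+ Cochain S := AddMonoidHom.mk' d d_add

lemma d_sub (f g : Cochain S) : d (f - g) = d f - d g := map_sub dA f g
lemma d_zsmul (c : ℤ) (f : Cochain S) : d (c • f) = c • d f := map_zsmul dA c f
lemma d_sum {α : Type*} (s : Finset α) (f : α → Cochain S) :
    d (∑ a ∈ s, f a) = ∑ a ∈ s, d (f a) := map_sum dA f s

lemma d_mul_eq_zero {f g : Cochain S} (hf : d f = 0) (hg : d g = 0) : d (f * g) = 0 := by
  rw [d_mul, hf, hg, zero_mul, mul_zero, add_zero]

lemma d_pow_eq_zero {f : Cochain S} (hf : d f = 0) (n : ℕ) : d (f ^ n) = 0 := by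
  induction n with
  | zero => rw [pow_zero, d_one]
  | succ n ih => rw [pow_succ]; exact d_mul_eq_zero ih hf

/-- Homogeneous of degree `n`. -/
def Hom (n : ℕ) (f : Cochain S) : Prop := ∀ i l, l.length ≠ n + 1 → f.val i l = 0

/-- The component of degree `n`. -/
def proj (n : ℕ) : Cochain S →+ Cochain S :=
  AddMonoidHom.mk' (fun f =>
    { val := fun i l => if l.length = n + 1 then f.val i l else 0
      nil := fun i => by simp
      bdd := ⟨n + 1, fun i l h => by simp [h.ne']⟩
      nat := fun i j φ m h l => by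
        by_cases hl : l.length = n + 1 <;> simp [hl, f.nat i j φ m h] })
    fun f g => by ext i l; by_cases hl : l.length = n + 1 <;> simp [hl]

lemma proj_val (n : ℕ) (f : Cochain S) (i : S.ι) (l : List (S.V i)) :
    (proj n f).val i l = if l.length = n + 1 then f.val i l else 0 := rfl

lemma proj_hom (n : ℕ) (f : Cochain S) : Hom n (proj n f) := by
  intro i l h; simp [proj_val, h]
lemma Hom.proj_eq {n : ℕ} {f : Cochain S} (h : Hom n f) : proj n f = f := by
  ext i l
  by_cases hl : l.length = n + 1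
  · simp [proj_val, hl]
  · simp [proj_val, hl, h i l hl]
lemma Hom.proj_ne {n m : ℕ} {f : Cochain S} (h : Hom n f) (hm : m ≠ n) : proj m f = 0 := by
  ext i l
  by_cases hl : l.length = m + 1
  · simp [proj_val, hl, h i l (by omega)]
  · simp [proj_val, hl]
lemma d_proj (n : ℕ) (f : Cochain S) : d (proj n f) = proj (n + 1) (d f) := by
  ext i l
  rw [proj_val, d_val, d_val]
  by_cases hl : l.length = n + 1 + 1
  · rw [if_pos hl]
    refine sum_congr rfl fun a ha => ?_
    rw [mem_range] at ha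
    rw [proj_val, if_pos (by rw [List.length_eraseIdx_of_lt ha]; omega)]
  · rw [if_neg hl]
    refine sum_eq_zero fun a ha => ?_
    rw [mem_range] at ha
    rw [proj_val, if_neg (by rw [List.length_eraseIdx_of_lt ha]; omega), smul_zero]
lemma proj_zero_d (f : Cochain S) : proj 0 (d f) = 0 := by
  ext i l
  rw [proj_val, zero_val]
  split_ifs with hl
  · match l, hl with
    | [a], _ => simp [d_val, dif, f.nil]
  · rfl
lemma hom_zero (n : ℕ) : Hom n (0 : Cochain S) := fun _ _ _ => rfl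
lemma hom_one : Hom 0 (1 : Cochain S) := by
  intro i l h; simp [one_val, cone]; intro h'; exact absurd h' (by simpa using h)
lemma Hom.add {n : ℕ} {f g : Cochain S} (hf : Hom n f) (hg : Hom n g) : Hom n (f + g) := by
  intro i l h; rw [add_val, hf i l h, hg i l h, add_zero]
lemma Hom.neg {n : ℕ} {f : Cochain S} (hf : Hom n f) : Hom n (-f) := by
  intro i l h; rw [neg_val, hf i l h, neg_zero]
lemma Hom.sub {n : ℕ} {f g : Cochain S} (hf : Hom n f) (hg : Hom n g) : Hom n (f - g) := by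
  intro i l h; rw [sub_val, hf i l h, hg i l h, sub_zero]
lemma Hom.d {n : ℕ} {f : Cochain S} (hf : Hom n f) : Hom (n + 1) (d f) := by
  rw [← hf.proj_eq, d_proj]; exact proj_hom _ _
lemma Hom.mul {m n : ℕ} {f g : Cochain S} (hf : Hom m f) (hg : Hom n g) :
    Hom (m + n) (f * g) := by
  intro i l h
  rw [Cochain.mul_val, cup]
  refine sum_eq_zero fun a ha => ?_
  rw [mem_range] at ha
  by_cases h1 : a = m
  · rw [hg i _ (by rw [List.length_drop]; omega), mul_zero]
  · rw [hf i _ (by rw [List.length_take]; omega), zero_mul]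
lemma Hom.pow {m : ℕ} {f : Cochain S} (hf : Hom m f) (n : ℕ) : Hom (n * m) (f ^ n) := by
  induction n with
  | zero => rw [pow_zero, zero_mul]; exact hom_one
  | succ n ih => rw [pow_succ, Nat.succ_mul]; exact ih.mul hf
lemma Hom.sg_eq {n : ℕ} {f : Cochain S} (hf : Hom n f) : sg f = (-1 : ℤ) ^ n • f := by
  ext i l
  rw [sg_val, zsmul_val, sgn]
  by_cases hl : l.length = n + 1
  · rw [hl, pow_succ, pow_succ]; simp
  · rw [hf i l hl]; simp
lemma exists_sum_proj (f : Cochain S) : ∃ N, f = ∑ n ∈ range N, proj n f := by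
  obtain ⟨N, hN⟩ := f.bdd
  refine ⟨N, ?_⟩
  ext i l
  rw [sum_val]
  simp only [proj_val]
  cases l with
  | nil => simp [f.nil]
  | cons a l =>
    simp only [List.length_cons, Nat.add_right_cancel_iff, sum_ite_eq, mem_range]
    split_ifs with h
    · rfl
    · exact hN _ _ (by simp; omega)
lemma Hom.proj_mul {m : ℕ} {f : Cochain S} (hf : Hom m f) (n : ℕ) (g : Cochain S) :
    proj (m + n) (f * g) = f * proj n g := by
  ext i l
  rw [proj_val, Cochain.mul_val, Cochain.mul_val]
  split_ifs with hl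
  · refine sum_congr rfl fun a ha => ?_
    rw [mem_range] at ha
    by_cases h1 : a = m
    · rw [proj_val, if_pos (by rw [List.length_drop]; omega)]
    · rw [hf i _ (by rw [List.length_take]; omega), zero_mul, zero_mul]
  · exact ((hf.mul (proj_hom n g)) i l hl).symm
lemma Hom.proj_mul_lt {m k : ℕ} {f : Cochain S} (hf : Hom m f) (hk : k < m) (g : Cochain S) :
    proj k (f * g) = 0 := by
  ext i l
  rw [proj_val, zero_val]
  split_ifs with hl
  · rw [Cochain.mul_val, cup]
    refine sum_eq_zero fun a ha => ?_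
    rw [mem_range] at ha
    rw [hf i _ (by rw [List.length_take]; omega), zero_mul]
  · rfl
/-- The value of a product of homogeneous factors is one term. -/
lemma Hom.mul_val {m : ℕ} {f : Cochain S} (hf : Hom m f) (g : Cochain S) (i : S.ι)
    (l : List (S.V i)) (hl : m < l.length) :
    (f * g).val i l = f.val i (l.take (m + 1)) * g.val i (l.drop m) := by
  rw [Cochain.mul_val, cup, sum_eq_single m]
  · intro a ha h1
    rw [mem_range] at ha
    rw [hf i _ (by rw [List.length_take]; omega), zero_mul]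
  · intro h; exact absurd (mem_range.2 hl) h
lemma natCast_eq_zero {p : ℕ} (h : ∀ i, (p : S.R i) = 0) : (p : Cochain S) = 0 := by
  ext i l
  rw [← nsmul_one, nsmul_val, nsmul_eq_mul, h, zero_mul, zero_val]

end Cochain

open Cochain

section classes
variable {S S' : Site.{u, v}}

open Classical in
/-- The class of a cocycle (zero on other cochains). -/
noncomputable def cls (f : Cochain S) : H S :=
  if h : d f = 0 then (coboundaries S).ringCon.mk' ⟨f, h⟩ else 0

lemma cls_eq_mk {f : Cochain S} (hf : d f = 0) :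
    cls f = (coboundaries S).ringCon.mk' ⟨f, hf⟩ := dif_pos hf

lemma mem_coboundaries (z : cocycles S) : z ∈ coboundaries S ↔ ∃ e, (z : Cochain S) = d e := by
  rw [coboundaries, TwoSidedIdeal.mem_mk']; rfl

lemma cls_surj (x : H S) : ∃ f, d f = 0 ∧ cls f = x := by
  obtain ⟨z, rfl⟩ := (coboundaries S).ringCon.mk'_surjective x
  exact ⟨z.1, z.2, cls_eq_mk z.2⟩
lemma cls_eq_iff {f g : Cochain S} (hf : d f = 0) (hg : d g = 0) :
    cls f = cls g ↔ ∃ e, f - g = d e := by
  rw [cls_eq_mk hf, cls_eq_mk hg, RingCon.coe_mk', RingCon.eq, TwoSidedIdeal.rel_iff,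
    mem_coboundaries]
  rfl
lemma cls_eq_zero_iff {f : Cochain S} (hf : d f = 0) : cls f = 0 ↔ ∃ e, f = d e := by
  have : (0 : H S) = cls 0 := by rw [cls_eq_mk d_zero]; exact (map_zero _).symm
  rw [this, cls_eq_iff hf d_zero, sub_zero]
lemma cls_d (e : Cochain S) : cls (d e) = 0 := by
  exact (cls_eq_zero_iff (d_d e)).2 ⟨e, rfl⟩
lemma cls_zero : cls (0 : Cochain S) = 0 := by
  exact (cls_eq_zero_iff d_zero).2 ⟨0, d_zero.symm⟩
lemma cls_one : cls (1 : Cochain S) = 1 := by
  rw [cls_eq_mk d_one]; exact map_one _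
lemma cls_add {f g : Cochain S} (hf : d f = 0) (hg : d g = 0) : cls (f + g) = cls f + cls g := by
  rw [cls_eq_mk hf, cls_eq_mk hg, ← map_add,
    cls_eq_mk (by rw [d_add, hf, hg, add_zero] : d (f + g) = 0)]
  rfl
lemma cls_neg {f : Cochain S} (hf : d f = 0) : cls (-f) = - cls f := by
  rw [cls_eq_mk hf, ← map_neg, cls_eq_mk (by rw [d_neg, hf, neg_zero] : d (-f) = 0)]
  rfl
lemma cls_sub {f g : Cochain S} (hf : d f = 0) (hg : d g = 0) : cls (f - g) = cls f - cls g := by
  rw [sub_eq_add_neg, cls_add hf (by rw [d_neg, hg, neg_zero]), cls_neg hg, sub_eq_add_neg]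
lemma cls_mul {f g : Cochain S} (hf : d f = 0) (hg : d g = 0) : cls (f * g) = cls f * cls g := by
  rw [cls_eq_mk hf, cls_eq_mk hg, ← map_mul, cls_eq_mk (d_mul_eq_zero hf hg)]
  rfl
lemma cls_pow {f : Cochain S} (hf : d f = 0) (n : ℕ) : cls (f ^ n) = cls f ^ n := by
  induction n with
  | zero => rw [pow_zero, pow_zero, cls_one]
  | succ n ih => rw [pow_succ, pow_succ, cls_mul (d_pow_eq_zero hf n) hf, ih]
lemma cls_zsmul {f : Cochain S} (hf : d f = 0) (c : ℤ) : cls (c • f) = c • cls f := by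
  rw [cls_eq_mk hf, ← map_zsmul,
    cls_eq_mk (by rw [d_zsmul, hf, smul_zero] : d (c • f) = 0)]
  rfl
lemma cls_sum {α : Type*} (s : Finset α) (f : α → Cochain S) (hf : ∀ a ∈ s, d (f a) = 0) :
    cls (∑ a ∈ s, f a) = ∑ a ∈ s, cls (f a) := by
  classical
  induction s using Finset.induction_on with
  | empty => simp [cls_zero]
  | insert a s ha ih =>
    have h2 : ∀ b ∈ s, d (f b) = 0 := fun b hb => hf b (mem_insert_of_mem hb)
    rw [sum_insert ha, sum_insert ha, cls_add (hf a (mem_insert_self _ _))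
      (by rw [d_sum]; exact sum_eq_zero h2), ih h2]

/-- A representative cocycle. -/
noncomputable def rep (x : H S) : Cochain S := (cls_surj x).choose
lemma d_rep (x : H S) : d (rep x) = 0 := (cls_surj x).choose_spec.1
lemma cls_rep (x : H S) : cls (rep x) = x := (cls_surj x).choose_spec.2

lemma liftH_aux (A : Cochain S' → Cochain S)
    (hadd : ∀ f g, d f = 0 → d g = 0 → cls (A (f + g)) = cls (A f) + cls (A g))
    (hcob : ∀ e, cls (A (d e)) = 0) {f g : Cochain S'} (hf : d f = 0) (hg : d g = 0)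
    (h : cls f = cls g) : cls (A f) = cls (A g) := by
  obtain ⟨e, he⟩ := (cls_eq_iff hf hg).1 h
  have : f = g + d e := by rw [← he]; abel
  rw [this, hadd g (d e) hg (d_d e), hcob, add_zero]

/-- A map of cochains that is additive on classes and kills coboundaries acts on cohomology. -/
noncomputable def liftH (A : Cochain S' → Cochain S)
    (hadd : ∀ f g, d f = 0 → d g = 0 → cls (A (f + g)) = cls (A f) + cls (A g))
    (hcob : ∀ e, cls (A (d e)) = 0) : H S' →+ H S :=
  AddMonoidHom.mk' (fun x => cls (A (rep x))) fun x y => by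
    rw [← hadd _ _ (d_rep x) (d_rep y)]
    refine liftH_aux A hadd hcob (d_rep _) (by rw [d_add, d_rep, d_rep, add_zero]) ?_
    rw [cls_add (d_rep x) (d_rep y), cls_rep, cls_rep, cls_rep]

lemma liftH_cls (A : Cochain S' → Cochain S) (hadd) (hcob) {f : Cochain S'} (hf : d f = 0) :
    liftH A hadd hcob (cls f) = cls (A f) :=
  liftH_aux A hadd hcob (d_rep _) hf (cls_rep _)

lemma d_proj_eq_zero {f : Cochain S} (hf : d f = 0) (n : ℕ) : d (proj n f) = 0 := by
  rw [d_proj, hf, map_zero]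

lemma cls_proj_d (n : ℕ) (e : Cochain S) : cls (proj n (d e)) = 0 := by
  cases n with
  | zero => rw [proj_zero_d, cls_zero]
  | succ n => rw [← d_proj, cls_d]

/-- The component of degree `n` of a class. -/
noncomputable def prH (n : ℕ) : H S →+ H S :=
  liftH (fun f => proj n f)
    (fun f g hf hg => by
      rw [map_add, cls_add (d_proj_eq_zero hf n) (d_proj_eq_zero hg n)])
    (cls_proj_d n)

lemma prH_cls (n : ℕ) {f : Cochain S} (hf : d f = 0) : prH n (cls f) = cls (proj n f) :=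
  liftH_cls _ _ _ hf

/-- The classes of degree `n`. -/
def Hn (S : Site.{u, v}) (n : ℕ) : AddSubgroup (H S) where
  carrier := {x | ∃ f, d f = 0 ∧ Hom n f ∧ cls f = x}
  zero_mem' := ⟨0, d_zero, hom_zero n, cls_zero⟩
  add_mem' := by
    rintro _ _ ⟨f, hf, hf', rfl⟩ ⟨g, hg, hg', rfl⟩
    exact ⟨f + g, by rw [d_add, hf, hg, add_zero], hf'.add hg', cls_add hf hg⟩
  neg_mem' := by
    rintro _ ⟨f, hf, hf', rfl⟩
    exact ⟨-f, by rw [d_neg, hf, neg_zero], hf'.neg, cls_neg hf⟩

lemma cls_mem_Hn {n : ℕ} {f : Cochain S} (hf : d f = 0) (h : Hom n f) : cls f ∈ Hn S n :=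
  ⟨f, hf, h, rfl⟩
lemma prH_mem (n : ℕ) (x : H S) : prH n x ∈ Hn S n := by
  obtain ⟨f, hf, rfl⟩ := cls_surj x
  rw [prH_cls n hf]
  exact cls_mem_Hn (d_proj_eq_zero hf n) (proj_hom n f)
lemma prH_of_mem {n : ℕ} {x : H S} (h : x ∈ Hn S n) : prH n x = x := by
  obtain ⟨f, hf, hh, rfl⟩ := h
  rw [prH_cls n hf, hh.proj_eq]
lemma prH_of_ne {n m : ℕ} {x : H S} (h : x ∈ Hn S n) (hm : m ≠ n) : prH m x = 0 := by
  obtain ⟨f, hf, hh, rfl⟩ := h
  rw [prH_cls m hf, hh.proj_ne hm, cls_zero]
lemma one_mem_Hn : (1 : H S) ∈ Hn S 0 := by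
  exact ⟨1, d_one, hom_one, cls_one⟩
lemma Hn_mul {m n : ℕ} {x y : H S} (hx : x ∈ Hn S m) (hy : y ∈ Hn S n) :
    x * y ∈ Hn S (m + n) := by
  obtain ⟨f, hf, hh, rfl⟩ := hx
  obtain ⟨g, hg, hh', rfl⟩ := hy
  exact ⟨f * g, d_mul_eq_zero hf hg, hh.mul hh', cls_mul hf hg⟩
lemma Hn_pow {m : ℕ} {x : H S} (hx : x ∈ Hn S m) (n : ℕ) : x ^ n ∈ Hn S (n * m) := by
  obtain ⟨f, hf, hh, rfl⟩ := hx
  exact ⟨f ^ n, d_pow_eq_zero hf n, hh.pow n, cls_pow hf n⟩
lemma exists_sum_prH (x : H S) : ∃ N, x = ∑ n ∈ range N, prH n x := by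
  obtain ⟨f, hf, rfl⟩ := cls_surj x
  obtain ⟨N, hN⟩ := exists_sum_proj f
  refine ⟨N, ?_⟩
  simp only [prH_cls _ hf]
  rw [← cls_sum _ _ fun a _ => d_proj_eq_zero hf a, ← hN]
lemma prH_mul {m : ℕ} {x : H S} (hx : x ∈ Hn S m) (n : ℕ) (y : H S) :
    prH (m + n) (x * y) = x * prH n y := by
  obtain ⟨f, hf, hh, rfl⟩ := hx
  obtain ⟨g, hg, rfl⟩ := cls_surj y
  rw [← cls_mul hf hg, prH_cls _ (d_mul_eq_zero hf hg), prH_cls _ hg, hh.proj_mul,
    cls_mul hf (d_proj_eq_zero hg n)]
lemma prH_mul_lt {m k : ℕ} {x : H S} (hx : x ∈ Hn S m) (hk : k < m) (y : H S) :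
    prH k (x * y) = 0 := by
  obtain ⟨f, hf, hh, rfl⟩ := hx
  obtain ⟨g, hg, rfl⟩ := cls_surj y
  rw [← cls_mul hf hg, prH_cls _ (d_mul_eq_zero hf hg), hh.proj_mul_lt hk, cls_zero]
lemma H_induction {Q : H S → Prop} (h0 : Q 0) (hadd : ∀ x y, Q x → Q y → Q (x + y))
    (hn : ∀ n, ∀ x ∈ Hn S n, Q x) (x : H S) : Q x := by
  obtain ⟨N, hN⟩ := exists_sum_prH x
  rw [hN]
  exact sum_induction _ Q hadd h0 fun n _ => hn n _ (prH_mem n x)
lemma H_natCast_eq_zero {p : ℕ} (h : ∀ i, (p : S.R i) = 0) : (p : H S) = 0 := by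
  have : (p : H S) = (p : ℤ) • cls (1 : Cochain S) := by rw [cls_one]; simp
  rw [this, ← cls_zsmul d_one, natCast_zsmul, nsmul_one, natCast_eq_zero h, cls_zero]

end classes

end Pool.Agent.Lib.MP_5f3851_al
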