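import Mathlib

/-! Operations on functions of lists: simplicial coboundary and cup product. -/

namespace Pool.Agent.Lib.MP_5f3851_al

open Finset

section
variable {V : Type*} {A B C : Type*} [AddCommGroup A] [AddCommGroup B] [AddCommGroup C]

/-- Alternating sum over the omissions of one entry. -/
def dif (f : List V → A) (l : List V) : A :=
  ∑ i ∈ range l.length, (-1 : ℤ) ^ i • f (l.eraseIdx i)

/-- Front face times back face, for a biadditive pairing. -/
def cupB (μ : A →+ B →+ C) (f : List V → A) (g : List V → B) (l : List V) : C :=
  ∑ i ∈ range l.length, μ (f (l.take (i + 1))) (g (l.drop i))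

/-- The sign `(-1)^degree`, the degree of a list being its length minus one. -/
def sgn (f : List V → A) (l : List V) : A := (-1 : ℤ) ^ (l.length + 1) • f l

@[simp] lemma dif_nil (f : List V → A) : dif f [] = 0 := by simp [dif]

lemma dif_cons (f : List V → A) (a : V) (l : List V) :
    dif f (a :: l) = f l - dif (fun t => f (a :: t)) l := by
  simp only [dif, List.length_cons, sum_range_succ', List.eraseIdx_cons_succ, pow_zero, one_smul,
    List.eraseIdx_cons_zero, pow_succ, mul_neg, mul_one, neg_smul, sum_neg_distrib]
  abel

lemma dif_add (f g : List V → A) (l : List V) :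
    dif (fun t => f t + g t) l = dif f l + dif g l := by
  simp [dif, sum_add_distrib]

lemma dif_sub (f g : List V → A) (l : List V) :
    dif (fun t => f t - g t) l = dif f l - dif g l := by
  simp [dif, smul_sub, sum_sub_distrib]

lemma map_dif (φ : A →+ B) (f : List V → A) (l : List V) :
    φ (dif f l) = dif (fun t => φ (f t)) l := by
  simp [dif, map_sum]

lemma dif_map {W : Type*} (m : V → W) (f : List W → A) (l : List V) :
    dif f (l.map m) = dif (fun t => f (t.map m)) l := by
  simp [dif, List.eraseIdx_map]

lemma dif_dif (f : List V → A) (l : List V) : dif (dif f) l = 0 := by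
  induction l generalizing f with
  | nil => simp
  | cons a l ih =>
    rw [dif_cons]
    have : (fun t => dif f (a :: t)) = fun t => f t - dif (fun t => f (a :: t)) t := by
      funext t; exact dif_cons f a t
    rw [this, dif_sub, ih]
    simp

@[simp] lemma cupB_nil (μ : A →+ B →+ C) (f : List V → A) (g : List V → B) :
    cupB μ f g [] = 0 := by simp [cupB]

lemma cupB_cons (μ : A →+ B →+ C) (f : List V → A) (g : List V → B) (a : V) (l : List V) :
    cupB μ f g (a :: l) = μ (f [a]) (g (a :: l)) + cupB μ (fun t => f (a :: t)) g l := by
  simp only [cupB, List.length_cons, sum_range_succ', List.take_succ_cons, List.drop_succ_cons,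
    List.drop_zero, List.take_zero]
  abel

lemma cupB_sub_left (μ : A →+ B →+ C) (f f' : List V → A) (g : List V → B) (l : List V) :
    cupB μ (fun t => f t - f' t) g l = cupB μ f g l - cupB μ f' g l := by
  simp [cupB, sum_sub_distrib]

lemma cupB_neg_left (μ : A →+ B →+ C) (f : List V → A) (g : List V → B) (l : List V) :
    cupB μ (fun t => - f t) g l = - cupB μ f g l := by
  simp [cupB]

/-- Leibniz rule with its two boundary terms. -/
lemma dif_cupB_aux (μ : A →+ B →+ C) (f : List V → A) (g : List V → B) (l : List V) :
    dif (cupB μ f g) l + μ (f []) (g l) + μ (sgn f l) (g []) =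
      cupB μ (dif f) g l + cupB μ (sgn f) (dif g) l := by
  induction l generalizing f with
  | nil => simp [sgn]
  | cons a l ih =>
    have h1 : (fun t => cupB μ f g (a :: t)) =
        fun t => μ (f [a]) (g (a :: t)) + cupB μ (fun t => f (a :: t)) g t := by
      funext t; exact cupB_cons μ f g a t
    have h2 : (fun t => dif f (a :: t)) = fun t => f t - dif (fun t => f (a :: t)) t := by
      funext t; exact dif_cons f a t
    have h3 : (fun t => sgn f (a :: t)) = fun t => - sgn (fun t => f (a :: t)) t := by
      funext t; simp [sgn, pow_succ]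
    have h4 : sgn f (a :: l) = - sgn (fun t => f (a :: t)) l := congrFun h3 l
    have h5 := ih (fun t => f (a :: t))
    have h6 : sgn f [a] = f [a] := by simp [sgn]
    have h7 : dif f [a] = f [] := by simp [dif]
    rw [dif_cons, h1, dif_add, cupB_cons, cupB_cons, h2, h3, h4, cupB_sub_left, cupB_neg_left,
      h6, h7, dif_cons g, ← map_dif (μ (f [a])), map_sub, map_neg, AddMonoidHom.neg_apply]
    have h8 : dif (cupB μ (fun t => f (a :: t)) g) l =
        cupB μ (dif fun t => f (a :: t)) g l + cupB μ (sgn fun t => f (a :: t)) (dif g) l
          - μ (f [a]) (g l) - μ (sgn (fun t => f (a :: t)) l) (g []) := by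
      rw [← h5]; abel
    rw [h8]; abel

lemma dif_cupB (μ : A →+ B →+ C) (f : List V → A) (g : List V → B) (hf : f [] = 0)
    (hg : g [] = 0) (l : List V) :
    dif (cupB μ f g) l = cupB μ (dif f) g l + cupB μ (sgn f) (dif g) l := by
  rw [← dif_cupB_aux, hf, hg]; simp

lemma dif_sgn (f : List V → A) (l : List V) : dif (sgn f) l = - sgn (dif f) l := by
  simp only [dif, sgn, smul_sum, ← sum_neg_distrib]
  refine sum_congr rfl fun i hi => ?_
  rw [mem_range] at hi
  rw [List.length_eraseIdx_of_lt hi, Nat.sub_add_cancel (by omega), smul_comm, pow_succ]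
  simp

lemma sgn_sgn (f : List V → A) (l : List V) : sgn (sgn f) l = f l := by
  simp only [sgn, smul_smul, ← mul_pow]; simp

end

section
variable {V : Type*} {R : Type*} [CommRing R]

/-- The cup product: sum over `i` of `f (v₀ … vᵢ) * g (vᵢ … vₙ)`. -/
def cup (f g : List V → R) (l : List V) : R :=
  ∑ i ∈ range l.length, f (l.take (i + 1)) * g (l.drop i)

/-- The unit cochain. -/
def cone (l : List V) : R := if l.length = 1 then 1 else 0

lemma cup_eq_cupB (f g : List V → R) : cup f g = cupB (AddMonoidHom.mul : R →+ R →+ R) f g := rfl

@[simp] lemma cup_nil (f g : List V → R) : cup f g [] = 0 := by simp [cup]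

lemma cup_cons (f g : List V → R) (a : V) (l : List V) :
    cup f g (a :: l) = f [a] * g (a :: l) + cup (fun t => f (a :: t)) g l :=
  cupB_cons (AddMonoidHom.mul : R →+ R →+ R) f g a l

lemma cup_add_left (f f' g : List V → R) (l : List V) :
    cup (fun t => f t + f' t) g l = cup f g l + cup f' g l := by
  simp [cup, add_mul, sum_add_distrib]

lemma cup_add_right (f g g' : List V → R) (l : List V) :
    cup f (fun t => g t + g' t) l = cup f g l + cup f g' l := by
  simp [cup, mul_add, sum_add_distrib]

lemma cup_mul_left (c : R) (f g : List V → R) (l : List V) :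
    cup (fun t => c * f t) g l = c * cup f g l := by
  simp [cup, mul_sum, mul_assoc]

lemma cup_assoc (f g h : List V → R) (l : List V) :
    cup (cup f g) h l = cup f (cup g h) l := by
  induction l generalizing f with
  | nil => simp
  | cons a l ih =>
    have h1 : (fun t => cup f g (a :: t)) =
        fun t => f [a] * g (a :: t) + cup (fun t => f (a :: t)) g t := by
      funext t; exact cup_cons f g a t
    rw [cup_cons, h1, cup_add_left, cup_mul_left, ih, cup_cons f (cup g h), cup_cons g h,
      cup_cons f g]
    simp only [cup_nil]; ring

lemma cone_cup (f : List V → R) (hf : f [] = 0) (l : List V) : cup cone f l = f l := by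
  cases l with
  | nil => simp [hf]
  | cons a l =>
    rw [cup_cons]
    have : cup (fun t => (cone (a :: t) : R)) f l = 0 := by
      refine sum_eq_zero fun i hi => ?_
      rw [mem_range] at hi
      have : (l.take (i + 1)).length ≠ 0 := by rw [List.length_take]; omega
      simp only [cone, List.length_cons, Nat.add_eq_right, this, if_false, zero_mul]
    rw [this]; simp [cone]

lemma cup_cone (f : List V → R) (hf : f [] = 0) (l : List V) : cup f cone l = f l := by
  have key : ∀ (l : List V) (f : List V → R), l ≠ [] → cup f cone l = f l := by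
    intro l
    induction l with
    | nil => intro f h; exact absurd rfl h
    | cons a l ih =>
      intro f _
      rw [cup_cons]
      by_cases hl : l = []
      · subst hl; simp [cone]
      · rw [ih _ hl]
        have : l.length ≠ 0 := by simpa using hl
        simp [cone, this]
  by_cases hl : l = []
  · subst hl; simp [hf]
  · exact key l f hl

lemma dif_cup (f g : List V → R) (hf : f [] = 0) (hg : g [] = 0) (l : List V) :
    dif (cup f g) l = cup (dif f) g l + cup (sgn f) (dif g) l :=
  dif_cupB (AddMonoidHom.mul : R →+ R →+ R) f g hf hg l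

lemma dif_cone (l : List V) : dif (cone : List V → R) l = 0 := by
  match l with
  | [] => simp
  | [a] => simp [dif, cone]
  | [a, b] => simp [dif, cone, sum_range_succ]
  | a :: b :: c :: l =>
    refine sum_eq_zero fun i hi => ?_
    rw [mem_range] at hi
    have : ((a :: b :: c :: l).eraseIdx i).length ≠ 1 := by
      rw [List.length_eraseIdx_of_lt hi]; simp
    simp [cone, this]

lemma map_cup {S W : Type*} [CommRing S] (φ : R →+* S) (m : V → W) (f g : List V → R)
    (f' g' : List W → S) (hf : ∀ l, φ (f l) = f' (l.map m)) (hg : ∀ l, φ (g l) = g' (l.map m))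
    (l : List V) : φ (cup f g l) = cup f' g' (l.map m) := by
  simp [cup, map_sum, hf, hg, List.map_take, List.map_drop]

end

end Pool.Agent.Lib.MP_5f3851_al
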