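import Pool.Agent.Lib.MP_5f3851_al.Wt

/-! From the unipotent group to the Borel subgroup. -/

set_option linter.unusedSectionVars false

namespace Pool.Agent.Lib.MP_5f3851_al

open Finset Cochain

universe u

variable {k : Type u} [CommRing k] {p r : ℕ} [Fact p.Prime] [Fact (5 ≤ p)] [PZ p k]

instance : CharS (borel k p r) p := ⟨fun i => PZ.of_hom i.φ⟩

namespace BorelAux

variable {R R' : Type u} [CommRing R] [CommRing R']

lemma q_pos (p r : ℕ) [Fact p.Prime] : 0 < p ^ r := pow_pos (Fact.out : p.Prime).pos r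

instance : NeZero (p ^ r) := ⟨(q_pos p r).ne'⟩

lemma e10 (g : BorelPt p r R) : g.1 1 0 = 0 := g.2.2.1 1 0 (by decide)
lemma e20 (g : BorelPt p r R) : g.1 2 0 = 0 := g.2.2.1 2 0 (by decide)
lemma e21 (g : BorelPt p r R) : g.1 2 1 = 0 := g.2.2.1 2 1 (by decide)
lemma ediag (g : BorelPt p r R) : g.1 0 0 * g.1 1 1 * g.1 2 2 = 1 := by
  have h := g.2.1
  rw [Matrix.det_fin_three, e10, e20, e21] at h
  linear_combination h
lemma p00 (g : BorelPt p r R) : g.1 0 0 ^ p ^ r = 1 := by simpa using g.2.2.2 0 0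
lemma p11 (g : BorelPt p r R) : g.1 1 1 ^ p ^ r = 1 := by simpa using g.2.2.2 1 1
lemma p22 (g : BorelPt p r R) : g.1 2 2 ^ p ^ r = 1 := by simpa using g.2.2.2 2 2
lemma p01 (g : BorelPt p r R) : g.1 0 1 ^ p ^ r = 0 := by simpa using g.2.2.2 0 1
lemma p02 (g : BorelPt p r R) : g.1 0 2 ^ p ^ r = 0 := by simpa using g.2.2.2 0 2
lemma p12 (g : BorelPt p r R) : g.1 1 2 ^ p ^ r = 0 := by simpa using g.2.2.2 1 2

/-- A point given by its six entries. -/
def mk6 (p r : ℕ) [Fact p.Prime] (a b c x y z : R) (hd : a * b * c = 1) (ha : a ^ p ^ r = 1)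
    (hb : b ^ p ^ r = 1) (hc : c ^ p ^ r = 1) (hx : x ^ p ^ r = 0) (hy : y ^ p ^ r = 0)
    (hz : z ^ p ^ r = 0) : BorelPt p r R :=
  ⟨!![a, x, z; 0, b, y; 0, 0, c], by
    rw [Matrix.det_fin_three]; simpa using hd, by
    intro i j hij
    fin_cases i <;> fin_cases j <;> simp at hij ⊢, by
    intro i j
    have : (0 : R) ^ p ^ r = 0 := zero_pow (q_pos p r).ne'
    fin_cases i <;> fin_cases j <;> simp [ha, hb, hc, hx, hy, hz, this]⟩

lemma ext6 {g w : BorelPt p r R} (h00 : g.1 0 0 = w.1 0 0) (h11 : g.1 1 1 = w.1 1 1)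
    (h22 : g.1 2 2 = w.1 2 2) (h01 : g.1 0 1 = w.1 0 1) (h12 : g.1 1 2 = w.1 1 2)
    (h02 : g.1 0 2 = w.1 0 2) : g = w := by
  refine Subtype.ext ?_
  ext i j
  fin_cases i <;> fin_cases j
  · exact h00
  · exact h01
  · exact h02
  · exact (e10 g).trans (e10 w).symm
  · exact h11
  · exact h12
  · exact (e20 g).trans (e20 w).symm
  · exact (e21 g).trans (e21 w).symm
  · exact h22

/-- Change of rings. -/
def bmap (φ : R →+* R') (v : BorelPt p r R) : BorelPt p r R' :=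
  ⟨v.1.map φ, by
    have := RingHom.map_det φ v.1
    rw [v.2.1, map_one] at this
    exact this.symm, fun a b h => by rw [Matrix.map_apply, v.2.2.1 a b h, map_zero], fun a b => by
    rw [Matrix.map_apply, ← map_pow, v.2.2.2 a b]
    by_cases h : a = b <;> simp [Matrix.one_apply, h]⟩

/-- The product. -/
def bmul (h : (p : R) = 0) (g v : BorelPt p r R) : BorelPt p r R :=
  ⟨g.1 * v.1, by rw [Matrix.det_mul, g.2.1, v.2.1, one_mul], by
    intro i j hij
    fin_cases i <;> fin_cases j <;>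
      simp [Matrix.mul_apply, Fin.sum_univ_three, e10, e20, e21] at hij ⊢, fun a b => by
    have hg : g.1.map (frobR h r) = 1 := by ext i j; exact g.2.2.2 i j
    have hv : v.1.map (frobR h r) = 1 := by ext i j; exact v.2.2.2 i j
    have : (g.1 * v.1).map (frobR h r) = 1 := by rw [Matrix.map_mul, hg, hv, one_mul]
    exact congrFun (congrFun this a) b⟩

lemma bmap_apply (φ : R →+* R') (v : BorelPt p r R) (a b : Fin 3) :
    (bmap φ v).1 a b = φ (v.1 a b) := rfl

section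
variable (h : (p : R) = 0) (g v : BorelPt p r R)
lemma m00 : (bmul h g v).1 0 0 = g.1 0 0 * v.1 0 0 := by
  simp [bmul, Matrix.mul_apply, Fin.sum_univ_three, e10, e20]
lemma m11 : (bmul h g v).1 1 1 = g.1 1 1 * v.1 1 1 := by
  simp [bmul, Matrix.mul_apply, Fin.sum_univ_three, e10, e21]
lemma m22 : (bmul h g v).1 2 2 = g.1 2 2 * v.1 2 2 := by
  simp [bmul, Matrix.mul_apply, Fin.sum_univ_three, e20, e21]
lemma m01 : (bmul h g v).1 0 1 = g.1 0 0 * v.1 0 1 + g.1 0 1 * v.1 1 1 := by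
  simp [bmul, Matrix.mul_apply, Fin.sum_univ_three, e21]
lemma m12 : (bmul h g v).1 1 2 = g.1 1 1 * v.1 1 2 + g.1 1 2 * v.1 2 2 := by
  simp [bmul, Matrix.mul_apply, Fin.sum_univ_three, e10]
lemma m02 : (bmul h g v).1 0 2 = g.1 0 0 * v.1 0 2 + g.1 0 1 * v.1 1 2 + g.1 0 2 * v.1 2 2 := by
  simp [bmul, Matrix.mul_apply, Fin.sum_univ_three]
end

lemma pt_mul_val (h : (p : R) = 0) (g v : Pt p r r R) : (Pt.mul h g v).1 = g.1 * v.1 := rfl
lemma pt_map_val (φ : R →+* R') (v : Pt p r r R) : (v.map φ).1 = v.1.map φ := rfl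

lemma hh_pow (h : (p : R) = 0) : hh p R ^ p ^ r = hh p R := natCast_pow_pp h _ _

lemma odd_p (p : ℕ) [Fact p.Prime] [Fact (5 ≤ p)] : Odd p :=
  (Fact.out : p.Prime).odd_of_ne_two (by have : 5 ≤ p := Fact.out; omega)

/-- The unipotent matrix of a point of the Heisenberg group. -/
def iota (h : (p : R) = 0) (v : Pt p r r R) : BorelPt p r R :=
  mk6 p r 1 1 1 v.1.x v.1.y (v.1.z + hh p R * (v.1.x * v.1.y)) (by simp) (one_pow _) (one_pow _)
    (one_pow _) v.2.1 v.2.2.1 (by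
      rw [add_pow_pp h, mul_pow, mul_pow, v.2.1, v.2.2.2]; simp)

section
variable (h : (p : R) = 0) (v : Pt p r r R)
lemma i00 : (iota h v).1 0 0 = 1 := rfl
lemma i11 : (iota h v).1 1 1 = 1 := rfl
lemma i22 : (iota h v).1 2 2 = 1 := rfl
lemma i01 : (iota h v).1 0 1 = v.1.x := rfl
lemma i12 : (iota h v).1 1 2 = v.1.y := rfl
lemma i02 : (iota h v).1 0 2 = v.1.z + hh p R * (v.1.x * v.1.y) := rfl
end

/-- The unipotent part. -/
def piB (h : (p : R) = 0) (g : BorelPt p r R) : Pt p r r R :=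
  ⟨⟨g.1 0 1 * g.1 0 0 * g.1 2 2, g.1 1 2 * g.1 0 0 * g.1 1 1,
    g.1 0 2 * g.1 0 0 * g.1 1 1 -
      hh p R * (g.1 0 1 * g.1 0 0 * g.1 2 2 * (g.1 1 2 * g.1 0 0 * g.1 1 1))⟩, by
    simp only [mul_pow, p01, zero_mul], by simp only [mul_pow, p12, zero_mul], by
    simp only [sub_pow_pp h, mul_pow, p01, p02, zero_mul, mul_zero, sub_zero]⟩

section
variable (h : (p : R) = 0) (g : BorelPt p r R)
lemma px : (piB h g).1.x = g.1 0 1 * g.1 0 0 * g.1 2 2 := rfl
lemma py : (piB h g).1.y = g.1 1 2 * g.1 0 0 * g.1 1 1 := rfl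
lemma pz : (piB h g).1.z = g.1 0 2 * g.1 0 0 * g.1 1 1 -
    hh p R * (g.1 0 1 * g.1 0 0 * g.1 2 2 * (g.1 1 2 * g.1 0 0 * g.1 1 1)) := rfl
end

lemma piB_iota (h : (p : R) = 0) (v : Pt p r r R) : piB h (iota h v) = v := by
  refine Subtype.ext ?_
  ext1
  · rw [px, i01, i00, i22]; ring
  · rw [py, i12, i00, i11]; ring
  · rw [pz, i01, i12, i02, i00, i11, i22]; ring

lemma piB_map (h : (p : R) = 0) (h' : (p : R') = 0) (φ : R →+* R') (g : BorelPt p r R) :
    piB h' (bmap φ g) = (piB h g).map φ := by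
  refine Subtype.ext ?_
  ext1 <;> simp [Pt.map, px, py, pz, bmap_apply]

lemma iota_map (h : (p : R) = 0) (h' : (p : R') = 0) (φ : R →+* R') (v : Pt p r r R) :
    iota h' (v.map φ) = bmap φ (iota h v) := by
  refine ext6 ?_ ?_ ?_ ?_ ?_ ?_ <;>
    simp [bmap_apply, i00, i11, i22, i01, i12, i02, pt_map_val]

lemma iota_mul (h : (p : R) = 0) (g v : Pt p r r R) :
    iota h (Pt.mul h g v) = bmul h (iota h g) (iota h v) := by
  have h2 := two_mul_hh (odd_p p) h
  refine ext6 ?_ ?_ ?_ ?_ ?_ ?_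
  · rw [m00]; simp [i00]
  · rw [m11]; simp [i11]
  · rw [m22]; simp [i22]
  · rw [m01]; simp [i00, i11, i01, pt_mul_val]; ring
  · rw [m12]; simp [i22, i11, i12, pt_mul_val]; ring
  · rw [m02]; simp only [i00, i22, i01, i12, i02, pt_mul_val, Heis.mul_x, Heis.mul_y, Heis.mul_z]
    linear_combination (g.1.x * v.1.y) * h2

lemma piB_mul (h : (p : R) = 0) (g v : BorelPt p r R) :
    piB h (bmul h g v) = Pt.mul h (piB h g)
      (Pt.scale (g.1 0 0 ^ 2 * g.1 2 2) (g.1 0 0 * g.1 1 1 ^ 2) (piB h v)) := by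
  have h2 := two_mul_hh (odd_p p) h
  have hg := ediag g
  have hv := ediag v
  refine Subtype.ext ?_
  ext1
  · simp only [px, m01, m00, m22, Pt.mul, Pt.scale, Heis.mul_x]
    grind
  · simp only [py, m12, m00, m11, Pt.mul, Pt.scale, Heis.mul_y]
    grind
  · simp only [px, py, pz, m01, m12, m02, m00, m11, m22, Pt.mul, Pt.scale, Heis.mul_z]
    grind

lemma scale_one (v : Pt p r r R) : Pt.scale 1 1 v = v := by
  refine Subtype.ext ?_
  ext1 <;> simp [Pt.scale]

lemma piB_iota_mul (h : (p : R) = 0) (g : Pt p r r R) (v : BorelPt p r R) :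
    piB h (bmul h (iota h g) v) = Pt.mul h g (piB h v) := by
  rw [piB_mul, piB_iota, i00, i11, i22]
  simp [scale_one]

lemma pow_pred_mul {a : R} (ha : a ^ p ^ r = 1) : a * a ^ (p ^ r - 1) = 1 := by
  rw [← pow_succ', Nat.sub_add_cancel (q_pos p r), ha]

/-- A point of the torus. -/
def dg (s t : R) (hs : s ^ p ^ r = 1) (ht : t ^ p ^ r = 1) : BorelPt p r R :=
  mk6 p r s t ((s * t) ^ (p ^ r - 1)) 0 0 0
    (pow_pred_mul (by rw [mul_pow, hs, ht, one_mul])) hs ht
    (by rw [← pow_mul, mul_comm (p ^ r - 1), pow_mul, mul_pow s t, hs, ht, one_mul, one_pow])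
    (zero_pow (q_pos p r).ne') (zero_pow (q_pos p r).ne') (zero_pow (q_pos p r).ne')

section
variable (s t : R) (hs : s ^ p ^ r = 1) (ht : t ^ p ^ r = 1)
lemma d00 : (dg s t hs ht).1 0 0 = s := rfl
lemma d11 : (dg s t hs ht).1 1 1 = t := rfl
lemma d01 : (dg s t hs ht).1 0 1 = 0 := rfl
lemma d12 : (dg s t hs ht).1 1 2 = 0 := rfl
lemma d02 : (dg s t hs ht).1 0 2 = 0 := rfl
end

/-- Every point is the product of its unipotent part and a diagonal point. -/
lemma decomp (h : (p : R) = 0) (w t : BorelPt p r R) (h0 : w.1 0 0 = t.1 0 0)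
    (h1 : w.1 1 1 = t.1 1 1) (h01 : t.1 0 1 = 0) (h12 : t.1 1 2 = 0) (h02 : t.1 0 2 = 0) :
    w = bmul h (iota h (piB h w)) t := by
  have hw := ediag w
  have ht := ediag t
  have h2 : w.1 2 2 = t.1 2 2 := by
    rw [← h0, ← h1] at ht
    linear_combination t.1 2 2 * hw - w.1 2 2 * ht
  refine ext6 ?_ ?_ ?_ ?_ ?_ ?_
  · rw [m00, i00, one_mul, h0]
  · rw [m11, i11, one_mul, h1]
  · rw [m22, i22, one_mul, h2]
  · rw [m01, i00, i01, px, h01, ← h1]; linear_combination (- w.1 0 1) * hw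
  · rw [m12, i11, i12, py, h12, ← h2]; linear_combination (- w.1 1 2) * hw
  · rw [m02, i00, i01, i02, px, py, pz, h02, h12, ← h2]; linear_combination (- w.1 0 2) * hw

lemma bmul_assoc (h : (p : R) = 0) (a b c : BorelPt p r R) :
    bmul h (bmul h a b) c = bmul h a (bmul h b c) := Subtype.ext (Matrix.mul_assoc _ _ _)

lemma bmap_mul (h : (p : R) = 0) (h' : (p : R') = 0) (φ : R →+* R') (a b : BorelPt p r R) :
    bmap φ (bmul h a b) = bmul h' (bmap φ a) (bmap φ b) := Subtype.ext Matrix.map_mul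

/-! The restriction map -/

/-- The inclusion of the unipotent group. -/
def iotaM (k : Type u) [CommRing k] (p r : ℕ) [Fact p.Prime] [Fact (5 ≤ p)] [PZ p k] :
    SiteMap (gs k p r r) (borel k p r) where
  obj i := i
  vert i v := iota (PZ.of_hom i.φ) v
  fn _ := AddMonoidHom.id _
  compat i j φ m h := by
    obtain ⟨hφ, g, hg⟩ := h
    refine ⟨φ, fun v => bmul (PZ.of_hom j.φ) (iota (PZ.of_hom j.φ) g) (bmap φ v),
      ⟨hφ, _, fun _ => rfl⟩, fun v => ?_, fun _ => rfl⟩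
    have : m v = Pt.mul (PZ.of_hom j.φ) g (v.map φ) := Subtype.ext (hg v)
    rw [this, iota_mul, iota_map (PZ.of_hom i.φ)]

lemma iotaM_isRing : (iotaM k p r).IsRing := fun _ => ⟨rfl, fun _ _ => rfl⟩

lemma unit_pow {s : R} (hs : s ^ p ^ r = 1) {a : ℕ} (ha : p ^ r ∣ a) : s ^ a = 1 := by
  obtain ⟨c, rfl⟩ := ha
  rw [pow_mul, hs, one_pow]

/-- A cochain whose weight is divisible by `p^r` extends to the Borel subgroup. -/
def liftB {a e : ℕ} (f : Cochain (gs k p r r)) (hf : Wt a e f) (ha : p ^ r ∣ a)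
    (he : p ^ r ∣ e) : Cochain (borel k p r) where
  val i l := f.val i (l.map (piB (PZ.of_hom i.φ)))
  nil i := f.nil i
  bdd := by
    obtain ⟨N, hN⟩ := f.bdd
    exact ⟨N, fun i l h => hN _ _ (by simpa using h)⟩
  nat i j φ m h l := by
    obtain ⟨hφ, g, hg⟩ := h
    have hs : (g.1 0 0 ^ 2 * g.1 2 2) ^ p ^ r = 1 := by
      rw [mul_pow, ← pow_mul, mul_comm 2, pow_mul, p00, p22, one_pow, one_mul]
    have ht : (g.1 0 0 * g.1 1 1 ^ 2) ^ p ^ r = 1 := by
      rw [mul_pow, ← pow_mul, mul_comm 2, pow_mul, p00, p11, one_pow, one_mul]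
    have h1 := gs_nat' f i j φ hφ (l.map (piB (PZ.of_hom i.φ)))
    have h2 := hf j (g.1 0 0 ^ 2 * g.1 2 2) (g.1 0 0 * g.1 1 1 ^ 2)
      ((l.map (piB (PZ.of_hom i.φ))).map (Pt.map φ))
    rw [unit_pow hs ha, unit_pow ht he, one_mul, one_mul] at h2
    have h3 := gs_nat f j j (RingHom.id _) (RingHom.id_comp _) (piB (PZ.of_hom j.φ) g)
      (((l.map (piB (PZ.of_hom i.φ))).map (Pt.map φ)).map
        (Pt.scale (g.1 0 0 ^ 2 * g.1 2 2) (g.1 0 0 * g.1 1 1 ^ 2)))
    rw [RingHom.id_apply] at h3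
    rw [h1, ← h2, h3]
    simp only [List.map_map]
    congr 2
    funext v
    have : m v = bmul (PZ.of_hom j.φ) g (bmap φ v) := Subtype.ext (hg v)
    simp only [Function.comp_apply]
    rw [this, piB_mul, piB_map (PZ.of_hom i.φ)]
    rfl

lemma d_liftB {a e : ℕ} (f : Cochain (gs k p r r)) (hf : Wt a e f) (ha : p ^ r ∣ a)
    (he : p ^ r ∣ e) (hd : d f = 0) : d (liftB f hf ha he) = 0 := by
  ext i l
  have := congrArg (fun c : Cochain (gs k p r r) => c.val i (l.map (piB (PZ.of_hom i.φ)))) hd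
  simp only [d_val, zero_val] at this ⊢
  rw [dif_map] at this
  exact this

lemma pull_liftB {a e : ℕ} (f : Cochain (gs k p r r)) (hf : Wt a e f) (ha : p ^ r ∣ a)
    (he : p ^ r ∣ e) : (iotaM k p r).pull (liftB f hf ha he) = f := by
  ext i l
  rw [SiteMap.pull_val]
  change f.val i ((l.map (iota (PZ.of_hom i.φ))).map (piB (PZ.of_hom i.φ))) = f.val i l
  rw [List.map_map]
  congr 1
  conv_rhs => rw [← List.map_id l]
  congr 1
  funext v
  exact piB_iota _ v

/-! Averaging over the torus -/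

/-- The ring of the universal point of the torus. -/
abbrev TR (p r : ℕ) (R : Type u) [CommRing R] : Type u := Rt (p ^ r) (1 : Rt (p ^ r) (1 : R))

/-- The structure map. -/
noncomputable def tof (p r : ℕ) (R : Type u) [CommRing R] : R →+* TR p r R :=
  (Rt.of (p ^ r) (1 : Rt (p ^ r) (1 : R))).comp (Rt.of (p ^ r) (1 : R))

/-- The first coordinate. -/
noncomputable def ts (p r : ℕ) (R : Type u) [CommRing R] : TR p r R :=
  Rt.of (p ^ r) (1 : Rt (p ^ r) (1 : R)) (Rt.rt (p ^ r) (1 : R))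

/-- The second coordinate. -/
noncomputable def tt (p r : ℕ) (R : Type u) [CommRing R] : TR p r R :=
  Rt.rt (p ^ r) (1 : Rt (p ^ r) (1 : R))

lemma ts_pow : ts p r R ^ p ^ r = 1 := by
  rw [ts, ← map_pow, Rt.rt_pow, (Rt.of (p ^ r) (1 : R)).map_one]
  exact RingHom.map_one _
lemma tt_pow : tt p r R ^ p ^ r = 1 := by
  rw [tt, Rt.rt_pow, RingHom.map_one]

/-- The invariant coefficient. -/
noncomputable def tco (p r : ℕ) [Fact p.Prime] (R : Type u) [CommRing R] : TR p r R →+ R :=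
  (Rt.coef (p ^ r) (1 : R) 0).comp (Rt.coef (p ^ r) (1 : Rt (p ^ r) (1 : R)) 0)

lemma tco_tof (x : R) : tco p r R (tof p r R x) = x := by
  simp [tco, tof, Rt.coef_of]

/-- Translation by a point of the torus, over a ring homomorphism. -/
noncomputable def tmap (φ : R →+* R') (a b : R') (ha : a ^ p ^ r = 1) (hb : b ^ p ^ r = 1) :
    TR p r R →+* TR p r R' :=
  Rt.mapS 1 1 (Rt.mapS 1 1 φ a (by rw [ha, one_mul, RingHom.map_one])) (Rt.of (p ^ r) 1 b)
    (by rw [← map_pow, hb, (Rt.of (p ^ r) (1 : R')).map_one, one_mul]; exact (RingHom.map_one _).symm)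

section
variable (φ : R →+* R') (a b : R') (ha : a ^ p ^ r = 1) (hb : b ^ p ^ r = 1)
lemma tmap_tof (x : R) : tmap φ a b ha hb (tof p r R x) = tof p r R' (φ x) := by
  simp only [tmap, tof, RingHom.comp_apply, Rt.mapS_of]
lemma tmap_ts : tmap φ a b ha hb (ts p r R) = tof p r R' a * ts p r R' := by
  simp only [tmap, tof, ts, RingHom.comp_apply, Rt.mapS_of, Rt.mapS_rt, map_mul]
lemma tmap_tt : tmap φ a b ha hb (tt p r R) = tof p r R' b * tt p r R' := by
  simp only [tmap, tof, tt, RingHom.comp_apply, Rt.mapS_rt]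
lemma tco_tmap (x : TR p r R) : φ (tco p r R x) = tco p r R' (tmap φ a b ha hb x) := by
  simp only [tmap, tco, AddMonoidHom.comp_apply, Rt.coef_mapS, pow_zero, one_mul]
end

/-- The universal point of the torus. -/
noncomputable def tu (p r : ℕ) [Fact p.Prime] [Fact (5 ≤ p)] (R : Type u) [CommRing R] :
    BorelPt p r (TR p r R) := dg (ts p r R) (tt p r R) ts_pow tt_pow

lemma hT (h : (p : R) = 0) : (p : TR p r R) = 0 := by
  rw [← map_natCast (tof p r R), h, map_zero]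

/-- Translation by the universal point. -/
noncomputable def tw (h : (p : R) = 0) (v : BorelPt p r R) : BorelPt p r (TR p r R) :=
  bmul (hT h) (tu p r R) (bmap (tof p r R) v)

lemma tw_mul (h : (p : R) = 0) (h' : (p : R') = 0) (φ : R →+* R') (g : BorelPt p r R')
    (v : BorelPt p r R) :
    tw h' (bmul h' g (bmap φ v)) = bmul (hT h') (iota (hT h') (piB (hT h') (tw h' g)))
      (bmap (tmap φ (g.1 0 0) (g.1 1 1) (p00 g) (p11 g)) (tw h v)) := by
  have hd := decomp (hT h') (tw h' g)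
    (bmap (tmap φ (g.1 0 0) (g.1 1 1) (p00 g) (p11 g)) (tu p r R))
    (by rw [tw, m00, bmap_apply, bmap_apply, tu, tu, d00, d00, tmap_ts, mul_comm])
    (by rw [tw, m11, bmap_apply, bmap_apply, tu, tu, d11, d11, tmap_tt, mul_comm])
    (by rw [bmap_apply, tu, d01, map_zero]) (by rw [bmap_apply, tu, d12, map_zero])
    (by rw [bmap_apply, tu, d02, map_zero])
  have h1 : tw h' (bmul h' g (bmap φ v)) = bmul (hT h') (tw h' g)
      (bmap (tof p r R') (bmap φ v)) := by
    rw [tw, tw, bmul_assoc, bmap_mul _ (hT h')]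
  have h2 : bmap (tmap φ (g.1 0 0) (g.1 1 1) (p00 g) (p11 g)) (bmap (tof p r R) v) =
      bmap (tof p r R') (bmap φ v) := by
    refine Subtype.ext ?_
    ext a b
    simp only [bmap_apply, tmap_tof]
  rw [h1, tw.eq_1 h v, bmap_mul _ (hT h'), ← bmul_assoc, ← hd, h2]

/-- The object of the universal point. -/
@[reducible] noncomputable def tobj (p r : ℕ) (i : Obj k) : Obj k :=
  ⟨TR p r i.R, (tof p r i.R).comp i.φ⟩

/-- Translation by the universal point. -/
noncomputable def tv (i : Obj k) (v : BorelPt p r i.R) : BorelPt p r (tobj p r i).R :=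
  tw (PZ.of_hom i.φ) v

lemma key (i j : Obj k) (φ : i.R →+* j.R) (m : BorelPt p r i.R → BorelPt p r j.R)
    (h : (borel k p r).Arr i j φ m) :
    ∃ (φ' : (tobj p r i).R →+* (tobj p r j).R) (g' : Pt p r r (tobj p r j).R),
      φ'.comp (tobj p r i).φ = (tobj p r j).φ ∧
      (∀ v, tv j (m v) = bmul (PZ.of_hom (tobj p r j).φ) (iota (PZ.of_hom (tobj p r j).φ) g')
        (bmap φ' (tv i v))) ∧ ∀ x, φ (tco p r i.R x) = tco p r j.R (φ' x) := by
  obtain ⟨hφ, g, hg⟩ := h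
  refine ⟨tmap φ (g.1 0 0) (g.1 1 1) (p00 g) (p11 g), piB (PZ.of_hom (tobj p r j).φ) (tv j g),
    ?_, fun v => ?_, fun x => tco_tmap _ _ _ _ _ x⟩
  · refine RingHom.ext fun c => ?_
    have : φ (i.φ c) = j.φ c := DFunLike.congr_fun hφ c
    exact (tmap_tof φ _ _ (p00 g) (p11 g) (i.φ c)).trans (congrArg (tof p r j.R) this)
  · have hm : m v = bmul (PZ.of_hom j.φ) g (bmap φ v) := Subtype.ext (hg v)
    rw [hm]
    exact tw_mul (PZ.of_hom i.φ) (PZ.of_hom j.φ) φ g v

/-- The transfer map. -/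
noncomputable def trM (k : Type u) [CommRing k] (p r : ℕ) [Fact p.Prime] [Fact (5 ≤ p)] [PZ p k] :
    SiteMap (borel k p r) (gs k p r r) where
  obj i := tobj p r i
  vert i v := piB (PZ.of_hom (tobj p r i).φ) (tv i v)
  fn i := tco p r i.R
  compat i j φ m h := by
    obtain ⟨φ', g', h1, h2, h3⟩ := key i j φ m h
    refine ⟨φ', fun v => Pt.mul (PZ.of_hom (tobj p r j).φ) g' (v.map φ'),
      ⟨h1, g', fun _ => rfl⟩, fun v => ?_, h3⟩
    rw [h2, piB_iota_mul, piB_map (PZ.of_hom (tobj p r i).φ)]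

/-- The homotopy. -/
noncomputable def cyM (k : Type u) [CommRing k] (p r : ℕ) [Fact p.Prime] [Fact (5 ≤ p)] [PZ p k] :
    SiteMap (cyl (borel k p r)) (borel k p r) where
  obj i := tobj p r i
  vert i v := if v.2 then iota (PZ.of_hom (tobj p r i).φ) (piB (PZ.of_hom (tobj p r i).φ) (tv i v.1))
    else tv i v.1
  fn i := tco p r i.R
  compat i j φ m h := by
    obtain ⟨m₀, h₀, hm⟩ := h
    obtain ⟨φ', g', h1, h2, h3⟩ := key i j φ m₀ h₀
    refine ⟨φ', fun v => bmul (PZ.of_hom (tobj p r j).φ) (iota (PZ.of_hom (tobj p r j).φ) g')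
      (bmap φ' v), ⟨h1, _, fun _ => rfl⟩, fun v => ?_, h3⟩
    obtain ⟨v, b⟩ := v
    rw [hm]
    cases b
    · exact h2 v
    · simp only [if_true]
      rw [h2, piB_iota_mul, piB_map (PZ.of_hom (tobj p r i).φ), iota_mul,
        iota_map (PZ.of_hom (tobj p r i).φ)]

lemma cls_eq_tr {F : Cochain (borel k p r)} (hF : d F = 0) :
    cls F = cls ((trM k p r).pull ((iotaM k p r).pull F)) := by
  refine cls_eq_of_cyl (cyM k p r) hF _ _ (fun i l => ?_) (fun i l => ?_)
  · have := F.nat i (tobj p r i) (tof p r i.R) (tv i) ⟨rfl, tu p r i.R, fun _ => rfl⟩ l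
    change F.val i l = tco p r i.R (F.val (tobj p r i) (l.map (tv i)))
    rw [← this, tco_tof]
  · rw [SiteMap.pull_val, SiteMap.pull_val, List.map_map]
    rfl

end BorelAux

open BorelAux in
/-- Restriction is injective, and classes whose weight is divisible by `p^r` are in the image. -/
theorem exists_resB (k : Type u) [CommRing k] (p r : ℕ) [Fact p.Prime] [Fact (5 ≤ p)] [PZ p k] :
    ∃ ψ : H (borel k p r) →+* H (gs k p r r), Function.Injective ψ ∧
      ∀ a e x, x ∈ HWt k p r r a e → p ^ r ∣ a → p ^ r ∣ e → ∃ y, ψ y = x := by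
  refine ⟨(iotaM k p r).pullH iotaM_isRing, ?_, ?_⟩
  · rw [injective_iff_map_eq_zero]
    intro x hx
    obtain ⟨F, hF, rfl⟩ := cls_surj x
    rw [SiteMap.pullH_cls _ _ hF] at hx
    rw [cls_eq_tr hF, ← SiteMap.pullA_cls _ (SiteMap.d_pull_eq_zero _ hF), hx, map_zero]
  · rintro a e _ ⟨f, hd, hf, rfl⟩ ha he
    exact ⟨cls (liftB f hf ha he), by
      rw [SiteMap.pullH_cls _ _ (d_liftB f hf ha he hd), pull_liftB]⟩

end Pool.Agent.Lib.MP_5f3851_al
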