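import Pool.Agent.Lib.MP_5f3851_al.Chain

/-! The Alexander-Whitney splitting of one slot, the external product, the inclusion of a slot. -/

set_option linter.unusedSectionVars false

namespace Pool.Agent.Lib.MP_5f3851_al

open Finset

universe u u'

variable {I J : Type} [Fintype I] [DecidableEq I] [Fintype J] [DecidableEq J]
  {V : Type u} {V' : Type u'} {R : Type*} [CommRing R]

/-- The coefficient operator of the splitting into degrees `a` and `b`. -/
noncomputable def Uw (i j : I) (a b : ℕ) : Module.End ℤ (EA I) :=
  gam i ^ a * gam j ^ b * gam i ^ (a + b)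

/-- Front faces stay in slot `i`, back faces go to the empty slot `j`. -/
noncomputable def asp (i j : I) : Module.End ℤ (Ch I V) :=
  mkL fun w => if w j = [] then
    ∑ a ∈ range (w i).length,
      genL (Function.update (Function.update w i ((w i).take (a + 1))) j ((w i).drop a)) ∘ₗ
        Uw i j a ((w i).length - 1 - a)
    else 0

/-- The indicator of the empty list. -/
def dnil (l : List V) : R := if l = [] then 1 else 0

namespace SplitAux

lemma ch_ind {P : Ch I V → Prop} (h0 : P 0) (ha : ∀ x y, P x → P y → P (x + y))
    (hg : ∀ w e, P (gen w e)) (x : Ch I V) : P x :=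
  Finsupp.induction_linear x h0 ha hg

lemma sum_two {M : Type*} [AddCommMonoid M] {i j : I} (h : i ≠ j) (f : I → M) :
    ∑ k, f k = f i + (f j + ∑ k ∈ (univ.erase i).erase j, f k) := by
  rw [add_sum_erase _ _ (mem_erase.2 ⟨h.symm, mem_univ j⟩), add_sum_erase _ _ (mem_univ i)]

lemma prod_two {M : Type*} [CommMonoid M] {i j : I} (h : i ≠ j) (f : I → M) :
    ∏ k, f k = f i * (f j * ∏ k ∈ (univ.erase i).erase j, f k) := by
  rw [mul_prod_erase _ _ (mem_erase.2 ⟨h.symm, mem_univ j⟩), mul_prod_erase _ _ (mem_univ i)]

lemma dif_congr {A : Type*} [AddCommGroup A] {f g : List V → A} {l : List V}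
    (h : ∀ t : List V, t.length + 1 = l.length → f t = g t) : dif f l = dif g l := by
  refine sum_congr rfl fun a ha => ?_
  rw [mem_range] at ha
  rw [h _ (by rw [List.length_eraseIdx_of_lt ha]; omega)]

lemma dif_sum {A α : Type*} [AddCommGroup A] (s : Finset α) (f : α → List V → A) (l : List V) :
    dif (fun t => ∑ a ∈ s, f a t) l = ∑ a ∈ s, dif (f a) l := by
  simp only [dif, smul_sum]
  exact sum_comm

lemma dif_zero {A : Type*} [AddCommGroup A] (l : List V) : dif (fun _ => (0 : A)) l = 0 := by
  simp [dif]

lemma dif_smul {A : Type*} [AddCommGroup A] (c : ℤ) (f : List V → A) (l : List V) :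
    dif (fun t => c • f t) l = c • dif f l := by
  simp only [dif, smul_sum]
  exact sum_congr rfl fun _ _ => smul_comm _ _ _

/-- The Leibniz rule for a function of two lists. -/
lemma dif_two {A : Type*} [AddCommGroup A] (G : List V → List V → A) (h1 : ∀ t, G [] t = 0)
    (h2 : ∀ s, G s [] = 0) (l : List V) :
    dif (fun t => ∑ a ∈ range t.length, G (t.take (a + 1)) (t.drop a)) l =
      ∑ a ∈ range l.length, (dif (fun s => G s (l.drop a)) (l.take (a + 1)) +
        (-1 : ℤ) ^ a • dif (G (l.take (a + 1))) (l.drop a)) := by
  have h := dif_cupB_aux (AddMonoidHom.eval : (List V → A) →+ ((List V → A) →+ A) →+ A) G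
    (fun t => Pi.evalAddMonoidHom (fun _ => A) t) l
  have e1 : AddMonoidHom.eval (G []) (Pi.evalAddMonoidHom (fun _ => A) l) = 0 := h1 l
  have e2 : AddMonoidHom.eval (sgn G l) (Pi.evalAddMonoidHom (fun _ => A) []) = 0 := by
    show (-1 : ℤ) ^ (l.length + 1) • G l [] = 0
    rw [h2, smul_zero]
  rw [e1, e2, add_zero, add_zero] at h
  refine h.trans ?_
  rw [sum_add_distrib]
  congr 1
  · exact sum_congr rfl fun a _ => map_dif (Pi.evalAddMonoidHom (fun _ => A) (l.drop a)) G _
  · refine sum_congr rfl fun a ha => ?_
    rw [mem_range] at ha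
    rw [map_dif, ← dif_smul]
    congr 1
    funext t
    show (-1 : ℤ) ^ ((l.take (a + 1)).length + 1) • G (l.take (a + 1)) t = _
    rw [List.length_take, min_eq_left (by omega), pow_succ, pow_succ]
    simp

lemma asp_gen (i j : I) (w : I → List V) (e : EA I) :
    asp i j (gen w e) = if w j = [] then ∑ a ∈ range (w i).length,
      gen (Function.update (Function.update w i ((w i).take (a + 1))) j ((w i).drop a))
        (Uw i j a ((w i).length - 1 - a) e) else 0 := by
  rw [asp, mkL_gen]
  split_ifs
  · simp [LinearMap.sum_apply]
  · rfl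

lemma gam_pow_add_two (i : I) (a : ℕ) : gam i ^ (a + 2) = gam i ^ a := by
  rw [pow_add, gam_pow_even i even_two, mul_one]

lemma gam_Uw {i j k : I} (hi : k ≠ i) (hj : k ≠ j) (a b : ℕ) : Commute (gam k) (Uw i j a b) := by
  have h : ((-1 : ℤ) ^ a * (-1) ^ b) * (-1) ^ (a + b) = 1 := by
    rw [← pow_add, ← pow_add, ← two_mul, pow_mul]
    simp
  show gam k * Uw i j a b = Uw i j a b * gam k
  rw [Uw, ← mul_assoc, ← mul_assoc, gam_mul_pow hi, smul_mul_assoc, mul_assoc _ (gam k),
    gam_mul_pow hj, mul_smul_comm, smul_smul, smul_mul_assoc, ← mul_assoc, mul_assoc _ (gam k),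
    gam_mul_pow hi, mul_smul_comm, smul_smul, h, one_smul, ← mul_assoc]

lemma emap_pow {f : I → J} (hf : Function.Injective f) (i : I) (n : ℕ) (e : EA I) :
    emap f ((gam i ^ n) e) = (gam (f i) ^ n) (emap f e) := by
  induction n with
  | zero => rfl
  | succ n ih => rw [pow_succ', pow_succ', Module.End.mul_apply, Module.End.mul_apply,
      emap_gam hf, ih]

lemma emap_Uw {f : I → J} (hf : Function.Injective f) (i j : I) (a b : ℕ) (e : EA I) :
    emap f (Uw i j a b e) = Uw (f i) (f j) a b (emap f e) := by
  simp only [Uw, Module.End.mul_apply, emap_pow hf]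

lemma gen_smul (w : I → List V) (c : ℤ) (e : EA I) : gen w (c • e) = c • gen w e :=
  (genL w).map_smul c e

end SplitAux

open SplitAux

lemma par_Uw (i j : I) (a b : ℕ) :
    Par (Uw i j a b) (Pi.single i (b : ZMod 2) + Pi.single j (b : ZMod 2)) := by
  have h := (((par_gam i).pow a).mul ((par_gam j).pow b)).mul ((par_gam i).pow (a + b))
  have e : a • (Pi.single i 1 : I → ZMod 2) + b • Pi.single j 1 + (a + b) • Pi.single i 1 =
      Pi.single i (b : ZMod 2) + Pi.single j (b : ZMod 2) := by
    have h2 : ∀ x : I → ZMod 2, x + x = 0 := fun x => funext fun k => CharTwo.add_self_eq_zero _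
    have h3 : ∀ k : I, b • (Pi.single k 1 : I → ZMod 2) = Pi.single k (b : ZMod 2) := fun k => by
      rw [← Pi.single_smul', nsmul_one]
    rw [add_smul, add_right_comm, ← add_assoc, h2, zero_add, h3, h3]
  exact e ▸ h
lemma Uw_even (i j : I) {a b : ℕ} (ha : Even a) (hb : Even b) : Uw i j a b = 1 := by
  rw [Uw, gam_pow_even i ha, gam_pow_even j hb, gam_pow_even i (ha.add hb), mul_one, mul_one]
lemma asp_dd {i j : I} (h : i ≠ j) : (asp i j * dd : Module.End ℤ (Ch I V)) = dd * asp i j := by
  refine ch_ext fun w e => ?_
  rw [Module.End.mul_apply, Module.End.mul_apply, dd_gen, map_sum]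
  have hm : ∀ (f : List V → Ch I V) (l : List V), asp i j (dif f l) = dif (fun t => asp i j (f t)) l :=
    fun f l => map_dif (asp i j).toAddMonoidHom f l
  simp only [hm]
  by_cases hj : w j = []
  swap
  · rw [asp_gen, if_neg hj, map_zero]
    refine sum_eq_zero fun k _ => (dif_congr fun t _ => ?_).trans (dif_zero _)
    split_ifs with ht
    · exact map_zero _
    · rw [asp_gen, if_neg]
      by_cases hk : j = k
      · subst hk
        rwa [Function.update_self]
      · rwa [Function.update_of_ne hk]
  rw [asp_gen, if_pos hj, map_sum]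
  simp only [dd_gen]
  rw [sum_comm, sum_two h, sum_two h, hj, dif_nil, zero_add, ← add_assoc]
  congr 1
  · let G : List V → List V → Ch I V := fun s t => if s = [] ∨ t = [] then 0 else
      gen (Function.update (Function.update w i s) j t)
        ((gam i ^ (s.length - 1) * gam j ^ (t.length - 1) * gam i ^ ((w i).length - 1)) e)
    rw [← sum_add_distrib]
    refine Eq.trans (dif_congr fun t ht => ?_)
      ((dif_two G (fun t => if_pos (Or.inl rfl)) (fun s => if_pos (Or.inr rfl)) (w i)).trans ?_)
    · split_ifs with h0
      · simp [h0]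
      · rw [asp_gen, Function.update_of_ne h.symm, if_pos hj, Function.update_self]
        refine sum_congr rfl fun a ha => ?_
        rw [mem_range] at ha
        have e1 : (t.take (a + 1)).length - 1 = a := by rw [List.length_take]; omega
        have e2 : (t.drop a).length - 1 = t.length - 1 - a := by rw [List.length_drop]; omega
        have e3 : (w i).length - 1 = a + (t.length - 1 - a) + 1 := by omega
        have e4 : ¬ (t.take (a + 1) = [] ∨ t.drop a = []) := by
          simp only [List.take_eq_nil_iff, List.drop_eq_nil_iff, not_or]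
          exact ⟨⟨by omega, h0⟩, by omega⟩
        simp only [G, if_neg e4, e1, e2, e3, Function.update_idem, Uw, pow_succ,
          Module.End.mul_apply]
    · refine sum_congr rfl fun a ha => ?_
      rw [mem_range] at ha
      have e0 : a + ((w i).length - 1 - a) = (w i).length - 1 := by omega
      have e1 : ((w i).take (a + 1)).length = a + 1 := by rw [List.length_take]; omega
      have e2 : ((w i).drop a).length = (w i).length - 1 - a + 1 := by
        rw [List.length_drop]; omega
      have n1 : (w i).take (a + 1) ≠ [] := fun k => by rw [k] at e1; simp at e1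
      have n2 : (w i).drop a ≠ [] := fun k => by rw [k] at e2; simp at e2
      rw [Function.update_of_ne h, Function.update_self, Function.update_self, ← dif_smul]
      congr 1
      · refine dif_congr fun s hs => ?_
        by_cases h0 : s = []
        · simp [G, h0]
        · have hl : 0 < s.length := List.length_pos_iff.2 h0
          have e3 : gam i * gam i ^ a = gam i ^ (s.length - 1) := by
            rw [← pow_succ', ← gam_pow_add_two i (s.length - 1)]
            congr 1
            omega
          simp only [G, h0, n2, or_self, if_false]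
          rw [Function.update_comm h.symm, Function.update_idem, e2, Nat.add_sub_cancel, Uw, e0,
            ← Module.End.mul_apply (gam i), ← mul_assoc, ← mul_assoc, e3]
      · refine dif_congr fun t ht => ?_
        by_cases h0 : t = []
        · simp [G, h0]
        · have hl : 0 < t.length := List.length_pos_iff.2 h0
          have e3 : gam j * gam j ^ ((w i).length - 1 - a) = gam j ^ (t.length - 1) := by
            rw [← pow_succ', ← gam_pow_add_two j (t.length - 1)]
            congr 1
            omega
          simp only [G, h0, n1, or_self, if_false]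
          rw [Function.update_idem, e1, Nat.add_sub_cancel, Uw, e0,
            ← Module.End.mul_apply (gam j), ← mul_assoc, ← mul_assoc, gam_mul_pow h.symm,
            smul_mul_assoc, smul_mul_assoc, mul_assoc _ (gam j), e3, LinearMap.smul_apply,
            gen_smul]
  · refine sum_congr rfl fun k hk => ?_
    obtain ⟨hkj, hki⟩ : k ≠ j ∧ k ≠ i := by simpa using hk
    simp only [Function.update_of_ne hkj, Function.update_of_ne hki]
    rw [← dif_sum]
    refine dif_congr fun t _ => ?_
    split_ifs with h0
    · simp
    · rw [asp_gen, Function.update_of_ne hkj.symm, if_pos hj, Function.update_of_ne hki.symm]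
      refine sum_congr rfl fun a _ => ?_
      rw [Function.update_comm hki, Function.update_comm hkj, ← Module.End.mul_apply,
        ← (gam_Uw hki hkj _ _).eq, Module.End.mul_apply]
lemma cmap_asp (m : V → V') (i j : I) (x : Ch I V) :
    cmap m (asp i j x) = asp i j (cmap m x) := by
  induction x using ch_ind with
  | h0 => simp
  | ha x y hx hy => simp [hx, hy]
  | hg w e =>
    rw [cmap_gen, asp_gen, asp_gen]
    simp only [List.map_eq_nil_iff, List.length_map]
    split_ifs
    · rw [map_sum]
      refine sum_congr rfl fun a _ => ?_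
      rw [cmap_gen]
      congr 1
      funext k
      simp only [Function.update_apply]
      split_ifs <;> simp [List.map_take, List.map_drop]
    · exact map_zero _
lemma perm_asp (ρ : Equiv.Perm I) (i j : I) :
    (perm ρ * asp i j : Module.End ℤ (Ch I V)) = asp (ρ i) (ρ j) * perm ρ := by
  refine ch_ext fun w e => ?_
  rw [Module.End.mul_apply, Module.End.mul_apply, perm_gen, asp_gen, asp_gen]
  simp only [Function.comp_apply, Equiv.symm_apply_apply]
  split_ifs
  · rw [map_sum]
    refine sum_congr rfl fun a _ => ?_
    rw [perm_gen, emap_Uw ρ.injective, Function.update_comp_equiv, Function.update_comp_equiv,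
      Equiv.symm_symm]
  · exact map_zero _
lemma asp_comm {i j k l : I} (hij : i ≠ j) (hkl : k ≠ l) (hik : i ≠ k) (hil : i ≠ l)
    (hjk : j ≠ k) (hjl : j ≠ l) : Commute (asp i j : Module.End ℤ (Ch I V)) (asp k l) := by
  refine ch_ext fun w e => ?_
  have hc : ∀ a b c d, Commute (Uw i j a b) (Uw k l c d) := fun a b c d =>
    (((gam_Uw hik hil c d).pow_left a).mul_left ((gam_Uw hjk hjl c d).pow_left b)).mul_left
      ((gam_Uw hik hil c d).pow_left (a + b))
  rw [Module.End.mul_apply, Module.End.mul_apply, asp_gen, asp_gen]
  by_cases h1 : w l = [] <;> by_cases h2 : w j = []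
  · simp only [if_pos h1, if_pos h2, map_sum, asp_gen, Function.update_of_ne hjl,
      Function.update_of_ne hjk, Function.update_of_ne hil, Function.update_of_ne hik,
      Function.update_of_ne hjl.symm, Function.update_of_ne hjk.symm,
      Function.update_of_ne hil.symm, Function.update_of_ne hik.symm]
    rw [sum_comm]
    refine sum_congr rfl fun a _ => sum_congr rfl fun c _ => ?_
    rw [← Module.End.mul_apply, (hc _ _ _ _).eq, Module.End.mul_apply,
      Function.update_comm hil.symm, Function.update_comm hjl.symm, Function.update_comm hik.symm,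
      Function.update_comm hjk.symm]
  · simp only [if_pos h1, if_neg h2, map_sum, asp_gen, Function.update_of_ne hjl,
      Function.update_of_ne hjk, map_zero, sum_const_zero]
  · simp only [if_neg h1, if_pos h2, map_sum, asp_gen, Function.update_of_ne hjl.symm,
      Function.update_of_ne hil.symm, map_zero, sum_const_zero]
  · simp only [if_neg h1, if_neg h2, map_zero]
lemma asp_mem {i j : I} (h : i ≠ j) {k : ℤ} {x : Ch I V} (hx : x ∈ Hg I V k) :
    asp i j x ∈ Hg I V k := by
  refine Hg_map (asp i j) _ (fun w g hk hg => ?_) hx
  rw [asp_gen]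
  split_ifs with hj
  swap
  · exact zero_mem _
  refine sum_mem fun a ha => ?_
  rw [mem_range] at ha
  have e1 : ((w i).take (a + 1)).length - 1 = a := by rw [List.length_take]; omega
  have e2 : ((w i).drop a).length - 1 = (w i).length - 1 - a := by rw [List.length_drop]; omega
  rw [← Module.End.mul_apply]
  refine gen_mem_Hg ?_ ?_
  · rw [← hk, deg, deg, sum_two h, sum_two h, Function.update_of_ne h, Function.update_self,
      Function.update_self, e1, e2, hj]
    have : ∑ k ∈ (univ.erase i).erase j, ((Function.update (Function.update w i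
        ((w i).take (a + 1))) j ((w i).drop a) k).length - 1) =
        ∑ k ∈ (univ.erase i).erase j, ((w k).length - 1) := by
      refine sum_congr rfl fun k hk => ?_
      obtain ⟨hkj, hki⟩ : k ≠ j ∧ k ≠ i := by simpa using hk
      rw [Function.update_of_ne hkj, Function.update_of_ne hki]
    rw [this]
    simp only [List.length_nil]
    omega
  · convert (par_Uw i j a ((w i).length - 1 - a)).mul hg using 1
    funext k
    by_cases hki : k = i
    · subst hki
      have e3 : (w k).length - 1 = a + ((w k).length - 1 - a) := by omega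
      have h2 := CharTwo.add_self_eq_zero (((w k).length - 1 - a : ℕ) : ZMod 2)
      simp only [Function.update_of_ne h, Function.update_self, e1, Pi.add_apply,
        Pi.single_eq_same, Pi.single_eq_of_ne h]
      rw [e3, Nat.add_sub_cancel_left, Nat.cast_add]
      linear_combination (exp := 1) -h2
    · by_cases hkj : k = j
      · subst hkj
        simp only [Function.update_self, e2, hj, Pi.add_apply, Pi.single_eq_of_ne hki,
          Pi.single_eq_same]
        simp
      · simp [Function.update_of_ne hkj, Function.update_of_ne hki, Pi.single_eq_of_ne hki,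
          Pi.single_eq_of_ne hkj]
lemma asp_gen_single {i j : I} (w : I → List V) (v : V) (hi : w i = [v]) (hj : w j = [])
    (e : EA I) : asp i j (gen w e) = gen (Function.update w j [v]) e := by
  have e1 : Function.update w i [v] = w := by rw [← hi, Function.update_eq_self]
  rw [asp_gen, if_pos hj, hi]
  simp [e1, Uw]
lemma pair_asp {i j : I} (h : i ≠ j) (F : I → List V → R) (a b : ℕ)
    (ha : ∀ l, l.length ≠ a + 1 → F i l = 0) (hb : ∀ l, l.length ≠ b + 1 → F j l = 0)
    (τ : EA I →ₗ[ℤ] ℤ) (x : Ch I V) :
    pair F τ (asp i j x) =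
      pair (Function.update (Function.update F i (cup (F i) (F j))) j dnil)
        (τ ∘ₗ Uw i j a b) x := by
  induction x using ch_ind with
  | h0 => simp
  | ha x y hx hy => simp only [map_add, hx, hy]
  | hg w e =>
    have hr : ∏ k ∈ (univ.erase i).erase j, Function.update (Function.update F i
        (cup (F i) (F j))) j dnil k (w k) = ∏ k ∈ (univ.erase i).erase j, F k (w k) := by
      refine prod_congr rfl fun k hk => ?_
      obtain ⟨hkj, hki⟩ : k ≠ j ∧ k ≠ i := by simpa using hk
      rw [Function.update_of_ne hkj, Function.update_of_ne hki]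
    rw [asp_gen, pair_gen, prod_two h, Function.update_of_ne h, Function.update_self,
      Function.update_self, hr, dnil]
    split_ifs with hj
    swap
    · simp
    rw [map_sum, cup, sum_mul, smul_sum]
    refine sum_congr rfl fun c hc => ?_
    rw [mem_range] at hc
    have hr' : ∏ k ∈ (univ.erase i).erase j, F k (Function.update (Function.update w i
        ((w i).take (c + 1))) j ((w i).drop c) k) = ∏ k ∈ (univ.erase i).erase j, F k (w k) := by
      refine prod_congr rfl fun k hk => ?_
      obtain ⟨hkj, hki⟩ : k ≠ j ∧ k ≠ i := by simpa using hk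
      rw [Function.update_of_ne hkj, Function.update_of_ne hki]
    rw [pair_gen, prod_two h, Function.update_of_ne h, Function.update_self,
      Function.update_self, hr', one_mul, mul_assoc]
    by_cases h1 : ((w i).take (c + 1)).length = a + 1
    swap
    · simp [ha _ h1]
    by_cases h2 : ((w i).drop c).length = b + 1
    swap
    · simp [hb _ h2]
    rw [List.length_take] at h1
    rw [List.length_drop] at h2
    obtain rfl : c = a := by omega
    obtain rfl : (w i).length - 1 - c = b := by omega
    rfl

/-- The external product. -/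
noncomputable def extL : Ch I V →ₗ[ℤ] Ch J V →ₗ[ℤ] Ch (I ⊕ J) V :=
  mkL fun w =>
    { toFun := fun e => mkL fun w' => genL (Sum.elim w w') ∘ₗ
        LinearMap.mulLeft ℤ (emap Sum.inl e) ∘ₗ (emap Sum.inr).toLinearMap
      map_add' := fun a b => ch_ext fun w' e' => by
        simp only [mkL_gen, LinearMap.add_apply, LinearMap.comp_apply, LinearMap.mulLeft_apply,
          map_add, add_mul]
      map_smul' := fun c a => ch_ext fun w' e' => by
        simp only [mkL_gen, LinearMap.smul_apply, LinearMap.comp_apply, LinearMap.mulLeft_apply,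
          map_smul, smul_mul_assoc, RingHom.id_apply] }

/-- The external product as a biadditive map. -/
noncomputable def extA : Ch I V →+ Ch J V →+ Ch (I ⊕ J) V :=
  AddMonoidHom.mk' (fun x => (extL x).toAddMonoidHom) fun a b =>
    AddMonoidHom.ext fun y => by simp

lemma extA_apply (x : Ch I V) (y : Ch J V) : extA x y = extL x y := rfl
lemma extL_gen (w : I → List V) (e : EA I) (w' : J → List V) (e' : EA J) :
    extL (gen w e) (gen w' e') = gen (Sum.elim w w') (emap Sum.inl e * emap Sum.inr e') := by
  simp [extL]
lemma dd_extL (x : Ch I V) (y : Ch J V) :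
    dd (extL x y) = extL (dd x) y + extL (cf (invo I) x) (dd y) := by
  induction x using ch_ind with
  | h0 => simp
  | ha x x' hx hx' =>
    simp only [map_add, LinearMap.add_apply, hx, hx']
    abel
  | hg w e =>
    induction y using ch_ind with
    | h0 => simp
    | ha y y' hy hy' =>
      simp only [map_add, hy, hy']
      abel
    | hg w' e' =>
      rw [extL_gen, dd_gen, Fintype.sum_sum_type, dd_gen, dd_gen, cf_gen, map_sum, map_sum,
        LinearMap.sum_apply]
      congr 1
      · refine sum_congr rfl fun i _ => Eq.symm ?_
        refine (map_dif (extL.flip (gen w' e')).toAddMonoidHom _ _).trans ?_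
        refine dif_congr fun t _ => ?_
        split_ifs
        · exact map_zero _
        · rw [gam_inl, Sum.update_elim_inl, ← extL_gen]
          rfl
      · refine sum_congr rfl fun j _ => Eq.symm ?_
        refine (map_dif (extL (gen w (invo I e))).toAddMonoidHom _ _).trans ?_
        refine dif_congr fun t _ => ?_
        split_ifs
        · exact map_zero _
        · rw [gam_inr, Sum.update_elim_inr, ← extL_gen]
          rfl
lemma cmap_extL (m : V → V') (x : Ch I V) (y : Ch J V) :
    cmap m (extL x y) = extL (cmap m x) (cmap m y) := by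
  induction x using ch_ind with
  | h0 => simp
  | ha x x' hx hx' => simp only [map_add, LinearMap.add_apply, hx, hx']
  | hg w e =>
    induction y using ch_ind with
    | h0 => simp
    | ha y y' hy hy' => simp only [map_add, hy, hy']
    | hg w' e' =>
      rw [extL_gen, cmap_gen, cmap_gen, cmap_gen, extL_gen]
      congr 1
      funext k
      cases k <;> rfl
lemma perm_extL (ρ : Equiv.Perm I) (ρ' : Equiv.Perm J) (x : Ch I V) (y : Ch J V) :
    perm (Equiv.sumCongr ρ ρ') (extL x y) = extL (perm ρ x) (perm ρ' y) := by
  induction x using ch_ind with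
  | h0 => simp
  | ha x x' hx hx' => simp only [map_add, LinearMap.add_apply, hx, hx']
  | hg w e =>
    induction y using ch_ind with
    | h0 => simp
    | ha y y' hy hy' => simp only [map_add, hy, hy']
    | hg w' e' =>
      rw [extL_gen, perm_gen, perm_gen, perm_gen, extL_gen, map_mul, emap_emap, emap_emap,
        emap_emap, emap_emap]
      congr 1
      funext k
      cases k <;> rfl
lemma extL_mem {k k' : ℤ} {x : Ch I V} {y : Ch J V} (hx : x ∈ Hg I V k) (hy : y ∈ Hg J V k') :
    extL x y ∈ Hg (I ⊕ J) V (k + k') := by
  refine Hg_map (extL.flip y) _ (fun w g hk hg => ?_) hx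
  refine Hg_map (extL (gen w (g 1))) _ (fun w' g' hk' hg' => ?_) hy
  obtain ⟨g'', h1, h2⟩ := hg.ext hg'
  rw [extL_gen, h2]
  refine gen_mem_Hg ?_ ?_
  · rw [← hk, ← hk', deg, Fintype.sum_sum_type, Nat.cast_add]
    rfl
  · convert h1 using 1
    funext i
    cases i <;> rfl
lemma pair_extL (F : I → List V → R) (F' : J → List V → R) (τ : EA I →ₗ[ℤ] ℤ)
    (τ' : EA J →ₗ[ℤ] ℤ) (τ'' : EA (I ⊕ J) →ₗ[ℤ] ℤ)
    (h : ∀ e e', τ'' (emap Sum.inl e * emap Sum.inr e') = τ e * τ' e') (x : Ch I V) (y : Ch J V) :
    pair (Sum.elim F F') τ'' (extL x y) = pair F τ x * pair F' τ' y := by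
  induction x using ch_ind with
  | h0 => simp
  | ha x x' hx hx' => simp only [map_add, LinearMap.add_apply, hx, hx', add_mul]
  | hg w e =>
    induction y using ch_ind with
    | h0 => simp
    | ha y y' hy hy' => simp only [map_add, hy, hy', mul_add]
    | hg w' e' =>
      rw [extL_gen, pair_gen, pair_gen, pair_gen, h, Fintype.prod_sum_type, smul_mul_smul_comm]
      rfl

/-- The list `l` in slot `i`, all other slots empty. -/
noncomputable def Jf (i : I) (l : List V) : Ch I V :=
  if l = [] then 0 else gen (Function.update (fun _ => []) i l) ((gam i ^ (l.length - 1)) 1)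

lemma Jf_nil (i : I) : Jf i ([] : List V) = 0 := by simp [Jf]
lemma Jf_single (i : I) (v : V) : Jf i [v] = gen (Function.update (fun _ => []) i [v]) 1 := by
  simp [Jf]
lemma dd_Jf (i : I) (l : List V) : dd (Jf i l) = dif (Jf i) l := by
  by_cases hl : l = []
  · simp [hl, Jf_nil]
  rw [Jf, if_neg hl, dd_gen, sum_eq_single i (fun k _ hk => by
    rw [Function.update_of_ne hk, dif_nil]) (fun k => absurd (mem_univ i) k), Function.update_self]
  refine dif_congr fun t ht => ?_
  rw [Jf]
  split_ifs with h0
  · rfl
  · have hl : 0 < t.length := List.length_pos_iff.2 h0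
    have e3 : gam i * gam i ^ (l.length - 1) = gam i ^ (t.length - 1) := by
      rw [← pow_succ', ← gam_pow_add_two i (t.length - 1)]
      congr 1
      omega
    rw [Function.update_idem, ← Module.End.mul_apply, e3]
lemma cmap_Jf (m : V → V') (i : I) (l : List V) : cmap m (Jf i l) = Jf i (l.map m) := by
  simp only [Jf, List.map_eq_nil_iff, List.length_map]
  split_ifs
  · exact map_zero _
  · rw [cmap_gen]
    congr 1
    funext k
    simp only [Function.update_apply]
    split_ifs <;> rfl
lemma Jf_mem (i : I) (l : List V) : Jf i l ∈ Hg I V (l.length - 1) := by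
  rw [Jf]
  split_ifs with hl
  · exact zero_mem _
  have h0 : 0 < l.length := List.length_pos_iff.2 hl
  refine gen_mem_Hg ?_ ?_
  · rw [deg, sum_eq_single i (fun k _ hk => by rw [Function.update_of_ne hk]; rfl)
      (fun k => absurd (mem_univ i) k), Function.update_self]
    omega
  · convert (par_gam i).pow (l.length - 1) using 1
    funext k
    by_cases hk : k = i
    · subst hk
      simp
    · simp [Function.update_of_ne hk, Pi.single_eq_of_ne hk]
lemma pair_Jf (i : I) (F : I → List V → R) (hi : F i [] = 0) (hF : ∀ k, k ≠ i → F k [] = 1)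
    (τ : EA I →ₗ[ℤ] ℤ) (l : List V) :
    pair F τ (Jf i l) = τ ((gam i ^ (l.length - 1)) 1) • F i l := by
  rw [Jf]
  split_ifs with hl
  · simp [hl, hi]
  rw [pair_gen, prod_eq_single i (fun k _ hk => by rw [Function.update_of_ne hk, hF k hk])
    (fun k => absurd (mem_univ i) k), Function.update_self]

end Pool.Agent.Lib.MP_5f3851_al
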