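import Pool.Agent.Lib.MP_5f3851_al.Steen
import Pool.Agent.Lib.MP_5f3851_al.Split

/-! The Cartan formula. -/

set_option linter.unusedSectionVars false

namespace Pool.Agent.Lib.MP_5f3851_al

open Finset Cochain

universe u v

/-- The coefficients of the diagonal of the periodic resolution. -/
noncomputable def cuv {A : Type*} [Ring A] (a b : A) (p u v : ℕ) : A :=
  if Even u then 1 else if Even v then b else ∑ s ∈ range p, ∑ r ∈ range s, a ^ r * b ^ s

namespace CartanAux

variable {A : Type*} [Ring A] {a b : A}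

lemma Q_a (h : Commute a b) (p : ℕ) :
    (∑ s ∈ range p, ∑ r ∈ range s, a ^ r * b ^ s) * (a - 1) =
      ∑ s ∈ range p, (a * b) ^ s - ∑ s ∈ range p, b ^ s := by
  rw [sum_mul, ← sum_sub_distrib]
  refine sum_congr rfl fun s _ => ?_
  have h1 : Commute (b ^ s) (a - 1) := (h.symm.pow_left s).sub_right (Commute.one_right _)
  rw [← sum_mul, mul_assoc, h1.eq, ← mul_assoc, geom_sum_mul, sub_mul, one_mul, h.mul_pow]

lemma Q_b (h : Commute a b) (p : ℕ) :
    (∑ s ∈ range p, ∑ r ∈ range s, a ^ r * b ^ s) * (b - 1) =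
      (∑ s ∈ range p, a ^ s) * b ^ p - (∑ s ∈ range p, (a * b) ^ s) * b := by
  induction p with
  | zero => simp
  | succ p ih =>
    rw [sum_range_succ, add_mul, ih, sum_range_succ, sum_range_succ, ← sum_mul, h.mul_pow,
      pow_succ b]
    noncomm_ring

lemma Q_comm (h : Commute a b) (p : ℕ) :
    Commute (a * b - 1) (∑ s ∈ range p, ∑ r ∈ range s, a ^ r * b ^ s) :=
  Commute.sum_right _ _ _ fun s _ => Commute.sum_right _ _ _ fun r _ =>
    Commute.sub_left (Commute.mul_left (((Commute.refl a).pow_right r).mul_right (h.pow_right s))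
      ((h.symm.pow_right r).mul_right ((Commute.refl b).pow_right s))) (Commute.one_left _)

lemma map_cuv {X Y : Type*} [AddCommGroup X] [AddCommGroup Y] (φ : X →ₗ[ℤ] Y)
    {s t : Module.End ℤ X} {s' t' : Module.End ℤ Y} (hs : ∀ x, φ (s x) = s' (φ x))
    (ht : ∀ x, φ (t x) = t' (φ x)) (p u v : ℕ) (x : X) :
    φ (cuv s t p u v x) = cuv s' t' p u v (φ x) := by
  have hp : ∀ {s : Module.End ℤ X} {s' : Module.End ℤ Y}, (∀ x, φ (s x) = s' (φ x)) →
      ∀ n x, φ ((s ^ n) x) = (s' ^ n) (φ x) := by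
    intro s s' h n
    induction n with
    | zero => intro x; rfl
    | succ n ih => intro x; simp only [pow_succ, Module.End.mul_apply, ih, h]
  unfold cuv
  split_ifs
  · rfl
  · exact ht x
  · simp only [LinearMap.sum_apply, map_sum, Module.End.mul_apply, hp hs, hp ht]

lemma cuv_one {R : Type*} [CommRing R] {p : ℕ} (hp : Odd p) (h0 : (p : R) = 0) (u v : ℕ) (y : R) :
    cuv (1 : Module.End ℤ R) 1 p u v y = if Odd u ∧ Odd v then 0 else y := by
  unfold cuv
  by_cases hu : Even u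
  · rw [if_pos hu, if_neg fun h => Nat.not_even_iff_odd.2 h.1 hu]
    rfl
  by_cases hv : Even v
  · rw [if_neg hu, if_pos hv, if_neg fun h => Nat.not_even_iff_odd.2 h.2 hv]
    rfl
  rw [if_neg hu, if_neg hv, if_pos ⟨Nat.not_even_iff_odd.1 hu, Nat.not_even_iff_odd.1 hv⟩]
  obtain ⟨k, hk⟩ := hp
  have h1 : ∑ s ∈ range p, s = p * k := by
    have h2 := sum_range_id_mul_two p
    rw [show p - 1 = k * 2 by omega, ← mul_assoc] at h2
    exact Nat.eq_of_mul_eq_mul_right two_pos h2
  simp only [one_pow, mul_one, LinearMap.sum_apply, sum_const, card_range, LinearMap.smul_apply,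
    Module.End.one_apply]
  rw [← sum_smul, h1, nsmul_eq_mul, Nat.cast_mul, h0, zero_mul, zero_mul]

end CartanAux

open CartanAux

/-- The diagonal is a chain map. -/
lemma Tq_cuv {A : Type*} [Ring A] {a b : A} (h : Commute a b) {p : ℕ} (ha : a ^ p = 1)
    (hb : b ^ p = 1) (u v : ℕ) :
    Tq (a * b) p (u + v) * cuv a b p u v =
      cuv a b p (u + 1) v * Tq a p u + (-1 : ℤ) ^ u • (cuv a b p u (v + 1) * Tq b p v) := by
  have h1 := Q_a h p
  have h2 := Q_b h p
  rw [hb, mul_one] at h2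
  unfold Tq cuv
  by_cases hu : Even u <;> by_cases hv : Even v <;>
    simp only [Nat.even_add, Nat.even_add_one, hu, hv, not_true, not_false_iff, if_true, if_false,
      iff_true, iff_false, iff_self]
  · rw [hu.neg_one_pow, h.eq]
    noncomm_ring
  · rw [hu.neg_one_pow, h1]
    noncomm_ring
  · rw [(Nat.not_even_iff_odd.1 hu).neg_one_pow, h2]
    noncomm_ring
  · have h3 : Commute b (∑ s ∈ range p, b ^ s) :=
      Commute.sum_right _ _ _ fun s _ => (Commute.refl b).pow_right s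
    rw [(Nat.not_even_iff_odd.1 hu).neg_one_pow, (Q_comm h p).eq, h3.eq,
      show a * b - 1 = (a - 1) * b + (b - 1) by noncomm_ring, mul_add, ← mul_assoc, h1, h2]
    noncomm_ring

section
variable {I : Type} [Fintype I] [DecidableEq I] {V : Type u}

/-- The splitting of all slots. -/
noncomputable def splitAll (x : Ch I V) : Ch (I ⊕ I) V :=
  (((univ : Finset I).toList.map fun i => asp (Sum.inl i : I ⊕ I) (Sum.inr i)).prod :
    Module.End ℤ (Ch (I ⊕ I) V)) (extL x (gen (fun _ => []) 1))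

/-- The diagonal followed by the diagonal of the resolution. -/
noncomputable def Phi2 (ρ : Equiv.Perm I) (p j : ℕ) (l : List V) : Ch (I ⊕ I) V :=
  ∑ uv ∈ antidiagonal j,
    cuv (perm (Equiv.sumCongr ρ 1)) (perm (Equiv.sumCongr 1 ρ)) p uv.1 uv.2
      (cupB extA (fun a => (-1 : ℤ) ^ (uv.2 * (a.length + 1)) • phi ρ p uv.1 a) (phi ρ p uv.2) l)

namespace CartanAux

open ChainAux

/-- The splitting along a list of slots. -/
noncomputable def PL (V : Type u) (L : List I) : Module.End ℤ (Ch (I ⊕ I) V) :=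
  (L.map fun i => asp (Sum.inl i : I ⊕ I) (Sum.inr i)).prod

/-- The chain with all slots empty. -/
noncomputable def emp (I : Type) [Fintype I] [DecidableEq I] (V : Type u) : Ch I V :=
  gen (fun _ => []) 1

/-- The splitting as a linear map. -/
noncomputable def sL : Ch I V →ₗ[ℤ] Ch (I ⊕ I) V :=
  PL V (univ : Finset I).toList ∘ₗ extL.flip (emp I V)

lemma sL_eq (x : Ch I V) : splitAll x = sL x := rfl
lemma sL_apply (x : Ch I V) : sL x = PL V (univ : Finset I).toList (extL x (emp I V)) := rfl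

lemma PL_cons (k : I) (L : List I) (y : Ch (I ⊕ I) V) :
    PL V (k :: L) y = asp (Sum.inl k) (Sum.inr k) (PL V L y) := by
  rw [PL, List.map_cons, List.prod_cons]
  rfl

lemma dd_PL (L : List I) (y : Ch (I ⊕ I) V) : dd (PL V L y) = PL V L (dd y) := by
  induction L with
  | nil => rfl
  | cons k L ih =>
    rw [PL_cons, PL_cons, ← ih]
    exact (LinearMap.congr_fun (asp_dd Sum.inl_ne_inr) _).symm

lemma dd_sL (x : Ch I V) : dd (sL x) = sL (dd x) := by
  have h : dd (emp I V) = 0 := by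
    rw [emp, dd_gen]
    exact sum_eq_zero fun i _ => dif_nil _
  rw [sL_apply, sL_apply, dd_PL, dd_extL, h, map_zero, add_zero]

lemma cmap_sL {V' : Type u} (m : V → V') (x : Ch I V) : cmap m (sL x) = sL (cmap m x) := by
  have h : ∀ (L : List I) y, cmap m (PL V L y) = PL V' L (cmap m y) := by
    intro L y
    induction L with
    | nil => rfl
    | cons k L ih => rw [PL_cons, PL_cons, cmap_asp, ih]
  rw [sL_apply, sL_apply, h, cmap_extL, emp, emp, cmap_gen]
  rfl

lemma sL_mem {k : ℤ} {x : Ch I V} (hx : x ∈ Hg I V k) : sL x ∈ Hg (I ⊕ I) V k := by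
  have h0 : emp I V ∈ Hg I V 0 := by
    refine gen_mem_Hg (g := 1) (by simp [deg]) ?_
    have e : (fun _ : I => ((([] : List V).length - 1 : ℕ) : ZMod 2)) = 0 := by
      funext i
      simp
    exact e ▸ par_one
  have h1 := extL_mem hx h0
  rw [add_zero] at h1
  rw [sL_apply]
  generalize (univ : Finset I).toList = L
  induction L with
  | nil => exact h1
  | cons k L ih =>
    rw [PL_cons]
    exact asp_mem Sum.inl_ne_inr ih

lemma sL_perm (ρ : Equiv.Perm I) (x : Ch I V) :
    sL (perm ρ x) = perm (Equiv.sumCongr ρ ρ) (sL x) := by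
  have h : ∀ (L : List I) y, perm (Equiv.sumCongr ρ ρ) (PL V L y) =
      PL V (L.map ρ) (perm (Equiv.sumCongr ρ ρ) y) := by
    intro L y
    induction L with
    | nil => rfl
    | cons k L ih =>
      rw [List.map_cons, PL_cons, PL_cons, ← ih]
      exact LinearMap.congr_fun (perm_asp (Equiv.sumCongr ρ ρ) (Sum.inl k) (Sum.inr k)) _
  have h2 : PL V (univ : Finset I).toList = PL V ((univ : Finset I).toList.map ρ) := by
    refine List.Perm.prod_eq' ((CliffAux.map_perm ρ).symm.map _) ?_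
    rw [List.pairwise_map]
    exact (nodup_toList (univ : Finset I)).imp fun {i k} hik =>
      asp_comm Sum.inl_ne_inr Sum.inl_ne_inr (fun e => hik (Sum.inl_injective e)) Sum.inl_ne_inr
        Sum.inr_ne_inl (fun e => hik (Sum.inr_injective e))
  have h3 : perm ρ (emp I V) = emp I V := by
    rw [emp, perm_gen, map_one]
    rfl
  rw [sL_apply, sL_apply, h, ← h2, perm_extL, h3]

lemma PL_base (v : V) (L : List I) (hL : L.Nodup) :
    PL V L (gen (Sum.elim (fun _ => [v]) fun _ => []) 1) =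
      gen (Sum.elim (fun _ => [v]) fun i => if i ∈ L then [v] else []) 1 := by
  induction L with
  | nil => simp [PL]
  | cons k L ih =>
    rw [List.nodup_cons] at hL
    rw [PL_cons, ih hL.2, asp_gen_single (i := Sum.inl k) (j := Sum.inr k)
      (Sum.elim (fun _ => [v]) fun i => if i ∈ L then [v] else []) v rfl (if_neg hL.1),
      Sum.update_elim_inr]
    congr 2
    funext i
    by_cases hi : i = k
    · subst hi
      simp
    · simp [hi]

lemma pair_PL {R : Type*} [CommRing R] {m n : ℕ} {f g : List V → R}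
    (hf : ∀ l, l.length ≠ m + 1 → f l = 0) (hg : ∀ l, l.length ≠ n + 1 → g l = 0) (L : List I)
    (hL : L.Nodup) (F F' : I → List V → R) (hF : ∀ i ∈ L, F i = f ∧ F' i = g)
    (τ : EA (I ⊕ I) →ₗ[ℤ] ℤ) (y : Ch (I ⊕ I) V) :
    pair (Sum.elim F F') τ (PL V L y) =
      pair (Sum.elim (fun i => if i ∈ L then cup f g else F i)
        fun i => if i ∈ L then dnil else F' i)
        (τ ∘ₗ (L.map fun i => Uw (Sum.inl i : I ⊕ I) (Sum.inr i) m n).prod) y := by
  induction L generalizing F F' τ with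
  | nil => simp [PL, Module.End.one_eq_id]
  | cons k L ih =>
    rw [List.nodup_cons] at hL
    obtain ⟨h1, h2⟩ := hF k List.mem_cons_self
    rw [PL_cons, pair_asp Sum.inl_ne_inr _ m n (by rw [Sum.elim_inl, h1]; exact hf)
      (by rw [Sum.elim_inr, h2]; exact hg), Sum.elim_inl, Sum.elim_inr, h1, h2,
      Sum.update_elim_inl, Sum.update_elim_inr, ih hL.2 _ _ (fun i hi => by
        have h3 : i ≠ k := fun e => hL.1 (e ▸ hi)
        rw [Function.update_of_ne h3, Function.update_of_ne h3]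
        exact hF i (List.mem_cons_of_mem _ hi)), List.map_cons, List.prod_cons]
    have e1 : (fun i => if i ∈ L then cup f g else Function.update F k (cup f g) i) =
        fun i => if i ∈ k :: L then cup f g else F i := by
      funext i
      by_cases hi : i = k <;> simp [hi]
    have e2 : (fun i => if i ∈ L then dnil else Function.update F' k dnil i) =
        fun i => if i ∈ k :: L then dnil else F' i := by
      funext i
      by_cases hi : i = k <;> simp [hi]
    rw [e1, e2]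
    rfl

/-- One term of the diagonal. -/
noncomputable def ct (ρ : Equiv.Perm I) (p u v : ℕ) (l : List V) : Ch (I ⊕ I) V :=
  cupB extA (fun a => (-1 : ℤ) ^ (v * (a.length + 1)) • phi ρ p u a) (phi ρ p v) l

lemma Phi2_eq (ρ : Equiv.Perm I) (p j : ℕ) (l : List V) : Phi2 ρ p j l = ∑ uv ∈ antidiagonal j,
    cuv (perm (Equiv.sumCongr ρ 1)) (perm (Equiv.sumCongr 1 ρ)) p uv.1 uv.2
      (ct ρ p uv.1 uv.2 l) := rfl

lemma Tq_left (ρ : Equiv.Perm I) (p j : ℕ) (x y : Ch I V) :
    extL (Tq (perm ρ) p j x) y = Tq (perm (Equiv.sumCongr ρ 1)) p j (extL x y) := by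
  have h := map_Tq (extL.flip y) (s := perm ρ) (s' := perm (Equiv.sumCongr ρ 1)) (fun x => by
    rw [LinearMap.flip_apply, LinearMap.flip_apply, perm_extL, perm_one, Module.End.one_apply])
    p j x
  rwa [LinearMap.flip_apply, LinearMap.flip_apply] at h

lemma Tq_right (ρ : Equiv.Perm I) (p j : ℕ) (x y : Ch I V) :
    extL x (Tq (perm ρ) p j y) = Tq (perm (Equiv.sumCongr 1 ρ)) p j (extL x y) :=
  map_Tq (extL x) (s := perm ρ) (s' := perm (Equiv.sumCongr 1 ρ)) (fun y => by
    rw [perm_extL, perm_one]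
    rfl) p j y

lemma invo_phi {ρ : Equiv.Perm I} {p : ℕ} (hρ : ρ ^ p = 1) (u : ℕ) (a : List V) :
    cf (invo I) (phi ρ p u a) = ((-1 : ℤ) ^ u * (-1) ^ (a.length + 1)) • phi ρ p u a := by
  cases a with
  | nil => rw [phi_nil, map_zero, smul_zero]
  | cons v a =>
    have h := phi_mem hρ u (v :: a)
    rw [show ((u : ℤ) + ((v :: a).length : ℕ) - 1) = ((u + a.length : ℕ) : ℤ) by
      rw [List.length_cons]
      push_cast
      ring] at h
    rw [Hg_invo h, List.length_cons, pow_add, pow_succ, pow_succ]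
    simp

lemma dd_ct {ρ : Equiv.Perm I} {p : ℕ} (hρ : ρ ^ p = 1) (u v : ℕ) (l : List V) :
    dd (ct ρ p u v l) = Tp (Tq (perm (Equiv.sumCongr ρ 1)) p) (fun u => ct ρ p u v l) u +
      (-1 : ℤ) ^ u • Tp (Tq (perm (Equiv.sumCongr 1 ρ)) p) (fun v => ct ρ p u v l) v +
      (-1 : ℤ) ^ (u + v) • dif (ct ρ p u v) l := by
  have hsq : ∀ k : ℕ, (-1 : ℤ) ^ k * (-1) ^ k = 1 := fun k => by
    rw [← mul_pow]
    simp
  have h1 : Tp (Tq (perm (Equiv.sumCongr ρ 1)) p) (fun u => ct ρ p u v l) u =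
      cupB extA (fun a => (-1 : ℤ) ^ (v * (a.length + 1)) •
        Tp (Tq (perm ρ) p) (fun j => phi ρ p j a) u) (phi ρ p v) l := by
    cases u with
    | zero => simp [Tp, cupB]
    | succ u =>
      simp only [Tp, ct, cupB, extA_apply, map_sum, map_smul, LinearMap.smul_apply, Tq_left]
  have h2 : Tp (Tq (perm (Equiv.sumCongr 1 ρ)) p) (fun v => ct ρ p u v l) v =
      cupB extA (sgn fun a => (-1 : ℤ) ^ (v * (a.length + 1)) • phi ρ p u a)
        (fun b => Tp (Tq (perm ρ) p) (fun j => phi ρ p j b) v) l := by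
    cases v with
    | zero => simp [Tp, cupB]
    | succ v =>
      simp only [Tp, ct, cupB, sgn, extA_apply, map_sum, map_smul, LinearMap.smul_apply, Tq_right,
        smul_smul]
      refine sum_congr rfl fun i _ => ?_
      rw [add_mul v, one_mul, pow_add (-1 : ℤ) (v * _), mul_left_comm, hsq, mul_one]
  have h3 : ∀ a : List V, dif (fun a => (-1 : ℤ) ^ (v * (a.length + 1)) • phi ρ p u a) a =
      ((-1 : ℤ) ^ v * (-1) ^ (v * (a.length + 1))) • dif (phi ρ p u) a := fun a => by
    rw [← SplitAux.dif_smul]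
    refine SplitAux.dif_congr fun t ht => ?_
    rw [← ht, mul_add v (t.length + 1), mul_one, pow_add (-1 : ℤ) (v * _), mul_left_comm, hsq,
      mul_one]
  have h4 := dif_cupB extA (fun a : List V => (-1 : ℤ) ^ (v * (a.length + 1)) • phi ρ p u a)
    (phi ρ p v) (by rw [phi_nil, smul_zero]) (phi_nil _ _ _) l
  rw [h1, h2, show dif (ct ρ p u v) l = dif (cupB extA (fun a : List V =>
    (-1 : ℤ) ^ (v * (a.length + 1)) • phi ρ p u a) (phi ρ p v)) l from rfl, h4]
  simp only [ct, cupB, map_sum, smul_add, smul_sum, ← sum_add_distrib]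
  refine sum_congr rfl fun i _ => ?_
  simp only [extA_apply, dd_extL, sgn, h3, map_smul, invo_phi hρ, phi_eq hρ u, phi_eq hρ v,
    map_add, LinearMap.add_apply, LinearMap.smul_apply, smul_add, smul_smul, pow_add (-1 : ℤ) u v]
  rw [mul_assoc _ ((-1 : ℤ) ^ v) ((-1) ^ v * _), ← mul_assoc ((-1 : ℤ) ^ v) ((-1) ^ v), hsq, one_mul]
  generalize (-1 : ℤ) ^ (v * ((List.take (i + 1) l).length + 1)) = s1
  generalize (-1 : ℤ) ^ ((List.take (i + 1) l).length + 1) = s2
  generalize (-1 : ℤ) ^ u = s3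
  generalize (-1 : ℤ) ^ v = s4
  module

lemma AB_eq (ρ : Equiv.Perm I) : (perm (Equiv.sumCongr ρ ρ) : Module.End ℤ (Ch (I ⊕ I) V)) =
    perm (Equiv.sumCongr ρ 1) * perm (Equiv.sumCongr 1 ρ) := by
  rw [← perm_mul, Equiv.Perm.sumCongr_mul, mul_one, one_mul]

lemma AB_comm (ρ : Equiv.Perm I) :
    Commute (perm (Equiv.sumCongr ρ 1) : Module.End ℤ (Ch (I ⊕ I) V))
      (perm (Equiv.sumCongr 1 ρ)) := by
  rw [Commute, SemiconjBy, ← perm_mul, ← perm_mul, Equiv.Perm.sumCongr_mul,
    Equiv.Perm.sumCongr_mul, mul_one, one_mul]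

lemma sc_pow {ρ ρ' : Equiv.Perm I} {p : ℕ} (hρ : ρ ^ p = 1) (hρ' : ρ' ^ p = 1) :
    (Equiv.sumCongr ρ ρ' : Equiv.Perm (I ⊕ I)) ^ p = 1 := by
  have := map_pow (Equiv.Perm.sumCongrHom I I) (ρ, ρ') p
  rw [Prod.pow_mk, hρ, hρ'] at this
  exact this.symm.trans (map_one (Equiv.Perm.sumCongrHom I I))

lemma Phi2_nil (ρ : Equiv.Perm I) (p j : ℕ) : Phi2 ρ p j ([] : List V) = 0 := by
  simp [Phi2]

lemma Phi2_single (ρ : Equiv.Perm I) (p : ℕ) (v : V) : Phi2 ρ p 0 [v] = base v := by
  simp only [Phi2, Nat.antidiagonal_zero, sum_singleton, cuv, Even.zero, if_true, cupB_cons,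
    cupB_nil, phi_zero_single, zero_mul, pow_zero, one_smul, add_zero, extA_apply,
    Module.End.one_apply, base, extL_gen, map_one, mul_one]
  congr 1
  funext k
  cases k <;> rfl

lemma Phi2_cmap (ρ : Equiv.Perm I) (p j : ℕ) {V' : Type u} (m : V → V') (l : List V) :
    cmap m (Phi2 ρ p j l) = Phi2 ρ p j (l.map m) := by
  rw [Phi2_eq, Phi2_eq, map_sum]
  refine sum_congr rfl fun uv _ => ?_
  rw [map_cuv (cmap m) (cmap_perm m _) (cmap_perm m _)]
  simp only [ct, cupB, map_sum, extA_apply, cmap_extL, map_smul, phi_cmap, List.length_map,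
    ← List.map_take, ← List.map_drop, LinearMap.smul_apply]

lemma Phi2_mem {ρ : Equiv.Perm I} {p : ℕ} (hρ : ρ ^ p = 1) (j : ℕ) (l : List V) :
    Phi2 ρ p j l ∈ Hg (I ⊕ I) V (j + l.length - 1) := by
  refine sum_mem fun uv huv => ?_
  have h1 : ct ρ p uv.1 uv.2 l ∈ Hg (I ⊕ I) V (j + l.length - 1) := by
    rw [ct, cupB]
    refine sum_mem fun i hi => ?_
    have h2 := extL_mem (zsmul_mem (phi_mem hρ uv.1 (l.take (i + 1)))
      ((-1 : ℤ) ^ (uv.2 * ((l.take (i + 1)).length + 1)))) (phi_mem hρ uv.2 (l.drop i))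
    rw [mem_range] at hi
    rw [HasAntidiagonal.mem_antidiagonal] at huv
    rw [extA_apply]
    convert h2 using 2
    rw [List.length_take, List.length_drop]
    omega
  have hp : ∀ (σ : Equiv.Perm (I ⊕ I)) (n : ℕ) {x : Ch (I ⊕ I) V},
      x ∈ Hg (I ⊕ I) V (j + l.length - 1) → (perm σ ^ n) x ∈ Hg (I ⊕ I) V (j + l.length - 1) := by
    intro σ n x hx
    rw [← perm_pow]
    exact perm_mem _ hx
  unfold cuv
  split_ifs
  · exact h1
  · exact perm_mem _ h1
  · simp only [LinearMap.sum_apply, Module.End.mul_apply]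
    exact sum_mem fun s _ => sum_mem fun r _ => hp _ _ (hp _ _ h1)

end CartanAux

lemma splitAll_chainEq {ρ : Equiv.Perm I} {p : ℕ} (hρ : ρ ^ p = 1) :
    ChainEq (Equiv.sumCongr ρ ρ) p fun j (l : List V) => splitAll (phi ρ p j l) := by
  intro j l
  simp only [sL_eq]
  rw [dd_sL, phi_eq hρ j l, map_add, map_smul, ChainAux.lin_dif]
  congr 1
  cases j with
  | zero => exact map_zero _
  | succ j => exact ChainAux.map_Tq sL (sL_perm ρ) p j _
lemma Phi2_chainEq {ρ : Equiv.Perm I} {p : ℕ} (hρ : ρ ^ p = 1) :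
    ChainEq (Equiv.sumCongr ρ ρ) p (Phi2 ρ p : ℕ → List V → Ch (I ⊕ I) V) := by
  intro j l
  have hd : ∀ σ (x : Ch (I ⊕ I) V), dd (perm σ x) = perm σ (dd x) := fun σ x =>
    (LinearMap.congr_fun (perm_dd σ) x).symm
  have h1 : (-1 : ℤ) ^ j • dif (Phi2 ρ p j) l = ∑ uv ∈ antidiagonal j,
      cuv (perm (Equiv.sumCongr ρ 1)) (perm (Equiv.sumCongr 1 ρ)) p uv.1 uv.2
        ((-1 : ℤ) ^ (uv.1 + uv.2) • dif (ct ρ p uv.1 uv.2) l) := by
    rw [show Phi2 ρ p j = _ from funext (Phi2_eq ρ p j), SplitAux.dif_sum, smul_sum]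
    refine sum_congr rfl fun uv huv => ?_
    rw [HasAntidiagonal.mem_antidiagonal.1 huv, map_smul, ChainAux.lin_dif]
  rw [h1, Phi2_eq, map_sum]
  simp only [map_cuv dd (hd _) (hd _), dd_ct hρ, map_add, sum_add_distrib]
  congr 1
  cases j with
  | zero => simp [Tp]
  | succ j =>
    rw [Nat.sum_antidiagonal_succ, Nat.sum_antidiagonal_succ' (f := fun uv : ℕ × ℕ =>
      cuv (perm (Equiv.sumCongr ρ 1)) (perm (Equiv.sumCongr 1 ρ)) p uv.1 uv.2 ((-1 : ℤ) ^ uv.1 •
        Tp (Tq (perm (Equiv.sumCongr 1 ρ)) p) (fun v => ct ρ p uv.1 v l) uv.2))]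
    simp only [Tp, map_zero, smul_zero, zero_add, Phi2_eq, map_sum, ← sum_add_distrib]
    refine sum_congr rfl fun uv huv => ?_
    have h2 := LinearMap.congr_fun (Tq_cuv (AB_comm (V := V) ρ)
      (by rw [← perm_pow, sc_pow hρ (one_pow p), perm_one])
      (by rw [← perm_pow, sc_pow (one_pow p) hρ, perm_one]) uv.1 uv.2) (ct ρ p uv.1 uv.2 l)
    rw [HasAntidiagonal.mem_antidiagonal.1 huv, ← AB_eq] at h2
    rw [map_smul]
    exact h2.symm
lemma splitAll_base (v : V) : splitAll (base v : Ch I V) = base v := by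
  rw [sL_eq, sL_apply, base, emp, extL_gen, map_one, map_one, mul_one,
    PL_base v _ (nodup_toList _), base]
  congr 1
  funext k
  cases k <;> simp
/-- Pairing with the splitting of all slots. -/
lemma pair_splitAll (m n : ℕ) : ∃ ε : ℤ, (ε = 1 ∨ ε = -1) ∧
    ∀ {V : Type u} {R : Type u} [CommRing R] (f g : List V → R),
      (∀ l, l.length ≠ m + 1 → f l = 0) → (∀ l, l.length ≠ n + 1 → g l = 0) → ∀ x : Ch I V,
      pair (Sum.elim (fun _ => f) fun _ => g) (tau2 I m n) (splitAll x) =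
        ε • pair (fun _ => cup f g) (tau I (m + n)) x := by
  have hpar := Par.list_prod (univ : Finset I).toList
    (fun i => Uw (Sum.inl i : I ⊕ I) (Sum.inr i) m n) _ fun i _ => par_Uw _ _ m n
  have e : (((univ : Finset I).toList.map fun i => (Pi.single (Sum.inl i) (n : ZMod 2) +
      Pi.single (Sum.inr i) (n : ZMod 2) : I ⊕ I → ZMod 2)).sum) =
      Sum.elim (fun _ => (n : ZMod 2)) fun _ => (n : ZMod 2) := by
    rw [sum_map_toList]
    funext k
    cases k <;> simp [Finset.sum_apply, Pi.single_apply]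
  rw [e] at hpar
  obtain ⟨ε, hε, h⟩ := tau2_par m n hpar
  refine ⟨ε, hε, fun {V R} _ f g hf hg x => ?_⟩
  rw [sL_eq, sL_apply, pair_PL hf hg _ (nodup_toList _) _ _ fun _ _ => ⟨rfl, rfl⟩]
  induction x using ChainAux.ch_ind with
  | h0 => simp
  | ha x y a b => simp only [map_add, LinearMap.add_apply, a, b, smul_add]
  | hg w e =>
    rw [emp, extL_gen, map_one, mul_one, pair_gen, pair_gen, LinearMap.comp_apply, h,
      Fintype.prod_sum_type, smul_smul]
    simp [dnil]

end

/-- The signs in the Cartan formula. -/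
def cc (p m u v : ℕ) : ℤ := if Odd u ∧ Odd v then 0 else (-1) ^ (v * (m * p - u))

variable {S : Site.{u, v}} (p : ℕ) [Fact p.Prime] [Fact (5 ≤ p)] [CharS S p]

theorem cartan (m n : ℕ) : ∃ ε : ℤ, (ε = 1 ∨ ε = -1) ∧ ∀ j, ∀ x ∈ Hn S m, ∀ y ∈ Hn S n,
    St p (m + n) j (x * y) =
      ε • ∑ uv ∈ antidiagonal j, cc p m uv.1 uv.2 • (St p m uv.1 x * St p n uv.2 y) := by
  obtain ⟨ε, hε, hs⟩ := pair_splitAll.{u} (I := ZMod p) m n
  refine ⟨ε, hε, ?_⟩
  rintro j _ ⟨f, hf, hf', rfl⟩ _ ⟨g, hg, hg', rfl⟩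
  have hρ := rot_pow p
  let X : ℕ → NatFam.{u} (ZMod p ⊕ ZMod p) := fun j =>
    ⟨fun _ l => splitAll (phi (rot p) p j l), fun _ _ m l => by
      rw [sL_eq, sL_eq, cmap_sL, phi_cmap]⟩
  let Y : ℕ → NatFam.{u} (ZMod p ⊕ ZMod p) := fun j =>
    ⟨fun _ l => Phi2 (rot p) p j l, fun _ _ m l => Phi2_cmap _ _ _ m l⟩
  let F : ZMod p ⊕ ZMod p → Cochain S := Sum.elim (fun _ => f) fun _ => g
  have hF : ∀ i, (fun k => (F k).val i) = Sum.elim (fun _ => f.val i) fun _ => g.val i :=
    fun i => funext fun k => by cases k <;> rfl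
  have hinv : ∀ (σ σ' : Equiv.Perm (ZMod p)) i,
      (Sum.elim (fun _ => f.val i) fun _ => g.val i) ∘ Equiv.sumCongr σ σ' =
        Sum.elim (fun _ => f.val i) fun _ => g.val i :=
    fun σ σ' i => funext fun k => by cases k <;> rfl
  have key := cls_pairC_eq (sc_pow hρ hρ) X Y
    (fun j V => by
      show splitAll _ = 0
      rw [phi_nil, sL_eq, map_zero]) (fun j V => Phi2_nil _ _ _)
    (fun j V l => sL_mem (phi_mem hρ j l)) (fun j V l => Phi2_mem hρ j l)
    (fun V => splitAll_chainEq hρ) (fun V => Phi2_chainEq hρ)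
    (fun V v => by
      show splitAll _ = Phi2 _ _ _ _
      rw [phi_zero_single, splitAll_base, Phi2_single])
    F (fun k => by cases k <;> assumption) (tau2 (ZMod p) m n)
    (fun i j x => by
      rw [hF]
      exact pair_Tq _ _ _ p (CharS.out i) (hinv _ _ i) (tau2_emap (odd_p p) hρ hρ m n) j x)
    j ((m + n) * p - j)
  have hX : pairC F (tau2 (ZMod p) m n) (X j) ((m + n) * p - j) = ε • Dop p (m + n) j (f * g) := by
    ext i l
    rw [zsmul_val, Dop, pairC_val, pairC_val, hF]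
    split_ifs
    · exact hs (f.val i) (g.val i) (hf' i) (hg' i) _
    · rw [smul_zero]
  have hY : pairC F (tau2 (ZMod p) m n) (Y j) ((m + n) * p - j) =
      ∑ uv ∈ antidiagonal j, cc p m uv.1 uv.2 • (Dop p m uv.1 f * Dop p n uv.2 g) := by
    ext i l
    have h1 : (pairC F (tau2 (ZMod p) m n) (Y j) ((m + n) * p - j)).val i l =
        pair (Sum.elim (fun _ => f.val i) fun _ => g.val i) (tau2 (ZMod p) m n)
          (Phi2 (rot p) p j l) := by
      rw [pairC_val, hF]
      split_ifs with hl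
      · rfl
      cases l with
      | nil => rw [Phi2_nil, map_zero]
      | cons v l =>
        refine (pair_Hg _ (Sum.elim (fun _ => m) fun _ => n) (fun k => ?_) _ ?_
          (Phi2_mem hρ j (v :: l))).symm
        · cases k
          · exact hf' i
          · exact hg' i
        · rw [Fintype.sum_sum_type]
          simp only [Sum.elim_inl, Sum.elim_inr, sum_const, card_univ, ZMod.card, smul_eq_mul]
          rw [← mul_add, mul_comm]
          rw [List.length_cons] at hl ⊢
          omega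
    have h2 : ∀ (σ σ' : Equiv.Perm (ZMod p)), σ ^ p = 1 → σ' ^ p = 1 → ∀ y,
        pair (Sum.elim (fun _ => f.val i) fun _ => g.val i) (tau2 (ZMod p) m n)
          (perm (Equiv.sumCongr σ σ') y) = (1 : Module.End ℤ (S.R i))
        (pair (Sum.elim (fun _ => f.val i) fun _ => g.val i) (tau2 (ZMod p) m n) y) := by
      intro σ σ' h h' y
      rw [pair_perm, hinv, show tau2 (ZMod p) m n ∘ₗ (emap (Equiv.sumCongr σ σ')).toLinearMap =
        tau2 (ZMod p) m n from LinearMap.ext (tau2_emap (odd_p p) h h' m n)]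
      rfl
    rw [h1, sum_val, Phi2_eq, map_sum]
    refine sum_congr rfl fun uv _ => ?_
    rw [map_cuv _ (h2 _ _ hρ (one_pow p)) (h2 _ _ (one_pow p) hρ),
      cuv_one (odd_p p) (CharS.out i), zsmul_val, cc]
    split_ifs
    · rw [zero_smul]
    rw [mul_val, cup, ct, cupB, map_sum, smul_sum]
    refine sum_congr rfl fun a _ => ?_
    rw [extA_apply, pair_extL _ _ _ _ _ (tau2_ext m n), map_smul, ← Dop_val p _ hf',
      ← Dop_val p _ hg', smul_mul_assoc]
    by_cases h3 : (l.take (a + 1)).length = m * p - uv.1 + 1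
    · rw [h3, add_assoc, mul_add uv.2, pow_add, mul_comm uv.2 (1 + 1), pow_mul]
      simp
    · rw [Dop_hom p m uv.1 f i _ h3, zero_mul, smul_zero, smul_zero]
  have hd : ∀ u v, d (Dop p m u f * Dop p n v g) = 0 := fun u v =>
    d_mul_eq_zero (d_Dop p m u hf) (d_Dop p n v hg)
  rw [hX, hY, cls_zsmul (d_Dop p _ _ (d_mul_eq_zero hf hg)),
    cls_sum _ _ fun uv _ => by rw [d_zsmul, hd, smul_zero]] at key
  simp only [cls_zsmul (hd _ _), cls_mul (d_Dop p _ _ hf) (d_Dop p _ _ hg)] at key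
  simp only [St_cls p _ hf hf', St_cls p _ hg hg']
  rw [← cls_mul hf hg, St_cls p j (d_mul_eq_zero hf hg) (hf'.mul hg'), ← key, smul_smul]
  rcases hε with rfl | rfl <;> simp

end Pool.Agent.Lib.MP_5f3851_al
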