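import Mathlib

/-! Clifford operators on the exterior algebra; they carry all Koszul signs. -/

set_option linter.unusedSectionVars false

namespace Pool.Agent.Lib.MP_5f3851_al

open Finset

/-- The exterior algebra on the free abelian group with basis `I`. -/
abbrev EA (I : Type) := ExteriorAlgebra ℤ (I → ℤ)

variable {I J K : Type} [Fintype I] [DecidableEq I] [Fintype J] [DecidableEq J]
  [Fintype K] [DecidableEq K]

/-- Exterior multiplication by `e_i` plus contraction with the dual vector. -/
noncomputable def gam (i : I) : Module.End ℤ (EA I) :=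
  LinearMap.mulLeft ℤ (ExteriorAlgebra.ι ℤ (Pi.single i 1 : I → ℤ)) +
    CliffordAlgebra.contractLeft (Q := (0 : QuadraticForm ℤ (I → ℤ))) (LinearMap.proj i)

/-- The algebra map induced by a map of index sets. -/
noncomputable def emap (f : I → J) : EA I →ₐ[ℤ] EA J :=
  ExteriorAlgebra.map (Fintype.linearCombination ℤ fun i => (Pi.single (f i) 1 : J → ℤ))

/-- The parity involution. -/
noncomputable def invo (I : Type) : Module.End ℤ (EA I) :=
  (CliffordAlgebra.involute (Q := (0 : QuadraticForm ℤ (I → ℤ)))).toLinearMap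

/-- The coefficient of `1`. -/
noncomputable def tau0 (I : Type) : EA I →ₗ[ℤ] ℤ :=
  (ExteriorAlgebra.algebraMapInv (R := ℤ) (M := I → ℤ)).toLinearMap

namespace CliffAux

/-- Contraction with a linear form. -/
noncomputable abbrev ct (d : (I → ℤ) →ₗ[ℤ] ℤ) : EA I →ₗ[ℤ] EA I :=
  CliffordAlgebra.contractLeft (Q := (0 : QuadraticForm ℤ (I → ℤ))) d

/-- The generators. -/
noncomputable abbrev io (m : I → ℤ) : EA I := ExteriorAlgebra.ι ℤ m

/-- The linear map induced by a map of index sets. -/
noncomputable abbrev lc (f : I → J) : (I → ℤ) →ₗ[ℤ] (J → ℤ) :=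
  Fintype.linearCombination ℤ fun i => (Pi.single (f i) 1 : J → ℤ)

lemma gam_apply (i : I) (x : EA I) :
    gam i x = io (Pi.single i 1) * x + ct (LinearMap.proj i) x := rfl

lemma ct_io_mul (d : (I → ℤ) →ₗ[ℤ] ℤ) (m : I → ℤ) (x : EA I) :
    ct d (io m * x) = d m • x - io m * ct d x :=
  CliffordAlgebra.contractLeft_ι_mul d m x

lemma ct_alg (d : (I → ℤ) →ₗ[ℤ] ℤ) (r : ℤ) : ct d (algebraMap ℤ (EA I) r) = 0 :=
  CliffordAlgebra.contractLeft_algebraMap _ d r

lemma ct_ct (d : (I → ℤ) →ₗ[ℤ] ℤ) (x : EA I) : ct d (ct d x) = 0 :=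
  CliffordAlgebra.contractLeft_contractLeft d x

lemma ct_comm (d d' : (I → ℤ) →ₗ[ℤ] ℤ) (x : EA I) : ct d (ct d' x) = - ct d' (ct d x) :=
  CliffordAlgebra.contractLeft_comm d d' x

lemma io_anti (m m' : I → ℤ) : io m * io m' = - (io m' * io m) :=
  eq_neg_of_add_eq_zero_left (ExteriorAlgebra.ι_add_mul_swap m m')

lemma ind {P : EA I → Prop} (h1 : ∀ r : ℤ, P (algebraMap _ _ r))
    (h2 : ∀ x y, P x → P y → P (x + y)) (h3 : ∀ x m, P x → P (io m * x)) (x : EA I) : P x :=
  CliffordAlgebra.left_induction (0 : QuadraticForm ℤ (I → ℤ)) (P := P) h1 h2 h3 x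

lemma invo_mul' (a b : EA I) : invo I (a * b) = invo I a * invo I b :=
  map_mul (CliffordAlgebra.involute (Q := (0 : QuadraticForm ℤ (I → ℤ)))) a b

lemma invo_io (m : I → ℤ) : invo I (io m) = - io m := CliffordAlgebra.involute_ι m

lemma invo_alg (r : ℤ) : invo I (algebraMap ℤ (EA I) r) = algebraMap ℤ (EA I) r :=
  (CliffordAlgebra.involute (Q := (0 : QuadraticForm ℤ (I → ℤ)))).commutes r

lemma invo_ct (d : (I → ℤ) →ₗ[ℤ] ℤ) (x : EA I) : invo I (ct d x) = - ct d (invo I x) := by
  induction x using ind with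
  | h1 r => rw [invo_alg, ct_alg, map_zero, neg_zero]
  | h2 x y hx hy => rw [map_add, map_add, map_add, map_add, hx, hy, neg_add]
  | h3 x m hx =>
    rw [ct_io_mul, map_sub, map_smul, invo_mul', invo_mul', invo_io, hx, neg_mul, neg_mul, map_neg,
      ct_io_mul, mul_neg, neg_neg, neg_neg]

lemma ct_mul (d : (I → ℤ) →ₗ[ℤ] ℤ) (a b : EA I) :
    ct d (a * b) = ct d a * b + invo I a * ct d b := by
  induction a using ind with
  | h1 r =>
    rw [invo_alg, ct_alg, zero_mul, zero_add, ← Algebra.smul_def, ← Algebra.smul_def, map_smul]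
  | h2 x y hx hy => rw [add_mul, map_add, map_add, map_add, hx, hy, add_mul, add_mul]; abel
  | h3 x m hx =>
    rw [mul_assoc, ct_io_mul, ct_io_mul, hx, invo_mul', invo_io, sub_mul, smul_mul_assoc, mul_add,
      neg_mul, neg_mul, mul_assoc, mul_assoc]
    abel

lemma io_mul_comm (m : I → ℤ) (a : EA I) : io m * a = invo I a * io m := by
  induction a using ind with
  | h1 r => rw [invo_alg, Algebra.commutes]
  | h2 x y hx hy => rw [mul_add, map_add, add_mul, hx, hy]
  | h3 x m' hx =>
    rw [← mul_assoc, io_anti, invo_mul', invo_io, neg_mul, neg_mul, neg_mul, mul_assoc, mul_assoc,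
      hx]

lemma emap_io (f : I → J) (m : I → ℤ) : emap f (io m) = io (lc f m) :=
  ExteriorAlgebra.map_apply_ι _ m

lemma lc_single (f : I → J) (i : I) : lc f (Pi.single i 1) = Pi.single (f i) 1 := by
  simp [lc, Fintype.linearCombination_apply_single]

lemma lc_apply (f : I → J) (m : I → ℤ) (j : J) : lc f m j = ∑ i, if f i = j then m i else 0 := by
  simp only [lc, Fintype.linearCombination_apply, Finset.sum_apply, Pi.smul_apply, Pi.single_apply,
    smul_eq_mul, mul_ite, mul_one, mul_zero, eq_comm]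

lemma emap_ct (f : I → J) (d : (J → ℤ) →ₗ[ℤ] ℤ) (x : EA I) :
    ct d (emap f x) = emap f (ct (d ∘ₗ lc f) x) := by
  induction x using ind with
  | h1 r => rw [AlgHom.commutes, ct_alg, ct_alg, map_zero]
  | h2 x y hx hy => rw [map_add, map_add, map_add, map_add, hx, hy]
  | h3 x m hx =>
    rw [map_mul, emap_io, ct_io_mul, ct_io_mul, map_sub, map_smul, map_mul, emap_io, hx]
    rfl

lemma proj_lc {f : I → J} (hf : Function.Injective f) (i : I) :
    (LinearMap.proj (f i) : (J → ℤ) →ₗ[ℤ] ℤ) ∘ₗ lc f = LinearMap.proj i := by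
  refine LinearMap.ext fun m => ?_
  change lc f m (f i) = m i
  simp [lc_apply, hf.eq_iff]

lemma ct_emap_zero {f : I → J} {j : J} (hj : ∀ i, f i ≠ j) (x : EA I) :
    ct (LinearMap.proj j) (emap f x) = 0 := by
  have e : (LinearMap.proj j : (J → ℤ) →ₗ[ℤ] ℤ) ∘ₗ lc f = 0 := by
    refine LinearMap.ext fun m => ?_
    change lc f m j = 0
    simp [lc_apply, hj]
  rw [emap_ct, e]
  change emap f (CliffordAlgebra.contractLeft (Q := (0 : QuadraticForm ℤ (I → ℤ))) 0 x) = 0
  rw [map_zero, LinearMap.zero_apply, map_zero]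

lemma invo_emap (f : I → J) (x : EA I) : invo J (emap f x) = emap f (invo I x) := by
  induction x using ind with
  | h1 r => rw [AlgHom.commutes, invo_alg, invo_alg, AlgHom.commutes]
  | h2 x y hx hy => rw [map_add, map_add, map_add, map_add, hx, hy]
  | h3 x m hx => rw [map_mul, invo_mul', invo_mul', map_mul, hx, emap_io, invo_io, invo_io, map_neg,
      emap_io]

lemma tau0_mul' (a b : EA I) : tau0 I (a * b) = tau0 I a * tau0 I b :=
  map_mul (ExteriorAlgebra.algebraMapInv (R := ℤ) (M := I → ℤ)) a b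

lemma tau0_io (m : I → ℤ) : tau0 I (io m) = 0 := by
  change ExteriorAlgebra.algebraMapInv (ExteriorAlgebra.ι ℤ m) = 0
  simp [ExteriorAlgebra.algebraMapInv]

lemma tau0_alg (r : ℤ) : tau0 I (algebraMap ℤ (EA I) r) = r :=
  ExteriorAlgebra.algebraMap_leftInverse (I → ℤ) r

end CliffAux

open CliffAux

lemma gam_mul_self (i : I) : gam i * gam i = 1 := by
  refine LinearMap.ext fun x => ?_
  rw [Module.End.mul_apply, gam_apply, gam_apply, mul_add, map_add, ct_io_mul, ct_ct, ← mul_assoc,
    ExteriorAlgebra.ι_sq_zero]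
  simp
lemma gam_anti {i j : I} (h : i ≠ j) : gam i * gam j = - (gam j * gam i) := by
  refine LinearMap.ext fun x => ?_
  rw [LinearMap.neg_apply, Module.End.mul_apply, Module.End.mul_apply, gam_apply, gam_apply,
    gam_apply, gam_apply, mul_add, map_add, mul_add, map_add, ct_io_mul, ct_io_mul, ← mul_assoc,
    ← mul_assoc, io_anti (Pi.single i 1), ct_comm (LinearMap.proj i), neg_mul]
  simp only [LinearMap.proj_apply, Pi.single_eq_of_ne h, Pi.single_eq_of_ne h.symm, zero_smul]
  abel
lemma gam_pow_even (i : I) {n : ℕ} (h : Even n) : gam i ^ n = 1 := by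
  obtain ⟨k, rfl⟩ := h
  rw [← two_mul, pow_mul, sq, gam_mul_self, one_pow]
lemma gam_mul_pow {i j : I} (h : i ≠ j) (a : ℕ) :
    gam i * gam j ^ a = (-1 : ℤ) ^ a • (gam j ^ a * gam i) := by
  induction a with
  | zero => simp
  | succ a ih =>
    rw [pow_succ, ← mul_assoc, ih, smul_mul_assoc, mul_assoc, gam_anti h, pow_succ, mul_neg,
      mul_assoc, mul_smul, neg_one_smul]
lemma invo_gam (i : I) : invo I * gam i = - (gam i * invo I) := by
  refine LinearMap.ext fun x => ?_
  rw [LinearMap.neg_apply, Module.End.mul_apply, Module.End.mul_apply, gam_apply, gam_apply,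
    map_add, invo_mul', invo_io, invo_ct, neg_mul, neg_add]
lemma invo_one : invo I 1 = 1 := by
  simpa using invo_alg (I := I) 1
lemma invo_mul (a b : EA I) : invo I (a * b) = invo I a * invo I b := by
  exact invo_mul' a b
lemma tau0_one : tau0 I 1 = 1 := by
  simpa using tau0_alg (I := I) 1
lemma tau0_mul (a b : EA I) : tau0 I (a * b) = tau0 I a * tau0 I b := by
  exact tau0_mul' a b
lemma tau0_invo (e : EA I) : tau0 I (invo I e) = tau0 I e := by
  induction e using ind with
  | h1 r => rw [invo_alg]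
  | h2 x y hx hy => rw [map_add, map_add, map_add, hx, hy]
  | h3 x m _ => rw [invo_mul, tau0_mul, tau0_mul, invo_io, map_neg, tau0_io, neg_zero, zero_mul,
      zero_mul]
lemma tau0_emap (f : I → J) (e : EA I) : tau0 J (emap f e) = tau0 I e := by
  induction e using ind with
  | h1 r => rw [AlgHom.commutes, tau0_alg, tau0_alg]
  | h2 x y hx hy => rw [map_add, map_add, map_add, hx, hy]
  | h3 x m _ => rw [map_mul, tau0_mul, tau0_mul, emap_io, tau0_io, tau0_io, zero_mul, zero_mul]
lemma emap_emap (f : I → J) (g : J → K) (e : EA I) : emap g (emap f e) = emap (g ∘ f) e := by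
  have h : lc g ∘ₗ lc f = lc (g ∘ f) := by
    refine LinearMap.pi_ext' fun i => LinearMap.ext_ring ?_
    simp only [LinearMap.comp_apply, LinearMap.single_apply, lc_single, Function.comp]
  induction e using ind with
  | h1 r => rw [AlgHom.commutes, AlgHom.commutes, AlgHom.commutes]
  | h2 x y hx hy => rw [map_add, map_add, map_add, hx, hy]
  | h3 x m hx => rw [map_mul, map_mul, map_mul, hx, emap_io, emap_io, emap_io, ← h]; rfl
lemma emap_id (e : EA I) : emap (id : I → I) e = e := by
  induction e using ind with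
  | h1 r => rw [AlgHom.commutes]
  | h2 x y hx hy => rw [map_add, hx, hy]
  | h3 x m hx =>
    rw [map_mul, hx, emap_io]
    congr 2
    funext j
    simp [lc_apply]
lemma emap_gam {f : I → J} (hf : Function.Injective f) (i : I) (e : EA I) :
    emap f (gam i e) = gam (f i) (emap f e) := by
  rw [gam_apply, gam_apply, map_add, map_mul, emap_io, lc_single, emap_ct, proj_lc hf]
lemma gam_inl (i : I) (e : EA I) (e' : EA J) :
    gam (Sum.inl i : I ⊕ J) (emap Sum.inl e * emap Sum.inr e') =
      emap Sum.inl (gam i e) * emap Sum.inr e' := by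
  rw [emap_gam Sum.inl_injective, gam_apply, gam_apply, ct_mul,
    ct_emap_zero (fun _ => Sum.inr_ne_inl) e', mul_zero, add_zero, add_mul, mul_assoc]
lemma gam_inr (j : J) (e : EA I) (e' : EA J) :
    gam (Sum.inr j : I ⊕ J) (emap Sum.inl e * emap Sum.inr e') =
      emap Sum.inl (invo I e) * emap Sum.inr (gam j e') := by
  rw [emap_gam Sum.inr_injective, gam_apply, gam_apply, ct_mul,
    ct_emap_zero (fun _ => Sum.inl_ne_inr) e, zero_mul, zero_add, ← mul_assoc, io_mul_comm,
    invo_emap, mul_add, mul_assoc]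

/-- The product of the operators along a word. -/
noncomputable def wd (L : List I) : Module.End ℤ (EA I) := (L.map gam).prod

@[simp] lemma wd_nil : wd ([] : List I) = 1 := rfl
lemma wd_cons (i : I) (L : List I) : wd (i :: L) = gam i * wd L := by simp [wd]
lemma wd_append (L L' : List I) : wd (L ++ L') = wd L * wd L' := by simp [wd]
lemma emap_wd {f : I → J} (hf : Function.Injective f) (L : List I) (e : EA I) :
    emap f (wd L e) = wd (L.map f) (emap f e) := by
  induction L with
  | nil => rfl
  | cons a L ih =>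
    rw [List.map_cons, wd_cons, wd_cons, Module.End.mul_apply, Module.End.mul_apply, emap_gam hf,
      ih]

/-- `g` is, up to sign, a word in which the letter `i` occurs `s i` times modulo two. -/
def Par (g : Module.End ℤ (EA I)) (s : I → ZMod 2) : Prop :=
  ∃ L : List I, (g = wd L ∨ g = - wd L) ∧ ∀ i, (L.count i : ZMod 2) = s i

namespace CliffAux

lemma wd_perm {L L' : List I} (h : L.Perm L') : wd L = wd L' ∨ wd L = - wd L' := by
  induction h with
  | nil => exact Or.inl rfl
  | cons a _ ih =>
    rcases ih with ih | ih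
    · left; rw [wd_cons, wd_cons, ih]
    · right; rw [wd_cons, wd_cons, ih, mul_neg]
  | swap a b l =>
    by_cases hab : b = a
    · left; rw [hab]
    · right
      rw [wd_cons, wd_cons, wd_cons, wd_cons, ← mul_assoc, ← mul_assoc, gam_anti hab, neg_mul]
  | trans _ _ ih1 ih2 =>
    rcases ih1 with h1 | h1 <;> rcases ih2 with h2 | h2 <;> simp [h1, h2]

lemma wd_even (n : ℕ) : ∀ L : List I, L.length ≤ n → (∀ i, Even (L.count i)) →
    wd L = 1 ∨ wd L = -1 := by
  induction n with
  | zero =>
    intro L hL _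
    rw [List.length_eq_zero_iff.1 (Nat.le_zero.1 hL)]
    exact Or.inl rfl
  | succ n ih =>
    intro L hL hc
    cases L with
    | nil => exact Or.inl rfl
    | cons a t =>
      have ha : a ∈ t := by
        have := hc a
        rw [List.count_cons_self] at this
        by_contra hn
        rw [List.count_eq_zero.2 hn] at this
        exact absurd this (by decide)
      have hp := List.perm_cons_erase ha
      have hlen : (t.erase a).length ≤ n := by
        have := hp.length_eq
        simp only [List.length_cons] at this hL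
        omega
      have hc' : ∀ i, Even ((t.erase a).count i) := fun i => by
        have h1 := hc i
        rw [List.count_cons, hp.count_eq, List.count_cons, add_assoc] at h1
        exact (Nat.even_add.1 h1).2 ⟨_, rfl⟩
      have e : gam a * wd (a :: t.erase a) = wd (t.erase a) := by
        rw [wd_cons, ← mul_assoc, gam_mul_self, one_mul]
      rw [wd_cons]
      rcases wd_perm hp with h1 | h1 <;> rcases ih _ hlen hc' with h2 | h2 <;>
        simp [h1, e, h2]

lemma wd_mul_reverse (L : List I) : wd L * wd L.reverse = 1 := by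
  induction L with
  | nil => simp
  | cons a L ih =>
    rw [List.reverse_cons, wd_cons, wd_append, mul_assoc, ← mul_assoc (wd L), ih, one_mul, wd_cons,
      wd_nil, mul_one, gam_mul_self]

lemma invo_wd (L : List I) (e : EA I) :
    invo I (wd L e) = (-1 : ℤ) ^ L.length • wd L (invo I e) := by
  induction L with
  | nil => simp
  | cons a L ih =>
    have := LinearMap.congr_fun (invo_gam a) (wd L e)
    rw [LinearMap.neg_apply, Module.End.mul_apply, Module.End.mul_apply] at this
    rw [wd_cons, Module.End.mul_apply, Module.End.mul_apply, this, ih, map_smul, List.length_cons,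
      pow_succ, mul_neg, mul_one, neg_smul]

lemma sum_count (L : List I) : ∑ i, L.count i = L.length := by
  induction L with
  | nil => simp
  | cons a L ih =>
    simp only [List.count_cons, Finset.sum_add_distrib, ih, List.length_cons, beq_iff_eq]
    simp

lemma wd_inl (L : List I) (e : EA I) (e' : EA J) :
    wd (L.map Sum.inl : List (I ⊕ J)) (emap Sum.inl e * emap Sum.inr e') =
      emap Sum.inl (wd L e) * emap Sum.inr e' := by
  induction L with
  | nil => rfl
  | cons a L ih =>
    rw [List.map_cons, wd_cons, wd_cons, Module.End.mul_apply, Module.End.mul_apply, ih, gam_inl]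

lemma wd_inr (L : List J) (e : EA I) (e' : EA J) :
    wd (L.map Sum.inr : List (I ⊕ J)) (emap Sum.inl e * emap Sum.inr e') =
      emap Sum.inl ((invo I ^ L.length) e) * emap Sum.inr (wd L e') := by
  induction L with
  | nil => rfl
  | cons a L ih =>
    rw [List.map_cons, wd_cons, wd_cons, Module.End.mul_apply, Module.End.mul_apply, ih, gam_inr,
      List.length_cons, pow_succ', Module.End.mul_apply]

lemma tau0_invo_pow (k : ℕ) (e : EA I) : tau0 I ((invo I ^ k) e) = tau0 I e := by
  induction k with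
  | zero => rfl
  | succ k ih => rw [pow_succ', Module.End.mul_apply, tau0_invo, ih]

lemma par_wd (L : List I) : Par (wd L) fun i => (L.count i : ZMod 2) :=
  ⟨L, Or.inl rfl, fun _ => rfl⟩

lemma map_perm (ρ : Equiv.Perm I) :
    ((univ : Finset I).toList.map ρ).Perm (univ : Finset I).toList := by
  refine (List.perm_ext_iff_of_nodup ((Finset.nodup_toList _).map ρ.injective)
    (Finset.nodup_toList _)).2 fun a => ?_
  simp only [List.mem_map, Finset.mem_toList, Finset.mem_univ, true_and, iff_true]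
  exact ρ.surjective a

lemma count_univ (i : I) : (univ : Finset I).toList.count i = 1 :=
  List.count_eq_one_of_mem (Finset.nodup_toList _) (Finset.mem_toList.2 (Finset.mem_univ i))

lemma count_map_inj {f : I → J} (hf : Function.Injective f) (L : List I) (i : I) :
    (L.map f).count (f i) = L.count i := List.count_map_of_injective _ _ hf _

lemma count_app (L L' : List I) (i : I) : (L ++ L').count i = L.count i + L'.count i :=
  List.count_append

lemma count_map_zero {f : I → J} {j : J} (hj : ∀ i, f i ≠ j) (L : List I) :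
    (L.map f).count j = 0 :=
  List.count_eq_zero.2 fun h => by
    obtain ⟨i, -, hi⟩ := List.mem_map.1 h
    exact hj i hi

end CliffAux

lemma par_one : Par (1 : Module.End ℤ (EA I)) 0 := by
  exact ⟨[], Or.inl rfl, fun i => by simp⟩
lemma par_gam (i : I) : Par (gam i) (Pi.single i 1) := by
  refine ⟨[i], Or.inl (by simp [wd]), fun j => ?_⟩
  by_cases h : j = i
  · subst h
    simp
  · rw [Pi.single_eq_of_ne h, List.count_eq_zero.2 (by simpa using h), Nat.cast_zero]
lemma Par.mul {g g' : Module.End ℤ (EA I)} {s s' : I → ZMod 2} (h : Par g s) (h' : Par g' s') :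
    Par (g * g') (s + s') := by
  obtain ⟨L, hL, hc⟩ := h
  obtain ⟨L', hL', hc'⟩ := h'
  refine ⟨L ++ L', ?_, fun i => by rw [List.count_append, Nat.cast_add, hc, hc', Pi.add_apply]⟩
  rcases hL with rfl | rfl <;> rcases hL' with rfl | rfl <;> simp [wd_append]
lemma Par.neg {g : Module.End ℤ (EA I)} {s : I → ZMod 2} (h : Par g s) : Par (-g) s := by
  obtain ⟨L, hL, hc⟩ := h
  refine ⟨L, ?_, hc⟩
  rcases hL with rfl | rfl <;> simp
lemma Par.pow {g : Module.End ℤ (EA I)} {s : I → ZMod 2} (h : Par g s) (n : ℕ) :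
    Par (g ^ n) (n • s) := by
  induction n with
  | zero => simpa using par_one
  | succ n ih =>
    rw [pow_succ, succ_nsmul]
    exact ih.mul h
lemma Par.list_prod {α : Type*} (L : List α) (g : α → Module.End ℤ (EA I)) (s : α → I → ZMod 2)
    (h : ∀ a ∈ L, Par (g a) (s a)) : Par (L.map g).prod (L.map s).sum := by
  induction L with
  | nil => simpa using par_one
  | cons a L ih =>
    rw [List.map_cons, List.map_cons, List.prod_cons, List.sum_cons]
    exact (h a List.mem_cons_self).mul (ih fun b hb => h b (List.mem_cons_of_mem _ hb))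
/-- Words with the same parities agree up to sign. -/
lemma Par.unique {g g' : Module.End ℤ (EA I)} {s : I → ZMod 2} (h : Par g s) (h' : Par g' s) :
    g = g' ∨ g = - g' := by
  obtain ⟨L, hL, hc⟩ := h
  obtain ⟨L', hL', hc'⟩ := h'
  have he : ∀ i, Even ((L'.reverse ++ L).count i) := fun i => by
    rw [← ZMod.natCast_eq_zero_iff_even, List.count_append, List.count_reverse, Nat.cast_add, hc,
      hc']
    exact CharTwo.add_self_eq_zero _
  have e : wd L = wd L' * wd (L'.reverse ++ L) := by
    rw [wd_append, ← mul_assoc, wd_mul_reverse, one_mul]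
  have k : wd L = wd L' ∨ wd L = - wd L' := by
    rcases wd_even _ _ le_rfl he with h1 | h1
    · left; rw [e, h1, mul_one]
    · right; rw [e, h1, mul_neg, mul_one]
  rcases hL with rfl | rfl <;> rcases hL' with rfl | rfl <;> rcases k with k | k <;> simp [k]
lemma Par.invo_one {g : Module.End ℤ (EA I)} {s : I → ZMod 2} (h : Par g s) (k : ℕ)
    (hk : (k : ZMod 2) = ∑ i, s i) : invo I (g 1) = (-1 : ℤ) ^ k • g 1 := by
  obtain ⟨L, hL, hc⟩ := h
  have e : (k : ZMod 2) = (L.length : ZMod 2) := by
    rw [hk, ← sum_count L, Nat.cast_sum]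
    exact Finset.sum_congr rfl fun i _ => (hc i).symm
  have e2 : (-1 : ℤ) ^ k = (-1) ^ L.length := by
    rw [neg_one_pow_eq_pow_mod_two, (ZMod.natCast_eq_natCast_iff' _ _ _).1 e,
      ← neg_one_pow_eq_pow_mod_two]
  have e3 := invo_wd L 1
  rw [MP_5f3851_al.invo_one] at e3
  rcases hL with rfl | rfl
  · rw [e3, e2]
  · rw [LinearMap.neg_apply, map_neg, e3, e2, smul_neg]
lemma Par.emap {g : Module.End ℤ (EA I)} {s : I → ZMod 2} (h : Par g s) {f : I → J}
    (hf : Function.Injective f) (s' : J → ZMod 2) (h1 : ∀ i, s' (f i) = s i)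
    (h2 : ∀ j, j ∉ Set.range f → s' j = 0) :
    ∃ g', Par g' s' ∧ ∀ e, emap f (g e) = g' (emap f e) := by
  obtain ⟨L, hL, hc⟩ := h
  have hp : Par (wd (L.map f)) s' := by
    refine ⟨L.map f, Or.inl rfl, fun j => ?_⟩
    by_cases hj : j ∈ Set.range f
    · obtain ⟨i, rfl⟩ := hj
      rw [List.count_map_of_injective _ _ hf, hc, h1]
    · rw [h2 j hj, count_map_zero (fun i hi => hj ⟨i, hi⟩), Nat.cast_zero]
  rcases hL with rfl | rfl
  · exact ⟨_, hp, emap_wd hf L⟩
  · exact ⟨_, hp.neg, fun e => by
      rw [LinearMap.neg_apply, LinearMap.neg_apply, map_neg, emap_wd hf L]⟩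
lemma Par.ext {g : Module.End ℤ (EA I)} {s : I → ZMod 2} {g' : Module.End ℤ (EA J)}
    {s' : J → ZMod 2} (h : Par g s) (h' : Par g' s') :
    ∃ g'' : Module.End ℤ (EA (I ⊕ J)), Par g'' (Sum.elim s s') ∧
      MP_5f3851_al.emap Sum.inl (g 1) * MP_5f3851_al.emap Sum.inr (g' 1) = g'' 1 := by
  obtain ⟨L, hL, hc⟩ := h
  obtain ⟨L', hL', hc'⟩ := h'
  have hp : Par (wd (L.map Sum.inl ++ L'.map Sum.inr : List (I ⊕ J))) (Sum.elim s s') := by
    refine ⟨_, Or.inl rfl, fun j => ?_⟩
    rw [count_app]
    cases j with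
    | inl i =>
      rw [count_map_inj Sum.inl_injective,
        count_map_zero (fun _ => Sum.inr_ne_inl), add_zero, hc, Sum.elim_inl]
    | inr j =>
      rw [count_map_inj Sum.inr_injective,
        count_map_zero (fun _ => Sum.inl_ne_inr), zero_add, hc', Sum.elim_inr]
  have e : MP_5f3851_al.emap Sum.inl (wd L 1) * MP_5f3851_al.emap Sum.inr (wd L' 1) =
      wd (L.map Sum.inl ++ L'.map Sum.inr : List (I ⊕ J)) 1 := by
    rw [← wd_inl, map_one, one_mul, emap_wd Sum.inr_injective, map_one, wd_append,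
      Module.End.mul_apply]
  rcases hL with rfl | rfl <;> rcases hL' with rfl | rfl
  · exact ⟨_, hp, e⟩
  · exact ⟨_, hp.neg, by rw [LinearMap.neg_apply, LinearMap.neg_apply, map_neg, mul_neg, e]⟩
  · exact ⟨_, hp.neg, by rw [LinearMap.neg_apply, LinearMap.neg_apply, map_neg, neg_mul, e]⟩
  · exact ⟨_, hp, by
      rw [LinearMap.neg_apply, LinearMap.neg_apply, map_neg, map_neg, neg_mul_neg, e]⟩
/-- A permutation of odd order that permutes the letters of a word fixes the word. -/
lemma emap_wd_of_perm {ρ : Equiv.Perm I} {p : ℕ} (hp : Odd p) (hρ : ρ ^ p = 1) (L : List I)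
    (hL : (L.map ρ).Perm L) (e : EA I) : emap ρ (wd L e) = wd L (emap ρ e) := by
  rcases wd_perm hL with h | h
  · rw [emap_wd ρ.injective, h]
  · exfalso
    have it : ∀ n : ℕ, ∀ x, emap (ρ ^ n : Equiv.Perm I) (wd L x) =
        (-1 : ℤ) ^ n • wd L (emap (ρ ^ n : Equiv.Perm I) x) := by
      intro n
      induction n with
      | zero =>
        intro x
        rw [pow_zero, pow_zero, one_smul, Equiv.Perm.coe_one, emap_id, emap_id]
      | succ n ih =>
        intro x
        rw [pow_succ' ρ, Equiv.Perm.coe_mul, ← emap_emap, ← emap_emap, ih, map_smul,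
          emap_wd ρ.injective, h, LinearMap.neg_apply, pow_succ, mul_neg, mul_one, smul_neg,
          neg_smul]
    have h1 := it p (wd L.reverse 1)
    rw [hρ, Equiv.Perm.coe_one, emap_id, emap_id, ← Module.End.mul_apply, wd_mul_reverse,
      hp.neg_one_pow] at h1
    have h2 := congrArg (tau0 I) h1
    rw [map_smul, Module.End.one_apply, tau0_one] at h2
    exact absurd h2 (by decide)

/-- The product of all generators in a fixed order. -/
noncomputable def Gam (I : Type) [Fintype I] [DecidableEq I] : Module.End ℤ (EA I) :=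
  wd (univ : Finset I).toList

lemma par_Gam : Par (Gam I) fun _ => 1 := by
  exact ⟨_, Or.inl rfl, fun i => by rw [count_univ, Nat.cast_one]⟩

/-- The functional used to pair with a tensor power of a cochain of degree `n`. -/
noncomputable def tau (I : Type) [Fintype I] [DecidableEq I] (n : ℕ) : EA I →ₗ[ℤ] ℤ :=
  tau0 I ∘ₗ (Gam I ^ n)

namespace CliffAux

lemma emap_wd_pow {ρ : Equiv.Perm I} {p : ℕ} (hp : Odd p) (hρ : ρ ^ p = 1) (L : List I)
    (hL : (L.map ρ).Perm L) (n : ℕ) (e : EA I) :
    emap ρ ((wd L ^ n) e) = (wd L ^ n) (emap ρ e) := by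
  induction n with
  | zero => rfl
  | succ n ih =>
    rw [pow_succ', Module.End.mul_apply, Module.End.mul_apply, emap_wd_of_perm hp hρ L hL, ih]

lemma wd_inl_pow (L : List I) (n : ℕ) (e : EA I) (e' : EA J) :
    (wd (L.map Sum.inl : List (I ⊕ J)) ^ n) (emap Sum.inl e * emap Sum.inr e') =
      emap Sum.inl ((wd L ^ n) e) * emap Sum.inr e' := by
  induction n with
  | zero => rfl
  | succ n ih => rw [pow_succ', pow_succ', Module.End.mul_apply, Module.End.mul_apply, ih, wd_inl]

lemma wd_inr_pow (L : List J) (n : ℕ) (e : EA I) (e' : EA J) :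
    (wd (L.map Sum.inr : List (I ⊕ J)) ^ n) (emap Sum.inl e * emap Sum.inr e') =
      emap Sum.inl ((invo I ^ (L.length * n)) e) * emap Sum.inr ((wd L ^ n) e') := by
  induction n with
  | zero => rfl
  | succ n ih =>
    rw [pow_succ', pow_succ', Module.End.mul_apply, Module.End.mul_apply, ih, wd_inr,
      Nat.mul_succ, add_comm (L.length * n), pow_add, Module.End.mul_apply]

lemma par_inl : Par (wd ((univ : Finset I).toList.map Sum.inl : List (I ⊕ I)))
    (Sum.elim (fun _ => 1) fun _ => 0) := by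
  refine ⟨_, Or.inl rfl, fun j => ?_⟩
  cases j with
  | inl i => rw [count_map_inj Sum.inl_injective, count_univ]; rfl
  | inr j => rw [count_map_zero (fun _ => Sum.inl_ne_inr)]; rfl

lemma par_inr : Par (wd ((univ : Finset I).toList.map Sum.inr : List (I ⊕ I)))
    (Sum.elim (fun _ => 0) fun _ => 1) := by
  refine ⟨_, Or.inl rfl, fun j => ?_⟩
  cases j with
  | inl i => rw [count_map_zero (fun _ => Sum.inr_ne_inl)]; rfl
  | inr j => rw [count_map_inj Sum.inr_injective, count_univ]; rfl

end CliffAux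

lemma tau_emap {ρ : Equiv.Perm I} {p : ℕ} (hp : Odd p) (hρ : ρ ^ p = 1) (n : ℕ) (e : EA I) :
    tau I n (emap ρ e) = tau I n e := by
  change tau0 I ((wd _ ^ n) (emap ρ e)) = tau0 I ((wd _ ^ n) e)
  rw [← emap_wd_pow hp hρ _ (map_perm ρ), tau0_emap]
lemma tau_even {n : ℕ} (hn : Even n) : tau I n = tau0 I ∨ tau I n = - tau0 I := by
  have h : Par (Gam I ^ n) 0 := by
    have := (par_Gam (I := I)).pow n
    convert this using 1
    funext i
    simp [(ZMod.natCast_eq_zero_iff_even).2 hn]
  rcases h.unique par_one with h1 | h1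
  · left
    rw [tau, h1]
    rfl
  · right
    rw [tau, h1]
    refine LinearMap.ext fun x => ?_
    simp

/-- The functional for a product of two tensor powers. -/
noncomputable def tau2 (I : Type) [Fintype I] [DecidableEq I] (m n : ℕ) : EA (I ⊕ I) →ₗ[ℤ] ℤ :=
  tau0 (I ⊕ I) ∘ₗ (wd ((univ : Finset I).toList.map Sum.inr) ^ n *
    wd ((univ : Finset I).toList.map Sum.inl) ^ m)

lemma tau2_ext (m n : ℕ) (e e' : EA I) :
    tau2 I m n (emap Sum.inl e * emap Sum.inr e') = tau I m e * tau I n e' := by
  change tau0 (I ⊕ I) ((wd _ ^ n) ((wd _ ^ m) _)) = tau0 I ((wd _ ^ m) e) * tau0 I ((wd _ ^ n) e')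
  rw [wd_inl_pow, wd_inr_pow, tau0_mul, tau0_emap, tau0_emap, tau0_invo_pow]
lemma tau2_emap {ρ ρ' : Equiv.Perm I} {p : ℕ} (hp : Odd p) (hρ : ρ ^ p = 1) (hρ' : ρ' ^ p = 1)
    (m n : ℕ) (e : EA (I ⊕ I)) : tau2 I m n (emap (Equiv.sumCongr ρ ρ') e) = tau2 I m n e := by
  have hσ : (Equiv.sumCongr ρ ρ' : Equiv.Perm (I ⊕ I)) ^ p = 1 := by
    have := map_pow (Equiv.Perm.sumCongrHom I I) (ρ, ρ') p
    rw [Prod.pow_mk, hρ, hρ'] at this
    exact this.symm.trans (map_one (Equiv.Perm.sumCongrHom I I))
  have h1 : (((univ : Finset I).toList.map Sum.inl : List (I ⊕ I)).map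
      (Equiv.sumCongr ρ ρ')).Perm ((univ : Finset I).toList.map Sum.inl) := by
    have := (map_perm ρ).map (Sum.inl : I → I ⊕ I)
    rw [List.map_map] at this ⊢
    exact this
  have h2 : (((univ : Finset I).toList.map Sum.inr : List (I ⊕ I)).map
      (Equiv.sumCongr ρ ρ')).Perm ((univ : Finset I).toList.map Sum.inr) := by
    have := (map_perm ρ').map (Sum.inr : I → I ⊕ I)
    rw [List.map_map] at this ⊢
    exact this
  change tau0 (I ⊕ I) ((wd _ ^ n) ((wd _ ^ m) _)) = tau0 (I ⊕ I) ((wd _ ^ n) ((wd _ ^ m) e))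
  rw [← emap_wd_pow hp hσ _ h1, ← emap_wd_pow hp hσ _ h2, tau0_emap]
/-- The sign in the Cartan formula. -/
lemma tau2_par (m n : ℕ) {g : Module.End ℤ (EA (I ⊕ I))}
    (h : Par g (Sum.elim (fun _ => (n : ZMod 2)) fun _ => (n : ZMod 2))) :
    ∃ ε : ℤ, (ε = 1 ∨ ε = -1) ∧
      ∀ e : EA I, tau2 I m n (g (emap Sum.inl e)) = ε * tau I (m + n) e := by
  have h1 := (((par_inr (I := I)).pow n).mul ((par_inl (I := I)).pow m)).mul h
  have h2 := (par_inl (I := I)).pow (m + n)
  have e : (n • Sum.elim (fun _ : I => (0 : ZMod 2)) (fun _ : I => 1) +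
      m • Sum.elim (fun _ : I => (1 : ZMod 2)) (fun _ : I => 0) +
      Sum.elim (fun _ : I => (n : ZMod 2)) fun _ : I => (n : ZMod 2)) =
      (m + n) • Sum.elim (fun _ : I => (1 : ZMod 2)) (fun _ : I => 0) := by
    funext j
    cases j with
    | inl i => simp
    | inr j => simp [CharTwo.add_self_eq_zero]
  rw [e] at h1
  have k : ∀ x : EA I, tau0 (I ⊕ I) ((wd ((univ : Finset I).toList.map Sum.inl) ^ (m + n))
      (emap Sum.inl x)) = tau I (m + n) x := fun x => by
    have := wd_inl_pow (J := I) (univ : Finset I).toList (m + n) x 1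
    rw [map_one, mul_one, mul_one] at this
    rw [this, tau0_emap]
    rfl
  rcases h1.unique h2 with h3 | h3
  · refine ⟨1, Or.inl rfl, fun x => ?_⟩
    rw [one_mul, ← k, ← h3]
    rfl
  · refine ⟨-1, Or.inr rfl, fun x => ?_⟩
    rw [neg_one_mul, ← k, ← map_neg, ← LinearMap.neg_apply, ← h3]
    rfl

end Pool.Agent.Lib.MP_5f3851_al
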