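import Pool.Agent.Lib.MP_5f3851_al.Basic
import Pool.Agent.Lib.MP_5f3851_al.Cliff

/-! The tensor power of the chain complex of lists. -/

set_option linter.unusedSectionVars false

namespace Pool.Agent.Lib.MP_5f3851_al

open Finset

universe u u'

/-- Families of lists indexed by `I`, with coefficients in the exterior algebra. -/
abbrev Ch (I : Type) (V : Type u) := (I → List V) →₀ EA I

variable {I : Type} [Fintype I] [DecidableEq I] {V : Type u} {V' : Type u'}

/-- Generators. -/
noncomputable def gen (w : I → List V) (e : EA I) : Ch I V := Finsupp.single w e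

/-- A linear map given on generators. -/
noncomputable def mkL {X : Type*} [AddCommGroup X] (A : (I → List V) → EA I →ₗ[ℤ] X) :
    Ch I V →ₗ[ℤ] X := Finsupp.lsum ℤ A

/-- `gen w` as a linear map. -/
noncomputable def genL (w : I → List V) : EA I →ₗ[ℤ] Ch I V := Finsupp.lsingle w

@[simp] lemma genL_apply (w : I → List V) (e : EA I) : genL w e = gen w e := rfl
@[simp] lemma mkL_gen {X : Type*} [AddCommGroup X] (A : (I → List V) → EA I →ₗ[ℤ] X)
    (w : I → List V) (e : EA I) : mkL A (gen w e) = A w e := by
  simp [mkL, gen]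
lemma ch_ext {X : Type*} [AddCommGroup X] {A B : Ch I V →ₗ[ℤ] X}
    (h : ∀ w e, A (gen w e) = B (gen w e)) : A = B := Finsupp.lhom_ext h

/-- An operator on the coefficients. -/
noncomputable def cf (g : Module.End ℤ (EA I)) : Module.End ℤ (Ch I V) :=
  mkL fun w => genL w ∘ₗ g

/-- An operator on the list in one slot. -/
noncomputable def slot (i : I) (A : List V → (List V →₀ ℤ)) : Module.End ℤ (Ch I V) :=
  mkL fun w => (A (w i)).sum fun t c => c • genL (Function.update w i t)

/-- The generator of a nonempty list; zero for the empty list. -/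
noncomputable def sng : List V → (List V →₀ ℤ)
  | [] => 0
  | a :: t => Finsupp.single (a :: t) 1

/-- The boundary of a list (zero in degree zero). -/
noncomputable def bdL (l : List V) : List V →₀ ℤ := dif sng l

/-- The cone with vertex `v`. -/
noncomputable def hL (v : V) : List V → (List V →₀ ℤ)
  | [] => 0
  | a :: t => Finsupp.single (v :: a :: t) 1

/-- The projection to the vertex `v`; the empty list is fixed. -/
noncomputable def piL (v : V) : List V → (List V →₀ ℤ)
  | [] => Finsupp.single [] 1
  | [_] => Finsupp.single [v] 1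
  | _ :: _ :: _ => 0

/-- The total boundary. -/
noncomputable def dd : Module.End ℤ (Ch I V) := ∑ i, slot i bdL * cf (gam i)

/-- The cone homotopy along a list of slots. -/
noncomputable def coneH (v : V) : List I → Module.End ℤ (Ch I V)
  | [] => 0
  | k :: L => slot k (hL v) * cf (gam k) + slot k (piL v) * coneH v L

/-- The projection along a list of slots. -/
noncomputable def coneP (v : V) : List I → Module.End ℤ (Ch I V)
  | [] => 1
  | k :: L => slot k (piL v) * coneP v L

/-- The cone homotopy. -/
noncomputable def HH (v : V) : Module.End ℤ (Ch I V) := coneH v (univ : Finset I).toList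
/-- The projection to the vertex `v` in all slots. -/
noncomputable def PP (v : V) : Module.End ℤ (Ch I V) := coneP v (univ : Finset I).toList

/-- The map induced by a map of points. -/
noncomputable def cmap (m : V → V') : Ch I V →ₗ[ℤ] Ch I V' := mkL fun w => genL fun i => (w i).map m

/-- The action of a permutation of the slots. -/
noncomputable def perm (ρ : Equiv.Perm I) : Module.End ℤ (Ch I V) :=
  mkL fun w => genL (w ∘ ρ.symm) ∘ₗ (emap ρ).toLinearMap

/-- The total degree; the empty list has degree zero. -/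
def deg (w : I → List V) : ℕ := ∑ i, ((w i).length - 1)

/-- Chains of degree `k` with standard coefficients. -/
noncomputable def Hg (I : Type) [Fintype I] [DecidableEq I] (V : Type u) (k : ℤ) : AddSubgroup (Ch I V) :=
  AddSubgroup.closure {x | ∃ w g, (deg w : ℤ) = k ∧
    Par g (fun i => (((w i).length - 1 : ℕ) : ZMod 2)) ∧ x = gen w (g 1)}

/-- The vertex `v` in all slots. -/
noncomputable def base (v : V) : Ch I V := gen (fun _ => [v]) 1

/-- The pairing with a family of functions and a functional on coefficients. -/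
noncomputable def pair {R : Type*} [CommRing R] (F : I → List V → R) (τ : EA I →ₗ[ℤ] ℤ) :
    Ch I V →ₗ[ℤ] R := mkL fun w => τ.smulRight (∏ i, F i (w i))

/-- The differentials of the periodic resolution: `s - 1` and the norm. -/
noncomputable def Tq {A : Type*} [Ring A] (s : A) (p j : ℕ) : A :=
  if Even j then s - 1 else ∑ i ∈ range p, s ^ i

/-- The term `T (X (j - 1))`, zero for `j = 0`. -/
def Tp {X : Type*} [AddCommGroup X] (T : ℕ → Module.End ℤ X) (x : ℕ → X) : ℕ → X
  | 0 => 0
  | j + 1 => T j (x j)

lemma cf_gen (g : Module.End ℤ (EA I)) (w : I → List V) (e : EA I) :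
    cf g (gen w e) = gen w (g e) := by simp [cf]
lemma cmap_gen (m : V → V') (w : I → List V) (e : EA I) :
    cmap m (gen w e) = gen (fun i => (w i).map m) e := by simp [cmap]
lemma perm_gen (ρ : Equiv.Perm I) (w : I → List V) (e : EA I) :
    perm ρ (gen w e) = gen (w ∘ ρ.symm) (emap ρ e) := by simp [perm]
lemma pair_gen {R : Type*} [CommRing R] (F : I → List V → R) (τ : EA I →ₗ[ℤ] ℤ)
    (w : I → List V) (e : EA I) : pair F τ (gen w e) = τ e • ∏ i, F i (w i) := by simp [pair]

lemma slot_gen (i : I) (A : List V → (List V →₀ ℤ)) (w : I → List V) (e : EA I) :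
    slot i A (gen w e) = (A (w i)).sum fun t c => c • gen (Function.update w i t) e := by
  simp [slot, Finsupp.sum, LinearMap.sum_apply]
namespace ChainAux

/-- Linear extension of a function on lists. -/
noncomputable def lc {X : Type*} [AddCommGroup X] (f : List V → X) : (List V →₀ ℤ) →ₗ[ℤ] X :=
  Finsupp.linearCombination ℤ f

section
variable {X Y : Type*} [AddCommGroup X] [AddCommGroup Y]

lemma lc_single (f : List V → X) (t : List V) : lc f (Finsupp.single t 1) = f t := by
  simp [lc]

lemma map_lc (φ : X →ₗ[ℤ] Y) (f : List V → X) (x : List V →₀ ℤ) :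
    φ (lc f x) = lc (fun t => φ (f t)) x := Finsupp.apply_linearCombination ℤ φ f x

lemma lc_comm (F : List V → List V → X) (x y : List V →₀ ℤ) :
    lc (fun t => lc (fun s => F s t) x) y = lc (fun s => lc (fun t => F s t) y) x := by
  simp only [lc, Finsupp.linearCombination_apply, Finsupp.sum, smul_sum]
  rw [sum_comm]
  exact sum_congr rfl fun _ _ => sum_congr rfl fun _ _ => smul_comm _ _ _

lemma lin_dif (φ : X →ₗ[ℤ] Y) (f : List V → X) (l : List V) :
    φ (dif f l) = dif (fun t => φ (f t)) l := map_dif φ.toAddMonoidHom f l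

lemma lc_sng (f : List V → X) (hf : f [] = 0) (t : List V) : lc f (sng t) = f t := by
  cases t with
  | nil => simp [sng, hf]
  | cons a t => exact lc_single f _

lemma lc_bd (f : List V → X) (hf : f [] = 0) (l : List V) : lc f (bdL l) = dif f l := by
  rw [bdL, lin_dif]
  exact congrArg (fun g => dif g l) (funext (lc_sng f hf))

end

lemma ch_ind {P : Ch I V → Prop} (x : Ch I V) (h0 : P 0) (ha : ∀ x y, P x → P y → P (x + y))
    (hg : ∀ w e, P (gen w e)) : P x := Finsupp.induction_linear x h0 ha hg

lemma slot_lc (i : I) (A : List V → (List V →₀ ℤ)) (w : I → List V) (e : EA I) :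
    slot i A (gen w e) = lc (fun t => gen (Function.update w i t) e) (A (w i)) :=
  slot_gen i A w e

lemma cf_mul (g g' : Module.End ℤ (EA I)) :
    (cf g * cf g' : Module.End ℤ (Ch I V)) = cf (g * g') :=
  ch_ext fun w e => by simp only [Module.End.mul_apply, cf_gen]

lemma cf_one : (cf 1 : Module.End ℤ (Ch I V)) = 1 :=
  ch_ext fun w e => by simp only [Module.End.one_apply, cf_gen]

lemma cf_neg (g : Module.End ℤ (EA I)) : (cf (-g) : Module.End ℤ (Ch I V)) = - cf g :=
  ch_ext fun w e => by
    simp only [LinearMap.neg_apply, cf_gen]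
    exact map_neg (genL w) _

lemma cf_slot (g : Module.End ℤ (EA I)) (i : I) (A : List V → (List V →₀ ℤ)) :
    cf g * slot i A = slot i A * cf g :=
  ch_ext fun w e => by simp only [Module.End.mul_apply, cf_gen, slot_lc, map_lc]

lemma slot_comm {i j : I} (h : i ≠ j) (A B : List V → (List V →₀ ℤ)) :
    slot i A * slot j B = slot j B * slot i A :=
  ch_ext fun w e => by
    simp only [Module.End.mul_apply, slot_lc, map_lc, Function.update_of_ne h,
      Function.update_of_ne h.symm]
    rw [lc_comm]
    simp only [Function.update_comm h]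

lemma slot_slot (i : I) (A B : List V → (List V →₀ ℤ)) :
    slot i A * slot i B = slot i fun l => lc A (B l) :=
  ch_ext fun w e => by
    simp only [Module.End.mul_apply, slot_lc, map_lc, Function.update_self, Function.update_idem]

lemma slot_zero (i : I) : slot i (fun _ : List V => 0) = 0 :=
  ch_ext fun w e => by simp only [slot_lc, map_zero, LinearMap.zero_apply]

lemma bd_nil : bdL ([] : List V) = 0 := dif_nil _

lemma bd_bd (l : List V) : lc bdL (bdL l) = 0 := by
  rw [lc_bd _ bd_nil]
  exact dif_dif sng l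

lemma bd_pi (v : V) (l : List V) : lc bdL (piL v l) = 0 := by
  match l with
  | [] => exact (lc_single _ _).trans bd_nil
  | [_] => exact (lc_single _ _).trans (by simp [bdL, dif, sng])
  | _ :: _ :: _ => exact map_zero _

lemma bd_h (v : V) (l : List V) :
    lc bdL (hL v l) + lc (hL v) (bdL l) = Finsupp.single l 1 - piL v l := by
  match l with
  | [] => simp [hL, piL, bd_nil]
  | a :: t =>
    have e1 : lc bdL (hL v (a :: t)) = Finsupp.single (a :: t) 1 -
        dif (fun s => Finsupp.single (v :: s) (1 : ℤ)) (a :: t) :=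
      (lc_single _ _).trans (dif_cons sng v (a :: t))
    have e2 : dif (fun s => Finsupp.single (v :: s) (1 : ℤ) - hL v s) (a :: t) = piL v (a :: t) := by
      match t with
      | [] => simp [dif, hL, piL]
      | b :: t =>
        refine sum_eq_zero fun i hi => ?_
        have h1 := List.length_eraseIdx_of_lt (mem_range.1 hi)
        generalize (a :: b :: t).eraseIdx i = s at h1
        cases s with
        | nil => simp at h1
        | cons c s => simp [hL]
    rw [e1, lc_bd _ rfl, ← e2, dif_sub]
    abel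

lemma b_b (i : I) : slot i (bdL : List V → _) * slot i bdL = 0 := by
  rw [slot_slot, funext bd_bd, slot_zero]

lemma b_pi (i : I) (v : V) : slot i bdL * slot i (piL v) = 0 := by
  rw [slot_slot, funext (bd_pi v), slot_zero]

lemma b_h (i : I) (v : V) :
    slot i bdL * slot i (hL v) + slot i (hL v) * slot i bdL = 1 - slot i (piL v) := by
  rw [slot_slot, slot_slot]
  refine ch_ext fun w e => ?_
  simp only [LinearMap.add_apply, LinearMap.sub_apply, Module.End.one_apply, slot_lc]
  rw [← map_add, bd_h, map_sub, lc_single, Function.update_eq_self]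

lemma pi_b (i : I) (v : V) : slot i (piL v) * slot i bdL = 0 := by
  have e : slot i (piL v) = 1 - (slot i bdL * slot i (hL v) + slot i (hL v) * slot i bdL) := by
    rw [b_h, sub_sub_cancel]
  have h1 := b_pi i v
  rw [e] at h1 ⊢
  rw [mul_sub, mul_add, ← mul_assoc, b_b, zero_mul, zero_add, mul_one] at h1
  rw [sub_mul, add_mul, mul_assoc (slot i (hL v)), b_b, mul_zero, add_zero, one_mul, mul_assoc]
  exact h1

lemma sc_mul (i j : I) (A B : List V → (List V →₀ ℤ)) (g g' : Module.End ℤ (EA I)) :
    slot i A * cf g * (slot j B * cf g') = slot i A * slot j B * cf (g * g') := by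
  rw [mul_assoc, ← mul_assoc (cf g), cf_slot, mul_assoc, cf_mul, mul_assoc]

lemma sc_anti {i j : I} (h : i ≠ j) (A B : List V → (List V →₀ ℤ)) :
    slot i A * cf (gam i) * (slot j B * cf (gam j)) +
      slot j B * cf (gam j) * (slot i A * cf (gam i)) = 0 := by
  rw [sc_mul, sc_mul, gam_anti h, cf_neg, slot_comm h, mul_neg, neg_add_cancel]

lemma dd_h (k : I) (v : V) : dd * (slot k (hL v) * cf (gam k)) +
    slot k (hL v) * cf (gam k) * dd = 1 - slot k (piL v) := by
  rw [dd, sum_mul, mul_sum, ← sum_add_distrib,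
    sum_eq_single k (fun i _ h => sc_anti h _ _) (fun h => absurd (mem_univ k) h),
    sc_mul, sc_mul, gam_mul_self, cf_one, mul_one, mul_one, b_h]

lemma dd_pi (k : I) (v : V) : dd * slot k (piL v) = slot k (piL v) * dd := by
  rw [dd, sum_mul, mul_sum]
  refine sum_congr rfl fun i _ => ?_
  rw [mul_assoc, cf_slot, ← mul_assoc, ← mul_assoc]
  by_cases h : i = k
  · rw [h, b_pi, pi_b]
  · rw [slot_comm h]

lemma dd_cone (v : V) (L : List I) :
    (dd * coneH v L + coneH v L * dd : Module.End ℤ (Ch I V)) = 1 - coneP v L := by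
  induction L with
  | nil => simp [coneH, coneP]
  | cons k L ih =>
    have h1 := dd_h k v
    have h2 := congrArg (fun z => slot k (piL v) * z) ih
    simp only [mul_add, mul_sub, mul_one] at h2
    rw [coneH, coneP, mul_add, add_mul, ← mul_assoc dd (slot k (piL v)), dd_pi,
      mul_assoc (slot k (piL v)), mul_assoc (slot k (piL v)), add_add_add_comm, h1, h2,
      sub_add_sub_cancel]

lemma cmap_cf (m : V → V') (g : Module.End ℤ (EA I)) (x : Ch I V) :
    cmap m (cf g x) = cf g (cmap m x) := by
  induction x using ch_ind with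
  | h0 => simp
  | ha x y a b => simp only [map_add, a, b]
  | hg w e =>
    simp only [cf_gen, cmap_gen]

lemma cmap_slot (m : V → V') (i : I) {A : List V → (List V →₀ ℤ)} {A' : List V' → (List V' →₀ ℤ)}
    (h : ∀ l, lc (fun t => Finsupp.single (t.map m) (1 : ℤ)) (A l) = A' (l.map m)) (x : Ch I V) :
    cmap m (slot i A x) = slot i A' (cmap m x) := by
  induction x using ch_ind with
  | h0 => simp
  | ha x y a b => simp only [map_add, a, b]
  | hg w e =>
    simp only [cmap_gen, slot_lc, map_lc, ← h, lc_single]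
    congr 2
    funext t
    congr 1
    funext j
    by_cases hj : j = i
    · subst hj
      simp
    · simp [Function.update_of_ne hj]

lemma map_bd (m : V → V') (l : List V) :
    lc (fun t => Finsupp.single (t.map m) (1 : ℤ)) (bdL l) = bdL (l.map m) := by
  rw [bdL, bdL, lin_dif, dif_map]
  refine congrArg (fun g => dif g l) (funext fun t => ?_)
  cases t with
  | nil => exact map_zero _
  | cons a t => exact lc_single _ _

lemma map_h (m : V → V') (v : V) (l : List V) :
    lc (fun t => Finsupp.single (t.map m) (1 : ℤ)) (hL v l) = hL (m v) (l.map m) := by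
  cases l with
  | nil => exact map_zero _
  | cons a t => exact lc_single _ _

lemma map_pi (m : V → V') (v : V) (l : List V) :
    lc (fun t => Finsupp.single (t.map m) (1 : ℤ)) (piL v l) = piL (m v) (l.map m) := by
  match l with
  | [] => exact lc_single _ _
  | [_] => exact lc_single _ _
  | _ :: _ :: _ => exact map_zero _

lemma cmap_cone (m : V → V') (v : V) (L : List I) (x : Ch I V) :
    cmap m (coneH v L x) = coneH (m v) L (cmap m x) := by
  induction L with
  | nil => simp [coneH]
  | cons k L ih =>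
    simp only [coneH, LinearMap.add_apply, Module.End.mul_apply, map_add]
    rw [cmap_slot m k (map_h m v), cmap_slot m k (map_pi m v), cmap_cf, ih]

lemma map_Tq {X Y : Type*} [AddCommGroup X] [AddCommGroup Y] (φ : X →ₗ[ℤ] Y)
    {s : Module.End ℤ X} {s' : Module.End ℤ Y} (h : ∀ x, φ (s x) = s' (φ x)) (p j : ℕ) (x : X) :
    φ (Tq s p j x) = Tq s' p j (φ x) := by
  have hp : ∀ n x, φ ((s ^ n) x) = (s' ^ n) (φ x) := by
    intro n
    induction n with
    | zero => intro x; rfl
    | succ n ih => intro x; simp only [pow_succ, Module.End.mul_apply, ih, h]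
  unfold Tq
  split_ifs
  · simp only [LinearMap.sub_apply, Module.End.one_apply, map_sub, h]
  · simp only [LinearMap.sum_apply, map_sum, hp]

lemma perm_slot (ρ : Equiv.Perm I) (i : I) (A : List V → (List V →₀ ℤ)) :
    perm ρ * slot i A = slot (ρ i) A * perm ρ :=
  ch_ext fun w e => by
    simp only [Module.End.mul_apply, slot_lc, map_lc, perm_gen, Function.update_comp_equiv,
      Equiv.symm_symm, Function.comp_apply, Equiv.symm_apply_apply]

lemma perm_gam (ρ : Equiv.Perm I) (i : I) :
    (perm ρ * cf (gam i) : Module.End ℤ (Ch I V)) = cf (gam (ρ i)) * perm ρ :=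
  ch_ext fun w e => by
    simp only [Module.End.mul_apply, cf_gen, perm_gen, emap_gam ρ.injective]

lemma pi_gen (k : I) (v : V) (w : I → List V) (e : EA I) :
    slot k (piL v) (gen w e) = 0 ∨ ((w k).length ≤ 1 ∧ ∃ w' : I → List V,
      (∀ i, (w' i).length = (w i).length) ∧ slot k (piL v) (gen w e) = gen w' e) := by
  have key : ∀ t : List V, t.length = (w k).length →
      ∀ i, (Function.update w k t i).length = (w i).length := by
    intro t ht i
    by_cases hi : i = k
    · subst hi
      simpa using ht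
    · rw [Function.update_of_ne hi]
  rw [slot_lc]
  match h : w k with
  | [] => exact Or.inr ⟨by simp, _, key [] (by rw [h]), lc_single _ _⟩
  | [_] => exact Or.inr ⟨by simp, _, key [v] (by rw [h]; rfl), lc_single _ _⟩
  | _ :: _ :: _ => exact Or.inl (map_zero _)

lemma coneP_gen (v : V) (L : List I) (w : I → List V) (e : EA I) :
    coneP v L (gen w e) = 0 ∨ ((∀ k ∈ L, (w k).length ≤ 1) ∧ ∃ w' : I → List V,
      (∀ i, (w' i).length = (w i).length) ∧ coneP v L (gen w e) = gen w' e) := by
  induction L with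
  | nil => exact Or.inr ⟨by simp, w, fun _ => rfl, rfl⟩
  | cons k L ih =>
    rw [coneP, Module.End.mul_apply]
    rcases ih with h | ⟨h1, w', h2, h3⟩
    · exact Or.inl (by rw [h, map_zero])
    · rw [h3]
      rcases pi_gen k v w' e with h | ⟨h4, w'', h5, h6⟩
      · exact Or.inl h
      · refine Or.inr ⟨fun j hj => ?_, w'', fun i => (h5 i).trans (h2 i), h6⟩
        rcases List.mem_cons.1 hj with rfl | hj
        · rwa [← h2]
        · exact h1 j hj

lemma coneP_base (v u : V) (L : List I) : coneP v L (base u : Ch I V) =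
    gen (fun i => if i ∈ L then [v] else [u]) 1 := by
  induction L with
  | nil => simp [coneP, base]
  | cons k L ih =>
    rw [coneP, Module.End.mul_apply, ih, slot_lc]
    have e1 : piL v (if k ∈ L then [v] else [u]) = Finsupp.single [v] 1 := by
      split_ifs <;> rfl
    rw [e1, lc_single]
    congr 1
    funext j
    by_cases hj : j = k
    · subst hj
      simp
    · simp [hj]

end ChainAux

open ChainAux

/-- The boundary of a generator. -/
lemma dd_gen (w : I → List V) (e : EA I) :
    dd (gen w e) =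
      ∑ i, dif (fun t => if t = [] then 0 else gen (Function.update w i t) (gam i e)) (w i) := by
  rw [dd, LinearMap.sum_apply]
  refine sum_congr rfl fun i _ => ?_
  rw [Module.End.mul_apply, cf_gen, slot_lc, bdL, lin_dif]
  refine congrArg (fun g => dif g (w i)) (funext fun t => ?_)
  cases t with
  | nil => exact map_zero _
  | cons a t => exact (lc_single _ _).trans (if_neg (List.cons_ne_nil _ _)).symm
lemma dd_mul_dd : (dd * dd : Module.End ℤ (Ch I V)) = 0 := by
  have key : ∀ s : Finset I, ((∑ i ∈ s, slot i bdL * cf (gam i)) *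
      ∑ i ∈ s, slot i bdL * cf (gam i) : Module.End ℤ (Ch I V)) = 0 := by
    intro s
    induction s using Finset.induction_on with
    | empty => simp
    | insert a s ha ih =>
      rw [sum_insert ha, mul_add, add_mul, add_mul, ih, sc_mul, b_b, zero_mul, zero_add, add_zero,
        sum_mul, mul_sum, ← sum_add_distrib]
      exact sum_eq_zero fun i hi => sc_anti (fun h : i = a => ha (h ▸ hi)) _ _
  exact key univ
lemma dd_HH (v : V) : (dd * HH v + HH v * dd : Module.End ℤ (Ch I V)) = 1 - PP v := by
  exact dd_cone v _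
lemma cmap_dd (m : V → V') (x : Ch I V) : cmap m (dd x) = dd (cmap m x) := by
  simp only [dd, LinearMap.sum_apply, Module.End.mul_apply, map_sum]
  exact sum_congr rfl fun i _ => by rw [cmap_slot m i (map_bd m), cmap_cf]
lemma cmap_HH (m : V → V') (v : V) (x : Ch I V) : cmap m (HH v x) = HH (m v) (cmap m x) := by
  exact cmap_cone m v _ x
lemma cmap_perm (m : V → V') (ρ : Equiv.Perm I) (x : Ch I V) :
    cmap m (perm ρ x) = perm ρ (cmap m x) := by
  induction x using ch_ind with
  | h0 => simp
  | ha x y a b => simp only [map_add, a, b]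
  | hg w e =>
    simp only [perm_gen, cmap_gen]
    rfl
lemma cmap_Tq (m : V → V') (ρ : Equiv.Perm I) (p j : ℕ) (x : Ch I V) :
    cmap m (Tq (perm ρ) p j x) = Tq (perm ρ) p j (cmap m x) := by
  exact map_Tq (cmap m) (cmap_perm m ρ) p j x
lemma cmap_base (m : V → V') (v : V) : cmap m (base v : Ch I V) = base (m v) := by
  simp [base, cmap_gen]
lemma perm_one : (perm 1 : Module.End ℤ (Ch I V)) = 1 := by
  refine ch_ext fun w e => ?_
  rw [perm_gen]
  exact congrArg (gen w) (emap_id e)
lemma perm_mul (ρ ρ' : Equiv.Perm I) :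
    (perm (ρ * ρ') : Module.End ℤ (Ch I V)) = perm ρ * perm ρ' := by
  refine ch_ext fun w e => ?_
  rw [Module.End.mul_apply, perm_gen, perm_gen, perm_gen, emap_emap]
  rfl
lemma perm_pow (ρ : Equiv.Perm I) (n : ℕ) :
    (perm (ρ ^ n) : Module.End ℤ (Ch I V)) = perm ρ ^ n := by
  induction n with
  | zero => rw [pow_zero, pow_zero, perm_one]
  | succ n ih => rw [pow_succ, pow_succ, perm_mul, ih]
lemma perm_dd (ρ : Equiv.Perm I) : (perm ρ * dd : Module.End ℤ (Ch I V)) = dd * perm ρ := by
  rw [dd, mul_sum, sum_mul, ← Equiv.sum_comp ρ fun i => slot i bdL * cf (gam i) * perm ρ]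
  refine sum_congr rfl fun i _ => ?_
  rw [← mul_assoc, perm_slot, mul_assoc, perm_gam, mul_assoc]
lemma Tq_dd (ρ : Equiv.Perm I) (p j : ℕ) :
    (Tq (perm ρ) p j * dd : Module.End ℤ (Ch I V)) = dd * Tq (perm ρ) p j := by
  refine LinearMap.ext fun x => ?_
  exact (map_Tq dd (fun y => (LinearMap.congr_fun (perm_dd ρ) y).symm) p j x).symm
lemma Tq_mul_Tq {A : Type*} [Ring A] {s : A} {p : ℕ} (h : s ^ p = 1) (j : ℕ) :
    Tq s p (j + 1) * Tq s p j = 0 := by
  unfold Tq
  by_cases hj : Even j
  · rw [if_pos hj, if_neg (by simpa [Nat.even_add_one] using hj), geom_sum_mul, h, sub_self]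
  · rw [if_neg hj, if_pos (Nat.even_add_one.2 hj), mul_geom_sum, h, sub_self]
lemma Tq_one_zero {A : Type*} [Ring A] (j : ℕ) : Tq (1 : A) 0 j = 0 := by
  unfold Tq
  split_ifs <;> simp
lemma dd_base (v : V) : dd (base v : Ch I V) = 0 := by
  rw [base, dd_gen]
  exact sum_eq_zero fun i _ => by simp [dif]
lemma PP_base (v u : V) : PP v (base u : Ch I V) = base v := by
  rw [PP, coneP_base]
  simp [base]
lemma perm_base (ρ : Equiv.Perm I) (v : V) : perm ρ (base v : Ch I V) = base v := by
  rw [base, perm_gen, map_one]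
  rfl

lemma gen_mem_Hg {w : I → List V} {g : Module.End ℤ (EA I)} {k : ℤ} (hk : (deg w : ℤ) = k)
    (hg : Par g fun i => (((w i).length - 1 : ℕ) : ZMod 2)) : gen w (g 1) ∈ Hg I V k :=
  AddSubgroup.subset_closure ⟨w, g, hk, hg, rfl⟩
/-- To show that a linear map sends `Hg k` into a subgroup, check the generators. -/
lemma Hg_map {X : Type*} [AddCommGroup X] (A : Ch I V →ₗ[ℤ] X) (Q : AddSubgroup X) {k : ℤ}
    (h : ∀ w g, (deg w : ℤ) = k → Par g (fun i => (((w i).length - 1 : ℕ) : ZMod 2)) →
      A (gen w (g 1)) ∈ Q) {x : Ch I V} (hx : x ∈ Hg I V k) : A x ∈ Q := by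
  have : Hg I V k ≤ Q.comap A.toAddMonoidHom := by
    refine (AddSubgroup.closure_le _).2 ?_
    rintro _ ⟨w, g, h1, h2, rfl⟩
    exact h w g h1 h2
  exact this hx
lemma Hg_neg {k : ℤ} (hk : k < 0) {x : Ch I V} (hx : x ∈ Hg I V k) : x = 0 := by
  exact Hg_map LinearMap.id ⊥ (fun w g h _ => by omega) hx
lemma base_mem (v : V) : (base v : Ch I V) ∈ Hg I V 0 := by
  refine gen_mem_Hg (g := 1) (by simp [deg]) ?_
  have e : (fun _ : I => ((([v] : List V).length - 1 : ℕ) : ZMod 2)) = 0 := by
    funext i
    simp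
  exact e ▸ par_one
namespace ChainAux

lemma pi_mem (i : I) (v : V) {k : ℤ} {x : Ch I V} (hx : x ∈ Hg I V k) :
    slot i (piL v) x ∈ Hg I V k := by
  refine Hg_map _ _ (fun w g h1 h2 => ?_) hx
  rcases pi_gen i v w (g 1) with h | ⟨-, w', h3, h⟩
  · rw [h]
    exact zero_mem _
  · rw [h]
    refine gen_mem_Hg ?_ ?_
    · simpa only [deg, h3] using h1
    · simpa only [h3] using h2

lemma h_mem (i : I) (v : V) {k : ℤ} {x : Ch I V} (hx : x ∈ Hg I V k) :
    (slot i (hL v) * cf (gam i) : Module.End ℤ (Ch I V)) x ∈ Hg I V (k + 1) := by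
  refine Hg_map _ _ (fun w g h1 h2 => ?_) hx
  rw [Module.End.mul_apply, cf_gen, slot_lc]
  match h : w i with
  | [] =>
    rw [hL, map_zero]
    exact zero_mem _
  | a :: t =>
    have e : ∀ j, (Function.update w i (v :: a :: t) j).length - 1 =
        (Pi.single i 1 : I → ℕ) j + ((w j).length - 1) := by
      intro j
      by_cases hj : j = i
      · subst hj
        simp [h, add_comm]
      · simp [hj]
    rw [hL, lc_single]
    refine gen_mem_Hg (g := gam i * g) ?_ ?_
    · rw [← h1]
      simp only [deg, e, sum_add_distrib, sum_pi_single', mem_univ, if_true]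
      push_cast
      ring
    · convert (par_gam i).mul h2 using 1
      funext j
      rw [e]
      by_cases hj : j = i
      · subst hj
        simp
      · simp [hj]

lemma cone_mem (v : V) (L : List I) {k : ℤ} {x : Ch I V} (hx : x ∈ Hg I V k) :
    coneH v L x ∈ Hg I V (k + 1) := by
  induction L with
  | nil => exact zero_mem _
  | cons i L ih => exact add_mem (h_mem i v hx) (pi_mem i v ih)

end ChainAux

lemma HH_mem (v : V) {k : ℤ} {x : Ch I V} (hx : x ∈ Hg I V k) : HH v x ∈ Hg I V (k + 1) := by
  exact cone_mem v _ hx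
lemma perm_mem (ρ : Equiv.Perm I) {k : ℤ} {x : Ch I V} (hx : x ∈ Hg I V k) :
    perm ρ x ∈ Hg I V k := by
  refine Hg_map _ _ (fun w g h1 h2 => ?_) hx
  obtain ⟨g', h3, h4⟩ := h2.emap ρ.injective
    (fun j => ((((w ∘ ρ.symm) j).length - 1 : ℕ) : ZMod 2)) (fun i => by simp)
    fun j hj => absurd (ρ.surjective j) hj
  rw [perm_gen, h4, map_one]
  refine gen_mem_Hg ?_ h3
  rw [← h1]
  exact congrArg _ (Equiv.sum_comp ρ.symm fun i => (w i).length - 1)
lemma Tq_mem (ρ : Equiv.Perm I) (p j : ℕ) {k : ℤ} {x : Ch I V} (hx : x ∈ Hg I V k) :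
    Tq (perm ρ) p j x ∈ Hg I V k := by
  have hp : ∀ n, (perm ρ ^ n) x ∈ Hg I V k := by
    intro n
    rw [← perm_pow]
    exact perm_mem _ hx
  unfold Tq
  split_ifs
  · exact sub_mem (perm_mem ρ hx) hx
  · rw [LinearMap.sum_apply]
    exact sum_mem fun i _ => hp i
lemma PP_eq_zero (v : V) {k : ℤ} (hk : 0 < k) {x : Ch I V} (hx : x ∈ Hg I V k) : PP v x = 0 := by
  refine Hg_map (PP v) ⊥ (fun w g h1 _ => ?_) hx
  rcases coneP_gen v (univ : Finset I).toList w (g 1) with h | ⟨h, -⟩
  · exact h
  · have : deg w = 0 := sum_eq_zero fun i hi => by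
      have := h i (mem_toList.2 hi)
      omega
    omega
lemma Hg_invo {k : ℕ} {x : Ch I V} (hx : x ∈ Hg I V k) : cf (invo I) x = (-1 : ℤ) ^ k • x := by
  have := Hg_map (cf (invo I) - (-1 : ℤ) ^ k • LinearMap.id) ⊥ (fun w g h1 h2 => by
    have h3 : deg w = k := by exact_mod_cast h1
    rw [AddSubgroup.mem_bot, LinearMap.sub_apply, cf_gen,
      h2.invo_one k (by rw [← h3, deg, Nat.cast_sum]), sub_eq_zero]
    exact map_smul (genL w) _ _) hx
  exact sub_eq_zero.1 this
lemma dif_mem {X : Type*} [AddCommGroup X] (Q : AddSubgroup X) (f : List V → X) (l : List V)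
    (h : ∀ t : List V, t.length + 1 = l.length → f t ∈ Q) : dif f l ∈ Q := by
  refine sum_mem fun i hi => zsmul_mem (h _ ?_) _
  have := mem_range.1 hi
  rw [List.length_eraseIdx_of_lt this]
  omega

section pairing
variable {R R' : Type*} [CommRing R] [CommRing R']

lemma pair_dd (F : I → List V → R) (hF : ∀ i, F i [] = 0) (τ : EA I →ₗ[ℤ] ℤ) (x : Ch I V) :
    pair F τ (dd x) = ∑ i, pair (Function.update F i (dif (F i))) (τ ∘ₗ gam i) x := by
  induction x using ch_ind with
  | h0 => simp
  | ha x y a b => simp only [map_add, a, b, sum_add_distrib]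
  | hg w e =>
    rw [dd_gen, map_sum]
    refine sum_congr rfl fun i _ => ?_
    have e1 : ∀ t, ∏ j, F j (Function.update w i t j) = F i t * ∏ j ∈ univ.erase i, F j (w j) := by
      intro t
      rw [← mul_prod_erase _ _ (mem_univ i), Function.update_self]
      congr 1
      exact prod_congr rfl fun j hj => by rw [Function.update_of_ne (ne_of_mem_erase hj)]
    have e2 : ∏ j, Function.update F i (dif (F i)) j (w j) =
        dif (F i) (w i) * ∏ j ∈ univ.erase i, F j (w j) := by
      rw [← mul_prod_erase _ _ (mem_univ i), Function.update_self]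
      congr 1
      exact prod_congr rfl fun j hj => by rw [Function.update_of_ne (ne_of_mem_erase hj)]
    have e3 := lin_dif (τ (gam i e) • LinearMap.mulRight ℤ (∏ j ∈ univ.erase i, F j (w j)))
      (F i) (w i)
    simp only [LinearMap.smul_apply, LinearMap.mulRight_apply] at e3
    rw [lin_dif, pair_gen, e2, LinearMap.comp_apply, e3]
    refine congrArg (fun g => dif g (w i)) (funext fun t => ?_)
    split_ifs with ht
    · rw [ht, hF, map_zero, zero_mul, smul_zero]
    · rw [pair_gen, e1]
lemma pair_eq_zero_of_slot (F : I → List V → R) (i : I) (hF : ∀ l, F i l = 0) (τ : EA I →ₗ[ℤ] ℤ)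
    (x : Ch I V) : pair F τ x = 0 := by
  induction x using ch_ind with
  | h0 => simp
  | ha x y a b => simp only [map_add, a, b, add_zero]
  | hg w e =>
    rw [pair_gen, prod_eq_zero (mem_univ i) (hF _), smul_zero]
lemma pair_dd_eq_zero (F : I → List V → R) (hF : ∀ i, F i [] = 0) (hd : ∀ i l, dif (F i) l = 0)
    (τ : EA I →ₗ[ℤ] ℤ) (x : Ch I V) : pair F τ (dd x) = 0 := by
  rw [pair_dd F hF]
  exact sum_eq_zero fun i _ => pair_eq_zero_of_slot _ i
    (fun l => by rw [Function.update_self]; exact hd i l) _ _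
lemma pair_cmap (φ : R →+* R') (m : V → V') (F : I → List V → R) (F' : I → List V' → R')
    (c : I → R') (h : ∀ i l, F' i (l.map m) = c i * φ (F i l)) (τ : EA I →ₗ[ℤ] ℤ) (x : Ch I V) :
    pair F' τ (cmap m x) = (∏ i, c i) * φ (pair F τ x) := by
  induction x using ch_ind with
  | h0 => simp
  | ha x y a b => simp only [map_add, a, b, mul_add]
  | hg w e =>
    simp only [cmap_gen, pair_gen, h, prod_mul_distrib, map_zsmul, map_prod, mul_smul_comm]
lemma pair_perm (F : I → List V → R) (τ : EA I →ₗ[ℤ] ℤ) (ρ : Equiv.Perm I) (x : Ch I V) :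
    pair F τ (perm ρ x) = pair (F ∘ ρ) (τ ∘ₗ (emap ρ).toLinearMap) x := by
  induction x using ch_ind with
  | h0 => simp
  | ha x y a b => simp only [map_add, a, b]
  | hg w e =>
    rw [perm_gen, pair_gen, pair_gen, ← Equiv.prod_comp ρ]
    simp
lemma pair_Hg (F : I → List V → R) (n : I → ℕ) (hF : ∀ i l, l.length ≠ n i + 1 → F i l = 0)
    (τ : EA I →ₗ[ℤ] ℤ) {k : ℤ} (hk : k ≠ ((∑ i, n i : ℕ) : ℤ)) {x : Ch I V} (hx : x ∈ Hg I V k) :
    pair F τ x = 0 := by
  refine Hg_map (pair F τ) ⊥ (fun w g h1 _ => ?_) hx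
  rw [AddSubgroup.mem_bot, pair_gen]
  by_cases h : ∀ i, (w i).length = n i + 1
  · refine absurd ?_ hk
    rw [← h1, deg]
    simp only [h, Nat.add_sub_cancel]
  · push Not at h
    obtain ⟨i, hi⟩ := h
    rw [prod_eq_zero (mem_univ i) (hF i _ hi), smul_zero]
/-- If the data are invariant under `ρ` and `p = 0` in `R`, the pairing kills the image of `Tq`. -/
lemma pair_Tq (F : I → List V → R) (τ : EA I →ₗ[ℤ] ℤ) (ρ : Equiv.Perm I) (p : ℕ)
    (hp : (p : R) = 0) (hF : F ∘ ρ = F) (hτ : ∀ e, τ (emap ρ e) = τ e) (j : ℕ) (x : Ch I V) :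
    pair F τ (Tq (perm ρ) p j x) = 0 := by
  have h1 : ∀ y, pair F τ (perm ρ y) = (1 : Module.End ℤ R) (pair F τ y) := fun y => by
    rw [pair_perm, hF, show τ ∘ₗ (emap ρ).toLinearMap = τ from LinearMap.ext hτ]
    rfl
  rw [map_Tq (pair F τ) h1]
  unfold Tq
  split_ifs
  · simp
  · simp [hp]
lemma pair_smul_tau (F : I → List V → R) (c : ℤ) (τ : EA I →ₗ[ℤ] ℤ) (x : Ch I V) :
    pair F (c • τ) x = c • pair F τ x := by
  induction x using ch_ind with
  | h0 => simp
  | ha x y a b => simp only [map_add, a, b, smul_add]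
  | hg w e =>
    rw [pair_gen, pair_gen, LinearMap.smul_apply, smul_assoc]

end pairing

end Pool.Agent.Lib.MP_5f3851_al
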