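import Pool.Agent.Lib.MP_5f3851_al.Steen
import Pool.Agent.Lib.MP_5f3851_al.Split

/-! Graded commutativity, and `D_0` is the `p`-th power in even degrees. -/

set_option linter.unusedSectionVars false

namespace Pool.Agent.Lib.MP_5f3851_al

open Finset Cochain

universe u v

variable {S : Site.{u, v}}

namespace CommAux

variable {I : Type} [Fintype I] [DecidableEq I]

lemma gam_pow_sq (i : I) (a : ℕ) : gam i ^ a * gam i ^ a = 1 := by
  rw [← pow_add]
  exact gam_pow_even i ⟨a, rfl⟩

lemma gam_pow_pow {i j : I} (h : i ≠ j) (a b : ℕ) :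
    gam i ^ a * gam j ^ b = (-1 : ℤ) ^ (a * b) • (gam j ^ b * gam i ^ a) := by
  induction a with
  | zero => simp
  | succ a ih =>
    rw [pow_succ', mul_assoc, ih, mul_smul_comm, ← mul_assoc, gam_mul_pow h, smul_mul_assoc,
      smul_smul, ← pow_add, mul_assoc, Nat.succ_mul]

/-- The iterated splitting of the slot `i` into the slots of `L`. -/
noncomputable def spl {V : Type u} (i : I) (L : List I) : Module.End ℤ (Ch I V) :=
  (L.map (asp i)).prod

lemma spl_nil {V : Type u} (i : I) (x : Ch I V) : spl i [] x = x := rfl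

lemma spl_cons {V : Type u} (i k : I) (L : List I) (x : Ch I V) :
    spl i (k :: L) x = asp i k (spl i L x) := rfl

lemma cmap_spl {V V' : Type u} (m : V → V') (i : I) (L : List I) (x : Ch I V) :
    cmap m (spl i L x) = spl i L (cmap m x) := by
  induction L with
  | nil => rfl
  | cons k L ih => rw [spl_cons, spl_cons, cmap_asp, ih]

lemma dd_spl {V : Type u} {i : I} {L : List I} (hi : i ∉ L) (x : Ch I V) :
    dd (spl i L x) = spl i L (dd x) := by
  induction L with
  | nil => rfl
  | cons k L ih =>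
    rw [List.mem_cons, not_or] at hi
    rw [spl_cons, spl_cons, ← ih hi.2]
    exact (LinearMap.congr_fun (asp_dd hi.1) _).symm

lemma spl_mem {V : Type u} {i : I} {L : List I} (hi : i ∉ L) {k : ℤ} {x : Ch I V}
    (hx : x ∈ Hg I V k) : spl i L x ∈ Hg I V k := by
  induction L with
  | nil => exact hx
  | cons k L ih =>
    rw [List.mem_cons, not_or] at hi
    exact asp_mem hi.1 (ih hi.2)

lemma spl_single {V : Type u} {i : I} {L : List I} (hi : i ∉ L) (hL : L.Nodup) (v : V) :
    spl i L (Jf i [v]) = gen (fun k => if k = i ∨ k ∈ L then [v] else []) 1 := by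
  induction L with
  | nil =>
    rw [spl_nil, Jf_single]
    congr 1
    funext k
    by_cases h : k = i <;> simp [h]
  | cons a L ih =>
    rw [List.mem_cons, not_or] at hi
    rw [List.nodup_cons] at hL
    rw [spl_cons, ih hi.2 hL.2, asp_gen_single _ v (by simp)
      (by simp [hL.1, Ne.symm hi.1])]
    congr 1
    funext k
    by_cases h : k = a <;> simp [h]

/-- The family of chains attached to an iterated splitting. -/
noncomputable def splN (i : I) (L : List I) : NatFam.{u} I :=
  ⟨fun _ l => spl i L (Jf i l), fun _ _ m l => by rw [cmap_spl, cmap_Jf]⟩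

lemma splN_nil (i : I) (L : List I) (V : Type u) : (splN i L).val V [] = 0 := by
  show spl i L (Jf i []) = 0
  rw [Jf_nil, map_zero]

lemma splN_mem {i : I} {L : List I} (hi : i ∉ L) (V : Type u) (l : List V) :
    (splN i L).val V l ∈ Hg I V (l.length - 1) := spl_mem hi (Jf_mem i l)

lemma splN_dd {i : I} {L : List I} (hi : i ∉ L) (V : Type u) (l : List V) :
    dd ((splN i L).val V l) = dif ((splN i L).val V) l := by
  show dd (spl i L (Jf i l)) = dif (fun t => spl i L (Jf i t)) l
  rw [dd_spl hi, dd_Jf, ChainAux.lin_dif]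

lemma splN_single {i : I} {L : List I} (hi : i ∉ L) (hL : L.Nodup) (hall : ∀ k, k = i ∨ k ∈ L)
    (V : Type u) (v : V) : (splN i L).val V [v] = base v := by
  show spl i L (Jf i [v]) = base v
  rw [spl_single hi hL, base]
  simp only [hall, if_true]

lemma pair_two {i j : I} (h : i ≠ j) (hall : ∀ k, k = i ∨ k = j) (F : I → Cochain S) {a b : ℕ}
    (ha : Hom a (F i)) (hb : Hom b (F j)) (τ : EA I →ₗ[ℤ] ℤ) :
    pairC F τ (splN i [j]) (a + b) = τ ((gam i ^ a * gam j ^ b) 1) • (F i * F j) := by
  ext s l
  rw [pairC_val, zsmul_val]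
  split_ifs with hl
  · show pair _ τ (asp i j (Jf i l)) = _
    rw [pair_asp h _ a b (ha s) (hb s), pair_Jf i]
    · rw [Function.update_of_ne h, Function.update_self, hl, Nat.add_sub_cancel,
        LinearMap.comp_apply, ← Module.End.mul_apply, Uw, mul_assoc, gam_pow_sq, mul_one]
      rfl
    · rw [Function.update_of_ne h, Function.update_self, cup_nil]
    · intro k hk
      rw [(hall k).resolve_left hk, Function.update_self, dnil, if_pos rfl]
  · rw [ha.mul hb s l hl, smul_zero]

lemma pair_spl {i : I} {L : List I} (hi : i ∉ L) (hL : L.Nodup) {n : ℕ} (hn : Even n)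
    {f : Cochain S} (hf : Hom n f) (τ : EA I →ₗ[ℤ] ℤ) (s : S.ι) (x : Ch I (S.V s)) {a : ℕ}
    (ha : Even a) {g : Cochain S} (hg : Hom a g) :
    pair (fun k => if k = i then g.val s else if k ∈ L then f.val s else dnil) τ (spl i L x) =
      pair (fun k => if k = i then (g * f ^ L.length).val s else dnil) τ x := by
  induction L generalizing a g with
  | nil => simp [spl_nil]
  | cons k L ih =>
    rw [List.mem_cons, not_or] at hi
    rw [List.nodup_cons] at hL
    have hk : k ≠ i := Ne.symm hi.1
    rw [spl_cons, pair_asp hi.1 _ a n (by simpa using hg s) (by simpa [hk] using hf s),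
      Uw_even i k ha hn, List.length_cons, pow_succ', ← mul_assoc,
      ← ih hi.2 hL.2 (ha.add hn) (hg.mul hf)]
    congr 2
    funext t
    by_cases h1 : t = k
    · simp [h1, hk, hL.1]
    · by_cases h2 : t = i
      · simp [h2, hi.1, hk, Cochain.mul_val]
      · simp [h1, h2]

end CommAux

open CommAux

theorem Hn_comm {m n : ℕ} {x y : H S} (hx : x ∈ Hn S m) (hy : y ∈ Hn S n) :
    x * y = (-1 : ℤ) ^ (m * n) • (y * x) := by
  obtain ⟨f, hf, hf', rfl⟩ := hx
  obtain ⟨g, hg, hg', rfl⟩ := hy
  let F : Bool → Cochain S := fun k => cond k g f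
  let τ : EA Bool →ₗ[ℤ] ℤ := tau0 Bool ∘ₗ (gam true ^ n * gam false ^ m)
  have key := cls_pairC_eq_plain (splN false [true]) (splN true [false]) (splN_nil _ _)
    (splN_nil _ _) (splN_mem (by simp)) (splN_mem (by simp)) (splN_dd (by simp))
    (splN_dd (by simp))
    (fun V v => by
      rw [splN_single (by simp) (by simp) (by simp), splN_single (by simp) (by simp) (by simp)])
    F (fun k => by cases k; exacts [hf, hg]) τ (m + n)
  have t1 : τ ((gam false ^ m * gam true ^ n) 1) = 1 := by
    show tau0 Bool ((gam true ^ n * gam false ^ m * (gam false ^ m * gam true ^ n)) 1) = 1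
    rw [mul_assoc, ← mul_assoc (gam false ^ m), gam_pow_sq, one_mul, gam_pow_sq]
    exact tau0_one
  have t2 : τ ((gam true ^ n * gam false ^ m) 1) = (-1) ^ (m * n) := by
    rw [gam_pow_pow (by simp : true ≠ false), LinearMap.smul_apply, map_zsmul, t1, mul_comm n m]
    simp
  rw [pair_two (by simp) (by simp) F hf' hg', add_comm m n,
    pair_two (by simp) (by simp) F hg' hf', t1, t2, one_smul] at key
  rw [← cls_mul hf hg, ← cls_mul hg hf, ← cls_zsmul (d_mul_eq_zero hg hf)]
  exact key

lemma Hn_even_comm {m : ℕ} (hm : Even m) {x : H S} (hx : x ∈ Hn S m) (y : H S) :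
    x * y = y * x := by
  refine H_induction (Q := fun y => x * y = y * x) (by simp)
    (fun a b ha hb => by rw [mul_add, add_mul, ha, hb]) (fun n y hy => ?_) y
  rw [Hn_comm hx hy, (hm.mul_right n).neg_one_pow, one_smul]

variable (p : ℕ) [Fact p.Prime] [Fact (5 ≤ p)] [CharS S p]

theorem St_zero {n : ℕ} (hn : Even n) :
    ∃ ε : ℤ, (ε = 1 ∨ ε = -1) ∧ ∀ x ∈ Hn S n, St p n 0 x = ε • x ^ p := by
  refine ⟨tau (ZMod p) n 1, ?_, ?_⟩
  · rcases tau_even (I := ZMod p) hn with h | h <;> simp [h, tau0_one]
  rintro _ ⟨f, hf, hf', rfl⟩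
  set L := ((univ : Finset (ZMod p)).erase 0).toList with hL
  have h0 : (0 : ZMod p) ∉ L := by simp [hL]
  have hnd : L.Nodup := nodup_toList _
  have hall : ∀ k : ZMod p, k = 0 ∨ k ∈ L := fun k => by
    by_cases h : k = 0 <;> simp [hL, h]
  have hlen : L.length + 1 = p := by
    rw [hL, length_toList, card_erase_add_one (mem_univ _), card_univ, ZMod.card]
  have key := cls_pairC_eq_plain (phiN p 0) (splN 0 L) (fun V => phi_nil _ _ _) (splN_nil _ _)
    (fun V l => by simpa [phiN] using phi_mem (V := V) (rot_pow p) 0 l) (splN_mem h0)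
    (fun V l => by simpa [Tp, phiN] using phi_eq (V := V) (rot_pow p) 0 l) (splN_dd h0)
    (fun V v => by rw [splN_single h0 hnd hall]; exact phi_zero_single _ _ v)
    (fun _ => f) (fun _ => hf) (tau (ZMod p) n) (n * p - 0)
  rw [St_cls p 0 hf hf', Dop, key, ← cls_pow hf, ← cls_zsmul (d_pow_eq_zero hf p)]
  congr 1
  ext s l
  rw [pairC_val, zsmul_val]
  split_ifs with hl
  · have e : (fun _ : ZMod p => f.val s) =
        fun k => if k = 0 then f.val s else if k ∈ L then f.val s else dnil := by
      funext k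
      rcases hall k with h | h <;> simp [h]
    show pair (fun _ => f.val s) _ (spl 0 L (Jf 0 l)) = _
    rw [e, pair_spl h0 hnd hn hf' _ s _ hn hf', ← pow_succ', hlen, pair_Jf 0, if_pos rfl, hl,
      Nat.add_sub_cancel, gam_pow_even _ (by simpa using hn.mul_right p)]
    · rfl
    · rw [if_pos rfl, Cochain.nil]
    · intro k hk
      rw [if_neg hk, dnil, if_pos rfl]
  · rw [hf'.pow p s l (by rw [mul_comm]; simpa using hl), smul_zero]

end Pool.Agent.Lib.MP_5f3851_al
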