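import Mathlib

/-! The polynomial `((a + b)^p - a^p - b^p) / p` and Frobenius in rings where `p = 0`. -/

set_option linter.unusedSectionVars false

namespace Pool.Agent.Lib.MP_5f3851_al

open Finset

variable {R R' : Type*} [CommRing R] [CommRing R']

/-- `((a + b)^p - a^p - b^p) / p`. -/
def Phi (p : ℕ) (a b : R) : R :=
  ∑ k ∈ Ioo 0 p, a ^ k * b ^ (p - k) * ((p.choose k / p : ℕ) : R)

lemma map_Phi (φ : R →+* R') (p : ℕ) (a b : R) : φ (Phi p a b) = Phi p (φ a) (φ b) := by
  simp [Phi]

variable {p : ℕ} [Fact p.Prime]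

lemma add_pow_pp (h : (p : R) = 0) (a b : R) (n : ℕ) :
    (a + b) ^ p ^ n = a ^ p ^ n + b ^ p ^ n := by
  have := add_pow_prime_pow_eq (Fact.out : p.Prime) a b n
  rw [this, h, zero_mul, zero_mul, zero_mul, add_zero]

/-- The `n`-th iterate of Frobenius in a ring where `p = 0`. -/
def frobR (h : (p : R) = 0) (n : ℕ) : R →+* R where
  toFun a := a ^ p ^ n
  map_one' := one_pow _
  map_mul' a b := mul_pow a b _
  map_zero' := zero_pow (pow_pos (Fact.out : p.Prime).pos n).ne'
  map_add' a b := add_pow_pp h a b n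

lemma frobR_apply (h : (p : R) = 0) (n : ℕ) (a : R) : frobR h n a = a ^ p ^ n := rfl
lemma sub_pow_pp (h : (p : R) = 0) (a b : R) (n : ℕ) :
    (a - b) ^ p ^ n = a ^ p ^ n - b ^ p ^ n := map_sub (frobR h n) a b
lemma neg_pow_pp (h : (p : R) = 0) (a : R) (n : ℕ) : (-a) ^ p ^ n = - a ^ p ^ n :=
  map_neg (frobR h n) a
lemma Phi_pow_pp (h : (p : R) = 0) (a b : R) (n : ℕ) :
    Phi p a b ^ p ^ n = Phi p (a ^ p ^ n) (b ^ p ^ n) := map_Phi (frobR h n) p a b
lemma natCast_pow_pp (h : (p : R) = 0) (m n : ℕ) : (m : R) ^ p ^ n = m := map_natCast (frobR h n) m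

lemma p_mul_Phi (a b : R) : (p : R) * Phi p a b = (a + b) ^ p - a ^ p - b ^ p := by
  have := (Commute.all a b).add_pow_prime_eq' (Fact.out : p.Prime)
  rw [this, Phi]; ring
lemma Phi_zero_left (b : R) : Phi p 0 b = 0 := by
  refine sum_eq_zero fun k hk => ?_
  rw [mem_Ioo] at hk
  rw [zero_pow hk.1.ne', zero_mul, zero_mul]
lemma Phi_zero_right (a : R) : Phi p a 0 = 0 := by
  refine sum_eq_zero fun k hk => ?_
  rw [mem_Ioo] at hk
  rw [zero_pow (by omega), mul_zero, zero_mul]
lemma Phi_mul (c a b : R) : Phi p (c * a) (c * b) = c ^ p * Phi p a b := by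
  rw [Phi, Phi, mul_sum]
  refine sum_congr rfl fun k hk => ?_
  rw [mem_Ioo] at hk
  have : c ^ p = c ^ k * c ^ (p - k) := by rw [← pow_add]; congr 1; omega
  rw [this, mul_pow, mul_pow]; ring
/-- Cancellation of `p` in the polynomial ring over the integers. -/
lemma cancel_p {σ : Type*} {a b : MvPolynomial σ ℤ} (h : (p : MvPolynomial σ ℤ) * a = p * b) :
    a = b :=
  mul_left_cancel₀ (Nat.cast_ne_zero.2 (Fact.out : p.Prime).ne_zero) h

/-- Evaluation of the variable `X a` at `a`. -/
noncomputable def evId (R : Type*) [CommRing R] : MvPolynomial R ℤ →+* R :=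
  MvPolynomial.eval₂Hom (Int.castRingHom R) id

@[simp] lemma evId_X (a : R) : evId R (MvPolynomial.X a) = a := by simp [evId]

lemma Phi_cocycle (a b c : R) :
    Phi p b c - Phi p (a + b) c + Phi p a (b + c) - Phi p a b = 0 := by
  have h : ∀ a b c : MvPolynomial R ℤ,
      Phi p b c - Phi p (a + b) c + Phi p a (b + c) - Phi p a b = 0 := fun a b c =>
    cancel_p (p := p) (by simp only [mul_sub, mul_add, p_mul_Phi, add_assoc]; ring)
  simpa [map_Phi] using
    congrArg (evId R) (h (MvPolynomial.X a) (MvPolynomial.X b) (MvPolynomial.X c))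
lemma Phi_add (a a' b b' : R) :
    Phi p (a + a') (b + b') + Phi p a a' + Phi p b b' =
      Phi p a b + Phi p a' b' + Phi p (a + b) (a' + b') := by
  have h : ∀ a a' b b' : MvPolynomial R ℤ, Phi p (a + a') (b + b') + Phi p a a' + Phi p b b' =
      Phi p a b + Phi p a' b' + Phi p (a + b) (a' + b') := fun a a' b b' =>
    cancel_p (p := p) (by
      simp only [mul_add, p_mul_Phi]
      rw [add_add_add_comm a b a' b']; ring)
  simpa [map_Phi] using congrArg (evId R)
    (h (MvPolynomial.X a) (MvPolynomial.X a') (MvPolynomial.X b) (MvPolynomial.X b'))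
lemma Phi_neg (hp : Odd p) (a b : R) : Phi p (-a) (-b) = - Phi p a b := by
  have := Phi_mul (p := p) (-1) a b
  rwa [neg_one_mul, neg_one_mul, hp.neg_one_pow, neg_one_mul] at this
lemma Phi_neg_self (hp : Odd p) (a : R) : Phi p a (-a) = 0 := by
  have h : ∀ a : MvPolynomial R ℤ, Phi p a (-a) = 0 := fun a =>
    cancel_p (p := p) (by
      rw [p_mul_Phi, add_neg_cancel, hp.neg_pow, zero_pow (Fact.out : p.Prime).ne_zero]; ring)
  simpa [map_Phi] using congrArg (evId R) (h (MvPolynomial.X a))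
/-- The derivative in the first variable. -/
lemma coeff_one_Phi (a b : R) :
    (Phi p (Polynomial.C a + Polynomial.X) (Polynomial.C b)).coeff 1 =
      (a + b) ^ (p - 1) - a ^ (p - 1) := by
  have h : ∀ a b : MvPolynomial R ℤ,
      (Phi p (Polynomial.C a + Polynomial.X) (Polynomial.C b)).coeff 1 =
        (a + b) ^ (p - 1) - a ^ (p - 1) := fun a b =>
    cancel_p (p := p) (by
      have h1 := congrArg (fun f => Polynomial.coeff f 1)
        (p_mul_Phi (p := p) (Polynomial.C a + Polynomial.X) (Polynomial.C b))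
      have e : Polynomial.C a + Polynomial.X + Polynomial.C b =
          Polynomial.X + Polynomial.C (a + b) := by rw [map_add]; ring
      rw [e] at h1
      simp only [add_comm (Polynomial.C a) Polynomial.X, Polynomial.coeff_sub,
        Polynomial.coeff_X_add_C_pow, ← map_pow, Polynomial.coeff_C, one_ne_zero, if_false,
        Nat.choose_one_right, Polynomial.coeff_natCast_mul] at h1
      rw [add_comm (Polynomial.C a) Polynomial.X, h1]; ring)
  have h2 := congrArg (evId R) (h (MvPolynomial.X a) (MvPolynomial.X b))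
  rw [← Polynomial.coeff_map, ← Polynomial.coe_mapRingHom, map_Phi] at h2
  simpa using h2

/-- The two-cochain of the Heisenberg group that extends `Phi (z, z')`. -/
def Phi4 (p : ℕ) (h x y z x' y' z' : R) : R :=
  Phi p z z' + Phi p (h * (x * y')) (-(h * (x' * y))) + Phi p (z + z') (h * (x * y' - x' * y))

lemma map_Phi4 (φ : R →+* R') (p : ℕ) (h x y z x' y' z' : R) :
    φ (Phi4 p h x y z x' y' z') = Phi4 p (φ h) (φ x) (φ y) (φ z) (φ x') (φ y') (φ z') := by
  simp [Phi4, map_Phi]

/-- The coboundary of `Phi4`. -/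
lemma Phi4_cocycle (hp : Odd p) (h x y z x' y' z' x'' y'' z'' : R) :
    Phi4 p h x' y' z' x'' y'' z''
      - Phi4 p h (x + x') (y + y') (z + z' + h * (x * y' - x' * y)) x'' y'' z''
      + Phi4 p h x y z (x' + x'') (y' + y'') (z' + z'' + h * (x' * y'' - x'' * y'))
      - Phi4 p h x y z x' y' z' =
    h ^ p * (Phi p x x' * y'' ^ p - x ^ p * Phi p y' y''
      - Phi p y y' * x'' ^ p + y ^ p * Phi p x' x'') := by
  have h0 : ∀ h x y z x' y' z' : MvPolynomial R ℤ, (p : MvPolynomial R ℤ) * Phi4 p h x y z x' y' z' =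
      (z + z' + h * (x * y' - x' * y)) ^ p - z ^ p - z' ^ p - h ^ p * (x ^ p * y' ^ p) +
        h ^ p * (x' ^ p * y ^ p) := by
    intro h x y z x' y' z'
    have e : h * (x * y') + -(h * (x' * y)) = h * (x * y' - x' * y) := by ring
    simp only [Phi4, mul_add, p_mul_Phi, e, hp.neg_pow, mul_pow]; ring
  have h1 : ∀ h x y z x' y' z' x'' y'' z'' : MvPolynomial R ℤ, Phi4 p h x' y' z' x'' y'' z''
      - Phi4 p h (x + x') (y + y') (z + z' + h * (x * y' - x' * y)) x'' y'' z''
      + Phi4 p h x y z (x' + x'') (y' + y'') (z' + z'' + h * (x' * y'' - x'' * y'))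
      - Phi4 p h x y z x' y' z' =
    h ^ p * (Phi p x x' * y'' ^ p - x ^ p * Phi p y' y''
      - Phi p y y' * x'' ^ p + y ^ p * Phi p x' x'') := by
    intro h x y z x' y' z' x'' y'' z''
    refine cancel_p (p := p) ?_
    have e : z + (z' + z'' + h * (x' * y'' - x'' * y')) + h * (x * (y' + y'') - (x' + x'') * y) =
        z + z' + h * (x * y' - x' * y) + z'' + h * ((x + x') * y'' - x'' * (y + y')) := by ring
    have e1 := p_mul_Phi (p := p) x x'
    have e2 := p_mul_Phi (p := p) y' y''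
    have e3 := p_mul_Phi (p := p) y y'
    have e4 := p_mul_Phi (p := p) x' x''
    rw [mul_sub, mul_add, mul_sub, h0, h0, h0, h0, e]
    linear_combination (-h ^ p * y'' ^ p) * e1 + (h ^ p * x ^ p) * e2 + (h ^ p * x'' ^ p) * e3 -
      (h ^ p * y ^ p) * e4
  simpa [map_Phi, map_Phi4] using congrArg (evId R) (h1 (MvPolynomial.X h) (MvPolynomial.X x)
    (MvPolynomial.X y) (MvPolynomial.X z) (MvPolynomial.X x') (MvPolynomial.X y')
    (MvPolynomial.X z') (MvPolynomial.X x'') (MvPolynomial.X y'') (MvPolynomial.X z''))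

end Pool.Agent.Lib.MP_5f3851_al
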