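import Pool.Agent.Lib.MP_5f3851_al.Maps
import Pool.Agent.Lib.MP_5f3851_al.Phi

/-! The classes attached to an additive coordinate, and the Frobenius twist. -/

set_option linter.unusedSectionVars false

namespace Pool.Agent.Lib.MP_5f3851_al

open Finset Cochain

universe u v

/-- A function on points whose differences are invariant. -/
structure Aff (S : Site.{u, v}) where
  a : ∀ i, S.V i → S.R i
  nat : ∀ i j φ m, S.Arr i j φ m → ∀ v w, φ (a i w - a i v) = a j (m w) - a j (m v)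

variable {S S' : Site.{u, v}} (p : ℕ)

/-- The one-cochain `(a v₁ - a v₀)^(p^k)`. -/
def lamC (a : Aff S) (k : ℕ) : Cochain S :=
  c1 (fun i v w => (a.a i w - a.a i v) ^ p ^ k) fun i j φ m h v w => by
    rw [map_pow, a.nat i j φ m h]

/-- The two-cochain `Phi ((a v₁ - a v₀)^(p^k), (a v₂ - a v₁)^(p^k))`. -/
def xxC (a : Aff S) (k : ℕ) : Cochain S :=
  c2 (fun i v w x => Phi p ((a.a i w - a.a i v) ^ p ^ k) ((a.a i x - a.a i w) ^ p ^ k))
    fun i j φ m h v w x => by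
      rw [map_Phi, map_pow, map_pow, a.nat i j φ m h, a.nat i j φ m h]

/-- The class of degree one. -/
noncomputable def lam (a : Aff S) (k : ℕ) : H S := cls (lamC p a k)
/-- The class of degree two. -/
noncomputable def xx (a : Aff S) (k : ℕ) : H S := cls (xxC p a k)

lemma lamC_hom (a : Aff S) (k : ℕ) : Hom 1 (lamC p a k) := c1_hom _ _
lemma xxC_hom (a : Aff S) (k : ℕ) : Hom 2 (xxC p a k) := c2_hom _ _
lemma lamC_val (a : Aff S) (k : ℕ) (i : S.ι) (v w : S.V i) :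
    (lamC p a k).val i [v, w] = (a.a i w - a.a i v) ^ p ^ k := rfl
lemma xxC_val (a : Aff S) (k : ℕ) (i : S.ι) (v w x : S.V i) : (xxC p a k).val i [v, w, x] =
    Phi p ((a.a i w - a.a i v) ^ p ^ k) ((a.a i x - a.a i w) ^ p ^ k) := rfl

variable [Fact p.Prime] [CharS S p] [CharS S' p]

lemma d_lamC (a : Aff S) (k : ℕ) : d (lamC p a k) = 0 := by
  refine (lamC_hom p a k).d.ext2 (hom_zero 2) fun i u v w => ?_
  rw [d_val3, zero_val]
  simp only [lamC_val, sub_pow_pp (CharS.out i : (p : S.R i) = 0)]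
  ring
lemma d_xxC (a : Aff S) (k : ℕ) : d (xxC p a k) = 0 := by
  refine (xxC_hom p a k).d.ext3 (hom_zero 3) fun i u v w x => ?_
  rw [d_val4, zero_val]
  simp only [xxC_val, sub_pow_pp (CharS.out i : (p : S.R i) = 0)]
  have := Phi_cocycle (p := p) (a.a i v ^ p ^ k - a.a i u ^ p ^ k)
    (a.a i w ^ p ^ k - a.a i v ^ p ^ k) (a.a i x ^ p ^ k - a.a i w ^ p ^ k)
  rwa [sub_add_sub_cancel', sub_add_sub_cancel'] at this
lemma lam_mem (a : Aff S) (k : ℕ) : lam p a k ∈ Hn S 1 :=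
  cls_mem_Hn (d_lamC p a k) (lamC_hom p a k)
lemma xx_mem (a : Aff S) (k : ℕ) : xx p a k ∈ Hn S 2 := cls_mem_Hn (d_xxC p a k) (xxC_hom p a k)
lemma lam_eq_zero (a : Aff S) (k : ℕ) (h : ∀ i v w, (a.a i w - a.a i v) ^ p ^ k = 0) :
    lam p a k = 0 := by
  rw [lam, (lamC_hom p a k).ext1 (hom_zero 1) fun i v w => h i v w, cls_zero]
lemma xx_eq_zero (a : Aff S) (k : ℕ) (h : ∀ i v w, (a.a i w - a.a i v) ^ p ^ k = 0) :
    xx p a k = 0 := by
  rw [xx, (xxC_hom p a k).ext2 (hom_zero 2) fun i v w x => by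
    rw [xxC_val, h, Phi_zero_left, zero_val], cls_zero]

lemma pull_lamC (T : SiteMap S S') (hT : T.IsRing) (a' : Aff S') (a : Aff S)
    (h : ∀ i v w, T.fn i (a'.a _ (T.vert i w) - a'.a _ (T.vert i v)) = a.a i w - a.a i v)
    (k : ℕ) : T.pull (lamC p a' k) = lamC p a k := by
  refine (T.pull_hom (lamC_hom p a' k)).ext1 (lamC_hom p a k) fun i v w => ?_
  rw [lamC_val, ← h]
  exact map_pow (T.ringFn hT i) _ _
lemma pull_xxC (T : SiteMap S S') (hT : T.IsRing) (a' : Aff S') (a : Aff S)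
    (h : ∀ i v w, T.fn i (a'.a _ (T.vert i w) - a'.a _ (T.vert i v)) = a.a i w - a.a i v)
    (k : ℕ) : T.pull (xxC p a' k) = xxC p a k := by
  refine (T.pull_hom (xxC_hom p a' k)).ext2 (xxC_hom p a k) fun i v w x => ?_
  rw [xxC_val, ← h, ← h]
  refine (map_Phi (T.ringFn hT i) p _ _).trans ?_
  rw [map_pow, map_pow]; rfl
lemma pullA_lam (T : SiteMap S S') (hT : T.IsRing) (a' : Aff S') (a : Aff S)
    (h : ∀ i v w, T.fn i (a'.a _ (T.vert i w) - a'.a _ (T.vert i v)) = a.a i w - a.a i v)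
    (k : ℕ) : T.pullA (lam p a' k) = lam p a k := by
  rw [lam, T.pullA_cls (d_lamC p a' k), pull_lamC p T hT a' a h, lam]
lemma pullA_xx (T : SiteMap S S') (hT : T.IsRing) (a' : Aff S') (a : Aff S)
    (h : ∀ i v w, T.fn i (a'.a _ (T.vert i w) - a'.a _ (T.vert i v)) = a.a i w - a.a i v)
    (k : ℕ) : T.pullA (xx p a' k) = xx p a k := by
  rw [xx, T.pullA_cls (d_xxC p a' k), pull_xxC p T hT a' a h, xx]
/-- Pull-back to a linear combination of two coordinates. -/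
lemma pullA_lam_lin {B : Type u} [CommRing B] (α : S.Alg B) (T : SiteMap S S') (hT : T.IsRing)
    (a' : Aff S') (a b : Aff S) (c e : B)
    (h : ∀ i v w, T.fn i (a'.a _ (T.vert i w) - a'.a _ (T.vert i v)) =
      α.β i c * (a.a i w - a.a i v) + α.β i e * (b.a i w - b.a i v)) (k : ℕ) :
    T.pullA (lam p a' k) = α.scH (c ^ p ^ k) * lam p a k + α.scH (e ^ p ^ k) * lam p b k := by
  have h1 := d_mul_eq_zero (α.d_sc (c ^ p ^ k)) (d_lamC p a k)
  have h2 := d_mul_eq_zero (α.d_sc (e ^ p ^ k)) (d_lamC p b k)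
  rw [lam, lam, lam, T.pullA_cls (d_lamC p a' k), α.scH_apply, α.scH_apply,
    ← cls_mul (α.d_sc _) (d_lamC p a k), ← cls_mul (α.d_sc _) (d_lamC p b k), ← cls_add h1 h2]
  congr 1
  refine (T.pull_hom (lamC_hom p a' k)).ext1 (((α.sc_hom _).mul (lamC_hom p a k)).add
    ((α.sc_hom _).mul (lamC_hom p b k))) fun i v w => ?_
  rw [add_val, α.sc_mul_val, α.sc_mul_val, lamC_val, lamC_val, map_pow, map_pow, ← mul_pow,
    ← mul_pow, ← add_pow_pp (CharS.out i : (p : S.R i) = 0), ← h]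
  exact map_pow (T.ringFn hT i) _ _
lemma pullA_xx_lin {B : Type u} [CommRing B] (α : S.Alg B) (T : SiteMap S S') (hT : T.IsRing)
    (a' : Aff S') (a b : Aff S) (c e : B)
    (h : ∀ i v w, T.fn i (a'.a _ (T.vert i w) - a'.a _ (T.vert i v)) =
      α.β i c * (a.a i w - a.a i v) + α.β i e * (b.a i w - b.a i v)) (k : ℕ) :
    T.pullA (xx p a' k) =
      α.scH (c ^ p ^ (k + 1)) * xx p a k + α.scH (e ^ p ^ (k + 1)) * xx p b k := by
  have h1 := d_mul_eq_zero (α.d_sc (c ^ p ^ (k + 1))) (d_xxC p a k)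
  have h2 := d_mul_eq_zero (α.d_sc (e ^ p ^ (k + 1))) (d_xxC p b k)
  rw [xx, xx, xx, T.pullA_cls (d_xxC p a' k), α.scH_apply, α.scH_apply,
    ← cls_mul (α.d_sc _) (d_xxC p a k), ← cls_mul (α.d_sc _) (d_xxC p b k), ← cls_add h1 h2,
    cls_eq_iff (T.d_pull_eq_zero (d_xxC p a' k)) (by rw [d_add, h1, h2, add_zero])]
  let G : Cochain S := c1 (fun i v w => - Phi p ((α.β i c * (a.a i w - a.a i v)) ^ p ^ k)
    ((α.β i e * (b.a i w - b.a i v)) ^ p ^ k)) fun i j φ m hm v w => by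
      rw [map_neg, map_Phi, map_pow, map_pow, map_mul, map_mul, a.nat i j φ m hm, b.nat i j φ m hm,
        α.nat i j φ m hm, α.nat i j φ m hm]
  have hG : Hom 1 G := c1_hom _ _
  refine ⟨G, ((T.pull_hom (xxC_hom p a' k)).sub (((α.sc_hom _).mul (xxC_hom p a k)).add
    ((α.sc_hom _).mul (xxC_hom p b k)))).ext2 hG.d fun i u v w => ?_⟩
  have hp : (p : S.R i) = 0 := CharS.out i
  have e1 : (T.pull (xxC p a' k)).val i [u, v, w] =
      Phi p ((α.β i c * (a.a i v - a.a i u) + α.β i e * (b.a i v - b.a i u)) ^ p ^ k)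
        ((α.β i c * (a.a i w - a.a i v) + α.β i e * (b.a i w - b.a i v)) ^ p ^ k) := by
    rw [← h, ← h]
    refine (map_Phi (T.ringFn hT i) p _ _).trans ?_
    rw [map_pow, map_pow]; rfl
  have e2 : ∀ (s : S.R i) (x y z : S.R i),
      (s * (z - x)) ^ p ^ k = (s * (y - x)) ^ p ^ k + (s * (z - y)) ^ p ^ k := fun s x y z => by
    rw [← add_pow_pp hp]; congr 1; ring
  rw [sub_val, add_val, α.sc_mul_val, α.sc_mul_val, xxC_val, xxC_val, d_val3, e1, map_pow, map_pow,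
    pow_succ p k, pow_mul, pow_mul, ← Phi_mul, ← Phi_mul, ← mul_pow, ← mul_pow, ← mul_pow,
    ← mul_pow, add_pow_pp hp, add_pow_pp hp]
  simp only [G, c1_val]
  rw [e2 _ (a.a i u) (a.a i v) (a.a i w), e2 _ (b.a i u) (b.a i v) (b.a i w)]
  have := Phi_add (p := p) ((α.β i c * (a.a i v - a.a i u)) ^ p ^ k)
    ((α.β i e * (b.a i v - b.a i u)) ^ p ^ k) ((α.β i c * (a.a i w - a.a i v)) ^ p ^ k)
    ((α.β i e * (b.a i w - b.a i v)) ^ p ^ k)
  linear_combination this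

/-- The Frobenius twist: values are raised to the power `p^n`. -/
def frobM (S : Site.{u, v}) [CharS S p] (n : ℕ) : SiteMap S S where
  obj i := i
  vert _ v := v
  fn i := (frobR (CharS.out i : (p : S.R i) = 0) n).toAddMonoidHom
  compat _ _ φ m h := ⟨φ, m, h, fun _ => rfl, fun x => map_pow φ x _⟩

lemma frobM_isRing (n : ℕ) : (frobM p S n).IsRing :=
  fun _ => ⟨one_pow _, fun x y => mul_pow x y _⟩
lemma frobM_val (n : ℕ) (f : Cochain S) (i : S.ι) (l : List (S.V i)) :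
    ((frobM p S n).pull f).val i l = f.val i l ^ p ^ n := by
  exact congrArg (fun t => f.val i t ^ p ^ n) (List.map_id' l)
lemma frob_lam (n : ℕ) (a : Aff S) (k : ℕ) :
    (frobM p S n).pullA (lam p a k) = lam p a (k + n) := by
  rw [lam, lam, SiteMap.pullA_cls _ (d_lamC p a k)]
  congr 1
  refine (SiteMap.pull_hom _ (lamC_hom p a k)).ext1 (lamC_hom p a _) fun i v w => ?_
  rw [frobM_val, lamC_val, lamC_val, ← pow_mul, ← pow_add]
lemma frob_xx (n : ℕ) (a : Aff S) (k : ℕ) : (frobM p S n).pullA (xx p a k) = xx p a (k + n) := by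
  rw [xx, xx, SiteMap.pullA_cls _ (d_xxC p a k)]
  congr 1
  refine (SiteMap.pull_hom _ (xxC_hom p a k)).ext2 (xxC_hom p a _) fun i v w x => ?_
  rw [frobM_val, xxC_val, xxC_val, Phi_pow_pp (CharS.out i : (p : S.R i) = 0), ← pow_mul,
    ← pow_mul, ← pow_add]
lemma pullA_frob (T : SiteMap S S') (hT : T.IsRing) (n : ℕ) (x : H S') :
    T.pullA ((frobM p S' n).pullA x) = (frobM p S n).pullA (T.pullA x) := by
  obtain ⟨f, hf, rfl⟩ := cls_surj x
  rw [SiteMap.pullA_cls _ hf, T.pullA_cls hf, T.pullA_cls (SiteMap.d_pull_eq_zero _ hf),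
    SiteMap.pullA_cls _ (T.d_pull_eq_zero hf)]
  congr 1
  ext i l
  rw [frobM_val, T.pull_val, T.pull_val, frobM_val]
  exact map_pow (T.ringFn hT i) _ _

end Pool.Agent.Lib.MP_5f3851_al
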