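import Pool.Agent.Lib.MP_5f3851_al.Steen
import Pool.Agent.Lib.MP_5f3851_al.Coord

/-! The operations on classes of degree one. -/

set_option linter.unusedSectionVars false

namespace Pool.Agent.Lib.MP_5f3851_al

open Finset Cochain

universe u v

/-- The difference of the values of `t` on lists of length two. -/
def dl {V : Type*} {R : Type*} [CommRing R] (t : V → R) : List V → R
  | [v, w] => t w - t v
  | _ => 0

/-- The coordinate on the two-point set. -/
def bZ (R : Type*) [CommRing R] (b : Bool) : R := if b then 1 else 0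

variable (p : ℕ) [Fact p.Prime] [Fact (5 ≤ p)]

/-- The constant in `D_(p-1) λ = ν λ^p`. -/
noncomputable def nu : ℤ :=
  pair (fun _ => dl (bZ ℤ)) (tau (ZMod p) 1) (phi (rot p) p (p - 1) [false, true])

namespace NuAux

section general

variable {V : Type*} {R : Type*} [CommRing R]

omit p in
lemma dl_nil (t : V → R) : dl t [] = 0 := rfl

omit p in
lemma dl_of_ne (t : V → R) {l : List V} (h : l.length ≠ 2) : dl t l = 0 := by
  match l with
  | [] => rfl
  | [_] => rfl
  | [_, _] => exact absurd rfl h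
  | _ :: _ :: _ :: _ => rfl

omit p in
lemma dif_dl (t : V → R) (l : List V) : dif (dl t) l = 0 := by
  by_cases h : l.length = 3
  · match l, h with
    | [a, b, c], _ => simp [dif, sum_range_succ, dl]
  · refine sum_eq_zero fun i hi => ?_
    rw [mem_range] at hi
    rw [dl_of_ne t (by rw [List.length_eraseIdx_of_lt hi]; omega), smul_zero]

/-- The zero-cochain with the values `t`. -/
def z0 (t : V → R) : List V → R
  | [v] => t v
  | _ => 0

omit p in
lemma z0_of_ne (t : V → R) {l : List V} (h : l.length ≠ 1) : z0 t l = 0 := by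
  match l with
  | [] => rfl
  | [_] => exact absurd rfl h
  | _ :: _ :: _ => rfl

omit p in
lemma dif_z0 (t : V → R) : dif (z0 t) = dl t := by
  funext l
  by_cases h : l.length = 2
  · match l, h with
    | [a, b], _ => simp [dif, sum_range_succ, dl, z0, sub_eq_add_neg]
  · rw [dl_of_ne t h]
    refine sum_eq_zero fun i hi => ?_
    rw [mem_range] at hi
    rw [z0_of_ne t (by rw [List.length_eraseIdx_of_lt hi]; omega), smul_zero]

end general

lemma top {V : Type*} {R : Type*} [CommRing R] (t : V → R) (v w : V) :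
    pair (fun _ => dl t) (tau (ZMod p) 1) (phi (rot p) p (p - 1) [v, w]) =
      nu p • (t w - t v) ^ p := by
  have h1 : phi (rot p) p (p - 1) [v, w] =
      cmap (fun b : Bool => if b then w else v) (phi (rot p) p (p - 1) [false, true]) := by
    rw [phi_cmap]; rfl
  rw [h1, pair_cmap (Int.castRingHom R) _ (fun _ => dl (bZ ℤ)) (fun _ => dl t)
    (fun _ => t w - t v)]
  · rw [prod_const, card_univ, ZMod.card, zsmul_eq_mul, mul_comm]
    rfl
  · intro _ l
    by_cases h : l.length = 2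
    · match l, h with
      | [a, b], _ => cases a <;> cases b <;> simp [dl, bZ]
    · rw [dl_of_ne _ h, dl_of_ne _ (by rwa [List.length_map]), map_zero, mul_zero]

lemma pair_pow {V : Type*} {R : Type*} [CommRing R] (f : List V → R) (i : ℕ)
    (x : Ch (ZMod p) V) :
    pair (fun _ => f) (tau (ZMod p) 1) ((perm (rot p) ^ i) x) =
      pair (fun _ => f) (tau (ZMod p) 1) x := by
  induction i with
  | zero => rfl
  | succ i ih =>
    rw [pow_succ', Module.End.mul_apply, pair_perm, ← ih]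
    congr 2
    exact LinearMap.ext fun e => tau_emap (odd_p p) (rot_pow p) 1 e

lemma next_mul {V : Type*} {R : Type*} [CommRing R] (t : V → R) (v w x : V) :
    (p : R) * pair (fun _ => dl t) (tau (ZMod p) 1) (phi (rot p) p (p - 2) [v, w, x]) =
      p * (nu p • Phi p (t w - t v) (t x - t w)) := by
  have h5 : 5 ≤ p := Fact.out
  have ho := odd_p p
  have e1 : p - 1 = p - 2 + 1 := by omega
  have h1 := phi_eq (V := V) (rot_pow p) (p - 2 + 1) [v, w, x]
  have h2 := congrArg (pair (fun _ : ZMod p => dl t) (tau (ZMod p) 1)) h1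
  have hodd : ¬ Even (p - 2) := by
    obtain ⟨m, hm⟩ := ho
    rw [Nat.not_even_iff_odd]
    exact ⟨m - 1, by omega⟩
  have hev : Even (p - 2 + 1) := (Nat.not_even_iff_odd.mp hodd).add_one
  have h3 : dif (phi (rot p) p (p - 2 + 1)) [v, w, x] = phi (rot p) p (p - 1) [w, x] -
      phi (rot p) p (p - 1) [v, x] + phi (rot p) p (p - 1) [v, w] := by
    rw [← e1]
    simp [dif, sum_range_succ, sub_eq_add_neg]
  rw [pair_dd_eq_zero _ (fun _ => rfl) (fun _ => dif_dl t), h3, hev.neg_one_pow, one_smul] at h2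
  simp only [Tp, Tq, if_neg hodd, LinearMap.sum_apply, map_sum, map_add, map_sub, pair_pow, top,
    sum_const, card_range, nsmul_eq_mul] at h2
  have h4 := p_mul_Phi (p := p) (t w - t v) (t x - t w)
  rw [sub_add_sub_cancel'] at h4
  simp only [zsmul_eq_mul] at h2 ⊢
  linear_combination -h2 - (nu p : R) * h4

lemma next {V : Type*} {R : Type*} [CommRing R] (t : V → R) (v w x : V) :
    pair (fun _ => dl t) (tau (ZMod p) 1) (phi (rot p) p (p - 2) [v, w, x]) =
      nu p • Phi p (t w - t v) (t x - t w) := by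
  have h0 : (p : MvPolynomial (Fin 3) ℤ) ≠ 0 := Nat.cast_ne_zero.mpr (Fact.out : p.Prime).ne_zero
  have h1 := mul_left_cancel₀ h0
    (next_mul p (MvPolynomial.X : Fin 3 → MvPolynomial (Fin 3) ℤ) 0 1 2)
  have h2 : phi (rot p) p (p - 2) [v, w, x] =
      cmap ![v, w, x] (phi (rot p) p (p - 2) [(0 : Fin 3), 1, 2]) := by
    rw [phi_cmap]; rfl
  set φ : MvPolynomial (Fin 3) ℤ →+* R :=
    MvPolynomial.eval₂Hom (Int.castRingHom R) (fun i => t (![v, w, x] i)) with hφ
  have hX : ∀ i, φ (MvPolynomial.X i) = t (![v, w, x] i) := fun i => by simp [hφ]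
  rw [h2, pair_cmap φ _ (fun _ => dl MvPolynomial.X) (fun _ => dl t) (fun _ => 1), h1]
  · rw [prod_const_one, one_mul, map_zsmul, map_Phi, map_sub, map_sub, hX, hX, hX]
    rfl
  · intro _ l
    by_cases h : l.length = 2
    · match l, h with
      | [a, b], _ => simp [dl, hX]
    · rw [dl_of_ne _ h, dl_of_ne _ (by rwa [List.length_map]), map_zero, mul_zero]

section tate

variable {X K : Type*} [AddCommGroup X] [AddCommGroup K]

/-- The operators that preserve a group of functionals. -/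
def stab (G : AddSubgroup (X →ₗ[ℤ] K)) : Subring (Module.End ℤ X) where
  carrier := {a | ∀ Θ ∈ G, Θ ∘ₗ a ∈ G}
  zero_mem' Θ _ := by rw [LinearMap.comp_zero]; exact G.zero_mem
  one_mem' _ h := h
  add_mem' ha hb Θ h := by rw [LinearMap.comp_add]; exact G.add_mem (ha Θ h) (hb Θ h)
  neg_mem' ha Θ h := by rw [LinearMap.comp_neg]; exact G.neg_mem (ha Θ h)
  mul_mem' ha hb Θ h := hb _ (ha Θ h)

omit [Fact p.Prime] [Fact (5 ≤ p)] in
lemma tate (G : AddSubgroup (X →ₗ[ℤ] K)) (s E : Module.End ℤ X) (hs : s ∈ stab G)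
    (hE : E ∈ stab G) (c : ℤ)
    (hc : ∀ Θ ∈ G, ∀ x, c • ∑ i ∈ range p, Θ ((s ^ i * E * s ^ (p - i)) x) = Θ x) (j : ℕ)
    {Θ : X →ₗ[ℤ] K} (hΘ : Θ ∈ G) (h : ∀ x, Θ (Tq s p (j + 1) x) = 0) :
    ∃ Λ ∈ G, ∀ x, Λ (Tq s p j x) = Θ x := by
  by_cases hj : Even j
  · have hj' : ¬ Even (j + 1) := by rwa [Nat.even_add_one, not_not]
    simp only [Tq, if_neg hj', if_pos hj] at h ⊢
    set a : Module.End ℤ X := ∑ i ∈ range p, s ^ i * E * ∑ r ∈ range (p - i), s ^ r with ha
    have hmem : a ∈ stab G := Subring.sum_mem _ fun i _ =>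
      mul_mem (mul_mem (pow_mem hs i) hE) (Subring.sum_mem _ fun r _ => pow_mem hs r)
    have h1 : a * (s - 1) =
        ∑ i ∈ range p, s ^ i * E * s ^ (p - i) - (∑ i ∈ range p, s ^ i) * E := by
      rw [ha, sum_mul, sum_mul, ← sum_sub_distrib]
      refine sum_congr rfl fun i _ => ?_
      rw [mul_assoc, geom_sum_mul, mul_sub, mul_one]
    refine ⟨c • (Θ ∘ₗ a), G.zsmul_mem (hmem Θ hΘ) c, fun x => ?_⟩
    rw [LinearMap.smul_apply, LinearMap.comp_apply, ← Module.End.mul_apply, h1,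
      LinearMap.sub_apply, map_sub, Module.End.mul_apply, h, sub_zero, LinearMap.sum_apply,
      map_sum, hc Θ hΘ]
  · have hj' : Even (j + 1) := by rwa [Nat.even_add_one]
    simp only [Tq, if_pos hj', if_neg hj] at h ⊢
    have h1 : ∀ i x, Θ ((s ^ i) x) = Θ x := by
      intro i
      induction i with
      | zero => intro x; rfl
      | succ i ih =>
        intro x
        have := h ((s ^ i) x)
        rw [LinearMap.sub_apply, map_sub, sub_eq_zero] at this
        rw [pow_succ', Module.End.mul_apply, this]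
        exact ih x
    have h2 : E * s * ∑ i ∈ range p, s ^ i = ∑ i ∈ range p, E * s ^ (p - i) := by
      rw [← sum_range_reflect, mul_sum]
      refine sum_congr rfl fun i hi => ?_
      rw [mem_range] at hi
      rw [mul_assoc, ← pow_succ', show p - 1 - i + 1 = p - i by omega]
    refine ⟨c • (Θ ∘ₗ (E * s)), G.zsmul_mem (mul_mem hE hs Θ hΘ) c, fun x => ?_⟩
    rw [LinearMap.smul_apply, LinearMap.comp_apply, ← Module.End.mul_apply, h2,
      LinearMap.sum_apply, map_sum, ← hc Θ hΘ x]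
    congr 1
    refine sum_congr rfl fun i _ => ?_
    rw [mul_assoc, Module.End.mul_apply (s ^ i), h1]

end tate

/-- One-cochains on `A`, zero-cochains off `A`. -/
def FA (A : Finset (ZMod p)) (i : ZMod p) : List Bool → ZMod p :=
  if i ∈ A then dl (bZ (ZMod p)) else z0 (bZ (ZMod p))

/-- The functionals of degree `k`. -/
noncomputable def GG (k : ℕ) : AddSubgroup (Ch (ZMod p) Bool →ₗ[ℤ] ZMod p) :=
  AddSubgroup.closure {Θ | ∃ A τ, A.card = k ∧ Θ = pair (FA p A) τ}

/-- The projector on the generators whose slot `i` has length two. -/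
noncomputable def EE (i : ZMod p) : Module.End ℤ (Ch (ZMod p) Bool) :=
  mkL fun w => if (w i).length = 2 then genL w else 0

lemma EE_gen (i : ZMod p) (w : ZMod p → List Bool) (e : EA (ZMod p)) :
    EE p i (gen w e) = if (w i).length = 2 then gen w e else 0 := by
  rw [EE, mkL_gen]
  split_ifs <;> rfl

lemma mem_GG {A : Finset (ZMod p)} {k : ℕ} (h : A.card = k) (τ : EA (ZMod p) →ₗ[ℤ] ℤ) :
    pair (FA p A) τ ∈ GG p k := AddSubgroup.subset_closure ⟨A, τ, h, rfl⟩

lemma GG_map {Y : Type*} [AddCommGroup Y] {k : ℕ} (f : (Ch (ZMod p) Bool →ₗ[ℤ] ZMod p) →ₗ[ℤ] Y)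
    (Q : AddSubgroup Y) (h : ∀ A τ, A.card = k → f (pair (FA p A) τ) ∈ Q) {Θ} (hΘ : Θ ∈ GG p k) :
    f Θ ∈ Q := by
  refine (AddSubgroup.closure_le (Q.comap f.toAddMonoidHom)).2 ?_ hΘ
  rintro _ ⟨A, τ, hA, rfl⟩
  exact h A τ hA

lemma FA_nil (A : Finset (ZMod p)) (i : ZMod p) : FA p A i [] = 0 := by
  unfold FA
  split_ifs <;> rfl

lemma GG_dd {k : ℕ} {Θ} (hΘ : Θ ∈ GG p k) : Θ ∘ₗ dd ∈ GG p (k + 1) := by
  refine GG_map p (LinearMap.lcomp ℤ (ZMod p) dd) _ (fun A τ hA => ?_) hΘ
  have h1 : LinearMap.lcomp ℤ (ZMod p) dd (pair (FA p A) τ) =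
      ∑ i, pair (Function.update (FA p A) i (dif (FA p A i))) (τ ∘ₗ gam i) :=
    LinearMap.ext fun x => by
      rw [LinearMap.lcomp_apply, pair_dd _ (FA_nil p A), LinearMap.sum_apply]
  rw [h1]
  refine AddSubgroup.sum_mem _ fun i _ => ?_
  by_cases hi : i ∈ A
  · have : pair (Function.update (FA p A) i (dif (FA p A i))) (τ ∘ₗ gam i) = 0 :=
      LinearMap.ext fun x => pair_eq_zero_of_slot _ i (fun l => by
        rw [Function.update_self, FA, if_pos hi, dif_dl]) _ x
    rw [this]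
    exact zero_mem _
  · have : Function.update (FA p A) i (dif (FA p A i)) = FA p (insert i A) := by
      funext j
      by_cases hj : j = i
      · subst hj
        rw [Function.update_self, FA, FA, if_neg hi, if_pos (mem_insert_self _ _), dif_z0]
      · rw [Function.update_of_ne hj]
        simp only [FA, mem_insert, hj, false_or]
    rw [this]
    exact mem_GG p (by rw [card_insert_of_notMem hi, hA]) _

lemma perm_stab (k : ℕ) : perm (rot p) ∈ stab (GG p k) := by
  intro Θ hΘ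
  refine GG_map p (LinearMap.lcomp ℤ (ZMod p) (perm (rot p))) _ (fun A τ hA => ?_) hΘ
  have h1 : FA p A ∘ rot p = FA p (A.map (rot p).symm.toEmbedding) := by
    funext j
    simp only [FA, Function.comp_apply, mem_map_equiv, Equiv.symm_symm]
  have h2 : LinearMap.lcomp ℤ (ZMod p) (perm (rot p)) (pair (FA p A) τ) =
      pair (FA p (A.map (rot p).symm.toEmbedding)) (τ ∘ₗ (emap (rot p)).toLinearMap) :=
    LinearMap.ext fun x => by rw [LinearMap.lcomp_apply, pair_perm, h1]
  rw [h2]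
  exact mem_GG p (by rw [card_map, hA]) _

lemma pair_EE (A : Finset (ZMod p)) (τ : EA (ZMod p) →ₗ[ℤ] ℤ) (i : ZMod p) :
    pair (FA p A) τ ∘ₗ EE p i = if i ∈ A then pair (FA p A) τ else 0 := by
  refine ch_ext fun w e => ?_
  rw [LinearMap.comp_apply, EE_gen]
  by_cases hi : i ∈ A
  · rw [if_pos hi]
    split_ifs with h
    · rfl
    · rw [map_zero, pair_gen, prod_eq_zero (mem_univ i) (by rw [FA, if_pos hi, dl_of_ne _ h]),
        smul_zero]
  · rw [if_neg hi, LinearMap.zero_apply]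
    split_ifs with h
    · rw [pair_gen, prod_eq_zero (mem_univ i) (by rw [FA, if_neg hi, z0_of_ne _ (by omega)]),
        smul_zero]
    · exact map_zero _

lemma EE_stab (k : ℕ) (i : ZMod p) : EE p i ∈ stab (GG p k) := by
  intro Θ hΘ
  refine GG_map p (LinearMap.lcomp ℤ (ZMod p) (EE p i)) _ (fun A τ hA => ?_) hΘ
  rw [LinearMap.lcomp_apply', pair_EE]
  split_ifs
  · exact mem_GG p hA τ
  · exact zero_mem _

lemma EE_perm (ρ : Equiv.Perm (ZMod p)) (i : ZMod p) :
    perm ρ * EE p i = EE p (ρ i) * perm ρ := by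
  refine ch_ext fun w e => ?_
  rw [Module.End.mul_apply, Module.End.mul_apply, perm_gen, EE_gen, EE_gen, Function.comp_apply,
    Equiv.symm_apply_apply]
  split_ifs
  · exact perm_gen _ _ _
  · exact map_zero _

lemma sum_EE {k : ℕ} {Θ} (hΘ : Θ ∈ GG p k) (x : Ch (ZMod p) Bool) :
    ∑ i, Θ (EE p i x) = k • Θ x := by
  have := GG_map p (∑ i, LinearMap.applyₗ (EE p i x) - k • LinearMap.applyₗ x) ⊥
    (fun A τ hA => ?_) hΘ
  · simpa [sub_eq_zero] using this
  · have h1 : ∀ i, pair (FA p A) τ (EE p i x) = if i ∈ A then pair (FA p A) τ x else 0 := by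
      intro i
      rw [← LinearMap.comp_apply, pair_EE]
      split_ifs <;> rfl
    simp [h1, hA]

lemma step {k : ℕ} (hk : k + 1 < p) {Θ} (hΘ : Θ ∈ GG p (k + 1))
    (h : ∀ x, Θ (Tq (perm (rot p)) p (k + 1) x) = 0) :
    ∃ Λ ∈ GG p (k + 1), ∀ x, Λ (Tq (perm (rot p)) p k x) = Θ x := by
  have hk0 : ((k + 1 : ℕ) : ZMod p) ≠ 0 := by
    rw [Ne, ZMod.natCast_eq_zero_iff]
    exact Nat.not_dvd_of_pos_of_lt k.succ_pos hk
  obtain ⟨c, hc⟩ := ZMod.intCast_surjective ((k + 1 : ℕ) : ZMod p)⁻¹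
  refine tate p _ _ (EE p 0) (perm_stab p _) (EE_stab p _ 0) c (fun Θ' hΘ' x => ?_) k hΘ h
  have h1 : ∀ i ∈ range p, Θ' ((perm (rot p) ^ i * EE p 0 * perm (rot p) ^ (p - i) :
      Module.End ℤ (Ch (ZMod p) Bool)) x) = Θ' (EE p ((rot p ^ i) 0) x) := by
    intro i hi
    rw [mem_range] at hi
    rw [← perm_pow, EE_perm, mul_assoc, ← perm_pow, ← perm_mul, ← pow_add,
      Nat.add_sub_cancel' hi.le, rot_pow, perm_one, mul_one]
  rw [sum_congr rfl h1, sum_rot p fun i => Θ' (EE p i x), sum_EE p hΘ', zsmul_eq_mul,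
    nsmul_eq_mul, hc, ← mul_assoc, inv_mul_cancel₀ hk0, one_mul]

lemma ladder (k : ℕ) (hk : k < p) : ∃ Λ ∈ GG p k, Λ (dd (phi (rot p) p k [false, true])) = 1 ∧
    ∀ x, Λ (dd (Tq (perm (rot p)) p (k + 1) x)) = 0 := by
  have hT : ∀ j (x : Ch (ZMod p) Bool),
      dd (Tq (perm (rot p)) p j x) = Tq (perm (rot p)) p j (dd x) := fun j x => by
    rw [← Module.End.mul_apply, ← Tq_dd, Module.End.mul_apply]
  induction k with
  | zero =>
    refine ⟨pair (FA p ∅) (tau0 _), mem_GG p card_empty _, ?_, fun x => ?_⟩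
    · have h1 : dif (phi (rot p) p 0) [false, true] = base true - base false := by
        simp [dif, sum_range_succ, phi_zero_single, sub_eq_add_neg]
      rw [phi_eq (rot_pow p) 0, h1]
      simp [Tp, base, pair_gen, tau0_one, FA, z0, bZ]
    · rw [hT]
      exact pair_Tq _ _ _ _ (ZMod.natCast_self p) (by funext j; simp [FA]) (tau0_emap _) _ _
  | succ k ih =>
    obtain ⟨Λ, hΛ, h1, h2⟩ := ih (by omega)
    obtain ⟨Λ', hΛ', h3⟩ := step p hk (GG_dd p hΛ) h2
    refine ⟨Λ', hΛ', ?_, fun x => ?_⟩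
    · have h4 : dif (phi (rot p) p (k + 1)) [false, true] = 0 := by
        simp [dif, sum_range_succ, phi_succ_single]
      rw [phi_eq (rot_pow p) (k + 1), h4, smul_zero, add_zero]
      exact (h3 _).trans h1
    · have h4 : Tq (perm (rot p) : Module.End ℤ (Ch (ZMod p) Bool)) p (k + 1 + 1) =
          Tq (perm (rot p)) p k := by
        simp only [Tq, Nat.even_add_one, not_not]
      rw [hT, h4, h3, LinearMap.comp_apply, ← Module.End.mul_apply, dd_mul_dd,
        LinearMap.zero_apply, map_zero]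

lemma pair_top {R : Type*} [CommRing R] (t : Bool → R) (τ : EA (ZMod p) →ₗ[ℤ] ℤ) :
    ∃ c : ℤ, ∀ k, ∀ x ∈ Hg (ZMod p) Bool k,
      pair (fun _ => dl t) τ x = c • pair (fun _ => dl t) (tau (ZMod p) 1) x := by
  have hG : Par (Gam (ZMod p) * Gam (ZMod p)) 0 := by
    have := (par_Gam (I := ZMod p)).mul par_Gam
    convert this using 1
    funext i
    rfl
  obtain ⟨ε, hε⟩ : ∃ ε : ℤ, ε * tau (ZMod p) 1 (Gam (ZMod p) 1) = 1 := by
    have h1 : tau (ZMod p) 1 (Gam (ZMod p) 1) = tau0 _ ((Gam (ZMod p) * Gam (ZMod p)) 1) := by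
      rw [tau, pow_one]; rfl
    rcases hG.unique par_one with h | h
    · exact ⟨1, by rw [h1, h, one_mul]; exact tau0_one⟩
    · exact ⟨-1, by rw [h1, h]; simp [tau0_one]⟩
  refine ⟨τ (Gam (ZMod p) 1) * ε, fun k x hx => ?_⟩
  have := Hg_map (pair (fun _ => dl t) τ -
    (τ (Gam (ZMod p) 1) * ε) • pair (fun _ => dl t) (tau (ZMod p) 1)) ⊥ (fun w g _ hg => ?_) hx
  · rwa [AddSubgroup.mem_bot, LinearMap.sub_apply, sub_eq_zero] at this
  rw [AddSubgroup.mem_bot, LinearMap.sub_apply, sub_eq_zero, LinearMap.smul_apply, pair_gen,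
    pair_gen]
  by_cases h : ∀ i, (w i).length = 2
  · have hg' : Par g fun _ => 1 := by
      convert hg using 2 with i
      rw [h i]
      rfl
    rw [smul_smul, mul_assoc]
    rcases hg'.unique par_Gam with rfl | rfl
    · rw [hε, mul_one]
    · rw [LinearMap.neg_apply, map_neg, map_neg, mul_neg, hε, mul_neg, mul_one]
  · push Not at h
    obtain ⟨i, hi⟩ := h
    rw [prod_eq_zero (mem_univ i) (dl_of_ne t hi), smul_zero, smul_zero, smul_zero]

end NuAux

theorem nu_not_dvd : ¬ (p : ℤ) ∣ nu p := by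
  intro hd
  have h5 : 5 ≤ p := Fact.out
  obtain ⟨Λ, hΛ, h1, -⟩ := NuAux.ladder p (p - 1) (by omega)
  have h2 := NuAux.GG_map p (LinearMap.applyₗ (phi (rot p) p (p - 1) [false, true])) ⊥
    (fun A τ hA => ?_) (NuAux.GG_dd p hΛ)
  · rw [AddSubgroup.mem_bot, LinearMap.applyₗ_apply_apply, LinearMap.comp_apply, h1] at h2
    exact one_ne_zero h2
  have hA' : A = univ := by
    rw [← card_eq_iff_eq_univ, ZMod.card, hA]
    omega
  have hF : NuAux.FA p A = fun _ => dl (bZ (ZMod p)) := by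
    funext i
    rw [NuAux.FA, if_pos (hA' ▸ mem_univ i)]
  obtain ⟨c, hc⟩ := NuAux.pair_top p (bZ (ZMod p)) τ
  rw [AddSubgroup.mem_bot, LinearMap.applyₗ_apply_apply, hF,
    hc _ _ (phi_mem (rot_pow p) _ _), NuAux.top, zsmul_eq_mul (n := nu p),
    (ZMod.intCast_zmod_eq_zero_iff_dvd _ _).mpr hd, zero_mul, smul_zero]

lemma pair_dl_top {V : Type u} {R : Type u} [CommRing R] (t : V → R) (v w : V) :
    pair (fun _ => dl t) (tau (ZMod p) 1) (phi (rot p) p (p - 1) [v, w]) =
      nu p • (t w - t v) ^ p := NuAux.top p t v w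
lemma pair_dl_next {V : Type u} {R : Type u} [CommRing R] (t : V → R) (v w x : V) :
    pair (fun _ => dl t) (tau (ZMod p) 1) (phi (rot p) p (p - 2) [v, w, x]) =
      nu p • Phi p (t w - t v) (t x - t w) := NuAux.next p t v w x

variable {S : Site.{u, v}} [CharS S p]

lemma NuAux.lamC_eq (a : Aff S) (k : ℕ) (i : S.ι) :
    (lamC p a k).val i = dl fun v => a.a i v ^ p ^ k := by
  funext l
  by_cases h : l.length = 2
  · match l, h with
    | [v, w], _ => exact sub_pow_pp (CharS.out i) _ _ k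
  · rw [NuAux.dl_of_ne _ h, lamC_hom p a k i l h]

theorem St_lam_top (a : Aff S) (k : ℕ) : St p 1 (p - 1) (lam p a k) = nu p • lam p a (k + 1) := by
  have h5 : 5 ≤ p := Fact.out
  rw [lam, lam, St_cls p _ (d_lamC p a k) (lamC_hom p a k), ← cls_zsmul (d_lamC p a _)]
  congr 1
  have h1 := Dop_hom p 1 (p - 1) (lamC p a k)
  rw [show 1 * p - (p - 1) = 1 by omega] at h1
  refine h1.ext1 (fun i l hl => by rw [zsmul_val, lamC_hom p a _ i l hl, smul_zero])
    fun i v w => ?_
  rw [Dop_val p _ (lamC_hom p a k), NuAux.lamC_eq, pair_dl_top, zsmul_val, lamC_val,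
    ← sub_pow_pp (CharS.out i), ← pow_mul, ← pow_succ]
theorem St_lam_next (a : Aff S) (k : ℕ) : St p 1 (p - 2) (lam p a k) = nu p • xx p a k := by
  have h5 : 5 ≤ p := Fact.out
  rw [lam, xx, St_cls p _ (d_lamC p a k) (lamC_hom p a k), ← cls_zsmul (d_xxC p a _)]
  congr 1
  have h1 := Dop_hom p 1 (p - 2) (lamC p a k)
  rw [show 1 * p - (p - 2) = 2 by omega] at h1
  refine h1.ext2 (fun i l hl => by rw [zsmul_val, xxC_hom p a _ i l hl, smul_zero])
    fun i v w x => ?_
  rw [Dop_val p _ (lamC_hom p a k), NuAux.lamC_eq, pair_dl_next, zsmul_val, xxC_val,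
    ← sub_pow_pp (CharS.out i), ← sub_pow_pp (CharS.out i)]
theorem St_one_ge {u : ℕ} (hu : p ≤ u) (x : H S) : St p 1 u x = 0 := by
  have h5 : 5 ≤ p := Fact.out
  obtain ⟨f, hf, rfl⟩ := cls_surj x
  obtain ⟨j, rfl⟩ : ∃ j, u = j + 1 := ⟨u - 1, by omega⟩
  have h1 : Dop p 1 (j + 1) (proj 1 f) = 0 := by
    ext i l
    rw [Dop, pairC_val, zero_val, show 1 * p - (j + 1) + 1 = 1 by omega]
    split_ifs with h
    · match l, h with
      | [v], _ =>
        change pair _ _ (phi (rot p) p (j + 1) [v]) = 0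
        rw [phi_succ_single, map_zero]
    · rfl
  rw [St, liftH_cls _ _ _ hf, h1, cls_zero]

end Pool.Agent.Lib.MP_5f3851_al
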