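import Pool.Agent.Lib.MP_5f3851_al.Cartan
import Pool.Agent.Lib.MP_5f3851_al.Comm
import Pool.Agent.Lib.MP_5f3851_al.Nu

/-! The composite operations on classes of degree two. -/

set_option linter.unusedSectionVars false

namespace Pool.Agent.Lib.MP_5f3851_al

universe u v

variable {S S' : Site.{u, v}} (p : ℕ) [Fact p.Prime] [Fact (5 ≤ p)] [CharS S p] [CharS S' p]

/-- `P^(p^(m-1)) ... P^1 βP^0`, with values in degree `2 p^m + 1`. -/
noncomputable def xi (S : Site.{u, v}) [CharS S p] : ℕ → H S →+ H S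
  | 0 => St p 2 (2 * p - 3)
  | m + 1 => (St p (2 * p ^ m + 1) (p - 1)).comp (xi S m)

/-- `βP^(p^m)` after `xi m`, with values in degree `2 p^(m+1) + 2`. -/
noncomputable def Wop (S : Site.{u, v}) [CharS S p] (m : ℕ) : H S →+ H S :=
  (St p (2 * p ^ m + 1) (p - 2)).comp (xi p S m)

lemma OpsAux.xi_zero (x : H S) : xi p S 0 x = St p 2 (2 * p - 3) x := by
  rw [xi]
lemma OpsAux.xi_succ (m : ℕ) (x : H S) :
    xi p S (m + 1) x = St p (2 * p ^ m + 1) (p - 1) (xi p S m x) := by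
  rw [xi, AddMonoidHom.comp_apply]
lemma OpsAux.Wop_eq (m : ℕ) (x : H S) :
    Wop p S m x = St p (2 * p ^ m + 1) (p - 2) (xi p S m x) := by
  rw [Wop, AddMonoidHom.comp_apply]

lemma xi_mem (m : ℕ) (x : H S) : xi p S m x ∈ Hn S (2 * p ^ m + 1) := by
  have h5 : 5 ≤ p := Fact.out
  cases m with
  | zero =>
    have h := St_mem p 2 (2 * p - 3) x
    rw [show 2 * p - (2 * p - 3) = 2 * p ^ 0 + 1 by rw [pow_zero]; omega] at h
    rw [OpsAux.xi_zero]
    exact h
  | succ m =>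
    have h := St_mem p (2 * p ^ m + 1) (p - 1) (xi p S m x)
    rw [show (2 * p ^ m + 1) * p - (p - 1) = 2 * p ^ (m + 1) + 1 by
      rw [pow_succ, add_mul, mul_assoc]; omega] at h
    rw [OpsAux.xi_succ]
    exact h
lemma OpsAux.pullA_xi (T : SiteMap S S') (hT : T.IsRing) (m : ℕ) (x : H S') :
    T.pullA (xi p S' m x) = xi p S m (T.pullA x) := by
  induction m with
  | zero => rw [xi_zero, xi_zero, pullA_St p T hT]
  | succ m ih => rw [xi_succ, xi_succ, pullA_St p T hT, ih]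
lemma pullA_Wop (T : SiteMap S S') (hT : T.IsRing) (m : ℕ) (x : H S') :
    T.pullA (Wop p S' m x) = Wop p S m (T.pullA x) := by
  rw [OpsAux.Wop_eq, OpsAux.Wop_eq, pullA_St p T hT, OpsAux.pullA_xi p T hT]
/-- A property that is transported by each operation is transported by `Wop`. -/
lemma Wop_induction (Q : ℕ → H S → Prop)
    (hQ : ∀ e n j x, x ∈ Hn S n → Q e x → Q (e + 1) (St p n j x)) {e : ℕ} {x : H S}
    (hx : x ∈ Hn S 2) (h : Q e x) (m : ℕ) : Q (e + m + 2) (Wop p S m x) := by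
  have key : ∀ m, Q (e + m + 1) (xi p S m x) := by
    intro m
    induction m with
    | zero =>
      rw [OpsAux.xi_zero]
      exact hQ e 2 _ x hx h
    | succ m ih =>
      rw [OpsAux.xi_succ]
      exact hQ (e + m + 1) _ _ _ (xi_mem p m x) ih
  rw [OpsAux.Wop_eq]
  exact hQ (e + m + 1) _ _ _ (xi_mem p m x) (key m)

namespace OpsAux

open Finset

omit [Fact (5 ≤ p)] in
lemma not_dvd_mul {c d : ℤ} (hc : ¬ (p : ℤ) ∣ c) (hd : ¬ (p : ℤ) ∣ d) : ¬ (p : ℤ) ∣ c * d :=
  fun h => ((Nat.prime_iff_prime_int.mp (Fact.out : p.Prime)).dvd_or_dvd h).elim hc hd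

omit [Fact (5 ≤ p)] in
lemma not_dvd_sign {ε : ℤ} (h : ε = 1 ∨ ε = -1) : ¬ (p : ℤ) ∣ ε := by
  have h1 : ¬ (p : ℤ) ∣ 1 := (Nat.prime_iff_prime_int.mp (Fact.out : p.Prime)).not_dvd_one
  rcases h with rfl | rfl
  · exact h1
  · rwa [dvd_neg]

/-- The two top operations on a degree one class times a class of even degree. -/
lemma step (S : Site.{u, v}) [CharS S p] {n : ℕ} (hn : Even n) : ∃ c : ℤ, ¬ (p : ℤ) ∣ c ∧
    ∀ (a : Aff S), (∀ k u, u < p - 2 → St p 1 u (lam p a k) = 0) → ∀ k, ∀ y ∈ Hn S n,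
      St p (n + 1) (p - 1) (lam p a k * y) = c • (lam p a (k + 1) * y ^ p) ∧
      St p (n + 1) (p - 2) (lam p a k * y) = c • (xx p a k * y ^ p) := by
  have h5 : 5 ≤ p := Fact.out
  obtain ⟨ε, hε, hc⟩ := cartan (S := S) p 1 n
  obtain ⟨ε', hε', hz⟩ := St_zero (S := S) p hn
  refine ⟨ε * (nu p * ε'), not_dvd_mul p (not_dvd_sign p hε)
    (not_dvd_mul p (nu_not_dvd p) (not_dvd_sign p hε')), fun a ha k y hy => ⟨?_, ?_⟩⟩
  · rw [add_comm n 1, hc _ _ (lam_mem p a k) y hy, sum_eq_single (p - 1, 0)]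
    · rw [St_lam_top, hz y hy, cc, if_neg (fun h => Nat.not_odd_zero h.2), zero_mul, pow_zero,
        one_smul, smul_mul_assoc, mul_smul_comm, mul_smul, mul_smul]
    · intro uv huv hne
      rw [HasAntidiagonal.mem_antidiagonal] at huv
      by_cases h1 : uv.1 < p - 2
      · rw [ha k _ h1, zero_mul, smul_zero]
      · have h2 : uv.1 ≠ p - 1 := fun h => hne (Prod.ext h (by change uv.2 = 0; omega))
        obtain ⟨t, ht⟩ := odd_p p
        rw [cc, if_pos ⟨⟨t - 1, by omega⟩, ⟨0, by omega⟩⟩, zero_smul]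
    · intro h
      exact absurd (HasAntidiagonal.mem_antidiagonal.mpr (add_zero _)) h
  · rw [add_comm n 1, hc _ _ (lam_mem p a k) y hy, sum_eq_single (p - 2, 0)]
    · rw [St_lam_next, hz y hy, cc, if_neg (fun h => Nat.not_odd_zero h.2), zero_mul, pow_zero,
        one_smul, smul_mul_assoc, mul_smul_comm, mul_smul, mul_smul]
    · intro uv huv hne
      rw [HasAntidiagonal.mem_antidiagonal] at huv
      have h2 : uv.1 ≠ p - 2 := fun h => hne (Prod.ext h (by change uv.2 = 0; omega))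
      rw [ha k _ (by omega), zero_mul, smul_zero]
    · intro h
      exact absurd (HasAntidiagonal.mem_antidiagonal.mpr (add_zero _)) h

lemma xi_lam (a b : Aff S) (ha : ∀ k u, u < p - 2 → St p 1 u (lam p a k) = 0)
    (hb : ∀ k u, u < p - 2 → St p 1 u (lam p b k) = 0) (i m : ℕ) :
    ∃ c : ℤ, ¬ (p : ℤ) ∣ c ∧ xi p S m (lam p a i * lam p b i) =
      c • (lam p b (i + m + 1) * xx p a i ^ p ^ m - lam p a (i + m + 1) * xx p b i ^ p ^ m) := by
  have h5 : 5 ≤ p := Fact.out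
  induction m with
  | zero =>
    obtain ⟨ε, hε, hc⟩ := cartan (S := S) p 1 1
    refine ⟨ε * (nu p * nu p), not_dvd_mul p (not_dvd_sign p hε)
      (not_dvd_mul p (nu_not_dvd p) (nu_not_dvd p)), ?_⟩
    obtain ⟨t, ht⟩ := odd_p p
    have h := hc (2 * p - 3) _ (lam_mem p a i) _ (lam_mem p b i)
    rw [sum_eq_add (p - 2, p - 1) (p - 1, p - 2)] at h
    · have c1 : cc p 1 (p - 2) (p - 1) = 1 := by
        rw [cc, if_neg (fun h => Nat.not_odd_iff_even.mpr ⟨t, by omega⟩ h.2)]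
        exact Even.neg_one_pow (Even.mul_right ⟨t, by omega⟩ _)
      have c2 : cc p 1 (p - 1) (p - 2) = -1 := by
        rw [cc, if_neg (fun h => Nat.not_odd_iff_even.mpr ⟨t, by omega⟩ h.1),
          show 1 * p - (p - 1) = 1 by omega, mul_one]
        exact Odd.neg_one_pow ⟨t - 1, by omega⟩
      rw [one_add_one_eq_two] at h
      rw [xi_zero, h, c1, c2, St_lam_top, St_lam_top, St_lam_next, St_lam_next, pow_zero, pow_one, pow_one,
        one_smul, neg_smul, one_smul, smul_mul_assoc, mul_smul_comm, smul_mul_assoc,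
        mul_smul_comm, Hn_even_comm even_two (xx_mem p a i), ← sub_eq_add_neg, ← smul_sub,
        ← smul_sub, mul_smul, mul_smul]
    · intro h
      have := congrArg Prod.fst h
      change p - 2 = p - 1 at this
      omega
    · intro uv huv hne
      rw [HasAntidiagonal.mem_antidiagonal] at huv
      by_cases h1 : uv.1 < p - 2
      · rw [ha i _ h1, zero_mul, smul_zero]
      by_cases h2 : uv.2 < p - 2
      · rw [hb i _ h2, mul_zero, smul_zero]
      exfalso
      by_cases h3 : uv.1 = p - 2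
      · exact hne.1 (Prod.ext h3 (by change uv.2 = p - 1; omega))
      · exact hne.2 (Prod.ext (by change uv.1 = p - 1; omega) (by change uv.2 = p - 2; omega))
    · intro h
      exact absurd (HasAntidiagonal.mem_antidiagonal.mpr (by change p - 2 + (p - 1) = _; omega)) h
    · intro h
      exact absurd (HasAntidiagonal.mem_antidiagonal.mpr (by change p - 1 + (p - 2) = _; omega)) h
  | succ m ih =>
    obtain ⟨c, hc, e⟩ := ih
    obtain ⟨c', hc', hs⟩ := step p S (n := 2 * p ^ m) (even_two_mul _)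
    have hx : ∀ a : Aff S, xx p a i ^ p ^ m ∈ Hn S (2 * p ^ m) := fun a => by
      rw [mul_comm]; exact Hn_pow (xx_mem p a i) _
    refine ⟨c * c', not_dvd_mul p hc hc', ?_⟩
    rw [xi_succ, e, map_zsmul, map_sub, (hs b hb _ _ (hx a)).1, (hs a ha _ _ (hx b)).1, ← pow_mul,
      ← pow_mul, ← pow_succ, ← smul_sub, mul_smul, ← add_assoc i m 1]

end OpsAux

theorem Wop_lam (a b : Aff S) (ha : ∀ k u, u < p - 2 → St p 1 u (lam p a k) = 0)
    (hb : ∀ k u, u < p - 2 → St p 1 u (lam p b k) = 0) (i m : ℕ) :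
    ∃ c : ℤ, ¬ (p : ℤ) ∣ c ∧ Wop p S m (lam p a i * lam p b i) =
      c • (xx p a i ^ p ^ (m + 1) * xx p b (i + m + 1) -
        xx p b i ^ p ^ (m + 1) * xx p a (i + m + 1)) := by
  obtain ⟨c, hc, e⟩ := OpsAux.xi_lam p a b ha hb i m
  obtain ⟨c', hc', hs⟩ := OpsAux.step p S (n := 2 * p ^ m) (even_two_mul _)
  have hx : ∀ a : Aff S, xx p a i ^ p ^ m ∈ Hn S (2 * p ^ m) := fun a => by
    rw [mul_comm]; exact Hn_pow (xx_mem p a i) _
  refine ⟨c * c', OpsAux.not_dvd_mul p hc hc', ?_⟩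
  rw [OpsAux.Wop_eq, e, map_zsmul, map_sub, (hs b hb _ _ (hx a)).2, (hs a ha _ _ (hx b)).2, ← pow_mul,
    ← pow_mul, ← pow_succ, ← smul_sub, mul_smul, Hn_even_comm even_two (xx_mem p b _),
    Hn_even_comm even_two (xx_mem p a _)]

end Pool.Agent.Lib.MP_5f3851_al
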