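import Pool.Agent.Lib.MP_5f3851_al.GenE
import Pool.Agent.Lib.MP_5f3851_al.Ops
import Pool.Agent.Lib.MP_5f3851_al.AlgDefs

/-! The classes of `U_r` and their images. -/

set_option linter.unusedSectionVars false

namespace Pool.Agent.Lib.MP_5f3851_al

open Finset Cochain MvPolynomial

universe u

namespace ClassesAux

lemma exists_inv {p : ℕ} [Fact p.Prime] {c : ℤ} (hc : ¬ (p : ℤ) ∣ c) :
    ∃ a b : ℤ, a * c + b * p = 1 :=
  ((Nat.prime_iff_prime_int.1 (Fact.out : p.Prime)).coprime_iff_not_dvd.2 hc).symm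

lemma smul_inv {p : ℕ} {a b c : ℤ} (h : a * c + b * p = 1) {A : Type*} [Ring A]
    (hp : (p : A) = 0) (x : A) : a • c • x = x := by
  have h1 : (p : ℤ) • x = 0 := by rw [zsmul_eq_mul, Int.cast_natCast, hp, zero_mul]
  calc a • c • x = a • c • x + b • (p : ℤ) • x := by rw [h1, smul_zero, add_zero]
    _ = x := by rw [smul_smul, smul_smul, ← add_smul, h, one_smul]

lemma not_dvd_small {p : ℕ} [Fact (5 ≤ p)] {c : ℕ} (h0 : 0 < c) (h4 : c ≤ 4) :
    ¬ (p : ℤ) ∣ (c : ℤ) := fun h => by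
  have h1 := Nat.le_of_dvd h0 (Int.natCast_dvd_natCast.1 h)
  have h2 : 5 ≤ p := Fact.out
  omega

variable {B : Type u} [CommRing B] {p r b : ℕ}

lemma quot_nat {i j : Obj B} {φ : i.R →+* j.R} {m : Pt p r b i.R → Pt p r b j.R}
    (h : (gs B p r b).Arr i j φ m) (v w : Pt p r b i.R) :
    (m v).1⁻¹ * (m w).1 = (v.1⁻¹ * w.1).map φ := by
  obtain ⟨-, g, hg⟩ := h
  rw [hg, hg, Heis.map_mul', Heis.map_inv', mul_inv_rev, mul_assoc, inv_mul_cancel_left]

lemma wt_c2 {a e : ℕ} (F : ∀ i : Obj B, Pt p r b i.R → Pt p r b i.R → Pt p r b i.R → i.R) (hF)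
    (h : ∀ i s t v w x, F i (Pt.scale s t v) (Pt.scale s t w) (Pt.scale s t x) =
      s ^ a * t ^ e * F i v w x) : Wt a e (c2 (S := gs B p r b) F hF) := by
  intro i s t l
  match l with
  | [] => exact (mul_zero _).symm
  | [_] => exact (mul_zero _).symm
  | [_, _] => exact (mul_zero _).symm
  | [v, w, x] => exact h i s t v w x
  | _ :: _ :: _ :: _ :: _ => exact (mul_zero _).symm

/-- The primitive of `lam x * lam y`. -/
def zeta (B : Type u) [CommRing B] (p r : ℕ) : Cochain (gs B p r r) :=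
  c1 (fun i v w => -((v.1⁻¹ * w.1).z + hh p i.R * ((v.1⁻¹ * w.1).x * (v.1⁻¹ * w.1).y)))
    fun i j φ m h v w => by
      rw [quot_nat h]
      simp only [Heis.map_x, Heis.map_y, Heis.map_z, map_neg, map_add, map_mul, Heis.map_hh]

lemma zeta_val (i : Obj B) (v w : Pt p r r i.R) : (zeta B p r).val i [v, w] =
    -((v.1⁻¹ * w.1).z + hh p i.R * ((v.1⁻¹ * w.1).x * (v.1⁻¹ * w.1).y)) := rfl

/-- The second coordinate of the plane on which the group acts. -/
def pz {R : Type u} [CommRing R] (g : Heis p R) : R := g.z - hh p R * (g.x * g.y)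

/-- The determinant. -/
def det3 {R : Type u} [CommRing R] (a b c : Heis p R) : R :=
  (b.x - a.x) * (pz c - pz a) - (c.x - a.x) * (pz b - pz a)

/-- The cocycle `ω`. -/
def omegaC (B : Type u) [CommRing B] (p r : ℕ) : Cochain (gs B p r r) :=
  c2 (fun _ v w x => det3 v.1 w.1 x.1) fun i j φ m h v w x => by
    obtain ⟨-, g, hg⟩ := h
    rw [hg, hg, hg]
    simp only [det3, pz, Heis.mul_x, Heis.mul_y, Heis.mul_z, Heis.map_x, Heis.map_y, Heis.map_z,
      map_sub, map_mul, Heis.map_hh]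
    ring

lemma d_omegaC : d (omegaC B p r) = 0 := by
  refine (c2_hom _ _).d.ext3 (hom_zero 3) fun i a b c e => ?_
  rw [d_val4, zero_val]
  change det3 b.1 c.1 e.1 - det3 a.1 c.1 e.1 + det3 a.1 b.1 e.1 - det3 a.1 b.1 c.1 = 0
  simp only [det3]
  ring

lemma wt_omegaC : Wt 2 1 (omegaC B p r) :=
  wt_c2 _ _ fun i s t v w x => by
    simp only [det3, pz, Pt.scale]
    ring

/-- `Phi4` at two points of the group. -/
def ph {R : Type u} [CommRing R] (a b : Heis p R) : R := Phi4 p (hh p R) a.x a.y a.z b.x b.y b.z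

/-- The cocycle `Z`. -/
def zC (B : Type u) [CommRing B] (p r t : ℕ) : Cochain (gs B p r r) :=
  c2 (fun _ v w x => ph (v.1⁻¹ * w.1) (w.1⁻¹ * x.1) ^ p ^ t) fun i j φ m h v w x => by
    rw [quot_nat h, quot_nat h, map_pow, ph, map_Phi4, Heis.map_hh]
    rfl

variable [Fact p.Prime] [Fact (5 ≤ p)]

lemma ph_cocycle {R : Type u} [CommRing R] (a b c : Heis p R) :
    ph b c - ph (a * b) c + ph a (b * c) - ph a b =
      hh p R ^ p * (Phi p a.x b.x * c.y ^ p - a.x ^ p * Phi p b.y c.y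
        - Phi p a.y b.y * c.x ^ p + a.y ^ p * Phi p b.x c.x) :=
  Phi4_cocycle (odd_p p) _ _ _ _ _ _ _ _ _ _

lemma quot_pow {R : Type u} [CommRing R] (hp : (p : R) = 0) {t : ℕ} (v w : Pt p (t + 1) (t + 1) R) :
    ((v.1⁻¹ * w.1).x ^ p) ^ p ^ t = 0 ∧ ((v.1⁻¹ * w.1).y ^ p) ^ p ^ t = 0 := by
  rw [← pow_mul, ← pow_mul, ← pow_succ', Heis.mul_x, Heis.mul_y, Heis.inv_x, Heis.inv_y,
    add_pow_pp hp, add_pow_pp hp, neg_pow_pp hp, neg_pow_pp hp, v.2.1, v.2.2.1, w.2.1, w.2.2.1]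
  simp

lemma d_zC [PZ p B] (t : ℕ) : d (zC B p (t + 1) t) = 0 := by
  refine (c2_hom _ _).d.ext3 (hom_zero 3) fun i a b c e => ?_
  have hp : (p : i.R) = 0 := PZ.of_hom i.φ
  rw [d_val4, zero_val]
  change frobR hp t (ph (b.1⁻¹ * c.1) (c.1⁻¹ * e.1)) - frobR hp t (ph (a.1⁻¹ * c.1) (c.1⁻¹ * e.1))
    + frobR hp t (ph (a.1⁻¹ * b.1) (b.1⁻¹ * e.1)) - frobR hp t (ph (a.1⁻¹ * b.1) (b.1⁻¹ * c.1)) = 0
  have e1 : a.1⁻¹ * c.1 = (a.1⁻¹ * b.1) * (b.1⁻¹ * c.1) := by group
  have e2 : b.1⁻¹ * e.1 = (b.1⁻¹ * c.1) * (c.1⁻¹ * e.1) := by group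
  rw [← map_sub, ← map_add, ← map_sub, e1, e2, ph_cocycle]
  simp only [map_mul, map_add, map_sub]
  rw [frobR_apply hp t (_ ^ p), frobR_apply hp t ((c.1⁻¹ * e.1).y ^ p),
    frobR_apply hp t ((a.1⁻¹ * b.1).x ^ p), frobR_apply hp t ((c.1⁻¹ * e.1).x ^ p),
    frobR_apply hp t ((a.1⁻¹ * b.1).y ^ p), (quot_pow hp a b).1, (quot_pow hp a b).2,
    (quot_pow hp c e).1, (quot_pow hp c e).2]
  ring

lemma ph_scale {R : Type u} [CommRing R] (s t : R) (v w x : Pt p r b R) :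
    ph ((Pt.scale s t v).1⁻¹ * (Pt.scale s t w).1) ((Pt.scale s t w).1⁻¹ * (Pt.scale s t x).1) =
      (s * t) ^ p * ph (v.1⁻¹ * w.1) (w.1⁻¹ * x.1) := by
  simp only [ph, Phi4, mul_add, ← Phi_mul, Pt.scale, Heis.mul_x, Heis.mul_y, Heis.mul_z,
    Heis.inv_x, Heis.inv_y, Heis.inv_z]
  congr 1
  · congr 1 <;> congr 1 <;> ring
  · congr 1 <;> ring

lemma wt_zC (t : ℕ) : Wt (p ^ (t + 1)) (p ^ (t + 1)) (zC B p (t + 1) t) :=
  wt_c2 _ _ fun i s t' v w x => by
    rw [ph_scale, mul_pow, ← pow_mul, ← pow_succ', mul_pow]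

lemma lam_xy_zero [PZ p B] : lam p (ux B p r) 0 * lam p (uy B p r) 0 = 0 := by
  rw [lam, lam, ← cls_mul (d_lamC p _ _) (d_lamC p _ _), ← cls_d (zeta B p r)]
  congr 1
  refine ((lamC_hom p _ _).mul (lamC_hom p _ _)).ext2 (c1_hom _ _).d fun i a b c => ?_
  have h2 : 2 * hh p i.R = 1 := two_mul_hh (odd_p p) (PZ.of_hom i.φ)
  rw [(lamC_hom p _ _).mul_val11, lamC_val, lamC_val, d_val3]
  rw [zeta_val, zeta_val, zeta_val]
  simp only [gco, Heis.co_zero, Heis.co_one, pow_zero, pow_one, Heis.mul_x,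
    Heis.mul_y, Heis.mul_z, Heis.inv_x, Heis.inv_y, Heis.inv_z]
  linear_combination (-(b.1.x - a.1.x) * (c.1.y - b.1.y)) * h2

end ClassesAux

open ClassesAux

section
variable {B : Type u} [CommRing B] {p r : ℕ} [Fact p.Prime] [Fact (5 ≤ p)] [PZ p B]

lemma lam_x_mul_lam_y (i : ℕ) : lam p (ux B p r) i * lam p (uy B p r) i = 0 := by
  have h := congrArg (frobM p (gs B p r r) i).pullA (lam_xy_zero (B := B) (p := p) (r := r))
  rwa [SiteMap.pullA_mul _ (frobM_isRing p i), frob_lam, frob_lam, zero_add, map_zero] at h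
/-- The relations of the commuting variety. -/
theorem rel_XY (i m : ℕ) : xx p (ux B p r) i ^ p ^ (m + 1) * xx p (uy B p r) (i + m + 1) =
    xx p (uy B p r) i ^ p ^ (m + 1) * xx p (ux B p r) (i + m + 1) := by
  obtain ⟨c, hc, h⟩ := Wop_lam p (ux B p r) (uy B p r) (St_lam_lt le_rfl _ _)
    (St_lam_lt le_rfl _ _) i m
  obtain ⟨a, b, hab⟩ := exists_inv hc
  rw [lam_x_mul_lam_y, map_zero] at h
  rw [← sub_eq_zero, ← smul_inv hab (H_natCast_eq_zero CharS.out) (_ - _), ← h, smul_zero]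

end

variable {k : Type u} [Field k] {p r : ℕ} [Fact p.Prime] [Fact (5 ≤ p)] [CharP k p]

/-- Restriction to the family of abelian subgroups `(x, v x, z)`. -/
noncomputable def embH (k : Type u) [Field k] (p r : ℕ) [Fact p.Prime] [CharP k p] :
    H (gs k p r r) →+* H (gs (Polynomial k) p r 0) :=
  (resH _ p r).comp ((alphaH p r Polynomial.X).comp (bcH p r r Polynomial.C))

/-- The map `ρ`. -/
noncomputable def rho (k : Type u) [Field k] (p r : ℕ) [Fact p.Prime] [Fact (5 ≤ p)] [CharP k p] :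
    H (gs k p r r) →+* SP k r := (rhoE (Polynomial k) p r).comp (embH k p r)

namespace ClassesAux

lemma embH_apply (x : H (gs k p r r)) : embH k p r x = (resM _ p r).pullA
    ((alphaM p r Polynomial.X).pullA ((bc p r r Polynomial.C).pullA x)) := rfl

lemma embH_cls {f : Cochain (gs k p r r)} (hf : d f = 0) : embH k p r (cls f) =
    cls ((resM _ p r).pull ((alphaM p r Polynomial.X).pull ((bc p r r Polynomial.C).pull f))) := by
  rw [embH_apply, SiteMap.pullA_cls _ hf, SiteMap.pullA_cls _ (SiteMap.d_pull_eq_zero _ hf),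
    SiteMap.pullA_cls _ (SiteMap.d_pull_eq_zero _ (SiteMap.d_pull_eq_zero _ hf))]

lemma embH_frob (n : ℕ) (x : H (gs k p r r)) :
    embH k p r ((frobM p _ n).pullA x) = (frobM p _ n).pullA (embH k p r x) := by
  rw [embH_apply, embH_apply, pullA_frob p (bc p r r Polynomial.C) (homMap_isRing _ _ _),
    pullA_frob p (alphaM p r Polynomial.X) (homMap_isRing _ _ _),
    pullA_frob p (resM _ p r) (homMap_isRing _ _ _)]

lemma embH_Wop (m : ℕ) (x : H (gs k p r r)) :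
    embH k p r (Wop p _ m x) = Wop p _ m (embH k p r x) := by
  rw [embH_apply, embH_apply, pullA_Wop p (bc p r r Polynomial.C) (homMap_isRing _ _ _),
    pullA_Wop p (alphaM p r Polynomial.X) (homMap_isRing _ _ _),
    pullA_Wop p (resM _ p r) (homMap_isRing _ _ _)]

/-- The point `(x, y + c x, z)`. -/
def tw {R : Type u} [CommRing R] (c : R) (g : Heis p R) : Heis p R := ⟨g.x, g.y + c * g.x, g.z⟩

lemma rhoE_xx (c : Bool) (i : Fin r) :
    rhoE (Polynomial k) p r (xx p (ec _ p r c) i) = X (c, i) := by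
  rw [← rhoE_evE (p := p) (X (c, i)), evE_X]

lemma rhoE_scH (c : Polynomial k) :
    rhoE (Polynomial k) p r ((galg _ p r 0).scH c) = C c := by
  rw [← rhoE_evE (p := p) (C c), evE_C]

/-- The cube of the difference of the first coordinates. -/
noncomputable def cube (k : Type u) [Field k] (p r : ℕ) (a : ℤ) :
    Cochain (gs (Polynomial k) p r 0) :=
  c1 (fun i v w => a * hh p i.R * i.φ Polynomial.X * (v.1⁻¹ * w.1).x ^ 3)
    fun i j φ m h v w => by
      have hX : φ (i.φ Polynomial.X) = j.φ Polynomial.X := DFunLike.congr_fun h.1 Polynomial.X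
      rw [quot_nat h, ← hX]
      simp only [Heis.map_x, map_mul, map_pow, map_intCast, Heis.map_hh]

lemma cube_val (a : ℤ) (i : Obj (Polynomial k)) (v w : Pt p r 0 i.R) :
    (cube k p r a).val i [v, w] = a * hh p i.R * i.φ Polynomial.X * (v.1⁻¹ * w.1).x ^ 3 := rfl

end ClassesAux

lemma rho_scH (c : k) : rho k p r ((galg k p r r).scH c) = C (Polynomial.C c) := by
  simp only [rho, embH, RingHom.comp_apply]
  rw [bcH_scH, alphaH_scH, resH_scH, rhoE_scH]
lemma rho_X (i : Fin r) : rho k p r (xx p (ux k p r) i) = X (false, i) := by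
  simp only [rho, embH, RingHom.comp_apply]
  rw [bcH_xx, alphaH_xx_x, resH_xx_x, rhoE_xx]
lemma rho_Y (i : Fin r) : rho k p r (xx p (uy k p r) i) =
    C (Polynomial.X ^ p ^ ((i : ℕ) + 1)) * X (false, i) := by
  simp only [rho, embH, RingHom.comp_apply]
  rw [bcH_xx, alphaH_xx_y, map_add, map_mul, resH_xx_y, resH_scH, resH_xx_x, zero_add, map_mul,
    rhoE_scH, rhoE_xx]
/-- The class `ω = det (P₁ - P₀, P₂ - P₀)`, `P = (x, z - h x y)`. -/
theorem exists_omega : ∃ ω : H (gs k p r r), ω ∈ Hn _ 2 ∧ ω ∈ HWt k p r r 2 1 ∧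
    embH k p r ω = 2 • (lam p (ec _ p r false) 0 * lam p (ec _ p r true) 0) := by
  refine ⟨cls (omegaC k p r), cls_mem_Hn d_omegaC (c2_hom _ _),
    ⟨_, d_omegaC, wt_omegaC, rfl⟩, ?_⟩
  obtain ⟨a, b, hab⟩ := exists_inv (not_dvd_small (p := p) (c := 3) (by norm_num) (by norm_num))
  have hx := d_lamC p (ec (Polynomial k) p r false) 0
  have hz := d_lamC p (ec (Polynomial k) p r true) 0
  have e : (resM _ p r).pull ((alphaM p r Polynomial.X).pull
      ((bc p r r Polynomial.C).pull (omegaC k p r))) =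
      lamC p (ec _ p r false) 0 * lamC p (ec _ p r true) 0 -
        lamC p (ec _ p r true) 0 * lamC p (ec _ p r false) 0 + d (cube k p r a) := by
    refine (SiteMap.pull_hom _ (SiteMap.pull_hom _ (SiteMap.pull_hom _ (c2_hom _ _)))).ext2
      ((((lamC_hom p _ _).mul (lamC_hom p _ _)).sub
        ((lamC_hom p _ _).mul (lamC_hom p _ _))).add (c1_hom _ _).d) fun i v w x => ?_
    have hp : (p : i.R) = 0 := PZ.of_hom i.φ
    have h3 : (a : i.R) * 3 = 1 := by
      have := congrArg (Int.cast : ℤ → i.R) hab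
      push_cast at this
      rwa [hp, mul_zero, add_zero] at this
    rw [add_val, sub_val, (lamC_hom p _ _).mul_val11, (lamC_hom p _ _).mul_val11, lamC_val,
      lamC_val, lamC_val, lamC_val, d_val3, cube_val, cube_val, cube_val]
    change det3 (tw (i.φ Polynomial.X) v.1) (tw (i.φ Polynomial.X) w.1)
      (tw (i.φ Polynomial.X) x.1) =
      (w.1.x - v.1.x) ^ p ^ 0 * (x.1.z - w.1.z) ^ p ^ 0 -
        (w.1.z - v.1.z) ^ p ^ 0 * (x.1.x - w.1.x) ^ p ^ 0 + _
    simp only [det3, pz, tw, pow_zero, pow_one, Heis.mul_x, Heis.inv_x,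
      v.y_eq_zero, w.y_eq_zero, x.y_eq_zero]
    linear_combination (hh p i.R * i.φ Polynomial.X * (w.1.x - v.1.x) * (x.1.x - w.1.x) *
      (x.1.x - v.1.x)) * h3
  rw [embH_cls d_omegaC, e, cls_add (by
      rw [d_sub, d_mul_eq_zero hx hz, d_mul_eq_zero hz hx, sub_zero]) (d_d _), cls_d, add_zero,
    cls_sub (d_mul_eq_zero hx hz) (d_mul_eq_zero hz hx), cls_mul hx hz, cls_mul hz hx]
  have hc := Hn_comm (lam_mem p (ec (Polynomial k) p r true) 0)
    (lam_mem p (ec (Polynomial k) p r false) 0)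
  rw [lam, lam] at hc
  rw [hc, lam, lam, two_smul]
  simp
theorem exists_W (i j : Fin r) (hij : i < j) :
    ∃ W ∈ HWt k p r r (2 * p ^ ((j : ℕ) + 1)) (p ^ ((j : ℕ) + 1)),
      rho k p r W = wpoly (Polynomial k) p i j := by
  obtain ⟨ω, h2, hw, he⟩ := exists_omega (k := k) (p := p) (r := r)
  obtain ⟨m, hm⟩ : ∃ m : ℕ, (j : ℕ) = i + m + 1 := Nat.exists_eq_add_of_lt hij
  obtain ⟨c, hc, h⟩ := Wop_lam p (ec (Polynomial k) p r false) (ec (Polynomial k) p r true)
    (St_lam_lt (Nat.zero_le _) _ _) (St_lam_lt (Nat.zero_le _) _ _) i m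
  have hc' : ¬ (p : ℤ) ∣ -(2 * c) := by
    rw [dvd_neg, (Nat.prime_iff_prime_int.1 (Fact.out : p.Prime)).dvd_mul, not_or]
    exact ⟨not_dvd_small (c := 2) (by norm_num) (by norm_num), hc⟩
  obtain ⟨a, b, hab⟩ := exists_inv hc'
  refine ⟨a • Wop p _ m ((frobM p _ i).pullA ω), AddSubgroup.zsmul_mem _ ?_ _, ?_⟩
  · have h1 := Wop_induction p (fun e x => x ∈ HWt k p r r (2 * p ^ e) (p ^ e))
      (fun e n j x _ hx => by
        have := St_mem_HWt (n := n) hx j
        rwa [mul_assoc, ← pow_succ] at this)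
      (e := i) (SiteMap.pullA_mem_Hn (frobM p _ i) h2)
      (by simpa only [one_mul] using frob_mem_HWt hw i) m
    rwa [hm]
  · have hji : (j : ℕ) - i = m + 1 := by omega
    rw [map_zsmul, rho, RingHom.comp_apply, embH_Wop, embH_frob, he, map_nsmul,
      SiteMap.pullA_mul _ (frobM_isRing p i), frob_lam, frob_lam, zero_add, map_nsmul, h, ← hm,
      map_nsmul, map_zsmul, map_sub, map_mul, map_mul, map_pow, map_pow, rhoE_xx, rhoE_xx,
      rhoE_xx, rhoE_xx, ← smul_inv hab (PZ.of_hom (C : Polynomial k →+* SP k r))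
        (wpoly (Polynomial k) p i j), wpoly, hji]
    congr 1
    simp only [zsmul_eq_mul, nsmul_eq_mul]
    push_cast
    ring
theorem exists_Z (t : Fin r) (ht : (t : ℕ) + 1 = r) :
    ∃ Z ∈ HWt k p r r (p ^ r) (p ^ r), rho k p r Z = X (true, t) := by
  obtain ⟨t, ht'⟩ := t
  obtain rfl : t + 1 = r := ht
  refine ⟨cls (zC k p (t + 1) t), ⟨_, d_zC t, wt_zC t, rfl⟩, ?_⟩
  rw [← rhoE_xx (p := p) true ⟨t, ht'⟩, rho, RingHom.comp_apply, embH_cls (d_zC t), xx]
  congr 2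
  refine (SiteMap.pull_hom _ (SiteMap.pull_hom _ (SiteMap.pull_hom _ (c2_hom _ _)))).ext2
    (xxC_hom p _ _) fun i v w x => ?_
  have hp : (p : i.R) = 0 := PZ.of_hom i.φ
  rw [xxC_val, ← Phi_pow_pp hp]
  change ph ((tw (i.φ Polynomial.X) v.1)⁻¹ * tw (i.φ Polynomial.X) w.1)
    ((tw (i.φ Polynomial.X) w.1)⁻¹ * tw (i.φ Polynomial.X) x.1) ^ p ^ t =
      Phi p (w.1.z - v.1.z) (x.1.z - w.1.z) ^ p ^ t
  congr 1
  have key : ∀ h a c z a' z' y y' : i.R, y = c * a → y' = c * a' →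
      Phi4 p h a y z a' y' z' = Phi p z z' := by
    rintro h a c z a' z' _ _ rfl rfl
    rw [Phi4, show h * (a' * (c * a)) = h * (a * (c * a')) by ring, Phi_neg_self (odd_p p),
      show h * (a * (c * a') - a' * (c * a)) = 0 by ring, Phi_zero_right, add_zero, add_zero]
  rw [ph, key _ _ (i.φ Polynomial.X)]
  · simp only [tw, Heis.mul_z, Heis.inv_x, Heis.inv_y, Heis.inv_z, v.y_eq_zero, w.y_eq_zero,
      x.y_eq_zero]
    congr 1 <;> ring
  · simp only [tw, Heis.mul_x, Heis.mul_y, Heis.inv_x, Heis.inv_y, v.y_eq_zero, w.y_eq_zero]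
    ring
  · simp only [tw, Heis.mul_x, Heis.mul_y, Heis.inv_x, Heis.inv_y, x.y_eq_zero, w.y_eq_zero]
    ring

end Pool.Agent.Lib.MP_5f3851_al
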