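import Mathlib

/-! The invariant `(z^p t' - z' t^p)^k` is not, up to a factor with nonzero constant term, in the
image of the divided derivative. -/

namespace Pool.Agent.Lib.MP_5f3851_al

open MvPolynomial

/-- `X 1 ↦ X 1 + κ^n X 0`, `X 3 ↦ X 3 + κ^(n p) X 2`; `X 0` and `X 2` are fixed. -/
noncomputable def delta4 (K : Type*) [CommRing K] (p n : ℕ) :
    MvPolynomial (Fin 4) K →+* Polynomial (MvPolynomial (Fin 4) K) :=
  eval₂Hom (Polynomial.C.comp C)
    ![Polynomial.C (X 0), Polynomial.C (X 1) + Polynomial.X ^ n * Polynomial.C (X 0),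
      Polynomial.C (X 2), Polynomial.C (X 3) + Polynomial.X ^ (n * p) * Polynomial.C (X 2)]

namespace CoreAux

variable {K : Type*} [CommRing K]

/-- The exponent vector with the four given entries. -/
noncomputable def vec (a b c d : ℕ) : Fin 4 →₀ ℕ := Finsupp.equivFunOnFinite.symm ![a, b, c, d]

theorem vec_eq_iff {a b c d a' b' c' d' : ℕ} :
    vec a b c d = vec a' b' c' d' ↔ a = a' ∧ b = b' ∧ c = c' ∧ d = d' := by
  constructor
  · intro h
    have h0 := DFunLike.congr_fun h 0
    have h1 := DFunLike.congr_fun h 1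
    have h2 := DFunLike.congr_fun h 2
    have h3 := DFunLike.congr_fun h 3
    simp [vec] at h0 h1 h2 h3
    exact ⟨h0, h1, h2, h3⟩
  · rintro ⟨rfl, rfl, rfl, rfl⟩
    rfl

theorem vec_le {a b c d a' b' c' d' : ℕ} (h : vec a b c d ≤ vec a' b' c' d') :
    c ≤ c' ∧ d ≤ d' := by
  have h2 := h 2
  have h3 := h 3
  simp [vec] at h2 h3
  exact ⟨h2, h3⟩

theorem monomial_vec (a b c d : ℕ) (x : K) :
    monomial (vec a b c d) x = C x * (X 0 ^ a * X 1 ^ b * X 2 ^ c * X 3 ^ d) := by
  rw [monomial_eq, Finsupp.prod_fintype _ _ (by simp), Fin.prod_univ_four]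
  simp [vec]

theorem eq_vec (u : Fin 4 →₀ ℕ) : u = vec (u 0) (u 1) (u 2) (u 3) := by
  ext i
  fin_cases i <;> simp [vec]

/-- The weight of the `j`-th monomial. -/
def wt (K : Type*) [CommRing K] (k j : ℕ) : K :=
  (-1) ^ j * ((j.factorial : K) * ((k - j).factorial : K))

/-- The functional that kills the image of the divided derivative. -/
noncomputable def LL (p k : ℕ) (g : MvPolynomial (Fin 4) K) : K :=
  ∑ j ∈ Finset.range (k + 1), wt K k j * coeff (vec (p * (k - j)) (p * j) j (k - j)) g

theorem LL_add (p k : ℕ) (f g : MvPolynomial (Fin 4) K) :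
    LL p k (f + g) = LL p k f + LL p k g := by
  simp [LL, mul_add, Finset.sum_add_distrib]

theorem LL_sum (p k : ℕ) (t : Finset ℕ) (f : ℕ → MvPolynomial (Fin 4) K) :
    LL p k (∑ i ∈ t, f i) = ∑ i ∈ t, LL p k (f i) := by
  simp only [LL, coeff_sum, Finset.mul_sum]
  exact Finset.sum_comm

theorem LL_monomial (p k a b c d : ℕ) (x : K) :
    LL p k (monomial (vec a b c d) x) =
      if c ≤ k ∧ a = p * (k - c) ∧ b = p * c ∧ d = k - c then wt K k c * x else 0 := by
  classical
  unfold LL
  simp only [coeff_monomial, vec_eq_iff]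
  split_ifs with h
  · obtain ⟨h1, h2, h3, h4⟩ := h
    rw [Finset.sum_eq_single c]
    · rw [if_pos ⟨h2, h3, rfl, h4⟩]
    · intro j _ hj
      rw [if_neg (fun h => hj h.2.2.1.symm), mul_zero]
    · intro hc
      exact absurd (Finset.mem_range.2 (by omega)) hc
  · refine Finset.sum_eq_zero fun j hj => ?_
    rw [if_neg, mul_zero]
    rintro ⟨h2, h3, rfl, h4⟩
    exact h ⟨by have := Finset.mem_range.1 hj; omega, h2, h3, h4⟩

theorem LL_mul_monomial (p k i : ℕ) (hi : i ≤ k) (s : MvPolynomial (Fin 4) K) (x : K) :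
    LL p k (s * monomial (vec (p * (k - i)) (p * i) i (k - i)) x) =
      wt K k i * (constantCoeff s * x) := by
  classical
  unfold LL
  rw [Finset.sum_eq_single i]
  · rw [coeff_mul_monomial', if_pos le_rfl, tsub_self, constantCoeff_eq]
  · intro j hj hji
    rw [coeff_mul_monomial', if_neg, mul_zero]
    intro h
    have := vec_le h
    have := Finset.mem_range.1 hj
    omega
  · intro hc
    exact absurd (Finset.mem_range.2 (by omega)) hc

theorem coeff_pow_lin {R : Type*} [CommRing R] (A B : R) (b m : ℕ) :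
    ((Polynomial.C A + Polynomial.X * Polynomial.C B) ^ b).coeff m =
      (b.choose m : R) * (B ^ m * A ^ (b - m)) := by
  rw [add_comm, add_pow, Polynomial.finsetSum_coeff]
  have h : ∀ i : ℕ, ((Polynomial.X * Polynomial.C B) ^ i * Polynomial.C A ^ (b - i) *
      (b.choose i : Polynomial R)).coeff m =
      if m = i then (b.choose i : R) * (B ^ i * A ^ (b - i)) else 0 := by
    intro i
    have : (Polynomial.X * Polynomial.C B) ^ i * Polynomial.C A ^ (b - i) *
        (b.choose i : Polynomial R) =
        Polynomial.C ((b.choose i : R) * (B ^ i * A ^ (b - i))) * Polynomial.X ^ i := by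
      simp only [map_mul, map_pow, map_natCast]
      ring
    rw [this, Polynomial.coeff_C_mul_X_pow]
  simp only [h]
  rw [Finset.sum_ite_eq]
  split_ifs with hm
  · rfl
  · have : b < m := by
      have := Finset.mem_range.not.1 hm
      omega
    rw [Nat.choose_eq_zero_of_lt this]
    simp

theorem coeff_two {R : Type*} [CommRing R] (A B A' B' : R) (b d n p : ℕ) (hn : 0 < n)
    (hp : 0 < p) :
    ((Polynomial.C A + Polynomial.X ^ n * Polynomial.C B) ^ b *
      (Polynomial.C A' + Polynomial.X ^ (n * p) * Polynomial.C B') ^ d).coeff (n * p) =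
      (b.choose p : R) * (B ^ p * A ^ (b - p)) * A' ^ d +
        A ^ b * ((d : R) * A' ^ (d - 1) * B') := by
  have h1 : (Polynomial.C A + Polynomial.X ^ n * Polynomial.C B) ^ b =
      Polynomial.expand R n ((Polynomial.C A + Polynomial.X * Polynomial.C B) ^ b) := by
    simp
  obtain ⟨r, hr⟩ := Polynomial.powAddExpansion (Polynomial.C A')
    (Polynomial.X ^ (n * p) * Polynomial.C B') d
  have hN : 0 < n * p := Nat.mul_pos hn hp
  generalize hF : (Polynomial.C A + Polynomial.X ^ n * Polynomial.C B) ^ b = F at h1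
  have c0 : F.coeff 0 = A ^ b := by
    have := Polynomial.coeff_expand_mul' hn
      ((Polynomial.C A + Polynomial.X * Polynomial.C B) ^ b) 0
    rw [mul_zero, ← h1, coeff_pow_lin] at this
    simpa using this
  have c1 : F.coeff (n * p) = (b.choose p : R) * (B ^ p * A ^ (b - p)) := by
    rw [h1, Polynomial.coeff_expand_mul' hn, coeff_pow_lin]
  have h2 : F * (Polynomial.C A' + Polynomial.X ^ (n * p) * Polynomial.C B') ^ d =
      F * Polynomial.C (A' ^ d) +
        (F * Polynomial.C ((d : R) * A' ^ (d - 1) * B')) * Polynomial.X ^ (n * p) +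
        (F * r * Polynomial.C B' ^ 2) * Polynomial.X ^ (n * p + n * p) := by
    rw [hr]
    simp only [map_mul, map_pow, map_natCast]
    ring
  rw [h2, Polynomial.coeff_add, Polynomial.coeff_add, Polynomial.coeff_mul_C,
    Polynomial.coeff_mul_X_pow', Polynomial.coeff_mul_X_pow', if_pos le_rfl,
    if_neg (by omega), tsub_self, Polynomial.coeff_mul_C, c0, c1, add_zero]

theorem coeff_delta4 (p n : ℕ) (hn : 0 < n) (hp : 0 < p) (a b c d : ℕ) (x : K) :
    (delta4 K p n (monomial (vec a b c d) x)).coeff (n * p) =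
      monomial (vec (a + p) (b - p) c d) ((b.choose p : K) * x) +
        monomial (vec a b (c + 1) (d - 1)) ((d : K) * x) := by
  have h : delta4 K p n (monomial (vec a b c d) x) =
      Polynomial.C (C x * X 0 ^ a * X 2 ^ c) *
        ((Polynomial.C (X 1) + Polynomial.X ^ n * Polynomial.C (X 0)) ^ b *
          (Polynomial.C (X 3) + Polynomial.X ^ (n * p) * Polynomial.C (X 2)) ^ d) := by
    rw [monomial_vec]
    simp only [delta4, map_mul, map_pow, coe_eval₂Hom, eval₂_C, eval₂_X, RingHom.comp_apply,
      Matrix.cons_val_zero, Matrix.cons_val_one, Matrix.cons_val]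
    ring
  rw [h, Polynomial.coeff_C_mul, coeff_two _ _ _ _ _ _ _ _ hn hp, monomial_vec, monomial_vec]
  simp only [map_mul, map_natCast]
  ring

theorem choose_mul_cast (p : ℕ) [Fact p.Prime] [CharP K p] (c : ℕ) :
    (((p * (c + 1)).choose p : ℕ) : K) = (c : K) + 1 := by
  have hp : 0 < p := (Fact.out : p.Prime).pos
  have h := Choose.choose_modEq_choose_mod_mul_choose_div_nat (n := p * (c + 1)) (k := p) (p := p)
  rw [Nat.mul_mod_right, Nat.mod_self, Nat.mul_div_cancel_left _ hp, Nat.div_self hp] at h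
  rw [(CharP.natCast_eq_natCast K p).2 h]
  simp

theorem LL_delta4 (p : ℕ) [Fact p.Prime] [CharP K p] (n k : ℕ) (hn : 0 < n)
    (h : MvPolynomial (Fin 4) K) : LL p k ((delta4 K p n h).coeff (n * p)) = 0 := by
  have hp : 0 < p := (Fact.out : p.Prime).pos
  induction h using MvPolynomial.induction_on' with
  | add f g hf hg => rw [map_add, Polynomial.coeff_add, LL_add, hf, hg, add_zero]
  | monomial u x =>
    rw [eq_vec u]
    generalize u 0 = a
    generalize u 1 = b
    generalize u 2 = c
    generalize u 3 = d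
    rw [coeff_delta4 p n hn hp, LL_add, LL_monomial, LL_monomial]
    by_cases H : c + 1 ≤ k ∧ a = p * (k - (c + 1)) ∧ b = p * (c + 1) ∧ d = k - c
    · obtain ⟨h1, h2, h3, h4⟩ := H
      obtain ⟨m, rfl⟩ : ∃ m, k = c + 1 + m := ⟨k - (c + 1), by omega⟩
      have e1 : c + 1 + m - (c + 1) = m := by omega
      have e2 : c + 1 + m - c = m + 1 := by omega
      rw [e1] at h2
      rw [e2] at h4
      subst h2 h3 h4
      rw [if_pos, if_pos, choose_mul_cast]
      · simp only [wt, e1, e2, Nat.factorial_succ]
        push_cast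
        ring
      · exact ⟨h1, by rw [e1], rfl, by omega⟩
      · refine ⟨by omega, by rw [e2]; ring, ?_, by omega⟩
        rw [Nat.mul_succ, Nat.add_sub_cancel]
    · have t1 : (if c ≤ k ∧ a + p = p * (k - c) ∧ b - p = p * c ∧ d = k - c then
          wt K k c * ((b.choose p : K) * x) else 0) = 0 := by
        split_ifs with h
        · obtain ⟨h1, h2, h3, h4⟩ := h
          by_cases hb : b < p
          · rw [Nat.choose_eq_zero_of_lt hb]
            simp
          · exfalso
            obtain ⟨m, rfl⟩ : ∃ m, k = c + m := ⟨k - c, by omega⟩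
            rw [Nat.add_sub_cancel_left] at h2 h4
            rcases m with _ | m
            · omega
            · apply H
              have e1 : c + (m + 1) - (c + 1) = m := by omega
              rw [Nat.mul_succ] at h2
              refine ⟨by omega, by rw [e1]; omega, by rw [Nat.mul_succ]; omega, by omega⟩
        · rfl
      have t2 : (if c + 1 ≤ k ∧ a = p * (k - (c + 1)) ∧ b = p * (c + 1) ∧ d - 1 = k - (c + 1) then
          wt K k (c + 1) * ((d : K) * x) else 0) = 0 := by
        split_ifs with h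
        · obtain ⟨h1, h2, h3, h4⟩ := h
          rcases Nat.eq_zero_or_pos d with hd | hd
          · subst hd
            simp
          · exact absurd ⟨h1, h2, h3, by omega⟩ H
        · rfl
      rw [t1, t2, add_zero]

theorem LL_mul_pow (p k : ℕ) (s : MvPolynomial (Fin 4) K) :
    LL p k (s * (X 1 ^ p * X 2 - X 3 * X 0 ^ p) ^ k) =
      constantCoeff s * ((-1) ^ k * ((k + 1).factorial : K)) := by
  have h : ((X 1 ^ p * X 2 - X 3 * X 0 ^ p) ^ k : MvPolynomial (Fin 4) K) =
      ∑ i ∈ Finset.range (k + 1), monomial (vec (p * (k - i)) (p * i) i (k - i))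
        ((-1) ^ (k - i) * (k.choose i : K)) := by
    rw [sub_eq_add_neg, add_pow]
    refine Finset.sum_congr rfl fun i _ => ?_
    rw [monomial_vec, neg_pow]
    simp only [map_mul, map_pow, map_natCast, map_neg, map_one, mul_pow, pow_mul]
    ring
  rw [h, Finset.mul_sum, LL_sum]
  have h2 : ∀ i ∈ Finset.range (k + 1), LL p k (s * monomial (vec (p * (k - i)) (p * i) i (k - i))
      ((-1) ^ (k - i) * (k.choose i : K))) =
      constantCoeff s * ((-1) ^ k * (k.factorial : K)) := by
    intro i hi
    have hik : i ≤ k := by have := Finset.mem_range.1 hi; omega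
    rw [LL_mul_monomial p k i hik, wt, ← Nat.choose_mul_factorial_mul_factorial hik]
    have : ((-1 : K)) ^ k = (-1) ^ i * (-1) ^ (k - i) := by
      rw [← pow_add, Nat.add_sub_cancel' hik]
    rw [this]
    push_cast
    ring
  rw [Finset.sum_congr rfl h2, Finset.sum_const, Finset.card_range, Nat.factorial_succ]
  push_cast
  ring

end CoreAux

theorem core {K : Type*} [CommRing K] [IsDomain K] (p : ℕ) [Fact p.Prime] [CharP K p]
    (n k : ℕ) (hn : 0 < n) (hk : k + 1 < p) (s h : MvPolynomial (Fin 4) K)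
    (e : (delta4 K p n h).coeff (n * p) = s * (X 1 ^ p * X 2 - X 3 * X 0 ^ p) ^ k) :
    constantCoeff s = 0 := by
  have h1 := CoreAux.LL_delta4 p n k hn h
  rw [e, CoreAux.LL_mul_pow] at h1
  have h2 : (((k + 1).factorial : ℕ) : K) ≠ 0 := by
    rw [Ne, CharP.cast_eq_zero_iff K p, (Fact.out : p.Prime).dvd_factorial]
    omega
  have h3 : ((-1 : K)) ^ k ≠ 0 := pow_ne_zero _ (neg_ne_zero.2 one_ne_zero)
  exact (mul_eq_zero.1 h1).resolve_right (mul_ne_zero h3 h2)

end Pool.Agent.Lib.MP_5f3851_al
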