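import Pool.Agent.Lib.MP_5f3851_al.Basic

/-! The homogeneous Hochschild complex of a group functor, its cohomology ring, the Frobenius
kernels of the Borel subgroup of `SL₃`, and Cohen-Macaulay rings. -/

namespace Pool.Agent.Lib.MP_5f3851_al

open Finset

universe u v w

/-- Test objects `i`, each with a ring of values `R i` and a set of points `V i`, and a family
`Arr` of admissible pairs (ring homomorphism, map of points). -/
structure Site where
  ι : Type v
  R : ι → Type u
  [ring : ∀ i, CommRing (R i)]
  V : ι → Type u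
  Arr : ∀ i j, (R i →+* R j) → (V i → V j) → Prop

attribute [instance] Site.ring

/-- Cochains: functions of nonempty lists of points, of bounded length, that are compatible with
all admissible pairs. -/
@[ext] structure Cochain (S : Site.{u, v}) where
  val : ∀ i, List (S.V i) → S.R i
  nil : ∀ i, val i [] = 0
  bdd : ∃ N, ∀ i l, N < l.length → val i l = 0
  nat : ∀ i j φ m, S.Arr i j φ m → ∀ l, φ (val i l) = val j (l.map m)

namespace Cochain
variable {S : Site.{u, v}}

instance : Zero (Cochain S) := ⟨⟨fun _ _ => 0, fun _ => rfl, ⟨0, fun _ _ _ => rfl⟩,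
  fun _ _ φ _ _ _ => map_zero φ⟩⟩

instance : Add (Cochain S) := ⟨fun f g => ⟨fun i l => f.val i l + g.val i l,
  fun i => by simp [f.nil, g.nil],
  by
    obtain ⟨M, hM⟩ := f.bdd
    obtain ⟨N, hN⟩ := g.bdd
    exact ⟨M + N, fun i l h => by rw [hM i l (by omega), hN i l (by omega), add_zero]⟩,
  fun i j φ m h l => by rw [map_add, f.nat i j φ m h, g.nat i j φ m h]⟩⟩

instance : Neg (Cochain S) := ⟨fun f => ⟨fun i l => - f.val i l, fun i => by simp [f.nil],
  by
    obtain ⟨M, hM⟩ := f.bdd
    exact ⟨M, fun i l h => by rw [hM i l h, neg_zero]⟩,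
  fun i j φ m h l => by rw [map_neg, f.nat i j φ m h]⟩⟩

instance : One (Cochain S) := ⟨⟨fun _ => cone, fun _ => by simp [cone],
  ⟨1, fun i l h => by simp [cone, h.ne']⟩,
  fun i j φ m _ l => by by_cases h : l.length = 1 <;> simp [cone, h]⟩⟩

instance : Mul (Cochain S) := ⟨fun f g => ⟨fun i => cup (f.val i) (g.val i), fun i => cup_nil _ _,
  by
    obtain ⟨M, hM⟩ := f.bdd
    obtain ⟨N, hN⟩ := g.bdd
    refine ⟨M + N, fun i l h => sum_eq_zero fun a ha => ?_⟩
    rw [mem_range] at ha
    by_cases h1 : M < a + 1
    · rw [hM i _ (by rw [List.length_take]; omega), zero_mul]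
    · rw [hN i _ (by rw [List.length_drop]; omega), mul_zero],
  fun i j φ m h l => map_cup φ m _ _ _ _ (f.nat i j φ m h) (g.nat i j φ m h) l⟩⟩

@[simp] lemma zero_val (i : S.ι) (l : List (S.V i)) : (0 : Cochain S).val i l = 0 := rfl
@[simp] lemma add_val (f g : Cochain S) (i : S.ι) (l : List (S.V i)) :
    (f + g).val i l = f.val i l + g.val i l := rfl
@[simp] lemma neg_val (f : Cochain S) (i : S.ι) (l : List (S.V i)) :
    (-f).val i l = - f.val i l := rfl
lemma one_val (i : S.ι) : (1 : Cochain S).val i = cone := rfl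
lemma mul_val (f g : Cochain S) (i : S.ι) : (f * g).val i = cup (f.val i) (g.val i) := rfl

/-- Pointwise addition and the cup product. -/
instance : Ring (Cochain S) where
  add_assoc f g h := by ext i l; simp [add_assoc]
  zero_add f := by ext i l; simp
  add_zero f := by ext i l; simp
  add_comm f g := by ext i l; simp [add_comm]
  neg_add_cancel f := by ext i l; simp
  nsmul := nsmulRec
  zsmul := zsmulRec
  mul_assoc f g h := by ext i l; exact cup_assoc _ _ _ l
  one_mul f := by ext i l; exact cone_cup _ (f.nil i) l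
  mul_one f := by ext i l; exact cup_cone _ (f.nil i) l
  left_distrib f g h := by ext i l; exact cup_add_right _ _ _ l
  right_distrib f g h := by ext i l; exact cup_add_left _ _ _ l
  zero_mul f := by ext i l; simp [mul_val, cup]
  mul_zero f := by ext i l; simp [mul_val, cup]

/-- The coboundary. -/
def d (f : Cochain S) : Cochain S where
  val i := dif (f.val i)
  nil _ := dif_nil _
  bdd := by
    obtain ⟨M, hM⟩ := f.bdd
    refine ⟨M + 1, fun i l h => sum_eq_zero fun a ha => ?_⟩
    rw [mem_range] at ha
    rw [hM i _ (by rw [List.length_eraseIdx_of_lt ha]; omega), smul_zero]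
  nat i j φ m h l := by
    rw [dif_map]
    exact (map_dif φ.toAddMonoidHom _ l).trans (by congr 1; funext t; exact f.nat i j φ m h t)

/-- The sign `(-1)^degree`. -/
def sg (f : Cochain S) : Cochain S where
  val i := sgn (f.val i)
  nil i := by simp [sgn, f.nil]
  bdd := by
    obtain ⟨M, hM⟩ := f.bdd
    exact ⟨M, fun i l h => by simp [sgn, hM i l h]⟩
  nat i j φ m h l := by simp [sgn, f.nat i j φ m h]

lemma d_val (f : Cochain S) (i : S.ι) : (d f).val i = dif (f.val i) := rfl
lemma sg_val (f : Cochain S) (i : S.ι) : (sg f).val i = sgn (f.val i) := rfl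
lemma d_add (f g : Cochain S) : d (f + g) = d f + d g := by ext i l; exact dif_add _ _ l
lemma d_zero : d (0 : Cochain S) = 0 := by ext i l; simp [d_val, dif]
lemma d_neg (f : Cochain S) : d (-f) = - d f := by ext i l; simp [d_val, dif]
lemma d_one : d (1 : Cochain S) = 0 := by ext i l; exact dif_cone l
lemma d_d (f : Cochain S) : d (d f) = 0 := by ext i l; exact dif_dif _ l
lemma d_mul (f g : Cochain S) : d (f * g) = d f * g + sg f * d g := by
  ext i l; exact dif_cup _ _ (f.nil i) (g.nil i) l
lemma d_sg (f : Cochain S) : d (sg f) = - sg (d f) := by ext i l; exact dif_sgn _ l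
lemma sg_sg (f : Cochain S) : sg (sg f) = f := by ext i l; exact sgn_sgn _ l
lemma sg_zero : sg (0 : Cochain S) = 0 := by ext i l; simp [sg_val, sgn]

end Cochain

open Cochain

/-- The ring of cocycles. -/
def cocycles (S : Site.{u, v}) : Subring (Cochain S) where
  carrier := {f | d f = 0}
  zero_mem' := d_zero
  one_mem' := d_one
  add_mem' {f g} hf hg := by
    rw [Set.mem_ofPred_eq] at *; rw [d_add, hf, hg, add_zero]
  neg_mem' {f} hf := by rw [Set.mem_ofPred_eq] at *; rw [d_neg, hf, neg_zero]
  mul_mem' {f g} hf hg := by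
    rw [Set.mem_ofPred_eq] at *; rw [d_mul, hf, hg, zero_mul, mul_zero, add_zero]

/-- The two-sided ideal of coboundaries. -/
def coboundaries (S : Site.{u, v}) : TwoSidedIdeal (cocycles S) :=
  TwoSidedIdeal.mk' {z | ∃ e, (z : Cochain S) = d e} ⟨0, d_zero.symm⟩
    (fun ⟨a, ha⟩ ⟨b, hb⟩ => ⟨a + b, by rw [d_add, ← ha, ← hb]; rfl⟩)
    (fun ⟨a, ha⟩ => ⟨-a, by rw [d_neg, ← ha]; rfl⟩)
    (fun {x y} ⟨a, ha⟩ => ⟨sg x * a, by
      have hx : d (x : Cochain S) = 0 := x.2
      rw [d_mul, d_sg, hx, sg_zero, sg_sg, ← ha]; simp⟩)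
    (fun {x y} ⟨a, ha⟩ => ⟨a * y, by
      have hy : d (y : Cochain S) = 0 := y.2
      rw [d_mul, hy, ← ha]; simp⟩)

/-- The cohomology ring: cocycles modulo coboundaries, all degrees together. -/
abbrev H (S : Site.{u, v}) : Type _ := (coboundaries S).ringCon.Quotient

/-- A commutative `k`-algebra, given by its structure map. -/
structure Obj (k : Type u) [CommRing k] where
  R : Type u
  [ring : CommRing R]
  φ : k →+* R

attribute [instance] Obj.ring

/-- The points of the `r`-th Frobenius kernel of the Borel subgroup of `SL₃`: upper triangular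
matrices of determinant one that the `r`-th power of Frobenius sends to the identity. -/
def BorelPt (p r : ℕ) (R : Type u) [CommRing R] : Type u :=
  {g : Matrix (Fin 3) (Fin 3) R // g.det = 1 ∧ (∀ a b, b < a → g a b = 0) ∧
    ∀ a b, g a b ^ p ^ r = (1 : Matrix (Fin 3) (Fin 3) R) a b}

/-- The map of points `m` is `v ↦ g * φ(v)` for a fixed point `g` of `B_r`. -/
@[reducible] def IsTranslate {p r : ℕ} {R R' : Type u} [CommRing R] [CommRing R'] (φ : R →+* R')
    (m : BorelPt p r R → BorelPt p r R') : Prop :=
  ∃ g : BorelPt p r R', ∀ v, (m v).1 = g.1 * v.1.map φ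

/-- The site of `B_r`: all `k`-algebras `R` with the points `B_r(R)`; a pair `(φ, m)` is admissible
if `φ` is a `k`-algebra map and `m v = g * φ(v)` for a fixed `g` in `B_r`. Its cochains of degree
`n` are the `B_r`-invariant morphisms `B_r^(n+1) → 𝔸¹`. -/
@[reducible] def borel (k : Type u) [CommRing k] (p r : ℕ) : Site.{u, u + 1} where
  ι := Obj k
  R i := i.R
  V i := BorelPt p r i.R
  Arr i j φ m := φ.comp i.φ = j.φ ∧ IsTranslate φ m

/-- Depth equals dimension: the maximal ideal contains a regular sequence whose length is the Krull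
dimension. For a Noetherian local ring this is the definition of Cohen-Macaulay. -/
def IsCMLocal (R : Type w) [CommRing R] [IsLocalRing R] : Prop :=
  ∃ rs : List R, (∀ x ∈ rs, x ∈ IsLocalRing.maximalIdeal R) ∧
    RingTheory.Sequence.IsRegular R rs ∧ (rs.length : WithBot ℕ∞) = ringKrullDim R

/-- Some localisation at a prime is Noetherian and not Cohen-Macaulay. -/
def HasNonCMPoint (A : Type w) [CommRing A] : Prop :=
  ∃ (P : Ideal A) (_ : P.IsPrime), IsNoetherianRing (Localization.AtPrime P) ∧
    ¬ IsCMLocal (Localization.AtPrime P)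

/-- The quotient of `X` by its nilpotent elements is a commutative ring, and one of its
localisations at a prime is Noetherian and not Cohen-Macaulay. -/
def ReducedNotCM (X : Type w) [Ring X] : Prop :=
  ∃ (A : Type w) (_ : CommRing A) (π : X →+* A),
    Function.Surjective π ∧ (∀ x, π x = 0 ↔ IsNilpotent x) ∧ HasNonCMPoint A

end Pool.Agent.Lib.MP_5f3851_al
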