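import Pool.Agent.Lib.MP_5f3851_al.Classes

/-! Detection of nilpotence. -/

set_option linter.unusedSectionVars false

namespace Pool.Agent.Lib.MP_5f3851_al

open Finset Cochain MvPolynomial

universe u

lemma nil_step {S S' : Site.{u, u + 1}} (D : StepData S S') {g : H S}
    (hg : IsNilpotent (D.rr g)) : ∃ N e, g ^ N = cls D.x * e := by
  obtain ⟨N, hN⟩ := hg
  rw [← map_pow] at hN
  obtain ⟨e, he⟩ := D.qv hN hN
  exact ⟨N + N, e, by rw [pow_add, he]⟩

lemma isStep_y {r j : ℕ} (h : j < r) : IsStep r ![r, j + 1, r] ![r, j, r] 1 j :=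
  ⟨h, rfl, rfl, fun c hc => by fin_cases c <;> simp_all⟩

/-- Going up the chain of subgroups `y^(p^j) = 0`. -/
theorem detect_chain {B : Type u} [CommRing B] {p r : ℕ} [Fact p.Prime] [Fact (5 ≤ p)] [PZ p B]
    (t : ℕ) (ht : t + 1 = r) (g : H (gs B p r r)) (hg : IsNilpotent (resH B p r g)) :
    ∃ N e, (xx p (ux B p r) t * g) ^ N = xx p (uy B p r) t * e := by
  have hX : ∀ (k : ℕ) (j : Fin 3 → ℕ) (y : H (ms B p r r j)),
      Commute (RR B p r r j (xx p (ux B p r) k)) y := fun k j y =>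
    Hn_even_comm even_two (RR_mem_Hn j (xx_mem p _ k)) y
  have hY : ∀ (k : ℕ) (j : Fin 3 → ℕ) (y : H (ms B p r r j)),
      Commute (RR B p r r j (xx p (uy B p r) k)) y := fun k j y =>
    Hn_even_comm even_two (RR_mem_Hn j (xx_mem p _ k)) y
  have key : ∀ j, j ≤ t → IsNilpotent (RR B p r r ![r, j, r] (xx p (ux B p r) t * g)) := by
    intro j
    induction j with
    | zero =>
      intro _
      obtain ⟨Sh, hSh⟩ := exists_shapiro (B := B) (p := p) (r := r) ![r, 0, r] rfl rfl rfl
      rw [map_mul, ← hSh g]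
      exact nil_mul_left p _ (hg.map Sh)
    | succ j ih =>
      intro hj
      obtain ⟨D, h1, -, h3⟩ := exists_step (B := B) (p := p) le_rfl
        (isStep_y (show j < r by omega)) (by simp)
      obtain ⟨N, e, he⟩ := nil_step D (by rw [h1]; exact ih (by omega))
      obtain ⟨m, hm⟩ : ∃ m, t = j + m + 1 := ⟨t - j - 1, by omega⟩
      have h0 : RR B p r r ![r, j + 1, r] (xx p (uy B p r) t) = 0 :=
        RR_xx_eq_zero _ 1 _ t hj
      have h4 := congrArg (RR B p r r ![r, j + 1, r]) (rel_XY (B := B) (p := p) (r := r) j m)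
      rw [← hm, map_mul, map_mul, h0, mul_zero, map_pow] at h4
      rw [h3] at he
      have h5 : IsNilpotent (RR B p r r ![r, j + 1, r] (xx p (uy B p r) j) *
          RR B p r r ![r, j + 1, r] (xx p (ux B p r) t)) := by
        obtain ⟨n, hn⟩ : ∃ n, p ^ (m + 1) = n + 1 :=
          ⟨p ^ (m + 1) - 1, by have := pow_pos (Fact.out : p.Prime).pos (m + 1); omega⟩
        refine ⟨p ^ (m + 1), ?_⟩
        rw [(hY j _ _).mul_pow]
        conv_lhs => rw [hn, pow_succ' (RR B p r r ![r, j + 1, r] (xx p (ux B p r) t)), ← mul_assoc,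
          ← hn, ← h4, zero_mul]
      refine IsNilpotent.of_pow (m := N + 1) ?_
      rw [pow_succ, he, map_mul, mul_assoc, ← mul_assoc e, ← (hX t _ e).eq, mul_assoc, ← mul_assoc]
      exact nil_mul_right p h5 _
  subst ht
  obtain ⟨D, h1, -, h3⟩ := exists_step (B := B) (p := p) le_rfl
    (isStep_y (show t < t + 1 by omega)) (by simp)
  obtain ⟨N, e, he⟩ := nil_step D (by rw [h1]; exact key t le_rfl)
  have hb := RR_bijective (B := B) (p := p) (r := t + 1) le_rfl ![t + 1, t + 1, t + 1]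
    (fun c => by fin_cases c <;> rfl)
  obtain ⟨e, rfl⟩ := hb.2 e
  exact ⟨N, e, hb.1 (by rw [map_pow, he, h3, map_mul])⟩

variable {k : Type u} [Field k] {p r : ℕ} [Fact p.Prime] [Fact (5 ≤ p)] [CharP k p]

theorem detect (t : ℕ) (ht : t + 1 = r) (x : H (gs k p r r)) (hx : rho k p r x = 0) :
    IsNilpotent (xx p (ux k p r) t * x) := by
  obtain ⟨N, e, he⟩ := detect_chain t ht
    (alphaH p r Polynomial.X (bcH p r r Polynomial.C x)) ((rhoE_eq_zero_iff _).1 hx)
  have h1 := congrArg (alphaH p r (-Polynomial.X : Polynomial k)) he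
  rw [map_pow, map_mul, map_mul, alphaH_neg, alphaH_xx_x, alphaH_xx_y, ht,
    neg_pow_pp (PZ.out : (p : Polynomial k) = 0), map_neg, ← bcH_xx (Polynomial.C : k →+* _),
    ← bcH_xx (Polynomial.C : k →+* _), ← map_mul, ← map_pow] at h1
  set h := alphaH p r (-Polynomial.X : Polynomial k) e
  set A := xx p (ux k p r) t
  set Y := xx p (uy k p r) t
  have hA : ∀ y, Commute A y := fun y => Hn_even_comm even_two (xx_mem p _ t) y
  have hq : 0 < p ^ r := pow_pos (Fact.out : p.Prime).pos r
  have h2 : ∀ n, (if n = 0 then (A * x) ^ N else 0) = Y * (coefX k p r r n).pullA h -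
      if p ^ r ≤ n then A * (coefX k p r r (n - p ^ r)).pullA h else 0 := by
    intro n
    have := congrArg (coefX k p r r n).pullA h1
    rw [coefX_bc, add_mul, neg_mul, neg_mul, map_add, map_neg, coefX_bc_mul, mul_assoc,
      coefX_X_pow_mul, coefX_bc_mul] at this
    rw [this, sub_eq_add_neg]
  obtain ⟨M, hM⟩ := coefX_finite h
  have h3 : ∀ K n, M < n + K → A ^ K * (coefX k p r r n).pullA h = 0 := by
    intro K
    induction K with
    | zero => intro n hn; rw [hM n hn, mul_zero]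
    | succ K ih =>
      intro n hn
      have := h2 (n + p ^ r)
      rw [if_neg (by omega), if_pos (by omega), Nat.add_sub_cancel, eq_comm, sub_eq_zero] at this
      rw [pow_succ, mul_assoc, ← this, ← mul_assoc, ((hA Y).pow_left K).eq, mul_assoc,
        ih _ (by omega), mul_zero]
  have h4 := h2 0
  rw [if_pos rfl, if_neg (by omega), sub_zero] at h4
  refine ⟨M + 1 + N, ?_⟩
  rw [pow_add, (hA x).mul_pow, ((hA _).pow_left (M + 1)).eq, mul_assoc, h4, ← mul_assoc (A ^ _),
    ((hA Y).pow_left _).eq, mul_assoc, h3 _ _ (by omega), mul_zero, mul_zero]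

end Pool.Agent.Lib.MP_5f3851_al
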