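import Mathlib

/-! In a Noetherian local ring of depth at least `n`, any `n` elements that generate an ideal with
radical the maximal ideal form a regular sequence. -/

namespace Pool.Agent.Lib.MP_5f3851_al

open IsLocalRing RingTheory.Sequence

universe w

namespace SopAux

open scoped Pointwise

variable {R : Type w} [CommRing R]

theorem mk_eq_zero {M : Type w} [AddCommGroup M] [Module R M] {y : R} {u : M} :
    (Submodule.Quotient.mk u : QuotSMulTop y M) = 0 ↔ ∃ v : M, y • v = u := by
  rw [Submodule.Quotient.mk_eq_zero, Submodule.mem_smul_pointwise_iff_exists]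
  simp

theorem ann_step {M : Type w} [AddCommGroup M] [Module R M] (y : R) (ys : List R) :
    Module.annihilator R M ⊔ Ideal.ofList (y :: ys) ≤
      Module.annihilator R (QuotSMulTop y M) ⊔ Ideal.ofList ys := by
  rw [Ideal.ofList_cons, ← sup_assoc]
  refine sup_le_sup_right (sup_le ?_ ?_) _
  · intro r hr
    rw [Module.mem_annihilator] at hr ⊢
    intro m
    obtain ⟨u, rfl⟩ := Submodule.Quotient.mk_surjective _ m
    rw [← Submodule.Quotient.mk_smul, hr, Submodule.Quotient.mk_zero]
  · rw [Ideal.span_singleton_le_iff_mem, Module.mem_annihilator]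
    intro m
    obtain ⟨u, rfl⟩ := Submodule.Quotient.mk_surjective _ m
    rw [← Submodule.Quotient.mk_smul]
    exact mk_eq_zero.2 ⟨u, rfl⟩

variable [IsNoetherianRing R] [IsLocalRing R]

/-- the number of parameters bounds the dimension -/
theorem dim_le (ys : List R) : ∀ (N : Type w) [AddCommGroup N] [Module R N] [Module.Finite R N],
    (∀ y ∈ ys, y ∈ maximalIdeal R) →
    maximalIdeal R ≤ (Module.annihilator R N ⊔ Ideal.ofList ys).radical →
      Module.supportDim R N ≤ ys.length := by
  induction ys with
  | nil =>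
    intro N _ _ _ _ h
    rw [Ideal.ofList_nil, sup_bot_eq] at h
    have key : ∀ p : Module.support R N, p.1.asIdeal = maximalIdeal R := by
      intro p
      have h1 : Module.annihilator R N ≤ p.1.asIdeal := Module.mem_support_iff_of_finite.1 p.2
      have h2 := h.trans (p.1.isPrime.radical_le_iff.2 h1)
      exact ((maximalIdeal.isMaximal R).eq_of_le p.1.isPrime.ne_top h2).symm
    have : Subsingleton (Module.support R N) :=
      ⟨fun p q => Subtype.ext (PrimeSpectrum.ext ((key p).trans (key q).symm))⟩
    exact Order.krullDim_nonpos_of_subsingleton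
  | cons y ys ih =>
    intro N _ _ _ hm h
    have h1 := ih (QuotSMulTop y N) (fun z hz => hm z (List.mem_cons_of_mem _ hz))
      (h.trans (Ideal.radical_mono (ann_step y ys)))
    refine (Module.supportDim_le_supportDim_quotSMulTop_succ (hm y List.mem_cons_self)).trans ?_
    rw [List.length_cons, Nat.cast_succ]
    gcongr

/-- the depth is at most the dimension of every associated prime -/
theorem le_dim (rs : List R) : ∀ (M : Type w) [AddCommGroup M] [Module R M] [Module.Finite R M]
    (Q : Ideal R), (∀ r ∈ rs, r ∈ maximalIdeal R) → IsWeaklyRegular M rs →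
    IsAssociatedPrime Q M → (rs.length : WithBot ℕ∞) ≤ ringKrullDim (R ⧸ Q) := by
  induction rs with
  | nil =>
    intro M _ _ _ Q _ _ hQ
    have := hQ.isPrime
    exact ringKrullDim_nonneg_of_nontrivial
  | cons y rs ih =>
    intro M _ _ _ Q hm hreg hQ
    obtain ⟨hy, hreg'⟩ := (isWeaklyRegular_cons_iff M y rs).1 hreg
    obtain ⟨hp, z, hz⟩ := isAssociatedPrime_iff.1 hQ
    have hz' : ∀ r, r ∈ Q ↔ r • z = 0 := by
      intro r
      rw [hz, Submodule.mem_colon_singleton, Submodule.mem_bot]
    have hz0 : z ≠ 0 := by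
      rintro rfl
      exact hp.ne_top (Ideal.eq_top_iff_one Q |>.2 ((hz' 1).2 (smul_zero _)))
    have hyQ : y ∉ Q := fun k => hz0 (hy.right_eq_zero_of_smul ((hz' y).1 k))
    obtain ⟨u, huQ, hu⟩ : ∃ u : M, (∀ q ∈ Q, q • u = 0) ∧ ¬ ∃ v : M, y • v = u := by
      by_contra hn
      have hT : Submodule.torsionBySet R M Q ≤
          Ideal.span {y} • Submodule.torsionBySet R M Q := by
        intro u hu
        rw [Submodule.mem_torsionBySet_iff] at hu
        obtain ⟨v, rfl⟩ : ∃ v : M, y • v = u := by
          by_contra k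
          exact hn ⟨u, fun q hq => hu ⟨q, hq⟩, k⟩
        refine Submodule.smul_mem_smul (Ideal.mem_span_singleton_self y) ?_
        rw [Submodule.mem_torsionBySet_iff]
        intro q
        apply hy.right_eq_zero_of_smul
        rw [smul_comm]
        exact hu q
      have hb := Submodule.eq_bot_of_le_smul_of_le_jacobson_bot _ _ (IsNoetherian.noetherian _) hT
        (((Ideal.span_singleton_le_iff_mem _).2 (hm y List.mem_cons_self)).trans
          (maximalIdeal_le_jacobson _))
      have : z ∈ Submodule.torsionBySet R M Q :=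
        (Submodule.mem_torsionBySet_iff _ _).2 fun q => (hz' q).1 q.2
      rw [hb] at this
      exact hz0 this
    obtain ⟨P, hP, hle⟩ := exists_le_isAssociatedPrime_of_isNoetherianRing R
      (Submodule.Quotient.mk u : QuotSMulTop y M) fun k => hu (mk_eq_zero.1 k)
    have hQP : Q ≤ P := fun q hq => hle (by
      rw [Submodule.mem_colon_singleton, Submodule.mem_bot, ← Submodule.Quotient.mk_smul,
        huQ q hq, Submodule.Quotient.mk_zero])
    have hyP : y ∈ P := hle (by
      rw [Submodule.mem_colon_singleton, Submodule.mem_bot, ← Submodule.Quotient.mk_smul]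
      exact mk_eq_zero.2 ⟨u, rfl⟩)
    have h1 := ih (QuotSMulTop y M) P (fun z hz => hm z (List.mem_cons_of_mem _ hz)) hreg' hP
    have h2 := ringKrullDim_succ_le_of_surjective (Ideal.Quotient.factor hQP)
      (Ideal.Quotient.factor_surjective hQP) (r := Ideal.Quotient.mk Q y)
      (mem_nonZeroDivisors_of_ne_zero fun k => hyQ (Ideal.Quotient.eq_zero_iff_mem.1 k))
      (by rw [Ideal.Quotient.factor_mk]; exact Ideal.Quotient.eq_zero_iff_mem.2 hyP)
    refine le_trans ?_ h2
    rw [List.length_cons, Nat.cast_succ]
    gcongr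

omit [IsNoetherianRing R] in
theorem smul_lt (M : Type w) [AddCommGroup M] [Module R M] [Module.Finite R M] [Nontrivial M] :
    maximalIdeal R • (⊤ : Submodule R M) < ⊤ :=
  (Submodule.top_ne_ideal_smul_of_le_jacobson_annihilator
    (maximalIdeal_le_jacobson _)).symm.lt_top

open CategoryTheory Abelian in
/-- the depth drops by at most one modulo a regular element -/
theorem depth_quot (M : Type w) [AddCommGroup M] [Module R M] [Module.Finite R M] (rs : List R)
    (hm : ∀ r ∈ rs, r ∈ maximalIdeal R) (reg : IsRegular M rs) {x : R} (hx : x ∈ maximalIdeal R)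
    (hreg : IsSMulRegular M x) {d : ℕ} (hd : d + 1 ≤ rs.length) :
    ∃ ts : List R, ts.length = d ∧ (∀ r ∈ ts, r ∈ maximalIdeal R) ∧
      IsRegular (QuotSMulTop x M) ts := by
  have := reg.nontrivial
  have := nontrivial_quotSMulTop_of_mem_maximalIdeal M hx
  have hs : Module.support R (R ⧸ maximalIdeal R) = PrimeSpectrum.zeroLocus (maximalIdeal R) := by
    rw [Module.support_eq_zeroLocus, Ideal.annihilator_quotient]
  have h_ext := ModuleCat.subsingleton_ext_of_exists_isRegular (maximalIdeal R)
    (ModuleCat.of R (R ⧸ maximalIdeal R)) hs.subset (ModuleCat.of R M) (smul_lt M) rs hm reg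
  refine ModuleCat.exists_isRegular_of_exists_subsingleton_ext (maximalIdeal R) d
    (ModuleCat.of R (QuotSMulTop x M)) (smul_lt _) (ModuleCat.of R (R ⧸ maximalIdeal R)) hs ?_
  intro i hi
  have zero1 := AddCommGrpCat.isZero_of_iff_subsingleton.mpr (h_ext i (by omega))
  have zero2 := AddCommGrpCat.isZero_of_iff_subsingleton.mpr (h_ext (i + 1) (by omega))
  exact AddCommGrpCat.subsingleton_of_isZero <| ShortComplex.Exact.isZero_of_both_zeros
    ((Ext.covariant_sequence_exact₃' (ModuleCat.of R (R ⧸ maximalIdeal R))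
      (IsSMulRegular.smulShortComplex_shortExact (M := ModuleCat.of R M) hreg)) i (i + 1) rfl)
    (zero1.eq_zero_of_src _) (zero2.eq_zero_of_tgt _)

theorem main (xs : List R) : ∀ (M : Type w) [AddCommGroup M] [Module R M] [Module.Finite R M]
    (rs : List R), (∀ r ∈ rs, r ∈ maximalIdeal R) → IsRegular M rs → xs.length ≤ rs.length →
    (∀ x ∈ xs, x ∈ maximalIdeal R) →
    maximalIdeal R ≤ (Module.annihilator R M ⊔ Ideal.ofList xs).radical →
      IsWeaklyRegular M xs := by
  induction xs with
  | nil =>
    intro M _ _ _ _ _ _ _ _ _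
    exact IsWeaklyRegular.nil R M
  | cons x xs ih =>
    intro M _ _ _ rs hrs reg hlen hxs hrad
    have hxs' : ∀ z ∈ xs, z ∈ maximalIdeal R := fun z hz => hxs z (List.mem_cons_of_mem _ hz)
    rw [List.length_cons] at hlen
    have hx : IsSMulRegular M x := by
      refine IsSMulRegular.of_right_eq_zero_of_smul fun z hz => ?_
      by_contra hz0
      obtain ⟨P, hP, hle⟩ := exists_le_isAssociatedPrime_of_isNoetherianRing R z hz0
      have hxP : x ∈ P := hle (by rwa [Submodule.mem_colon_singleton, Submodule.mem_bot])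
      have h1 := le_dim rs M P hrs reg.toIsWeaklyRegular hP
      have h2 := dim_le xs (R ⧸ P) hxs' (hrad.trans (Ideal.radical_mono (by
        rw [Ideal.annihilator_quotient, Ideal.ofList_cons, ← sup_assoc]
        refine sup_le_sup_right (sup_le ?_ ?_) _
        · rw [← Submodule.annihilator_top]
          exact hP.annihilator_le
        · exact (Ideal.span_singleton_le_iff_mem _).2 hxP)))
      rw [Module.supportDim_quotient_eq_ringKrullDim] at h2
      have h3 : rs.length ≤ xs.length := by exact_mod_cast h1.trans h2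
      omega
    obtain ⟨ts, h1, h2, h3⟩ := depth_quot M rs hrs reg (hxs x List.mem_cons_self) hx hlen
    exact IsWeaklyRegular.cons hx (ih (QuotSMulTop x M) ts h2 h3 h1.ge hxs'
      (hrad.trans (Ideal.radical_mono (ann_step x xs))))

end SopAux

theorem sop_regular {R : Type w} [CommRing R] [IsNoetherianRing R] [IsLocalRing R]
    (rs xs : List R) (hrs : ∀ x ∈ rs, x ∈ maximalIdeal R) (reg : IsRegular R rs)
    (hlen : xs.length ≤ rs.length) (hxs : ∀ x ∈ xs, x ∈ maximalIdeal R)
    (hrad : maximalIdeal R ≤ (Ideal.ofList xs).radical) : IsWeaklyRegular R xs :=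
  SopAux.main xs R rs hrs reg hlen hxs (hrad.trans (Ideal.radical_mono le_sup_right))

/-- The form used later: the third element is a non-zero-divisor modulo the first two. -/
theorem third_regular {R : Type w} [CommRing R] (a b c : R) (xs : List R)
    (h : IsWeaklyRegular R (a :: b :: c :: xs)) (u f g : R) (hu : c * u = a * f + b * g) :
    ∃ f' g', u = a * f' + b * g' := by
  have h2 : IsSMulRegular (R ⧸ (Ideal.ofList [a, b] • ⊤ : Submodule R R)) c :=
    h.regular_mod_prev 2 (by simp)
  have key : ∀ v : R, v ∈ (Ideal.ofList [a, b] • ⊤ : Submodule R R) ↔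
      ∃ f' g', v = a * f' + b * g' := by
    intro v
    rw [smul_eq_mul, Ideal.mul_top, Ideal.ofList_cons, Ideal.ofList_singleton,
      ← Ideal.span_insert, Ideal.mem_span_pair]
    constructor
    · rintro ⟨p, q, rfl⟩
      exact ⟨p, q, by ring⟩
    · rintro ⟨p, q, rfl⟩
      exact ⟨p, q, by ring⟩
  rw [← key, ← Submodule.Quotient.mk_eq_zero]
  apply h2.right_eq_zero_of_smul
  rw [← Submodule.Quotient.mk_smul, Submodule.Quotient.mk_eq_zero, key]
  exact ⟨f, g, hu⟩

end Pool.Agent.Lib.MP_5f3851_al
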