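import Pool.Agent.Lib.MP_5f3851_al.Defs
import Pool.Agent.Lib.MP_5f3851_al.AlgDefs
import Pool.Agent.Lib.MP_5f3851_al.Sop
import Pool.Agent.Lib.MP_5f3851_al.Core

/-! The commutative algebra: a ring with these elements and this invariance is not
Cohen-Macaulay. -/

namespace Pool.Agent.Lib.MP_5f3851_al

open MvPolynomial

universe u w

/-- The data extracted from cohomology. `Wt a b g` means that `g` comes from a class of weight
`(a, b)`. -/
structure FinalData (k : Type u) [Field k] (p r : ℕ) (A : Type w) [CommRing A] where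
  ρ : A →+* SP k r
  top : Fin r
  htop : (top : ℕ) + 1 = r
  t : A
  ht : ρ t = X (false, top)
  det : ∀ f, ρ f = 0 → t * f = 0
  inv : ∀ f n, 0 < n → n < p ^ r → (delta (Polynomial k) p r (ρ f)).coeff n = 0
  Wt : ℕ → ℕ → SP k r → Prop
  wt_mul : ∀ a b a' b' g g', Wt a b g → Wt a' b' g' → Wt (a + a') (b + b') (g * g')
  wt_C : ∀ c : k, Wt 0 0 (C (Polynomial.C c))
  wt_tau : ∀ i : Fin r, Wt (p ^ ((i : ℕ) + 1)) 0 (X (false, i))
  wt_vtau : ∀ i : Fin r,
    Wt 0 (p ^ ((i : ℕ) + 1)) (C (Polynomial.X ^ p ^ ((i : ℕ) + 1)) * X (false, i))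
  wt_w : ∀ i j : Fin r, i < j →
    Wt (2 * p ^ ((j : ℕ) + 1)) (p ^ ((j : ℕ) + 1)) (wpoly (Polynomial k) p i j)
  wt_z : Wt (p ^ r) (p ^ r) (X (true, top))
  mem : ∀ a b g, Wt a b g → p ^ r ∣ a → p ^ r ∣ b → ∃ f, ρ f = g

/-- Kills all variables below the top level. -/
noncomputable def kill {k : Type u} [Field k] {r : ℕ} (top : Fin r) : SP k r →+* SP k r :=
  eval₂Hom C fun v => if v.2 = top then X v else 0

namespace FinalData
variable {k : Type u} [Field k] {p r : ℕ} {A : Type w} [CommRing A] (D : FinalData k p r A)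

/-- The prime at which we localise. -/
noncomputable def P : Ideal A := RingHom.ker ((kill D.top).comp D.ρ)

instance : D.P.IsPrime := RingHom.ker_isPrime _

lemma wt_pow {a b : ℕ} {g : SP k r} (h : D.Wt a b g) (n : ℕ) : D.Wt (n * a) (n * b) (g ^ n) := by
  induction n with
  | zero => simpa using D.wt_C 1
  | succ n ih =>
    rw [pow_succ, Nat.succ_mul, Nat.succ_mul]
    exact D.wt_mul _ _ _ _ _ _ ih h

lemma t_notMem : D.t ∉ D.P := by
  intro h
  have h1 : kill D.top (D.ρ D.t) = 0 := h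
  rw [D.ht] at h1
  simp [kill] at h1

lemma exists_a (i : Fin r) : ∃ f, D.ρ f = X (false, i) ^ p ^ (r - 1 - i) := by
  refine D.mem _ _ _ (D.wt_pow (D.wt_tau i) (p ^ (r - 1 - i))) ?_ (by simp)
  rw [← pow_add]
  exact pow_dvd_pow _ (by have := i.2; omega)

lemma exists_w (i : Fin r) (hi : i < D.top) : ∃ f, D.ρ f = wpoly (Polynomial k) p i D.top := by
  refine D.mem _ _ _ (D.wt_w i D.top hi) ?_ ?_
  · rw [D.htop]
    exact Dvd.intro_left _ rfl
  · rw [D.htop]

end FinalData

namespace FinalAux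

variable {k : Type u} [Field k] {p r : ℕ}

/-- Kills the first `n` of the variables `τ_0, …, τ_(m-1), z_0, …, z_(m-1)`. -/
noncomputable def killN (m n : ℕ) : SP k r →+* SP k r :=
  eval₂Hom C fun v =>
    if (v.2 : ℕ) < m ∧ (v.2 : ℕ) + (if v.1 = true then m else 0) < n then 0 else X v

lemma killN_X (m n : ℕ) (v : Bool × Fin r) : killN (k := k) m n (X v) =
    if (v.2 : ℕ) < m ∧ (v.2 : ℕ) + (if v.1 = true then m else 0) < n then 0 else X v := by
  simp only [killN, eval₂Hom_X']

lemma killN_tau (m n : ℕ) (i : Fin r) : killN (k := k) m n (X (false, i)) =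
    if (i : ℕ) < m ∧ (i : ℕ) < n then 0 else X (false, i) := by
  simp [killN_X]

lemma killN_z (m n : ℕ) (i : Fin r) : killN (k := k) m n (X (true, i)) =
    if (i : ℕ) < m ∧ (i : ℕ) + m < n then 0 else X (true, i) := by
  simp [killN_X]

lemma killN_comp (m n : ℕ) :
    (killN (k := k) (r := r) m (n + 1)).comp (killN m n) = killN m (n + 1) := by
  refine ringHom_ext (fun c => by simp [killN]) fun v => ?_
  rw [RingHom.comp_apply, killN_X m n]
  split_ifs with h1 h2 h2
  · rw [map_zero, killN_X, if_pos h1, if_pos ⟨h2.1, by omega⟩]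
  · rfl
  · rw [map_zero, killN_X, if_neg h1, if_pos ⟨h2.1, by omega⟩]
  · rfl

lemma kill_X (top : Fin r) (v : Bool × Fin r) :
    kill (k := k) top (X v) = if v.2 = top then X v else 0 := by
  simp only [kill, eval₂Hom_X']

lemma kill_low {top : Fin r} (b : Bool) {i : Fin r} (h : i < top) :
    kill (k := k) top (X (b, i)) = 0 := by
  rw [kill_X, if_neg h.ne]

lemma killN_top {top : Fin r} (htop : (top : ℕ) + 1 = r) :
    killN (k := k) (r := r) top (2 * top) = kill top := by
  refine ringHom_ext (fun c => by simp [killN, kill]) fun v => ?_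
  rw [killN_X, kill_X]
  have h2 := v.2.2
  by_cases h : v.2 = top
  · rw [if_pos h, if_neg]
    rw [h]
    omega
  · have : (v.2 : ℕ) ≠ top := fun e => h (Fin.ext e)
    rw [if_neg h, if_pos]
    split_ifs <;> omega

end FinalAux

namespace FinalData
variable {k : Type u} [Field k] {p r : ℕ} {A : Type w} [CommRing A] (D : FinalData k p r A)

open FinalAux

/-- A chain of `2 (r - 1) + 1` primes inside `P`. -/
lemma le_dim [Fact p.Prime] :
    ((2 * (r - 1) : ℕ) : WithBot ℕ∞) ≤ ringKrullDim (Localization.AtPrime D.P) := by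
  have hp : p ≠ 0 := (Fact.out : p.Prime).ne_zero
  have htop := D.htop
  let Q : ℕ → Ideal A := fun n => RingHom.ker ((killN D.top n).comp D.ρ)
  have hQ : ∀ n, (Q n).IsPrime := fun n => RingHom.ker_isPrime _
  have hlt : ∀ n < 2 * (D.top : ℕ), Q n < Q (n + 1) := by
    intro n hn
    have hle : Q n ≤ Q (n + 1) := by
      intro f hf
      have h1 : killN D.top n (D.ρ f) = 0 := hf
      change killN D.top (n + 1) (D.ρ f) = 0
      rw [← killN_comp, RingHom.comp_apply, h1, map_zero]
    refine lt_of_le_of_ne hle fun e => ?_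
    have key : ∀ f, killN D.top (n + 1) (D.ρ f) = 0 → killN D.top n (D.ρ f) = 0 := by
      intro f hf
      have h1 : f ∈ Q (n + 1) := hf
      rw [← e] at h1
      exact h1
    by_cases hn' : n < D.top
    · obtain ⟨f, hf⟩ := D.exists_a ⟨n, by omega⟩
      have := key f (by
        rw [hf, map_pow, killN_tau, if_pos ⟨hn', by simp⟩, zero_pow (pow_ne_zero _ hp)])
      rw [hf, map_pow, killN_tau, if_neg (by simp)] at this
      exact X_ne_zero _ (pow_eq_zero_iff (pow_ne_zero _ hp) |>.1 this)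
    · obtain ⟨j, hj⟩ : ∃ j : Fin r, (j : ℕ) + D.top = n := ⟨⟨n - D.top, by omega⟩, by
        simp only
        omega⟩
      obtain ⟨f, hf⟩ := D.exists_w j (by rw [Fin.lt_def]; omega)
      have e1 : ∀ n' : ℕ, (D.top : ℕ) ≤ n' → killN (k := k) D.top n' (X (false, j)) = 0 :=
        fun n' h => by
        rw [killN_tau, if_pos ⟨by omega, by omega⟩]
      have e2 : killN (k := k) D.top (n + 1) (X (true, j)) = 0 := by
        rw [killN_z, if_pos ⟨by omega, by omega⟩]
      have e3 : killN (k := k) D.top n (X (true, j)) = X (true, j) := by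
        rw [killN_z, if_neg (by omega)]
      have e4 : killN (k := k) D.top n (X (false, D.top)) = X (false, D.top) := by
        rw [killN_tau, if_neg (by omega)]
      have := key f (by
        rw [hf, wpoly, map_sub, map_mul, map_mul, map_pow, map_pow, e2, e1 (n + 1) (by omega),
          zero_pow (pow_ne_zero _ hp)]
        simp)
      rw [hf, wpoly, map_sub, map_mul, map_mul, map_pow, map_pow, e3, e4, e1 n (by omega),
        zero_pow (pow_ne_zero _ hp), mul_zero, sub_zero] at this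
      exact mul_ne_zero (pow_ne_zero _ (X_ne_zero _)) (X_ne_zero _) this
  have hh : ∀ n ≤ 2 * (D.top : ℕ), (n : ℕ∞) ≤ (Q n).height := by
    intro n
    induction n with
    | zero => simp
    | succ n ih =>
      intro hn
      have := hQ n
      have := hQ (n + 1)
      refine le_trans ?_ (Ideal.height_add_one_le_of_lt_of_isPrime (hlt n (by omega)))
      push_cast
      gcongr
      exact ih (by omega)
  have hP : Q (2 * D.top) = D.P := by
    simp only [Q, P, killN_top htop]
  have h1 := hh _ le_rfl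
  rw [hP] at h1
  rw [IsLocalization.AtPrime.ringKrullDim_eq_height D.P]
  have e : r - 1 = D.top := by omega
  rw [e]
  exact WithBot.coe_le_coe.2 h1

end FinalData

namespace FinalAux

variable {k : Type u} [Field k] {p r : ℕ} {A : Type w} [CommRing A] (D : FinalData k p r A)

/-- `τ^N g^q` is the image of an element of `I`. -/
def InI (I : Ideal A) (g : SP k r) : Prop :=
  ∃ N, ∃ f ∈ I, D.ρ f = X (false, D.top) ^ N * g ^ p ^ r

variable {D}

lemma InI.add [Fact p.Prime] [CharP k p] {I : Ideal A} {g g' : SP k r} (h : InI D I g)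
    (h' : InI D I g') : InI D I (g + g') := by
  obtain ⟨N, f, hf, e⟩ := h
  obtain ⟨N', f', hf', e'⟩ := h'
  refine ⟨N + N', D.t ^ N' * f + D.t ^ N * f',
    I.add_mem (I.mul_mem_left _ hf) (I.mul_mem_left _ hf'), ?_⟩
  rw [map_add, map_mul, map_mul, map_pow, map_pow, D.ht, e, e', add_pow_char_pow]
  ring

lemma InI.mul {I : Ideal A} {g g' : SP k r} (h : InI D ⊤ g) (h' : InI D I g') :
    InI D I (g * g') := by
  obtain ⟨N, f, -, e⟩ := h
  obtain ⟨N', f', hf', e'⟩ := h'
  refine ⟨N + N', f * f', I.mul_mem_left _ hf', ?_⟩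
  rw [map_mul, e, e', mul_pow]
  ring

lemma pow_split {i : Fin r} : p ^ (r - 1 - i) * p ^ ((i : ℕ) + 1) = p ^ r := by
  rw [← pow_add]
  congr 1
  have := i.2
  omega

lemma InI.tau [Fact p.Prime] {I : Ideal A} {i : Fin r}
    (ha : ∃ f ∈ I, D.ρ f = X (false, i) ^ p ^ (r - 1 - i)) : InI D I (X (false, i)) := by
  obtain ⟨f, hf, e⟩ := ha
  refine ⟨0, f ^ p ^ ((i : ℕ) + 1),
    I.pow_mem_of_mem hf _ (pow_pos (Fact.out : p.Prime).pos _), ?_⟩
  rw [map_pow, e, ← pow_mul, pow_split, pow_zero, one_mul]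

lemma exists_z : ∃ f, D.ρ f = X (true, D.top) := D.mem _ _ _ D.wt_z dvd_rfl dvd_rfl

lemma InI.z [Fact p.Prime] {I : Ideal A} {i : Fin r}
    (ha : ∃ f ∈ I, D.ρ f = X (false, i) ^ p ^ (r - 1 - i))
    (hw : ∃ f ∈ I, D.ρ f = wpoly (Polynomial k) p i D.top) : InI D I (X (true, i)) := by
  obtain ⟨f, hf, e⟩ := ha
  obtain ⟨f', hf', e'⟩ := hw
  obtain ⟨z, hz⟩ := exists_z (D := D)
  have ht : (D.top : ℕ) = r - 1 := by have := D.htop; omega
  refine ⟨p ^ ((i : ℕ) + 1), (f' + z * f) ^ p ^ ((i : ℕ) + 1),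
    I.pow_mem_of_mem (I.add_mem hf' (I.mul_mem_left _ hf)) _
      (pow_pos (Fact.out : p.Prime).pos _), ?_⟩
  rw [map_pow, map_add, map_mul, e, e', hz, wpoly, ht, sub_add_cancel, mul_pow, ← pow_mul,
    pow_split, mul_comm]

lemma inI_top [Fact p.Prime] [CharP k p] (g : SP k r) : InI D ⊤ g := by
  have hC : ∀ c : k, InI D ⊤ (C (Polynomial.C c)) := fun c => by
    obtain ⟨f, hf⟩ := D.mem _ _ _ (D.wt_C c) (dvd_zero _) (dvd_zero _)
    exact ⟨0, f ^ p ^ r, trivial, by rw [map_pow, hf, pow_zero, one_mul]⟩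
  have hv : InI D ⊤ (C Polynomial.X) := by
    obtain ⟨f, hf⟩ := D.mem _ _ _ (D.wt_vtau D.top) (dvd_zero _) (by rw [D.htop])
    exact ⟨1, f, trivial, by rw [hf, D.htop, map_pow, pow_one, mul_comm]⟩
  have hX : ∀ v, InI D ⊤ (X v) := by
    rintro ⟨b, i⟩
    have ha : ∃ f ∈ (⊤ : Ideal A), D.ρ f = X (false, i) ^ p ^ (r - 1 - i) := by
      obtain ⟨f, hf⟩ := D.exists_a i
      exact ⟨f, trivial, hf⟩
    cases b with
    | false => exact InI.tau ha
    | true =>
      by_cases hi : i < D.top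
      · obtain ⟨f, hf⟩ := D.exists_w i hi
        exact InI.z ha ⟨f, trivial, hf⟩
      · have : i = D.top := by
          have h1 := D.htop
          have h2 := i.2
          rw [Fin.lt_def] at hi
          exact Fin.ext (by omega)
        obtain ⟨z, hz⟩ := exists_z (D := D)
        exact ⟨0, z ^ p ^ r, trivial, by rw [map_pow, hz, pow_zero, one_mul, this]⟩
  induction g using MvPolynomial.induction_on with
  | C a =>
    induction a using Polynomial.induction_on with
    | C c => exact hC c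
    | add a b ha hb => rw [map_add]; exact ha.add hb
    | monomial n c ih => rw [pow_succ, ← mul_assoc, map_mul]; exact ih.mul hv
  | add a b ha hb => exact ha.add hb
  | mul_X a v ha => exact ha.mul (hX v)

end FinalAux

namespace FinalData
variable {k : Type u} [Field k] {p r : ℕ} {A : Type w} [CommRing A] (D : FinalData k p r A)

open FinalAux

/-- Every element of `P` is, after multiplication by a power of `t`, in the radical of any ideal
that contains lifts of the `a_i` and of the `w_(i, top)`. -/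
lemma rad [Fact p.Prime] [CharP k p] (I : Ideal A)
    (ha : ∀ i, i < D.top → ∃ f ∈ I, D.ρ f = X (false, i) ^ p ^ (r - 1 - i))
    (hw : ∀ i, i < D.top → ∃ f ∈ I, D.ρ f = wpoly (Polynomial k) p i D.top)
    (f : A) (hf : f ∈ D.P) : ∃ N, D.t ^ N * f ^ p ^ r ∈ I := by
  let J : Ideal (SP k r) :=
    { carrier := {g | InI D I g}
      add_mem' := fun h h' => h.add h'
      zero_mem' := ⟨0, 0, I.zero_mem, by
        rw [map_zero, zero_pow (pow_ne_zero _ (Fact.out : p.Prime).ne_zero), mul_zero]⟩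
      smul_mem' := fun c _ h => (inI_top c).mul h }
  have hJ : (Ideal.Quotient.mk J).comp (kill D.top) = Ideal.Quotient.mk J := by
    refine ringHom_ext (fun c => by simp [kill]) ?_
    rintro ⟨b, i⟩
    rw [RingHom.comp_apply, kill_X]
    split_ifs with h
    · rfl
    · have hi : i < D.top := by
        have h1 := D.htop
        have h2 := i.2
        have h3 : (i : ℕ) ≠ D.top := fun e => h (Fin.ext e)
        rw [Fin.lt_def]
        omega
      rw [map_zero, eq_comm, Ideal.Quotient.eq_zero_iff_mem]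
      cases b with
      | false => exact InI.tau (ha i hi)
      | true => exact InI.z (ha i hi) (hw i hi)
  have h1 : kill D.top (D.ρ f) = 0 := hf
  have h2 : D.ρ f ∈ J := by
    rw [← Ideal.Quotient.eq_zero_iff_mem, ← hJ, RingHom.comp_apply, h1, map_zero]
  obtain ⟨N, f', hf', e⟩ := h2
  have h3 := D.det (D.t ^ N * f ^ p ^ r - f') (by
    rw [map_sub, map_mul, map_pow, map_pow, D.ht, e, sub_self])
  refine ⟨N + 1, ?_⟩
  have h4 : D.t ^ (N + 1) * f ^ p ^ r = D.t * f' := by linear_combination h3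
  rw [h4]
  exact I.mul_mem_left _ hf'

end FinalData

namespace FinalAux

variable {k : Type u} [Field k] {p r : ℕ}

/-- `τ_a^(p^(l-a))` -/
noncomputable def TT (k : Type u) [Field k] (p l : ℕ) (a : Fin r) : SP k r :=
  X (false, a) ^ p ^ (l - a)

/-- `z_a^(p^(l-a))` -/
noncomputable def ZZ (k : Type u) [Field k] (p l : ℕ) (a : Fin r) : SP k r :=
  X (true, a) ^ p ^ (l - a)

/-- `v^(p^(l+1))` -/
noncomputable def VV (k : Type u) [Field k] (p r l : ℕ) : SP k r :=
  C (Polynomial.X ^ p ^ (l + 1))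

lemma pow_split' {l a : ℕ} (h : a ≤ l) : p ^ (l - a) * p ^ (a + 1) = p ^ (l + 1) := by
  rw [← pow_add]
  congr 1
  omega

lemma TT_pow {l : ℕ} (hl : l + 2 = r) {a : Fin r} (h : (a : ℕ) ≤ l) :
    TT k p l a ^ p = X (false, a) ^ p ^ (r - 1 - a) := by
  rw [TT, ← pow_mul, ← pow_succ]
  congr 2
  omega

lemma wpoly_pow [Fact p.Prime] [CharP k p] {l : ℕ} {a b : Fin r} (hab : a < b)
    (hb : (b : ℕ) ≤ l) : wpoly (Polynomial k) p a b ^ p ^ (l - b) =
      ZZ k p l a * TT k p l b - ZZ k p l b * TT k p l a := by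
  rw [Fin.lt_def] at hab
  have e : (b : ℕ) - a + (l - b) = l - a := by omega
  rw [wpoly, sub_pow_char_pow, mul_pow, mul_pow, ← pow_mul, ← pow_mul, ← pow_add, e]
  rfl

lemma delta_C (c : Polynomial k) :
    delta (Polynomial k) p r (C c) = Polynomial.C (C c) := by
  simp [delta]

lemma delta_tau (i : Fin r) :
    delta (Polynomial k) p r (X (false, i)) = Polynomial.C (X (false, i)) := by
  simp [delta]

lemma delta_z (i : Fin r) (h : (i : ℕ) + 1 < r) :
    delta (Polynomial k) p r (X (true, i)) = Polynomial.C (X (true, i)) +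
      Polynomial.X ^ p ^ ((i : ℕ) + 1) * Polynomial.C (X (false, i)) := by
  simp [delta, h]

lemma delta_z' (i : Fin r) (h : ¬ (i : ℕ) + 1 < r) :
    delta (Polynomial k) p r (X (true, i)) = Polynomial.C (X (true, i)) := by
  simp [delta, h]

lemma delta_coeff_zero [Fact p.Prime] (g : SP k r) :
    (delta (Polynomial k) p r g).coeff 0 = g := by
  have hp : p ≠ 0 := (Fact.out : p.Prime).ne_zero
  have : Polynomial.constantCoeff.comp (delta (Polynomial k) p r) = RingHom.id _ := by
    refine ringHom_ext (fun c => by simp [delta_C]) ?_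
    rintro ⟨b, i⟩
    cases b with
    | false => simp [delta_tau]
    | true =>
      by_cases h : (i : ℕ) + 1 < r
      · simp [delta_z i h, (pow_ne_zero _ hp).symm]
      · simp [delta_z' i h]
  exact RingHom.congr_fun this g

lemma delta_TT (l : ℕ) (a : Fin r) :
    delta (Polynomial k) p r (TT k p l a) = Polynomial.C (TT k p l a) := by
  rw [TT, map_pow, delta_tau, map_pow]

lemma delta_ZZ [Fact p.Prime] [CharP k p] {l : ℕ} (hl : l + 2 = r) {a : Fin r}
    (h : (a : ℕ) ≤ l) : delta (Polynomial k) p r (ZZ k p l a) =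
      Polynomial.C (ZZ k p l a) + Polynomial.X ^ p ^ (l + 1) * Polynomial.C (TT k p l a) := by
  rw [ZZ, TT, map_pow, delta_z a (by omega), add_pow_char_pow, mul_pow, ← pow_mul, mul_comm (p ^ _),
    pow_split' h, map_pow, map_pow]

/-- Keeps the levels `a` and `b` as variables and the top level as constants. -/
noncomputable def chi (top a b : Fin r) : SP k r →+* MvPolynomial (Fin 4) (SP k r) :=
  eval₂Hom (C.comp C) fun v =>
    if v.2 = a then (if v.1 = true then X 1 else X 0)
    else if v.2 = b then (if v.1 = true then X 3 else X 2)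
    else if v.2 = top then C (X v) else 0

lemma chi_C (top a b : Fin r) (c : Polynomial k) : chi top a b (C c) = C (C c) := by
  simp [chi]

lemma chi_X (top a b : Fin r) (v : Bool × Fin r) : chi (k := k) top a b (X v) =
    if v.2 = a then (if v.1 = true then X 1 else X 0)
    else if v.2 = b then (if v.1 = true then X 3 else X 2)
    else if v.2 = top then C (X v) else 0 := by
  simp only [chi, eval₂Hom_X']

lemma const_chi {top a b : Fin r} (ha : a ≠ top) (hb : b ≠ top) (g : SP k r) :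
    constantCoeff (chi top a b g) = kill top g := by
  have : constantCoeff.comp (chi (k := k) top a b) = kill top := by
    refine ringHom_ext (fun c => by simp [chi_C, kill]) fun v => ?_
    rw [RingHom.comp_apply, chi_X, kill_X]
    by_cases h1 : v.2 = a
    · rw [if_pos h1, if_neg (show ¬ v.2 = top from h1 ▸ ha)]
      split_ifs <;> simp
    rw [if_neg h1]
    by_cases h2 : v.2 = b
    · rw [if_pos h2, if_neg (show ¬ v.2 = top from h2 ▸ hb)]
      split_ifs <;> simp
    rw [if_neg h2]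
    split_ifs <;> simp
  exact RingHom.congr_fun this g

lemma map_chi {top a b : Fin r} (htop : (top : ℕ) + 1 = r) (ha : (a : ℕ) + 1 = b)
    (hb : (b : ℕ) + 1 = top) (g : SP k r) :
    (delta (Polynomial k) p r g).map (chi top a b) =
      delta4 (SP k r) p (p ^ (b : ℕ)) (chi top a b g) := by
  have hab : b ≠ a := fun e => by rw [e] at ha; omega
  have : (Polynomial.mapRingHom (chi (k := k) top a b)).comp (delta (Polynomial k) p r) =
      (delta4 (SP k r) p (p ^ (b : ℕ))).comp (chi top a b) := by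
    refine ringHom_ext (fun c => by simp [delta_C, chi_C, delta4]) ?_
    rintro ⟨c, i⟩
    simp only [RingHom.comp_apply, Polynomial.coe_mapRingHom]
    cases c with
    | false =>
      rw [delta_tau, Polynomial.map_C, chi_X]
      split_ifs <;> simp_all [delta4]
    | true =>
      by_cases h : (i : ℕ) + 1 < r
      · have ht : i ≠ top := fun e => by rw [e] at h; omega
        rw [delta_z i h]
        simp only [Polynomial.map_add, Polynomial.map_mul, Polynomial.map_pow, Polynomial.map_C,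
          Polynomial.map_X, chi_X]
        by_cases h1 : i = a
        · subst h1
          simp [delta4, ha]
        by_cases h2 : i = b
        · subst h2
          simp [delta4, h1, pow_succ]
        simp [h1, h2, ht]
      · have h0 := i.2
        have ht : i = top := Fin.ext (by omega)
        have h1 : i ≠ a := fun e => by rw [e] at h; omega
        have h2 : i ≠ b := fun e => by rw [e] at h; omega
        rw [delta_z' i h, Polynomial.map_C, chi_X, if_neg h1, if_neg h2, if_pos ht]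
        simp [delta4]
  exact RingHom.congr_fun this g

lemma exists_k [Fact p.Prime] (hp : 5 ≤ p) : ∃ j c, 3 * j + 1 = c * p ∧ j + 1 < p := by
  have h3 : p % 3 ≠ 0 := fun h => by
    have := ((Fact.out : p.Prime).dvd_iff_eq (by norm_num : (3 : ℕ) ≠ 1)).1
      (Nat.dvd_of_mod_eq_zero h)
    omega
  by_cases h : p % 3 = 1
  · exact ⟨(p - 1) / 3, 1, by omega, by omega⟩
  · exact ⟨(2 * p - 1) / 3, 2, by omega, by omega⟩

/-- The computation in the polynomial ring. -/
lemma poly_contra [Fact p.Prime] [CharP k p] {l j : ℕ} (hl : l + 2 = r) (hj : j + 1 < p)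
    {top a₁ a₂ a₃ : Fin r} (htop : (top : ℕ) + 1 = r) (h1 : (a₁ : ℕ) + 2 = l)
    (h2 : (a₂ : ℕ) + 1 = l) (h3 : (a₃ : ℕ) = l) (m S F G : SP k r)
    (hm : m = VV k p r l ^ (p - 1 - j) * wpoly (Polynomial k) p a₂ a₃ ^ j)
    (hS : (delta (Polynomial k) p r S).coeff (p ^ (l + 1)) = 0)
    (hG : (delta (Polynomial k) p r G).coeff (p ^ (l + 1)) = 0)
    (e : S * (TT k p l a₂ ^ p * (m * TT k p l a₁ ^ (p - 1) * ZZ k p l a₁) -
      TT k p l a₁ ^ p * (m * TT k p l a₂ ^ (p - 1) * ZZ k p l a₂)) =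
        TT k p l a₁ ^ p * F + TT k p l a₂ ^ p * G) : kill top S = 0 := by
  have hp : p ≠ 0 := (Fact.out : p.Prime).ne_zero
  have h23 : a₂ < a₃ := by rw [Fin.lt_def]; omega
  have hw : wpoly (Polynomial k) p a₂ a₃ =
      ZZ k p l a₂ * TT k p l a₃ - ZZ k p l a₃ * TT k p l a₂ := by
    rw [← wpoly_pow h23 h3.le, h3, Nat.sub_self, pow_zero, pow_one]
  have hdw : delta (Polynomial k) p r (wpoly (Polynomial k) p a₂ a₃) =
      Polynomial.C (wpoly (Polynomial k) p a₂ a₃) := by
    rw [hw, map_sub, map_mul, map_mul, delta_TT, delta_TT, delta_ZZ hl (by omega),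
      delta_ZZ hl (by omega), map_sub, map_mul, map_mul]
    ring
  have hdm : delta (Polynomial k) p r m = Polynomial.C m := by
    rw [hm, map_mul, map_pow, map_pow, hdw, VV, delta_C]
    simp only [map_mul, map_pow]
  have hdvd : TT k p l a₁ ^ p ∣ S * (m * TT k p l a₁ ^ (p - 1) * ZZ k p l a₁) - G := by
    have hd : TT k p l a₁ ^ p ∣
        TT k p l a₂ ^ p * (S * (m * TT k p l a₁ ^ (p - 1) * ZZ k p l a₁) - G) :=
      ⟨F + S * (m * TT k p l a₂ ^ (p - 1) * ZZ k p l a₂), by linear_combination e⟩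
    rw [TT, ← pow_mul] at hd ⊢
    refine X_prime.pow_dvd_of_dvd_mul_left _ (fun h => ?_) hd
    rw [TT, ← pow_mul] at h
    have := X_dvd_X.1 (X_prime.dvd_of_dvd_pow h)
    have : a₁ = a₂ := congrArg Prod.snd this
    rw [this] at h1
    omega
  obtain ⟨h, hh⟩ := hdvd
  have hc := congrArg (fun g => (delta (Polynomial k) p r g).coeff (p ^ (l + 1))) hh
  simp only [map_sub, map_mul, map_pow, delta_TT, hdm, delta_ZZ hl (show (a₁ : ℕ) ≤ l by omega),
    Polynomial.coeff_sub, hG, sub_zero] at hc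
  have e1 : delta (Polynomial k) p r S * (Polynomial.C m * Polynomial.C (TT k p l a₁) ^ (p - 1) *
      (Polynomial.C (ZZ k p l a₁) + Polynomial.X ^ p ^ (l + 1) * Polynomial.C (TT k p l a₁))) =
      delta (Polynomial k) p r S * Polynomial.C (m * TT k p l a₁ ^ (p - 1) * ZZ k p l a₁) +
        delta (Polynomial k) p r S * Polynomial.C (m * TT k p l a₁ ^ p) *
          Polynomial.X ^ p ^ (l + 1) := by
    have : TT k p l a₁ ^ p = TT k p l a₁ ^ (p - 1) * TT k p l a₁ := by
      rw [← pow_succ]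
      congr 1
      omega
    rw [this]
    simp only [map_mul, map_pow]
    ring
  rw [e1, Polynomial.coeff_add, Polynomial.coeff_mul_C, hS, zero_mul, zero_add,
    Polynomial.coeff_mul_X_pow', if_pos le_rfl, Nat.sub_self, Polynomial.coeff_mul_C,
    delta_coeff_zero, ← map_pow, Polynomial.coeff_C_mul] at hc
  have hT : TT k p l a₁ ^ p ≠ 0 := pow_ne_zero _ (pow_ne_zero _ (X_ne_zero _))
  have hD : (delta (Polynomial k) p r h).coeff (p ^ (l + 1)) = S * m :=
    mul_left_cancel₀ hT (by linear_combination -hc)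
  have n2 : a₂ ≠ top := fun e => by rw [e] at h2; omega
  have n3 : a₃ ≠ top := fun e => by rw [e] at h3; omega
  have hχ := congrArg (fun g => g.coeff (p ^ (l + 1)))
    (map_chi (p := p) htop (show (a₂ : ℕ) + 1 = a₃ by omega) (show (a₃ : ℕ) + 1 = top by omega) h)
  simp only [Polynomial.coeff_map, hD] at hχ
  have hχw : chi top a₂ a₃ (wpoly (Polynomial k) p a₂ a₃) = X 1 ^ p * X 2 - X 3 * X 0 ^ p := by
    have e2 : (a₃ : ℕ) - a₂ = 1 := by omega
    simp [wpoly, chi_X, e2, h23.ne']
  have hcore := core p (p ^ (a₃ : ℕ)) j (pow_pos (Nat.pos_of_ne_zero hp) _) hj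
    (chi top a₂ a₃ S * C (VV k p r l) ^ (p - 1 - j)) (chi top a₂ a₃ h) (by
      have e3 : p ^ (a₃ : ℕ) * p = p ^ (l + 1) := by rw [h3, pow_succ]
      rw [e3, ← hχ, hm, map_mul, map_mul, map_pow, map_pow, hχw, VV, chi_C, mul_assoc])
  rw [map_mul, map_pow, const_chi n2 n3, constantCoeff_C] at hcore
  refine (mul_eq_zero.1 hcore).resolve_right (pow_ne_zero _ ?_)
  rw [VV]
  exact C_ne_zero.2 (pow_ne_zero _ Polynomial.X_ne_zero)

variable {A : Type w} [CommRing A] (D : FinalData k p r A)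

lemma exists_u [Fact p.Prime] [CharP k p] {l j c : ℕ} (hl : l + 2 = r) (hj : j + 1 < p)
    (hc : 3 * j + 1 = c * p) {a₂ a₃ a b : Fin r} (h23 : a₂ < a₃) (h3 : (a₃ : ℕ) = l) (hab : a < b)
    (hb : (b : ℕ) ≤ l) (m : SP k r)
    (hm : m = VV k p r l ^ (p - 1 - j) * wpoly (Polynomial k) p a₂ a₃ ^ j) :
    ∃ f, D.ρ f = TT k p l b ^ p * (m * TT k p l a ^ (p - 1) * ZZ k p l a) -
      TT k p l a ^ p * (m * TT k p l b ^ (p - 1) * ZZ k p l b) := by
  have ha : (a : ℕ) ≤ l := by rw [Fin.lt_def] at hab; omega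
  have hT : ∀ x : Fin r, (x : ℕ) ≤ l → D.Wt (p ^ (l + 1)) 0 (TT k p l x) := fun x hx => by
    have := D.wt_pow (D.wt_tau x) (p ^ (l - x))
    rwa [pow_split' hx, mul_zero] at this
  have hVT : D.Wt 0 (p ^ (l + 1)) (VV k p r l * TT k p l a) := by
    have := D.wt_pow (D.wt_vtau a) (p ^ (l - a))
    rwa [pow_split' ha, mul_zero, mul_pow, ← map_pow, ← pow_mul, mul_comm (p ^ _),
      pow_split' ha] at this
  have hW : D.Wt (2 * p ^ (l + 1)) (p ^ (l + 1))
      (ZZ k p l a * TT k p l b - ZZ k p l b * TT k p l a) := by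
    have := D.wt_pow (D.wt_w a b hab) (p ^ (l - b))
    rwa [wpoly_pow hab hb, mul_left_comm, pow_split' hb] at this
  have hw : D.Wt (2 * p ^ (l + 1)) (p ^ (l + 1)) (wpoly (Polynomial k) p a₂ a₃) := by
    have := D.wt_w a₂ a₃ h23
    rwa [h3] at this
  have h := D.wt_mul _ _ _ _ _ _ (D.wt_mul _ _ _ _ _ _ (D.wt_mul _ _ _ _ _ _
    (D.wt_mul _ _ _ _ _ _ (D.wt_pow hw j) (D.wt_pow (hT a ha) j)) (D.wt_pow hVT (p - 1 - j)))
    (D.wt_pow (hT b hb) (p - 1))) hW
  obtain ⟨i, rfl⟩ : ∃ i, p = j + i + 1 := ⟨p - 1 - j, by omega⟩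
  have e1 : j + i + 1 - 1 = j + i := by omega
  have e2 : j + i - j = i := by omega
  rw [e1, e2] at h hm
  rw [e1]
  have er : (j + i + 1) ^ r = (j + i + 1) * (j + i + 1) ^ (l + 1) := by
    rw [← hl]
    ring
  obtain ⟨f, hf⟩ := D.mem _ _ _ h ⟨c + 1, by
    rw [er]
    generalize (j + i + 1) ^ (l + 1) = y
    linear_combination y * hc⟩ ⟨1, by
    rw [er]
    ring⟩
  refine ⟨f, ?_⟩
  rw [hf, hm]
  ring

end FinalAux

/-- Every element of the polynomial ring has, up to a power of `τ_top`, its `p ^ r`-th power in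
the image of `ρ`. -/
lemma FinalData.exists_pow {k : Type u} [Field k] {p r : ℕ} {A : Type w} [CommRing A]
    (D : FinalData k p r A) [Fact p.Prime] [CharP k p] (g : SP k r) :
    ∃ N f, D.ρ f = X (false, D.top) ^ N * g ^ p ^ r := by
  obtain ⟨N, f, -, e⟩ := FinalAux.inI_top (D := D) g
  exact ⟨N, f, e⟩

open FinalAux in
/-- The localisation at `P` has no regular sequence of length its dimension. -/
theorem FinalData.not_reg {k : Type u} [Field k] {p r : ℕ} {A : Type w} [CommRing A]
    (hp : 5 ≤ p) (hr : 4 ≤ r) (D : FinalData k p r A) [Fact p.Prime] [CharP k p]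
    [IsNoetherianRing (Localization.AtPrime D.P)] :
    ¬ ∃ rs : List (Localization.AtPrime D.P),
      (∀ x ∈ rs, x ∈ IsLocalRing.maximalIdeal (Localization.AtPrime D.P)) ∧
      RingTheory.Sequence.IsRegular (Localization.AtPrime D.P) rs ∧
      (rs.length : WithBot ℕ∞) = ringKrullDim (Localization.AtPrime D.P) := by
  rintro ⟨rs, hrs, hreg, hlen⟩
  have htop := D.htop
  have hp0 : p ≠ 0 := by omega
  obtain ⟨l, hl⟩ : ∃ l, l + 2 = r := ⟨r - 2, by omega⟩
  obtain ⟨a₁, h1⟩ : ∃ a : Fin r, (a : ℕ) + 2 = l := ⟨⟨l - 2, by omega⟩, by simp only; omega⟩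
  obtain ⟨a₂, h2⟩ : ∃ a : Fin r, (a : ℕ) + 1 = l := ⟨⟨l - 1, by omega⟩, by simp only; omega⟩
  obtain ⟨a₃, h3⟩ : ∃ a : Fin r, (a : ℕ) = l := ⟨⟨l, by omega⟩, rfl⟩
  have h12 : a₁ < a₂ := by rw [Fin.lt_def]; omega
  have h23 : a₂ < a₃ := by rw [Fin.lt_def]; omega
  choose a ha using D.exists_a
  have hw' : ∀ i : Fin r, ∃ f, i < D.top → D.ρ f = wpoly (Polynomial k) p i D.top := fun i => by
    by_cases hi : i < D.top
    · obtain ⟨f, hf⟩ := D.exists_w i hi
      exact ⟨f, fun _ => hf⟩
    · exact ⟨0, fun h => absurd h hi⟩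
  choose w hw using hw'
  have haP : ∀ i, i < D.top → a i ∈ D.P := fun i hi => by
    change kill D.top (D.ρ (a i)) = 0
    rw [ha, map_pow, kill_low _ hi, zero_pow (pow_ne_zero _ hp0)]
  have hwP : ∀ i, i < D.top → w i ∈ D.P := fun i hi => by
    change kill D.top (D.ρ (w i)) = 0
    rw [hw i hi, wpoly, map_sub, map_mul, map_mul, map_pow, map_pow, kill_low _ hi, kill_low _ hi,
      zero_pow (pow_ne_zero _ hp0)]
    simp
  let φ := algebraMap A (Localization.AtPrime D.P)
  let xs : List (Localization.AtPrime D.P) :=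
    List.ofFn (fun i : Fin (r - 4) => φ (a (i.castLE (by omega)))) ++
      List.ofFn fun i : Fin (r - 1) => φ (w (i.castLE (by omega)))
  have hmax : ∀ f ∈ D.P, φ f ∈ IsLocalRing.maximalIdeal (Localization.AtPrime D.P) := fun f hf =>
    (IsLocalization.AtPrime.to_map_mem_maximal_iff _ D.P f).2 hf
  have ht : IsUnit (φ D.t) :=
    IsLocalization.map_units (M := D.P.primeCompl) _ ⟨D.t, D.t_notMem⟩
  have hlen' : (φ (a a₁) :: φ (a a₂) :: φ (a a₃) :: xs).length ≤ rs.length := by
    have h := D.le_dim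
    rw [← hlen] at h
    have h' : 2 * (r - 1) ≤ rs.length := by exact_mod_cast h
    simp only [xs, List.length_cons, List.length_append, List.length_ofFn]
    omega
  have hin : ∀ x ∈ φ (a a₁) :: φ (a a₂) :: φ (a a₃) :: xs,
      x ∈ IsLocalRing.maximalIdeal (Localization.AtPrime D.P) := by
    intro x hx
    simp only [xs, List.mem_cons, List.mem_append, List.mem_ofFn] at hx
    rcases hx with rfl | rfl | rfl | ⟨i, rfl⟩ | ⟨i, rfl⟩
    · exact hmax _ (haP _ (by rw [Fin.lt_def]; omega))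
    · exact hmax _ (haP _ (by rw [Fin.lt_def]; omega))
    · exact hmax _ (haP _ (by rw [Fin.lt_def]; omega))
    · exact hmax _ (haP _ (by rw [Fin.lt_def, Fin.val_castLE]; omega))
    · exact hmax _ (hwP _ (by rw [Fin.lt_def, Fin.val_castLE]; omega))
  have hrad : IsLocalRing.maximalIdeal (Localization.AtPrime D.P) ≤
      (Ideal.ofList (φ (a a₁) :: φ (a a₂) :: φ (a a₃) :: xs)).radical := by
    rw [← IsLocalization.AtPrime.map_eq_maximalIdeal D.P, Ideal.map_le_iff_le_comap]
    intro f hf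
    have m1 : ∀ i, i < D.top → φ (a i) ∈ φ (a a₁) :: φ (a a₂) :: φ (a a₃) :: xs := by
      intro i hi
      rw [Fin.lt_def] at hi
      simp only [xs, List.mem_cons, List.mem_append, List.mem_ofFn]
      by_cases e1 : i = a₁
      · exact Or.inl (by rw [e1])
      by_cases e2 : i = a₂
      · exact Or.inr (Or.inl (by rw [e2]))
      by_cases e3 : i = a₃
      · exact Or.inr (Or.inr (Or.inl (by rw [e3])))
      rw [Fin.ext_iff] at e1 e2 e3
      exact Or.inr (Or.inr (Or.inr (Or.inl ⟨⟨i, by omega⟩, rfl⟩)))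
    have m2 : ∀ i, i < D.top → φ (w i) ∈ φ (a a₁) :: φ (a a₂) :: φ (a a₃) :: xs := by
      intro i hi
      rw [Fin.lt_def] at hi
      simp only [xs, List.mem_cons, List.mem_append, List.mem_ofFn]
      exact Or.inr (Or.inr (Or.inr (Or.inr ⟨⟨i, by omega⟩, rfl⟩)))
    obtain ⟨N, hN⟩ := D.rad ((Ideal.ofList (φ (a a₁) :: φ (a a₂) :: φ (a a₃) :: xs)).comap φ)
      (fun i hi => ⟨a i, Ideal.subset_span (m1 i hi), ha i⟩)
      (fun i hi => ⟨w i, Ideal.subset_span (m2 i hi), hw i hi⟩) f hf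
    refine ⟨p ^ r, ?_⟩
    rw [Ideal.mem_comap, map_mul, map_pow, map_pow] at hN
    exact (Ideal.unit_mul_mem_iff_mem _ (ht.pow N)).1 hN
  have hwr := sop_regular rs _ hrs hreg hlen' hin hrad
  obtain ⟨j, c, hc, hj⟩ := exists_k hp
  obtain ⟨u12, e12⟩ := exists_u D hl hj hc h23 h3 h12 (by omega) _ rfl
  obtain ⟨u13, e13⟩ := exists_u D hl hj hc h23 h3 (h12.trans h23) h3.le _ rfl
  obtain ⟨u23, e23⟩ := exists_u D hl hj hc h23 h3 h23 h3.le _ rfl
  have A1 : D.ρ (a a₁) = TT k p l a₁ ^ p := by rw [ha, TT_pow hl (by omega)]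
  have A2 : D.ρ (a a₂) = TT k p l a₂ ^ p := by rw [ha, TT_pow hl (by omega)]
  have A3 : D.ρ (a a₃) = TT k p l a₃ ^ p := by rw [ha, TT_pow hl (by omega)]
  have hrel := D.det (a a₃ * u12 - (a a₁ * -u23 + a a₂ * u13)) (by
    simp only [map_sub, map_add, map_mul, map_neg, A1, A2, A3, e12, e13, e23]
    ring)
  have hrel' : φ (a a₃) * φ u12 = φ (a a₁) * φ (-u23) + φ (a a₂) * φ u13 := by
    have := congrArg φ hrel
    rw [map_mul, map_zero, ht.mul_right_eq_zero, map_sub, sub_eq_zero, map_mul, map_add, map_mul,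
      map_mul] at this
    exact this
  obtain ⟨f', g', hfg⟩ := third_regular _ _ _ xs hwr _ _ _ hrel'
  obtain ⟨⟨f, s⟩, hf⟩ := IsLocalization.surj D.P.primeCompl f'
  obtain ⟨⟨g, s'⟩, hg⟩ := IsLocalization.surj D.P.primeCompl g'
  have hR : φ (s * s' * u12) = φ (a a₁ * (s' * f) + a a₂ * (s * g)) := by
    simp only [map_mul, map_add]
    simp only at hf hg
    rw [hfg, ← hf, ← hg]
    ring
  obtain ⟨s'', hs⟩ := (IsLocalization.eq_iff_exists D.P.primeCompl _).1 hR
  have hq : p ^ (l + 1) < p ^ r := Nat.pow_lt_pow_right (by omega) (by omega)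
  have hpos : 0 < p ^ (l + 1) := by positivity
  have hk := poly_contra hl hj htop h1 h2 h3 _ (D.ρ (s'' * (s * s'))) (D.ρ (s'' * (s' * f)))
    (D.ρ (s'' * (s * g))) rfl (D.inv _ _ hpos hq) (D.inv _ _ hpos hq) (by
      have := congrArg D.ρ hs
      simp only [map_mul, map_add, A1, A2, e12] at this ⊢
      linear_combination this)
  exact (s'' * (s * s')).2 hk

end Pool.Agent.Lib.MP_5f3851_al
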