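import Pool.Agent.Lib.MP_5f3851_al.Comm

/-! The quotient of the cohomology ring by its nilpotent elements. -/

set_option linter.unusedSectionVars false

namespace Pool.Agent.Lib.MP_5f3851_al

universe u v w

variable {S : Site.{u, v}} (p : ℕ) [Fact p.Prime] [Fact (5 ≤ p)] [CharS S p]

include p in
lemma eq_zero_of_add_self {x : H S} (h : x + x = 0) : x = 0 := by
  obtain ⟨k, hk⟩ := odd_p p
  have h0 : (p : H S) = 0 := H_natCast_eq_zero CharS.out
  have h1 : p • x = 0 := by rw [nsmul_eq_mul, h0, zero_mul]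
  rw [hk, add_nsmul, mul_nsmul, two_nsmul, h, nsmul_zero, zero_add, one_nsmul] at h1
  exact h1

/-- The sums of classes of odd degree. -/
def Hodd (S : Site.{u, v}) : AddSubgroup (H S) :=
  AddSubgroup.closure {x | ∃ m, Odd m ∧ x ∈ Hn S m}

lemma Hodd_anti {x y : H S} (hx : x ∈ Hodd S) (hy : y ∈ Hodd S) : x * y = -(y * x) := by
  induction hx, hy using AddSubgroup.closure_induction₂ with
  | mem x y hx hy =>
    obtain ⟨m, hm, hx⟩ := hx
    obtain ⟨n, hn, hy⟩ := hy
    rw [Hn_comm hx hy, (hm.mul hn).neg_one_pow, neg_one_zsmul]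
  | zero_left => simp
  | zero_right => simp
  | add_left a b c _ _ _ h1 h2 => rw [add_mul, mul_add, h1, h2, neg_add]
  | add_right a b c _ _ _ h1 h2 => rw [add_mul, mul_add, h1, h2, neg_add]
  | neg_left a b _ _ h => rw [neg_mul, mul_neg, h]
  | neg_right a b _ _ h => rw [neg_mul, mul_neg, h]

lemma exists_ev_odd (x : H S) : ∃ e o, (∀ y, Commute e y) ∧ o ∈ Hodd S ∧ x = e + o := by
  induction x using H_induction with
  | h0 => exact ⟨0, 0, fun y => Commute.zero_left y, zero_mem _, by simp⟩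
  | hadd x y hx hy =>
    obtain ⟨e, o, h1, h2, rfl⟩ := hx
    obtain ⟨e', o', h1', h2', rfl⟩ := hy
    exact ⟨e + e', o + o', fun y => (h1 y).add_left (h1' y), add_mem h2 h2', by abel⟩
  | hn n x hx =>
    rcases Nat.even_or_odd n with h | h
    · exact ⟨x, 0, fun y => Hn_even_comm h hx y, zero_mem _, by simp⟩
    · exact ⟨0, x, fun y => Commute.zero_left y, AddSubgroup.subset_closure ⟨n, h, hx⟩, by simp⟩

include p in
lemma Hodd_sq {x : H S} (hx : x ∈ Hodd S) : x * x = 0 :=
  eq_zero_of_add_self p (eq_neg_iff_add_eq_zero.1 (Hodd_anti hx hx))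

include p in
lemma Hodd_nil {x : H S} (hx : x ∈ Hodd S) : IsNilpotent x := ⟨2, by rw [pow_two, Hodd_sq p hx]⟩

include p in
lemma Hodd_mul_nil {x : H S} (hx : x ∈ Hodd S) (y : H S) : IsNilpotent (x * y) := by
  obtain ⟨e, o, h1, h2, rfl⟩ := exists_ev_odd y
  refine ⟨2, ?_⟩
  have h3 : (e + o) * x = x * (e - o) := by
    rw [add_mul, mul_sub, (h1 x).eq, Hodd_anti h2 hx, sub_eq_add_neg]
  rw [pow_two, mul_assoc, ← mul_assoc (e + o), h3, ← mul_assoc, ← mul_assoc, Hodd_sq p hx,
    zero_mul, zero_mul]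

include p in
lemma nil_iff {e o : H S} (h1 : ∀ y, Commute e y) (h2 : o ∈ Hodd S) :
    IsNilpotent (e + o) ↔ IsNilpotent e := by
  refine ⟨fun h => ?_, fun h => (h1 o).isNilpotent_add h (Hodd_nil p h2)⟩
  have : Commute (e + o) o := (h1 o).add_left (Commute.refl o)
  simpa using this.isNilpotent_sub h (Hodd_nil p h2)

include p in
lemma Hn_odd_sq {m : ℕ} (hm : Odd m) {x : H S} (hx : x ∈ Hn S m) : x * x = 0 := by
  exact Hodd_sq p (AddSubgroup.subset_closure ⟨m, hm, hx⟩)
include p in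
lemma nil_add {x y : H S} (hx : IsNilpotent x) (hy : IsNilpotent y) : IsNilpotent (x + y) := by
  obtain ⟨e, o, h1, h2, rfl⟩ := exists_ev_odd x
  obtain ⟨e', o', h1', h2', rfl⟩ := exists_ev_odd y
  rw [add_add_add_comm, nil_iff p (fun y => (h1 y).add_left (h1' y)) (add_mem h2 h2')]
  exact (h1 e').isNilpotent_add ((nil_iff p h1 h2).1 hx) ((nil_iff p h1' h2').1 hy)
include p in
lemma nil_mul_left (x : H S) {y : H S} (hy : IsNilpotent y) : IsNilpotent (x * y) := by
  obtain ⟨e, o, h1, h2, rfl⟩ := exists_ev_odd y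
  rw [mul_add]
  refine nil_add p ((h1 x).symm.isNilpotent_mul_left ((nil_iff p h1 h2).1 hy)) ?_
  obtain ⟨n, hn⟩ := Hodd_mul_nil p h2 x
  exact ⟨n + 1, by rw [pow_succ, ← mul_assoc, mul_pow_mul, hn, mul_zero, zero_mul]⟩
include p in
lemma nil_mul_right {x : H S} (hx : IsNilpotent x) (y : H S) : IsNilpotent (x * y) := by
  obtain ⟨e, o, h1, h2, rfl⟩ := exists_ev_odd x
  rw [add_mul]
  exact nil_add p ((h1 y).isNilpotent_mul_right ((nil_iff p h1 h2).1 hx)) (Hodd_mul_nil p h2 y)
include p in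
lemma nil_comm (x y : H S) : IsNilpotent (x * y - y * x) := by
  obtain ⟨e, o, h1, h2, rfl⟩ := exists_ev_odd x
  have : (e + o) * y - y * (e + o) = o * y + -(y * o) := by
    rw [add_mul, mul_add, (h1 y).eq]; abel
  rw [this]
  exact nil_add p (Hodd_mul_nil p h2 y) (nil_mul_left p y (Hodd_nil p h2)).neg

/-- The ideal of nilpotent elements. -/
def nilI (S : Site.{u, v}) [CharS S p] : TwoSidedIdeal (H S) :=
  TwoSidedIdeal.mk' {x | IsNilpotent x} IsNilpotent.zero (fun hx hy => nil_add p hx hy)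
    (fun hx => hx.neg) (fun {x _} hy => nil_mul_left p x hy) fun {_ y} hx => nil_mul_right p hx y

/-- The reduced cohomology ring. -/
def Ared (S : Site.{u, v}) [CharS S p] : Type _ := (nilI p S).ringCon.Quotient

noncomputable instance : Ring (Ared p S) := inferInstanceAs (Ring (nilI p S).ringCon.Quotient)

/-- The quotient map. -/
noncomputable def toRed (S : Site.{u, v}) [CharS S p] : H S →+* Ared p S := (nilI p S).ringCon.mk'

lemma toRed_surj : Function.Surjective (toRed p S) := by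
  exact (nilI p S).ringCon.mk'_surjective
lemma toRed_eq_zero_iff (x : H S) : toRed p S x = 0 ↔ IsNilpotent x := by
  have : toRed p S x = toRed p S 0 ↔ IsNilpotent x := by
    refine (RingCon.eq _).trans ?_
    rw [TwoSidedIdeal.rel_iff, sub_zero, nilI, TwoSidedIdeal.mem_mk']; rfl
  rwa [map_zero] at this
lemma Ared_mul_comm (a b : Ared p S) : a * b = b * a := by
  obtain ⟨x, rfl⟩ := toRed_surj p a
  obtain ⟨y, rfl⟩ := toRed_surj p b
  rw [← sub_eq_zero, ← map_mul, ← map_mul, ← map_sub, toRed_eq_zero_iff]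
  exact nil_comm p x y

noncomputable instance : CommRing (Ared p S) :=
  { (inferInstance : Ring (Ared p S)) with mul_comm := Ared_mul_comm p }

lemma exists_lift_red {A : Type w} [CommRing A] [IsReduced A] (g : H S →+* A) :
    ∃ g' : Ared p S →+* A, ∀ x, g' (toRed p S x) = g x := by
  refine ⟨(toRed p S).liftOfSurjective (toRed_surj p) ⟨g, fun x hx => ?_⟩, fun x =>
    RingHom.liftOfSurjective_comp_apply _ _ _ _⟩
  exact (((toRed_eq_zero_iff p x).1 hx).map g).eq_zero

end Pool.Agent.Lib.MP_5f3851_al
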