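import Pool.Agent.Lib.MP_5f3851_al.Mark
import Pool.Agent.Lib.MP_5f3851_al.Red

/-! The cohomology of the abelian subgroup. -/

set_option linter.unusedSectionVars false

namespace Pool.Agent.Lib.MP_5f3851_al

open Finset Cochain MvPolynomial

universe u

variable {B : Type u} [CommRing B] {p r b : ℕ} [Fact p.Prime] [Fact (5 ≤ p)] [PZ p B]

/-- Evaluation of polynomials at the classes of degree two. -/
noncomputable def evE (B : Type u) [CommRing B] (p r : ℕ) [Fact p.Prime] [PZ p B] :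
    MvPolynomial (Bool × Fin r) B →+* H (gs B p r 0) :=
  (Subring.center (H (gs B p r 0))).subtype.comp (eval₂Hom
    ((galg B p r 0).scH.codRestrict _ fun c =>
      Subring.mem_center_iff.2 fun y => ((galg B p r 0).scH_comm c y).symm)
    fun v => ⟨xx p (ec B p r v.1) v.2, Subring.mem_center_iff.2 fun y =>
      (Hn_even_comm even_two (xx_mem p _ _) y).symm⟩)

lemma evE_C (c : B) : evE B p r (C c) = (galg B p r 0).scH c := by
  simp [evE]
lemma evE_X (v : Bool × Fin r) : evE B p r (X v) = xx p (ec B p r v.1) v.2 := by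
  simp [evE]
lemma evE_comm (P : MvPolynomial (Bool × Fin r) B) (y : H (gs B p r 0)) :
    evE B p r P * y = y * evE B p r P :=
  (Subring.mem_center_iff.1 (Subtype.property _) y).symm

/-- The ideal generated by the classes of degree one. -/
def JE (B : Type u) [CommRing B] (p r : ℕ) : AddSubgroup (H (gs B p r 0)) :=
  AddSubgroup.closure {y | ∃ c k z, y = lam p (ec B p r c) k * z}

/-- Products of generators, with degree and weight. -/
inductive Word (B : Type u) [CommRing B] (p r : ℕ) : ℕ → ℕ → ℕ → H (gs B p r 0) → Prop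
  | sc (c : B) : Word B p r 0 0 0 ((galg B p r 0).scH c)
  | lam (c : Bool) (k : Fin r) {n a e : ℕ} {x : H (gs B p r 0)} : Word B p r n a e x →
      Word B p r (1 + n) (p ^ (k : ℕ) + a) ((if c then p ^ (k : ℕ) else 0) + e)
        (lam p (ec B p r c) k * x)
  | xx (c : Bool) (k : Fin r) {n a e : ℕ} {x : H (gs B p r 0)} : Word B p r n a e x →
      Word B p r (2 + n) (p ^ ((k : ℕ) + 1) + a) ((if c then p ^ ((k : ℕ) + 1) else 0) + e)
        (xx p (ec B p r c) k * x)

/-- The span of the words. -/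
def WordSpan (B : Type u) [CommRing B] (p r : ℕ) : AddSubgroup (H (gs B p r 0)) :=
  AddSubgroup.closure {x | ∃ n a e, Word B p r n a e x}

lemma Word.mem_Hn {n a e : ℕ} {x : H (gs B p r 0)} (h : Word B p r n a e x) : x ∈ Hn _ n := by
  induction h with
  | sc c => exact (galg B p r 0).scH_mem c
  | lam c k _ ih => exact Hn_mul (lam_mem p _ _) ih
  | xx c k _ ih => exact Hn_mul (xx_mem p _ _) ih
lemma Word.mem_HWt {n a e : ℕ} {x : H (gs B p r 0)} (h : Word B p r n a e x) :
    x ∈ HWt B p r 0 a e := by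
  induction h with
  | sc c => exact scH_mem_HWt c
  | lam c k _ ih =>
    have h := HWt_mul (lam_mem_HWt (B := B) (p := p) (r := r) (b := 0) (if c then 2 else 0)
      (fun _ => rfl) k) ih
    cases c <;> simpa [wx, wy, ec] using h
  | xx c k _ ih =>
    have h := HWt_mul (xx_mem_HWt (B := B) (p := p) (r := r) (b := 0) (if c then 2 else 0)
      (fun _ => rfl) k) ih
    cases c <;> simpa [wx, wy, ec] using h

namespace GenEAux

lemma word_mem {n a e : ℕ} {x : H (gs B p r 0)} (h : Word B p r n a e x) : x ∈ WordSpan B p r :=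
  AddSubgroup.subset_closure ⟨n, a, e, h⟩

lemma span_map (f : H (gs B p r 0) →+ H (gs B p r 0))
    (hf : ∀ n a e x, Word B p r n a e x → f x ∈ WordSpan B p r) {x : H (gs B p r 0)}
    (hx : x ∈ WordSpan B p r) : f x ∈ WordSpan B p r := by
  have h : WordSpan B p r ≤ (WordSpan B p r).comap f :=
    (AddSubgroup.closure_le _).2 fun y ⟨n, a, e, hy⟩ => hf n a e y hy
  exact h hx

lemma lam_mul_mem (c : Bool) (k : Fin r) {x : H (gs B p r 0)} (hx : x ∈ WordSpan B p r) :
    lam p (ec B p r c) k * x ∈ WordSpan B p r :=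
  span_map (AddMonoidHom.mulLeft _) (fun _ _ _ _ h => word_mem (h.lam c k)) hx

lemma xx_mul_mem (c : Bool) (k : Fin r) {x : H (gs B p r 0)} (hx : x ∈ WordSpan B p r) :
    xx p (ec B p r c) k * x ∈ WordSpan B p r :=
  span_map (AddMonoidHom.mulLeft _) (fun _ _ _ _ h => word_mem (h.xx c k)) hx

lemma prH_mem_span (m : ℕ) {x : H (gs B p r 0)} (hx : x ∈ WordSpan B p r) :
    prH m x ∈ WordSpan B p r := by
  refine span_map (prH m) (fun n a e y hy => ?_) hx
  by_cases h : m = n
  · subst h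
    rw [prH_of_mem hy.mem_Hn]
    exact word_mem hy
  · rw [prH_of_ne hy.mem_Hn h]
    exact zero_mem _

lemma step0 {a : ℕ} (ha : a < r) (c : ℕ) : IsStep r ![a + 1, r, c] ![a, r, c] 0 a :=
  ⟨ha, rfl, rfl, fun c' h => by
    fin_cases c'
    · exact absurd rfl h
    · rfl
    · rfl⟩

lemma step2 (a : ℕ) {c : ℕ} (hc : c < r) : IsStep r ![a, r, c + 1] ![a, r, c] 2 c :=
  ⟨hc, rfl, rfl, fun c' h => by
    fin_cases c'
    · rfl
    · rfl
    · exact absurd rfl h⟩

lemma level_ind {Q : ℕ → ℕ → Prop} (h0 : Q 0 0) (h1 : ∀ a c, a < r → c ≤ r → Q a c → Q (a + 1) c)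
    (h2 : ∀ a c, a ≤ r → c < r → Q a c → Q a (c + 1)) (a c : ℕ) (ha : a ≤ r) (hc : c ≤ r) :
    Q a c := by
  induction a with
  | zero =>
    induction c with
    | zero => exact h0
    | succ c ih => exact h2 0 c ha hc (ih (by omega))
  | succ a ih => exact h1 a c ha hc (ih (by omega))

lemma span_step {j j' : Fin 3 → ℕ} (c : Bool) {n : ℕ}
    (h : IsStep r j j' (if c then 2 else 0) n)
    (ih : ∀ y : H (ms B p r 0 j'), ∃ x ∈ WordSpan B p r, RR B p r 0 j' x = y)
    (y : H (ms B p r 0 j)) : ∃ x ∈ WordSpan B p r, RR B p r 0 j x = y := by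
  obtain ⟨D, hD, hl, hx⟩ := exists_step (B := B) (p := p) (Nat.zero_le r) h fun _ => rfl
  have key : ∀ m, ∀ y : H (ms B p r 0 j),
      prH m y ∈ (WordSpan B p r).map (RR B p r 0 j).toAddMonoidHom := by
    intro m
    induction m using Nat.strong_induction_on with
    | _ m ihm =>
      intro y
      obtain ⟨s, hs, hs'⟩ := ih (D.rr y)
      have h0 : D.rr (y - RR B p r 0 j s) = 0 := by rw [map_sub, hD, hs', sub_self]
      obtain ⟨w, hw⟩ := D.gen_step h0
      obtain ⟨t, ht, ht'⟩ := ih w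
      obtain ⟨e, he⟩ := hw (RR B p r 0 j t) (by rw [hD, ht'])
      have hy : y = RR B p r 0 j (s - lam p (ec B p r c) (⟨n, h.lt⟩ : Fin r) * t) +
          cls D.x * e := by
        rw [map_sub, map_mul, ← hl, sub_eq_add_neg, add_assoc, ← he]
        abel
      have hx2 : cls D.x ∈ Hn _ 2 := by
        rw [hx]
        exact RR_mem_Hn j (xx_mem p _ _)
      rw [hy, map_add, ← RR_prH]
      refine add_mem ⟨_, prH_mem_span m (sub_mem hs (lam_mul_mem c _ ht)), rfl⟩ ?_
      by_cases hm : m < 2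
      · rw [prH_mul_lt hx2 hm]
        exact zero_mem _
      · obtain ⟨m', rfl⟩ : ∃ m', m = 2 + m' := ⟨m - 2, by omega⟩
        rw [prH_mul hx2]
        obtain ⟨z, hz, hz'⟩ := ihm m' (by omega) e
        refine ⟨_, xx_mul_mem c ⟨n, h.lt⟩ hz, ?_⟩
        rw [← hz', hx]
        exact map_mul (RR B p r 0 j) _ _
  obtain ⟨N, hN⟩ := exists_sum_prH y
  have h1 : y ∈ (WordSpan B p r).map (RR B p r 0 j).toAddMonoidHom := by
    rw [hN]
    exact sum_mem fun m _ => key m y
  exact h1

lemma JE_mul_left (y : H (gs B p r 0)) {x : H (gs B p r 0)} (hx : x ∈ JE B p r)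
    (hy : ∀ z, y * z = z * y) : y * x ∈ JE B p r := by
  have h : JE B p r ≤ (JE B p r).comap (AddMonoidHom.mulLeft y) := by
    refine (AddSubgroup.closure_le _).2 ?_
    rintro _ ⟨c, k, z, rfl⟩
    refine AddSubgroup.subset_closure ⟨c, k, y * z, ?_⟩
    rw [AddMonoidHom.coe_mulLeft, ← mul_assoc, hy, mul_assoc]
  exact h hx

lemma word_gen {n a e : ℕ} {x : H (gs B p r 0)} (h : Word B p r n a e x) :
    ∃ P, x - evE B p r P ∈ JE B p r := by
  induction h with
  | sc c => exact ⟨C c, by rw [evE_C, sub_self]; exact zero_mem _⟩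
  | lam c k _ _ =>
    exact ⟨0, by rw [map_zero, sub_zero]; exact AddSubgroup.subset_closure ⟨c, k, _, rfl⟩⟩
  | xx c k _ ih =>
    obtain ⟨P, hP⟩ := ih
    refine ⟨X (c, k) * P, ?_⟩
    rw [map_mul, evE_X, ← mul_sub]
    exact JE_mul_left _ hP (Hn_even_comm even_two (xx_mem p _ _))

lemma RR_evE_of_mem (a c : ℕ) {P : MvPolynomial (Bool × Fin r) B}
    (hP : P ∈ Ideal.span (X '' {v : Bool × Fin r | (if v.1 then c else a) ≤ (v.2 : ℕ)})) :
    RR B p r 0 ![a, r, c] (evE B p r P) = 0 := by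
  have h : Ideal.span (X '' {v : Bool × Fin r | (if v.1 then c else a) ≤ (v.2 : ℕ)}) ≤
      RingHom.ker ((RR B p r 0 ![a, r, c]).comp (evE B p r)) := by
    refine Ideal.span_le.2 ?_
    rintro _ ⟨⟨s, k⟩, hv, rfl⟩
    rw [SetLike.mem_coe, RingHom.mem_ker, RingHom.comp_apply, evE_X]
    refine RR_xx_eq_zero _ _ _ _ ?_
    cases s
    · exact hv
    · exact hv
  exact h hP

lemma ker_step {j j' : Fin 3 → ℕ} (c : Bool) {n : ℕ}
    (h : IsStep r j j' (if c then 2 else 0) n) (s : Set (Bool × Fin r))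
    (hs : ∀ y : H (ms B p r 0 j'), ∃ x ∈ WordSpan B p r, RR B p r 0 j' x = y)
    (h0 : ∀ P ∈ Ideal.span (X '' s), RR B p r 0 j (evE B p r P) = 0)
    (ih : ∀ P, RR B p r 0 j' (evE B p r P) = 0 →
      P ∈ Ideal.span (X '' insert (c, (⟨n, h.lt⟩ : Fin r)) s))
    {P : MvPolynomial (Bool × Fin r) B} (hP : RR B p r 0 j (evE B p r P) = 0) :
    P ∈ Ideal.span (X '' s) := by
  classical
  obtain ⟨D, hD, -, hx⟩ := exists_step (B := B) (p := p) (Nat.zero_le r) h fun _ => rfl
  have hsurj : Function.Surjective D.rr := fun y => by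
    obtain ⟨x, -, hx⟩ := hs y
    exact ⟨RR B p r 0 j x, by rw [hD, hx]⟩
  have key : ∀ N : ℕ, ∀ P : MvPolynomial (Bool × Fin r) B, RR B p r 0 j (evE B p r P) = 0 →
      ∀ m ∈ P.support, (∃ i ∈ s, m i ≠ 0) ∨ N ≤ m (c, ⟨n, h.lt⟩) := by
    intro N
    induction N with
    | zero => exact fun _ _ _ _ => Or.inr (Nat.zero_le _)
    | succ N ihN =>
      intro P hP m hm
      have h1 := ih P (by rw [← hD, hP, map_zero])
      rw [Set.image_insert_eq, Ideal.mem_span_insert] at h1
      obtain ⟨P', Q, hQ, rfl⟩ := h1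
      have h2 : RR B p r 0 j (evE B p r P') = 0 := by
        refine D.nzd hsurj ?_
        rw [map_add, map_add, h0 Q hQ, add_zero, mul_comm, map_mul, map_mul, evE_X] at hP
        rw [hx]
        exact hP
      rcases mem_union.1 (support_add hm) with hm | hm
      · rw [mul_comm, support_X_mul, mem_map] at hm
        obtain ⟨m', hm', rfl⟩ := hm
        rcases ihN P' h2 m' hm' with ⟨i, hi, hi'⟩ | h3
        · refine Or.inl ⟨i, hi, ?_⟩
          rw [addLeftEmbedding_apply, Finsupp.add_apply]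
          omega
        · refine Or.inr ?_
          rw [addLeftEmbedding_apply, Finsupp.add_apply, Finsupp.single_eq_same]
          omega
      · exact Or.inl (mem_ideal_span_X_image.1 hQ m hm)
  refine mem_ideal_span_X_image.2 fun m hm => ?_
  rcases key (m (c, ⟨n, h.lt⟩) + 1) P hP m hm with h1 | h1
  · exact h1
  · omega

lemma word_small {n a e : ℕ} {x : H (gs B p r 0)} (h : Word B p r n a e x) (ha : a < p)
    (he : e = 0) : n = a ∧ ∃ y, x = lam p (ec B p r false) 0 ^ n * y := by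
  have hp : 1 < p := (Fact.out : p.Prime).one_lt
  induction h with
  | sc c => exact ⟨rfl, _, by rw [pow_zero, one_mul]⟩
  | @lam c k n a e x _ ih =>
    have hpos : 0 < p ^ (k : ℕ) := pow_pos (by omega) _
    have hk : (k : ℕ) = 0 := by
      by_contra hk
      have := Nat.le_self_pow hk p
      omega
    have hc : c = false := by
      cases c
      · rfl
      · simp only [if_true] at he
        omega
    subst hc
    obtain ⟨h1, y, hy⟩ := ih (by omega) (by omega)
    refine ⟨by rw [hk, pow_zero, h1], y, ?_⟩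
    rw [hy, hk, add_comm, pow_succ', mul_assoc]
  | @xx c k n a e x _ _ =>
    have := Nat.le_self_pow (Nat.succ_ne_zero (k : ℕ)) p
    simp only [Nat.succ_eq_add_one] at this
    omega

lemma word_eq_zero {n a e : ℕ} {x : H (gs B p r 0)} (h : Word B p r n a e x) (hn : 3 ≤ n)
    (ha : a ≤ p) (he : e = 0) : x = 0 := by
  have hp : 1 < p := (Fact.out : p.Prime).one_lt
  cases h with
  | sc c => omega
  | @lam c k n a e x hx =>
    have hpos : 0 < p ^ (k : ℕ) := pow_pos (by omega) _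
    obtain ⟨-, y, hy⟩ := word_small hx (by omega) (by omega)
    obtain ⟨m, rfl⟩ : ∃ m, n = m + 2 := ⟨n - 2, by omega⟩
    rw [hy, pow_add, pow_two, Hn_odd_sq p odd_one (lam_mem p _ _), mul_zero, zero_mul, mul_zero]
  | @xx c k n a e x hx =>
    have h1 := Nat.le_self_pow (Nat.succ_ne_zero (k : ℕ)) p
    simp only [Nat.succ_eq_add_one] at h1
    obtain ⟨h2, -⟩ := word_small hx (by omega) (by omega)
    omega

end GenEAux

open GenEAux

/-- The words span, at every level. -/
theorem RR_wordSpan (a c : ℕ) (ha : a ≤ r) (hc : c ≤ r) (y : H (ms B p r 0 ![a, r, c])) :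
    ∃ x ∈ WordSpan B p r, RR B p r 0 ![a, r, c] x = y := by
  revert y
  refine level_ind (Q := fun a c => ∀ y : H (ms B p r 0 ![a, r, c]),
    ∃ x ∈ WordSpan B p r, RR B p r 0 ![a, r, c] x = y) ?_ ?_ ?_ a c ha hc
  · intro y
    obtain ⟨s, hs⟩ := bottom_surj ![0, r, 0] rfl rfl rfl y
    exact ⟨_, word_mem (Word.sc s), hs.symm⟩
  · exact fun a c ha _ ih => span_step false (step0 ha c) ih
  · exact fun a c _ hc ih => span_step true (step2 a hc) ih
theorem wordSpan_eq_top (x : H (gs B p r 0)) : x ∈ WordSpan B p r := by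
  obtain ⟨s, hs, h⟩ := RR_wordSpan r r le_rfl le_rfl (RR B p r 0 ![r, r, r] x)
  rwa [← (RR_bijective (Nat.zero_le r) ![r, r, r] fun c => by fin_cases c <;> rfl).1 h]
theorem gen_E (x : H (gs B p r 0)) : ∃ P, x - evE B p r P ∈ JE B p r := by
  refine AddSubgroup.closure_induction (p := fun x _ => ∃ P, x - evE B p r P ∈ JE B p r)
    ?_ ?_ ?_ ?_ (wordSpan_eq_top x)
  · rintro y ⟨n, a, e, hy⟩
    exact word_gen hy
  · exact ⟨0, by rw [map_zero, sub_zero]; exact zero_mem _⟩
  · rintro y z - - ⟨P, hP⟩ ⟨Q, hQ⟩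
    exact ⟨P + Q, by rw [map_add, add_sub_add_comm]; exact add_mem hP hQ⟩
  · rintro y - ⟨P, hP⟩
    exact ⟨-P, by rw [map_neg, neg_sub_neg, ← neg_sub]; exact neg_mem hP⟩
/-- The kernel of the evaluation at every level is generated by the variables above the level. -/
theorem ker_RR_evE (a c : ℕ) (ha : a ≤ r) (hc : c ≤ r) (P : MvPolynomial (Bool × Fin r) B) :
    RR B p r 0 ![a, r, c] (evE B p r P) = 0 ↔
      P ∈ Ideal.span (X '' {v : Bool × Fin r | (if v.1 then c else a) ≤ (v.2 : ℕ)}) := by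
  classical
  refine ⟨?_, RR_evE_of_mem a c⟩
  revert P
  refine level_ind (Q := fun a c => ∀ P : MvPolynomial (Bool × Fin r) B,
    RR B p r 0 ![a, r, c] (evE B p r P) = 0 →
      P ∈ Ideal.span (X '' {v : Bool × Fin r | (if v.1 then c else a) ≤ (v.2 : ℕ)}))
    ?_ ?_ ?_ a c ha hc
  · intro P hP
    have h1 : P - C (coeff 0 P) ∈
        Ideal.span (X '' {v : Bool × Fin r | (if v.1 then 0 else 0) ≤ (v.2 : ℕ)}) := by
      refine mem_ideal_span_X_image.2 fun m hm => ?_
      have hm0 : m ≠ 0 := by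
        rintro rfl
        simp at hm
      obtain ⟨i, hi⟩ := Finsupp.ne_iff.1 hm0
      exact ⟨i, by simp, hi⟩
    have h2 := RR_evE_of_mem (p := p) 0 0 h1
    rw [map_sub, map_sub, hP, zero_sub, neg_eq_zero, evE_C] at h2
    rwa [RR_scH_eq_zero _ h2, map_zero, sub_zero] at h1
  · intro a c ha hc ih P hP
    refine ker_step false (step0 ha c) _ (RR_wordSpan a c ha.le hc)
      (fun _ => RR_evE_of_mem (a + 1) c) (fun Q hQ => ?_) hP
    refine Ideal.span_mono (Set.image_mono ?_) (ih Q hQ)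
    rintro ⟨s, k⟩ hv
    cases s
    · by_cases hk : (k : ℕ) = a
      · exact Or.inl (Prod.ext rfl (Fin.ext hk))
      · have hv' : a ≤ (k : ℕ) := hv
        exact Or.inr (show a + 1 ≤ (k : ℕ) by omega)
    · exact Or.inr hv
  · intro a c ha hc ih P hP
    refine ker_step true (step2 a hc) _ (RR_wordSpan a c ha hc.le)
      (fun _ => RR_evE_of_mem a (c + 1)) (fun Q hQ => ?_) hP
    refine Ideal.span_mono (Set.image_mono ?_) (ih Q hQ)
    rintro ⟨s, k⟩ hv
    cases s
    · exact Or.inr hv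
    · by_cases hk : (k : ℕ) = c
      · exact Or.inl (Prod.ext rfl (Fin.ext hk))
      · have hv' : c ≤ (k : ℕ) := hv
        exact Or.inr (show c + 1 ≤ (k : ℕ) by omega)
theorem evE_injective : Function.Injective (evE B p r) := by
  refine (injective_iff_map_eq_zero _).2 fun P hP => ?_
  have h := (ker_RR_evE (p := p) r r le_rfl le_rfl P).1 (by rw [hP, map_zero])
  have h1 : {v : Bool × Fin r | (if v.1 then r else r) ≤ (v.2 : ℕ)} = ∅ := by
    ext v
    simp
  rwa [h1, Set.image_empty, Ideal.span_empty, Ideal.mem_bot] at h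
lemma JE_nilpotent {x : H (gs B p r 0)} (hx : x ∈ JE B p r) : IsNilpotent x := by
  refine AddSubgroup.closure_induction (p := fun x _ => IsNilpotent x) ?_ ?_ ?_ ?_ hx
  · rintro _ ⟨c, k, z, rfl⟩
    exact nil_mul_right p ⟨2, by rw [pow_two, Hn_odd_sq p odd_one (lam_mem p _ _)]⟩ z
  · exact IsNilpotent.zero
  · exact fun _ _ _ _ h1 h2 => nil_add p h1 h2
  · exact fun _ _ h => h.neg
theorem eq_zero_of_weight {n : ℕ} (hn : 3 ≤ n) {x : H (gs B p r 0)} (hx : x ∈ Hn _ n)
    (hw : x ∈ HWt B p r 0 p 0) : x = 0 := by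
  have h : WordSpan B p r ≤ ((wtM B p r 0 p 0).pullA.comp (prH n)).ker := by
    refine (AddSubgroup.closure_le _).2 ?_
    rintro y ⟨m, a, e, hy⟩
    rw [SetLike.mem_coe, AddMonoidHom.mem_ker, AddMonoidHom.comp_apply]
    by_cases hm : n = m
    · subst hm
      rw [prH_of_mem hy.mem_Hn, wtM_of_mem hy.mem_HWt]
      split_ifs with h
      · exact word_eq_zero hy hn h.1.ge h.2.symm
      · rfl
    · rw [prH_of_ne hy.mem_Hn hm, map_zero]
  have h1 := h (wordSpan_eq_top x)
  rwa [AddMonoidHom.mem_ker, AddMonoidHom.comp_apply, prH_of_mem hx, wtM_of_mem hw,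
    if_pos ⟨rfl, rfl⟩] at h1
theorem St_lam_lt (hb : b ≤ r) (c : Fin 3) (hc : c = 2 → b = 0) (k u : ℕ) (hu : u < p - 2) :
    St p 1 u (lam p (gco B p r b c hc) k) = 0 := by
  have h0 : St p 1 u (lam p (ec B p r false) 0) = 0 := by
    refine eq_zero_of_weight (n := 1 * p - u) (by omega) (St_mem p 1 u _) ?_
    have h := St_mem_HWt (n := 1) (lam_mem_HWt (B := B) (p := p) (r := r) (b := 0)
      (if false then 2 else 0) (fun _ => rfl) 0) u
    simpa [wx, wy, ec] using h
  have h1 : St p 1 u (lam p (ec B p r false) k) = 0 := by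
    have h2 := frob_lam p k (ec B p r false) 0
    rw [zero_add] at h2
    rw [← h2, ← pullA_St p _ (frobM_isRing p k), h0, map_zero]
  have hT : (thetaM B p r b hb c hc).IsRing := homMap_isRing _ _ _
  rw [← thetaM_lam hb c hc k, ← pullA_St p _ hT, h1, map_zero]

theorem exists_rhoE (B : Type u) [CommRing B] [IsReduced B] (p r : ℕ) [Fact p.Prime]
    [Fact (5 ≤ p)] [PZ p B] : ∃ ρ : H (gs B p r 0) →+* MvPolynomial (Bool × Fin r) B,
      (∀ P, ρ (evE B p r P) = P) ∧ ∀ x, ρ x = 0 ↔ IsNilpotent x := by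
  have hb : Function.Bijective ((toRed p (gs B p r 0)).comp (evE B p r)) := by
    refine ⟨(injective_iff_map_eq_zero _).2 fun P hP => ?_, fun y => ?_⟩
    · obtain ⟨n, hn⟩ := (toRed_eq_zero_iff p _).1 hP
      refine IsNilpotent.eq_zero ⟨n, evE_injective (p := p) ?_⟩
      rw [map_pow, hn, map_zero]
    · obtain ⟨x, rfl⟩ := toRed_surj p y
      obtain ⟨P, hP⟩ := gen_E x
      have h := (toRed_eq_zero_iff p _).2 (JE_nilpotent hP)
      rw [map_sub, sub_eq_zero] at h
      exact ⟨P, h.symm⟩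
  refine ⟨(RingEquiv.ofBijective _ hb).symm.toRingHom.comp (toRed p _), fun P => ?_, fun x => ?_⟩
  · exact (RingEquiv.ofBijective _ hb).symm_apply_apply P
  · rw [← toRed_eq_zero_iff p x]
    exact map_eq_zero_iff (RingEquiv.ofBijective _ hb).symm (RingEquiv.injective _)

/-- The quotient by the nilpotent elements is the polynomial ring. -/
noncomputable def rhoE (B : Type u) [CommRing B] [IsReduced B] (p r : ℕ) [Fact p.Prime]
    [Fact (5 ≤ p)] [PZ p B] : H (gs B p r 0) →+* MvPolynomial (Bool × Fin r) B :=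
  (exists_rhoE B p r).choose

lemma rhoE_evE [IsReduced B] (P : MvPolynomial (Bool × Fin r) B) : rhoE B p r (evE B p r P) = P :=
  (exists_rhoE B p r).choose_spec.1 P
lemma rhoE_eq_zero_iff [IsReduced B] (x : H (gs B p r 0)) : rhoE B p r x = 0 ↔ IsNilpotent x :=
  (exists_rhoE B p r).choose_spec.2 x
lemma sub_evE_rhoE [IsReduced B] (x : H (gs B p r 0)) :
    x - evE B p r (rhoE B p r x) ∈ JE B p r := by
  obtain ⟨P, hP⟩ := gen_E x
  have h := (rhoE_eq_zero_iff _).2 (JE_nilpotent hP)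
  rw [map_sub, rhoE_evE, sub_eq_zero] at h
  rwa [h]

end Pool.Agent.Lib.MP_5f3851_al
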