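import Mathlib

/-! The rings `R[t] / (t^N - a)` and their coefficient maps. -/

set_option linter.unusedSectionVars false

namespace Pool.Agent.Lib.MP_5f3851_al

open Finset Polynomial

universe u

/-- `R[t] / (t^N - a)`. -/
abbrev Rt {R : Type u} [CommRing R] (N : ℕ) (a : R) : Type u := AdjoinRoot (X ^ N - C a : R[X])

namespace Rt
variable {R R' : Type u} [CommRing R] [CommRing R'] {N : ℕ} [NeZero N]

/-- The structure map. -/
noncomputable abbrev of (N : ℕ) (a : R) : R →+* Rt N a := AdjoinRoot.of _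
/-- The root `t`. -/
noncomputable abbrev rt (N : ℕ) (a : R) : Rt N a := AdjoinRoot.root _

lemma rt_pow (a : R) : rt N a ^ N = of N a a := by
  have := AdjoinRoot.eval₂_root (X ^ N - C a : R[X])
  rw [eval₂_sub, eval₂_X_pow, eval₂_C, sub_eq_zero] at this
  exact this

/-- The coefficient of `t^i` in the normal form. -/
noncomputable def coef (N : ℕ) [NeZero N] (a : R) (i : ℕ) : Rt N a →+ R :=
  ((lcoeff R i).comp
    (AdjoinRoot.modByMonicHom (monic_X_pow_sub_C a (NeZero.ne N)))).toAddMonoidHom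

/-- Evaluation at an element `t` with `t^N = φ a`. -/
noncomputable def ev (a : R) (φ : R →+* R') (t : R') (h : t ^ N = φ a) : Rt N a →+* R' :=
  AdjoinRoot.lift φ t (by simp [eval₂_sub, h])

lemma ev_of (a : R) (φ : R →+* R') (t : R') (h : t ^ N = φ a) (x : R) :
    ev a φ t h (of N a x) = φ x := AdjoinRoot.lift_of _
lemma ev_rt (a : R) (φ : R →+* R') (t : R') (h : t ^ N = φ a) : ev a φ t h (rt N a) = t :=
  AdjoinRoot.lift_root _

/-- The map over `φ` that sends `t` to `c t`. -/
noncomputable def mapS (a : R) (a' : R') (φ : R →+* R') (c : R') (h : c ^ N * a' = φ a) :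
    Rt N a →+* Rt N a' :=
  ev a ((of N a').comp φ) (of N a' c * rt N a') (by
    rw [mul_pow, rt_pow, ← map_pow, ← map_mul, h]; rfl)

lemma mapS_of (a : R) (a' : R') (φ : R →+* R') (c : R') (h : c ^ N * a' = φ a) (x : R) :
    mapS a a' φ c h (of N a x) = of N a' (φ x) := ev_of _ _ _ _ _
lemma mapS_rt (a : R) (a' : R') (φ : R →+* R') (c : R') (h : c ^ N * a' = φ a) :
    mapS a a' φ c h (rt N a) = of N a' c * rt N a' := ev_rt _ _ _ _

/-- The map over `φ` that fixes `t`. -/
noncomputable def map (a : R) (a' : R') (φ : R →+* R') (h : φ a = a') : Rt N a →+* Rt N a' :=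
  mapS a a' φ 1 (by rw [one_pow, one_mul, h])

lemma map_of (a : R) (a' : R') (φ : R →+* R') (h : φ a = a') (x : R) :
    map a a' φ h (of N a x) = of N a' (φ x) := mapS_of _ _ _ _ _ _
lemma map_rt (a : R) (a' : R') (φ : R →+* R') (h : φ a = a') :
    map a a' φ h (rt N a) = rt N a' := by
  rw [map, mapS_rt, map_one, one_mul]

lemma coef_mk (a : R) (i : ℕ) (f : R[X]) :
    coef N a i (AdjoinRoot.mk _ f) = (f %ₘ (X ^ N - C a)).coeff i := rfl

lemma coef_ge (a : R) {i : ℕ} (hi : N ≤ i) (x : Rt N a) : coef N a i x = 0 := by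
  obtain ⟨f, rfl⟩ := AdjoinRoot.mk_surjective x
  nontriviality R
  rw [coef_mk]
  refine coeff_eq_zero_of_degree_lt
    ((degree_modByMonic_lt f (monic_X_pow_sub_C a (NeZero.ne N))).trans_le ?_)
  rw [degree_X_pow_sub_C (NeZero.pos N)]
  exact_mod_cast hi

lemma coef_of_mul (a : R) (i : ℕ) (c : R) (x : Rt N a) :
    coef N a i (of N a c * x) = c * coef N a i x := by
  have : of N a c * x = c • x := (Algebra.smul_def c x).symm
  rw [this]
  exact map_smul ((lcoeff R i).comp
    (AdjoinRoot.modByMonicHom (monic_X_pow_sub_C a (NeZero.ne N)))) c x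
lemma coef_rt_pow (a : R) (i : ℕ) {j : ℕ} (hj : j < N) :
    coef N a i (rt N a ^ j) = if i = j then 1 else 0 := by
  nontriviality R
  have : rt N a ^ j = AdjoinRoot.mk _ (X ^ j) := by rw [map_pow, AdjoinRoot.mk_X]
  rw [this, coef_mk, (modByMonic_eq_self_iff (monic_X_pow_sub_C a (NeZero.ne N))).2, coeff_X_pow]
  rw [degree_X_pow_sub_C (NeZero.pos N), degree_X_pow]
  exact_mod_cast hj
lemma coef_of (a : R) (i : ℕ) (c : R) : coef N a i (of N a c) = if i = 0 then c else 0 := by
  have := coef_of_mul a i c (rt N a ^ 0)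
  rw [coef_rt_pow a i (NeZero.pos N), pow_zero, mul_one] at this
  rw [this]; split_ifs <;> simp
lemma expand (a : R) (x : Rt N a) : x = ∑ i ∈ range N, of N a (coef N a i x) * rt N a ^ i := by
  obtain ⟨f, rfl⟩ := AdjoinRoot.mk_surjective x
  rcases subsingleton_or_nontrivial R with h | h
  · have : f = 0 := Subsingleton.elim _ _
    subst this; simp
  have hm := monic_X_pow_sub_C a (NeZero.ne N)
  have h1 : AdjoinRoot.mk (X ^ N - C a) f = AdjoinRoot.mk _ (f %ₘ (X ^ N - C a)) :=
    (AdjoinRoot.mk_leftInverse hm _).symm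
  have h2 : (f %ₘ (X ^ N - C a)).degree < N := by
    have := degree_modByMonic_lt f hm
    rwa [degree_X_pow_sub_C (NeZero.pos N)] at this
  have h3 : (f %ₘ (X ^ N - C a)).natDegree < N := by
    by_cases h0 : f %ₘ (X ^ N - C a) = 0
    · rw [h0, natDegree_zero]; exact NeZero.pos N
    · exact (natDegree_lt_iff_degree_lt h0).2 h2
  simp only [coef_mk]
  rw [h1]
  conv_lhs => rw [as_sum_range_C_mul_X_pow' _ h3]
  simp [map_sum]
lemma ev_eq_sum (a : R) (φ : R →+* R') (t : R') (h : t ^ N = φ a) (x : Rt N a) :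
    ev a φ t h x = ∑ i ∈ range N, φ (coef N a i x) * t ^ i := by
  conv_lhs => rw [expand a x]
  simp only [map_sum, map_mul, map_pow, ev_of, ev_rt]
lemma coef_mapS (a : R) (a' : R') (φ : R →+* R') (c : R') (h : c ^ N * a' = φ a) (i : ℕ)
    (x : Rt N a) : coef N a' i (mapS a a' φ c h x) = c ^ i * φ (coef N a i x) := by
  by_cases hi : i < N
  · rw [mapS, ev_eq_sum, map_sum, sum_eq_single i]
    · rw [RingHom.comp_apply, mul_pow, ← map_pow, ← mul_assoc, ← map_mul, coef_of_mul,
        coef_rt_pow _ _ hi, if_pos rfl, mul_one, mul_comm]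
    · intro j hj hji
      rw [RingHom.comp_apply, mul_pow, ← map_pow, ← mul_assoc, ← map_mul, coef_of_mul,
        coef_rt_pow _ _ (mem_range.1 hj), if_neg hji.symm, mul_zero]
    · intro h; exact absurd (mem_range.2 hi) h
  · rw [coef_ge _ (not_lt.1 hi), coef_ge _ (not_lt.1 hi), map_zero, mul_zero]
lemma coef_map (a : R) (a' : R') (φ : R →+* R') (h : φ a = a') (i : ℕ) (x : Rt N a) :
    coef N a' i (map a a' φ h x) = φ (coef N a i x) := by
  rw [map, coef_mapS, one_pow, one_mul]
/-- In the truncated polynomial ring the coefficients below `N` are those of a representative. -/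
lemma coef_mk_zero (f : R[X]) {i : ℕ} (hi : i < N) :
    coef N (0 : R) i (AdjoinRoot.mk _ f) = f.coeff i := by
  have hm := monic_X_pow_sub_C (0 : R) (NeZero.ne N)
  have := congrArg (fun g => coeff g i) (modByMonic_add_div f (X ^ N - C (0 : R)))
  simp only [coeff_add] at this
  rw [coef_mk, ← this, map_zero, sub_zero, coeff_X_pow_mul', if_neg (by omega), add_zero]
lemma coef_add_rt_pow (a : R) {i : ℕ} (hi : i < N) (n : ℕ) :
    coef N (0 : R) i ((of N 0 a + rt N 0) ^ n) = (n.choose i : R) * a ^ (n - i) := by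
  have : (of N 0 a + rt N 0) ^ n = AdjoinRoot.mk _ ((X + C a) ^ n) := by
    rw [map_pow, map_add, AdjoinRoot.mk_X, AdjoinRoot.mk_C, add_comm]
  rw [this, coef_mk_zero _ hi, coeff_X_add_C_pow, mul_comm]
lemma hom_ext {a : R} {f g : Rt N a →+* R'} (h1 : ∀ x, f (of N a x) = g (of N a x))
    (h2 : f (rt N a) = g (rt N a)) : f = g := by
  refine RingHom.ext fun x => ?_
  rw [expand a x]
  simp only [map_sum, map_mul, map_pow, h1, h2]

end Rt

end Pool.Agent.Lib.MP_5f3851_al
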