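import Pool.Agent.Lib.MP_5f3851_al.Coord
import Pool.Agent.Lib.MP_5f3851_al.Rt

/-! The Heisenberg group, its Frobenius kernels and their sites. -/

set_option linter.unusedSectionVars false

namespace Pool.Agent.Lib.MP_5f3851_al

open Finset Cochain

universe u

/-- The element `(p + 1) / 2`, which is one half when `p` is odd and `p = 0`. -/
def hh (p : ℕ) (R : Type u) [CommRing R] : R := (((p + 1) / 2 : ℕ) : R)

/-- Points of the Heisenberg group. -/
@[ext] structure Heis (p : ℕ) (R : Type u) where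
  x : R
  y : R
  z : R

namespace Heis
variable {p : ℕ} {R R' : Type u} [CommRing R] [CommRing R']

instance : Mul (Heis p R) :=
  ⟨fun a b => ⟨a.x + b.x, a.y + b.y, a.z + b.z + hh p R * (a.x * b.y - b.x * a.y)⟩⟩
instance : One (Heis p R) := ⟨⟨0, 0, 0⟩⟩
instance : Inv (Heis p R) := ⟨fun a => ⟨-a.x, -a.y, -a.z⟩⟩

@[simp] lemma mul_x (a b : Heis p R) : (a * b).x = a.x + b.x := rfl
@[simp] lemma mul_y (a b : Heis p R) : (a * b).y = a.y + b.y := rfl
@[simp] lemma mul_z (a b : Heis p R) :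
    (a * b).z = a.z + b.z + hh p R * (a.x * b.y - b.x * a.y) := rfl
@[simp] lemma one_x : (1 : Heis p R).x = 0 := rfl
@[simp] lemma one_y : (1 : Heis p R).y = 0 := rfl
@[simp] lemma one_z : (1 : Heis p R).z = 0 := rfl
@[simp] lemma inv_x (a : Heis p R) : a⁻¹.x = -a.x := rfl
@[simp] lemma inv_y (a : Heis p R) : a⁻¹.y = -a.y := rfl
@[simp] lemma inv_z (a : Heis p R) : a⁻¹.z = -a.z := rfl

instance : Group (Heis p R) :=
  Group.ofLeftAxioms (fun a b c => by ext <;> simp <;> ring) (fun a => by ext <;> simp)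
    fun a => by ext <;> simp

/-- Change of rings. -/
def map (φ : R →+* R') (a : Heis p R) : Heis p R' := ⟨φ a.x, φ a.y, φ a.z⟩

@[simp] lemma map_x (φ : R →+* R') (a : Heis p R) : (a.map φ).x = φ a.x := rfl
@[simp] lemma map_y (φ : R →+* R') (a : Heis p R) : (a.map φ).y = φ a.y := rfl
@[simp] lemma map_z (φ : R →+* R') (a : Heis p R) : (a.map φ).z = φ a.z := rfl
@[simp] lemma map_hh (φ : R →+* R') : φ (hh p R) = hh p R' := by simp [hh]
lemma map_mul' (φ : R →+* R') (a b : Heis p R) : (a * b).map φ = a.map φ * b.map φ := by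
  ext <;> simp
lemma map_inv' (φ : R →+* R') (a : Heis p R) : a⁻¹.map φ = (a.map φ)⁻¹ := by
  ext <;> simp
lemma map_id' (a : Heis p R) : a.map (RingHom.id R) = a := rfl

/-- The three coordinates. -/
def co (a : Heis p R) : Fin 3 → R := ![a.x, a.y, a.z]

@[simp] lemma co_zero (a : Heis p R) : a.co 0 = a.x := rfl
@[simp] lemma co_one (a : Heis p R) : a.co 1 = a.y := rfl
@[simp] lemma co_two (a : Heis p R) : a.co 2 = a.z := rfl
lemma co_map (φ : R →+* R') (a : Heis p R) (c : Fin 3) : (a.map φ).co c = φ (a.co c) := by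
  fin_cases c <;> rfl

end Heis

/-- `p = 0` in `B`. -/
class PZ (p : ℕ) (B : Type u) [CommRing B] : Prop where
  out : (p : B) = 0

lemma PZ.of_hom {p : ℕ} {B B' : Type u} [CommRing B] [CommRing B'] [h : PZ p B] (φ : B →+* B') :
    (p : B') = 0 := by rw [← map_natCast φ, h.out, map_zero]

instance (p : ℕ) (B : Type u) [CommRing B] [CharP B p] : PZ p B := ⟨CharP.cast_eq_zero B p⟩
instance (p : ℕ) (B : Type u) [CommRing B] [PZ p B] : PZ p (Polynomial B) :=
  ⟨PZ.of_hom Polynomial.C⟩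
instance (p : ℕ) (B : Type u) [CommRing B] [PZ p B] (N : ℕ) (a : B) : PZ p (Rt N a) :=
  ⟨PZ.of_hom (Rt.of N a)⟩

lemma two_mul_hh {p : ℕ} (hp : Odd p) {R : Type u} [CommRing R] (h : (p : R) = 0) :
    2 * hh p R = 1 := by
  obtain ⟨k, rfl⟩ := hp
  have : (2 * k + 1 + 1) / 2 = k + 1 := by omega
  rw [hh, this]
  push_cast at h ⊢
  linear_combination h

/-- The points with `x^(p^r) = y^(p^b) = z^(p^r) = 0`. For `b = r` this is `U_r`, for `b = 0` the
abelian subgroup `y = 0`. -/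
def Pt (p r b : ℕ) (R : Type u) [CommRing R] : Type u :=
  {g : Heis p R // g.x ^ p ^ r = 0 ∧ g.y ^ p ^ b = 0 ∧ g.z ^ p ^ r = 0}

namespace Pt
variable {p r b : ℕ} {R R' : Type u} [CommRing R] [CommRing R']

/-- Change of rings. -/
def map (φ : R →+* R') (v : Pt p r b R) : Pt p r b R' :=
  ⟨v.1.map φ, by
    obtain ⟨h1, h2, h3⟩ := v.2
    refine ⟨?_, ?_, ?_⟩
    · rw [Heis.map_x, ← map_pow, h1, map_zero]
    · rw [Heis.map_y, ← map_pow, h2, map_zero]
    · rw [Heis.map_z, ← map_pow, h3, map_zero]⟩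

lemma y_eq_zero (v : Pt p r 0 R) : v.1.y = 0 := by simpa using v.2.2.1

variable [Fact p.Prime]

lemma mul_mem (h : (p : R) = 0) (g v : Pt p r b R) :
    (g.1 * v.1).x ^ p ^ r = 0 ∧ (g.1 * v.1).y ^ p ^ b = 0 ∧ (g.1 * v.1).z ^ p ^ r = 0 := by
  obtain ⟨h1, h2, h3⟩ := g.2
  obtain ⟨h4, h5, h6⟩ := v.2
  refine ⟨?_, ?_, ?_⟩
  · rw [Heis.mul_x, add_pow_pp h, h1, h4, add_zero]
  · rw [Heis.mul_y, add_pow_pp h, h2, h5, add_zero]
  · rw [Heis.mul_z, add_pow_pp h, add_pow_pp h, mul_pow, sub_pow_pp h, mul_pow, mul_pow, h1, h3,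
      h4, h6]
    ring

/-- The product. -/
def mul (h : (p : R) = 0) (g v : Pt p r b R) : Pt p r b R := ⟨g.1 * v.1, mul_mem h g v⟩

/-- The unit. -/
def one (p r b : ℕ) [Fact p.Prime] (R : Type u) [CommRing R] : Pt p r b R :=
  ⟨1, zero_pow (pow_pos (Fact.out : p.Prime).pos _).ne',
    zero_pow (pow_pos (Fact.out : p.Prime).pos _).ne',
    zero_pow (pow_pos (Fact.out : p.Prime).pos _).ne'⟩

/-- The action of the torus (and of its closure). -/
def scale (s t : R) (v : Pt p r b R) : Pt p r b R :=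
  ⟨⟨s * v.1.x, t * v.1.y, s * t * v.1.z⟩, by
    obtain ⟨h1, h2, h3⟩ := v.2
    refine ⟨?_, ?_, ?_⟩
    · rw [mul_pow, h1, mul_zero]
    · rw [mul_pow, h2, mul_zero]
    · rw [mul_pow, h3, mul_zero]⟩

end Pt

/-- The site of the group `Pt p r b` over the base `B`. -/
@[reducible] def gs (B : Type u) [CommRing B] (p r b : ℕ) : Site.{u, u + 1} where
  ι := Obj B
  R i := i.R
  V i := Pt p r b i.R
  Arr i j φ m := φ.comp i.φ = j.φ ∧ ∃ g : Pt p r b j.R, ∀ v, (m v).1 = g.1 * v.1.map φ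

variable {B B' : Type u} [CommRing B] [CommRing B'] {p r b b' : ℕ}

instance [PZ p B] : CharS (gs B p r b) p := ⟨fun i => PZ.of_hom i.φ⟩

/-- The scalars. -/
def galg (B : Type u) [CommRing B] (p r b : ℕ) : (gs B p r b).Alg B where
  β i := i.φ
  nat _ _ _ _ h c := DFunLike.congr_fun h.1 c

lemma co_mul_sub (c : Fin 3) (hc : c = 2 → b = 0) {R : Type u} [CommRing R] (g v w : Pt p r b R) :
    (g.1 * w.1).co c - (g.1 * v.1).co c = w.1.co c - v.1.co c := by
  fin_cases c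
  · simp
  · simp
  · obtain rfl := hc rfl
    simp [g.y_eq_zero, v.y_eq_zero, w.y_eq_zero]

/-- The additive coordinates. -/
def gco (B : Type u) [CommRing B] (p r b : ℕ) (c : Fin 3) (hc : c = 2 → b = 0) :
    Aff (gs B p r b) where
  a _ v := v.1.co c
  nat i j φ m h v w := by
    obtain ⟨-, g, hg⟩ := h
    rw [hg, hg, map_sub, ← Heis.co_map, ← Heis.co_map]
    exact (co_mul_sub c hc g (v.map φ) (w.map φ)).symm

variable [Fact p.Prime] [PZ p B] [PZ p B']

/-- Cochains are invariant under left translation and natural in the algebra. -/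
lemma gs_nat (f : Cochain (gs B p r b)) (i j : Obj B) (φ : i.R →+* j.R) (hφ : φ.comp i.φ = j.φ)
    (g : Pt p r b j.R) (l : List (Pt p r b i.R)) :
    φ (f.val i l) = f.val j (l.map fun v => Pt.mul (PZ.of_hom j.φ) g (v.map φ)) :=
  f.nat i j φ _ ⟨hφ, g, fun _ => rfl⟩ l

lemma gs_nat' (f : Cochain (gs B p r b)) (i j : Obj B) (φ : i.R →+* j.R) (hφ : φ.comp i.φ = j.φ)
    (l : List (Pt p r b i.R)) : φ (f.val i l) = f.val j (l.map (Pt.map φ)) :=
  f.nat i j φ _ ⟨hφ, Pt.one p r b j.R, fun _ => (one_mul _).symm⟩ l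

/-- The map of sites given by a change of base and a natural homomorphism. -/
def homMap (β : B →+* B') (η : ∀ i : Obj B', Pt p r b' i.R → Pt p r b i.R)
    (hη : ∀ (i j : Obj B') (φ : i.R →+* j.R), φ.comp i.φ = j.φ →
      ∀ (g w : Pt p r b' j.R) (v : Pt p r b' i.R), w.1 = g.1 * v.1.map φ →
        (η j w).1 = (η j g).1 * (η i v).1.map φ) :
    SiteMap (gs B' p r b') (gs B p r b) where
  obj i := ⟨i.R, i.φ.comp β⟩
  vert i v := η i v
  fn _ := AddMonoidHom.id _
  compat i j φ m h := by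
    obtain ⟨hφ, g, hg⟩ := h
    refine ⟨φ, fun v => Pt.mul (PZ.of_hom j.φ) (η j g) (v.map φ),
      ⟨?_, η j g, fun _ => rfl⟩, fun v => Subtype.ext (hη i j φ hφ g _ v (hg v)), fun _ => rfl⟩
    exact congrArg (fun ψ => RingHom.comp ψ β) hφ

lemma homMap_isRing (β : B →+* B') (η : ∀ i : Obj B', Pt p r b' i.R → Pt p r b i.R) (hη) :
    (homMap β η hη).IsRing := fun _ => ⟨rfl, fun _ _ => rfl⟩

/-- Base change. -/
def bc (p r b : ℕ) [Fact p.Prime] [PZ p B] [PZ p B'] (β : B →+* B') :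
    SiteMap (gs B' p r b) (gs B p r b) :=
  homMap β (fun _ v => v) fun _ _ _ _ _ _ _ h => h

/-- The inclusion of the abelian subgroup. -/
def resM (B : Type u) [CommRing B] (p r : ℕ) [Fact p.Prime] [PZ p B] :
    SiteMap (gs B p r 0) (gs B p r r) :=
  homMap (RingHom.id B)
    (fun _ v => ⟨v.1, v.2.1, by
      rw [v.y_eq_zero]; exact zero_pow (pow_pos (Fact.out : p.Prime).pos _).ne', v.2.2.2⟩)
    fun _ _ _ _ _ _ _ h => h

/-- The automorphism `(x, y, z) ↦ (x, y + c x, z)`. -/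
def alphaM (p r : ℕ) [Fact p.Prime] [PZ p B] (c : B) : SiteMap (gs B p r r) (gs B p r r) :=
  homMap (RingHom.id B)
    (fun i v => ⟨⟨v.1.x, v.1.y + i.φ c * v.1.x, v.1.z⟩, v.2.1, by
      rw [add_pow_pp (PZ.of_hom i.φ), mul_pow, v.2.1, v.2.2.1]; simp, v.2.2.2⟩)
    fun i j φ hφ g w v h => by
      have hc : φ (i.φ c) = j.φ c := DFunLike.congr_fun hφ c
      ext <;> simp [h, hc] <;> ring

/-- The automorphism `(x, 0, z) ↦ (x, 0, z + c x)` of the abelian subgroup. -/
def shearM (p r : ℕ) [Fact p.Prime] [PZ p B] (c : B) : SiteMap (gs B p r 0) (gs B p r 0) :=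
  homMap (RingHom.id B)
    (fun i v => ⟨⟨v.1.x, v.1.y, v.1.z + i.φ c * v.1.x⟩, v.2.1, v.2.2.1, by
      rw [add_pow_pp (PZ.of_hom i.φ), mul_pow, v.2.1, v.2.2.2]; simp⟩)
    fun i j φ hφ g w v h => by
      have hc : φ (i.φ c) = j.φ c := DFunLike.congr_fun hφ c
      ext <;> simp [h, hc]; ring

lemma co_pow (hb : b ≤ r) (c : Fin 3) {R : Type u} [CommRing R] (v : Pt p r b R) :
    v.1.co c ^ p ^ r = 0 := by
  fin_cases c
  · exact v.2.1
  · exact pow_eq_zero_of_le (Nat.pow_le_pow_right (Fact.out : p.Prime).pos hb) v.2.2.1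
  · exact v.2.2.2
lemma co_mul (c : Fin 3) (hc : c = 2 → b = 0) {R : Type u} [CommRing R] (g v : Pt p r b R) :
    (g.1 * v.1).co c = g.1.co c + v.1.co c := by
  fin_cases c
  · simp
  · simp
  · obtain rfl := hc rfl
    simp [g.y_eq_zero, v.y_eq_zero]

/-- The homomorphism `g ↦ (g_c, 0, 0)`. -/
def thetaM (B : Type u) [CommRing B] (p r b : ℕ) [Fact p.Prime] [PZ p B] (hb : b ≤ r) (c : Fin 3)
    (hc : c = 2 → b = 0) : SiteMap (gs B p r b) (gs B p r 0) :=
  homMap (RingHom.id B)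
    (fun _ v => ⟨⟨v.1.co c, 0, 0⟩, co_pow hb c v, by simp,
      zero_pow (pow_pos (Fact.out : p.Prime).pos _).ne'⟩)
    fun i j φ _ g w v h => by
      have := co_mul c hc g (v.map φ)
      ext
      · simp only [Heis.mul_x, Heis.map_x, h]; rw [← Heis.co_map]; exact this
      · simp
      · simp

/-- The ring homomorphisms on cohomology. -/
noncomputable def bcH (p r b : ℕ) [Fact p.Prime] [PZ p B] [PZ p B'] (β : B →+* B') :
    H (gs B p r b) →+* H (gs B' p r b) := (bc p r b β).pullH (homMap_isRing _ _ _)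
/-- Restriction to the abelian subgroup. -/
noncomputable def resH (B : Type u) [CommRing B] (p r : ℕ) [Fact p.Prime] [PZ p B] :
    H (gs B p r r) →+* H (gs B p r 0) := (resM B p r).pullH (homMap_isRing _ _ _)
/-- The twist. -/
noncomputable def alphaH (p r : ℕ) [Fact p.Prime] [PZ p B] (c : B) :
    H (gs B p r r) →+* H (gs B p r r) := (alphaM p r c).pullH (homMap_isRing _ _ _)
/-- The shear. -/
noncomputable def shearH (p r : ℕ) [Fact p.Prime] [PZ p B] (c : B) :
    H (gs B p r 0) →+* H (gs B p r 0) := (shearM p r c).pullH (homMap_isRing _ _ _)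

end Pool.Agent.Lib.MP_5f3851_al
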