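import Pool.Agent.Lib.MP_5f3851_al.Classes

/-! Invariance under the infinitesimal shear, and detection of nilpotence. -/

set_option linter.unusedSectionVars false

namespace Pool.Agent.Lib.MP_5f3851_al

open Finset Cochain MvPolynomial

universe u

namespace KappaAux

variable {B : Type u} [CommRing B] {p r : ℕ} [Fact p.Prime] [Fact (5 ≤ p)] [PZ p B]
  (N : ℕ) [NeZero N]

/-- Base change followed by the shear. -/
noncomputable def sig (B : Type u) [CommRing B] (p r : ℕ) [Fact p.Prime] [PZ p B] (N : ℕ)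
    [NeZero N] : H (gs B p r 0) →+* H (gs (Rt N (0 : B)) p r 0) :=
  (shearH p r (Rt.rt N 0)).comp (bcH p r 0 (Rt.of N 0))

lemma sig_apply (y : H (gs B p r 0)) :
    sig B p r N y = shearH p r (Rt.rt N 0) (bcH p r 0 (Rt.of N 0) y) := rfl

/-- Evaluation of polynomials in the parameter. -/
noncomputable def theta (B : Type u) [CommRing B] (p r : ℕ) [Fact p.Prime] [PZ p B] (N : ℕ)
    [NeZero N] :
    Polynomial (MvPolynomial (Bool × Fin r) B) →+* H (gs (Rt N (0 : B)) p r 0) :=
  Polynomial.eval₂RingHom' ((bcH p r 0 (Rt.of N 0)).comp (evE B p r))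
    ((galg (Rt N (0 : B)) p r 0).scH (Rt.rt N 0))
    fun _ => ((galg (Rt N (0 : B)) p r 0).scH_comm _ _).symm

lemma theta_C (P : MvPolynomial (Bool × Fin r) B) :
    theta B p r N (Polynomial.C P) = bcH p r 0 (Rt.of N 0) (evE B p r P) :=
  Polynomial.eval₂_C _ _

lemma theta_X : theta B p r N Polynomial.X = (galg (Rt N (0 : B)) p r 0).scH (Rt.rt N 0) :=
  Polynomial.eval₂_X _ _

lemma coef_theta {n : ℕ} (hn : n < N) (f : Polynomial (MvPolynomial (Bool × Fin r) B)) :
    (coefR B p r 0 N n).pullA (theta B p r N f) = evE B p r (f.coeff n) := by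
  induction f using Polynomial.induction_on' with
  | add a b ha hb => rw [map_add, map_add, ha, hb, Polynomial.coeff_add, map_add]
  | monomial m a =>
    have h : Rt.coef N (0 : B) n (Rt.rt N 0 ^ m) = if n = m then 1 else 0 := by
      have : Rt.rt N (0 : B) ^ m = AdjoinRoot.mk _ (Polynomial.X ^ m) := by
        rw [map_pow, AdjoinRoot.mk_X]
      rw [this, Rt.coef_mk_zero _ hn, Polynomial.coeff_X_pow]
    rw [Polynomial.coeff_monomial, ← Polynomial.C_mul_X_pow_eq_monomial, map_mul, map_pow, theta_C,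
      theta_X, ← map_pow, coefR_bc_mul, coefR_scH, h]
    by_cases hm : n = m
    · rw [if_pos hm, if_pos hm.symm, map_one, mul_one]
    · rw [if_neg hm, if_neg (Ne.symm hm), map_zero, map_zero, mul_zero]

lemma theta_delta (hN : N = p ^ r) (P : MvPolynomial (Bool × Fin r) B) :
    theta B p r N (delta B p r P) = sig B p r N (evE B p r P) := by
  have h : (theta B p r N).comp (delta B p r) = (sig B p r N).comp (evE B p r) := by
    refine MvPolynomial.ringHom_ext (fun c => ?_) fun v => ?_
    · rw [RingHom.comp_apply, RingHom.comp_apply, delta, eval₂Hom_C, RingHom.comp_apply, theta_C,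
        sig_apply, evE_C, bcH_scH, shearH_scH]
    · obtain ⟨c, k⟩ := v
      rw [RingHom.comp_apply, RingHom.comp_apply, delta, eval₂Hom_X', sig_apply, evE_X, bcH_xx]
      cases c with
      | false =>
        rw [if_neg (by simp), theta_C, evE_X, bcH_xx]
        exact (shearH_xx_x _ _).symm
      | true =>
        refine Eq.trans ?_ (shearH_xx_z _ _).symm
        by_cases hk : (k : ℕ) + 1 < r
        · rw [if_pos ⟨rfl, hk⟩, map_add, map_mul, map_pow, theta_C, theta_C, theta_X, evE_X, evE_X,
            bcH_xx, bcH_xx, map_pow]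
        · have hk' : (k : ℕ) + 1 = r := by have := k.2; omega
          have h0 : Rt.rt N (0 : B) ^ p ^ ((k : ℕ) + 1) = 0 := by
            rw [hk', ← hN, Rt.rt_pow, map_zero]
          rw [if_neg fun h => hk h.2, theta_C, evE_X, bcH_xx, h0,
            map_zero (galg (Rt N (0 : B)) p r 0).scH, zero_mul, add_zero]
  exact DFunLike.congr_fun h P

lemma coef_sig_mem (n : ℕ) {y : H (gs B p r 0)} (hy : y ∈ JE B p r) :
    (coefR B p r 0 N n).pullA (sig B p r N y) ∈ JE B p r := by
  have key : ∀ c k z, (coefR B p r 0 N n).pullA (lam p (ec (Rt N (0 : B)) p r c) k * z)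
      ∈ JE B p r := fun c k z => by
    rw [← bcH_lam (Rt.of N (0 : B)), coefR_bc_mul]
    exact AddSubgroup.subset_closure ⟨c, k, _, rfl⟩
  induction hy using AddSubgroup.closure_induction with
  | mem y hy =>
    obtain ⟨c, k, z, rfl⟩ := hy
    rw [map_mul, sig_apply, bcH_lam]
    cases c with
    | false =>
      rw [shearH_lam_x]
      exact key false k _
    | true =>
      rw [shearH_lam_z, add_mul, Site.Alg.scH_comm, mul_assoc, map_add]
      exact add_mem (key true k _) (key false k _)
  | zero =>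
    rw [map_zero (sig B p r N), map_zero (coefR B p r 0 N n).pullA]
    exact zero_mem _
  | add a b _ _ ha hb => rw [map_add, map_add]; exact add_mem ha hb
  | neg a _ ha => rw [map_neg, map_neg]; exact neg_mem ha

lemma coef_bc {n : ℕ} (h0 : 0 < n) (y : H (gs B p r 0)) :
    (coefR B p r 0 N n).pullA (bcH p r 0 (Rt.of N 0) y) = 0 := by
  have h : Rt.coef N (0 : B) n 1 = 0 := by
    have := Rt.coef_of (N := N) (0 : B) n 1
    rwa [map_one, if_neg h0.ne'] at this
  rw [← mul_one (bcH p r 0 (Rt.of N 0) y), coefR_bc_mul,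
    ← map_one (galg (Rt N (0 : B)) p r 0).scH, coefR_scH, h, map_zero, mul_zero]

end KappaAux

theorem kappa_res {B : Type u} [CommRing B] [IsReduced B] {p r : ℕ} [Fact p.Prime] [Fact (5 ≤ p)]
    [PZ p B] (x : H (gs B p r r)) (n : ℕ) (h0 : 0 < n) (hn : n < p ^ r) :
    (delta B p r (rhoE B p r (resH B p r x))).coeff n = 0 := by
  have : NeZero (p ^ r) := ⟨by omega⟩
  have h5 : 5 ≤ p := Fact.out
  have hp : Odd p := (Fact.out : p.Prime).odd_of_ne_two (by omega)
  have h1 : KappaAux.sig B p r (p ^ r) (resH B p r x)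
      = bcH p r 0 (Rt.of (p ^ r) 0) (resH B p r x) := by
    rw [KappaAux.sig_apply, bcH_resH, shearH_resH hp _ (by rw [Rt.rt_pow, map_zero])]
  have h2 := KappaAux.coef_sig_mem (p ^ r) n (sub_evE_rhoE (resH B p r x))
  rw [map_sub, map_sub, h1, KappaAux.coef_bc _ h0, ← KappaAux.theta_delta _ rfl,
    KappaAux.coef_theta _ hn, zero_sub, neg_mem_iff] at h2
  rw [← rhoE_evE (p := p) ((delta B p r (rhoE B p r (resH B p r x))).coeff n), rhoE_eq_zero_iff]
  exact JE_nilpotent h2

variable {k : Type u} [Field k] {p r : ℕ} [Fact p.Prime] [Fact (5 ≤ p)] [CharP k p]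

theorem kappa (x : H (gs k p r r)) (n : ℕ) (h0 : 0 < n) (hn : n < p ^ r) :
    (delta (Polynomial k) p r (rho k p r x)).coeff n = 0 := kappa_res _ n h0 hn

end Pool.Agent.Lib.MP_5f3851_al
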