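import Pool.Agent.Lib.MP_5f3851_al.Final

/-! The localisation is Noetherian. -/

namespace Pool.Agent.Lib.MP_5f3851_al

open MvPolynomial

universe u w

namespace NoethAux

/-- a ring that embeds into a finitely generated algebra over a field, with an image that contains
the field and a power of every element, is Noetherian -/
theorem noeth_of_pow {k B L : Type*} [Field k] [CommRing B] [CommRing L] [Algebra k L]
    [Algebra.FiniteType k L] (φ : B →+* L) (hφ : Function.Injective φ)
    (hk : ∀ c : k, algebraMap k L c ∈ φ.range) {q : ℕ} (hq : 0 < q)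
    (hL : ∀ x : L, x ^ q ∈ φ.range) : IsNoetherianRing B := by
  let R : Subalgebra k L := { φ.range.toSubsemiring with algebraMap_mem' := hk }
  have : Algebra.IsIntegral R L := ⟨fun x => IsIntegral.of_pow hq
    (isIntegral_algebraMap (R := R) (A := L) (x := ⟨x ^ q, hL x⟩))⟩
  have : Algebra.FiniteType R L := Algebra.FiniteType.of_restrictScalars_finiteType k R L
  have : Module.Finite R L := Algebra.IsIntegral.finite
  have : Algebra.FiniteType k R := ⟨fg_of_fg_of_fg k R L Algebra.FiniteType.out
    Module.Finite.fg_top Subtype.val_injective⟩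
  have : IsNoetherianRing R := Algebra.FiniteType.isNoetherianRing k R
  have e : B ≃+* R := RingEquiv.ofBijective (φ.codRestrict R fun x => ⟨x, rfl⟩)
    ⟨fun x y h => hφ (congrArg Subtype.val h), fun ⟨_, x, hx⟩ => ⟨x, Subtype.ext hx⟩⟩
  exact isNoetherianRing_of_ringEquiv R e.symm

theorem noeth_away {k A S : Type*} [Field k] [CommRing A] [CommRing S] [Algebra k S]
    [Algebra.FiniteType k S] (ρ : A →+* S) (t : A) (ht : ρ t ∈ nonZeroDivisors S)
    (hd : ∀ f, ρ f = 0 → t * f = 0) (hk : ∀ c : k, ∃ f, ρ f = algebraMap k S c) {q : ℕ}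
    (hq : 0 < q) (hT : ∀ g : S, ∃ N f, ρ f = ρ t ^ N * g ^ q) :
    IsNoetherianRing (Localization.Away t) := by
  let L := Localization.Away (ρ t)
  let φ : Localization.Away t →+* L := IsLocalization.Away.map _ _ ρ t
  have hφ : ∀ a, φ (algebraMap A _ a) = algebraMap S L (ρ a) := fun a =>
    IsLocalization.map_eq _ a
  have hinj : Function.Injective (algebraMap S L) :=
    IsLocalization.injective L (M := Submonoid.powers (ρ t)) (Submonoid.powers_le.2 ht)
  have : Algebra.FiniteType S L := IsLocalization.finiteType_of_monoid_fg (.powers (ρ t)) L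
  have : Algebra.FiniteType k L := Algebra.FiniteType.trans (S := S) inferInstance inferInstance
  refine noeth_of_pow (k := k) φ ?_ (fun c => ?_) hq fun x => ?_
  · rw [injective_iff_map_eq_zero]
    intro x hx
    obtain ⟨⟨a, s⟩, e⟩ := IsLocalization.surj (Submonoid.powers t) x
    have h1 : algebraMap S L (ρ a) = 0 := by
      rw [← hφ, ← e, map_mul, hx, zero_mul]
    have h2 := hd a (hinj (h1.trans (map_zero _).symm))
    have h3 : algebraMap A (Localization.Away t) a = 0 :=
      (IsLocalization.map_eq_zero_iff (Submonoid.powers t) _ a).2 ⟨⟨t, Submonoid.mem_powers t⟩, h2⟩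
    rw [h3] at e
    exact (IsLocalization.map_units _ s).mul_left_eq_zero.1 e
  · obtain ⟨f, hf⟩ := hk c
    exact ⟨algebraMap A _ f, by rw [hφ, hf, ← IsScalarTower.algebraMap_apply]⟩
  · obtain ⟨⟨g, _, n, rfl⟩, e⟩ := IsLocalization.surj (Submonoid.powers (ρ t)) x
    obtain ⟨N, f, hf⟩ := hT g
    obtain ⟨y, hy⟩ := (IsLocalization.Away.algebraMap_isUnit (S := Localization.Away t) t).exists_left_inv
    have h1 : φ y * algebraMap S L (ρ t) = 1 := by rw [← hφ, ← map_mul, hy, map_one]
    refine ⟨y ^ (N + n * q) * algebraMap A _ f, ?_⟩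
    have e' : x * algebraMap S L (ρ t) ^ n = algebraMap S L g := by rw [← map_pow]; exact e
    rw [map_mul, map_pow, hφ, hf, map_mul, map_pow, map_pow, ← e']
    calc _ = (φ y * algebraMap S L (ρ t)) ^ (N + n * q) * x ^ q := by ring
      _ = _ := by rw [h1, one_pow, one_mul]

end NoethAux

theorem FinalData.noeth {k : Type u} [Field k] {p r : ℕ} [Fact p.Prime] [CharP k p] {A : Type w}
    [CommRing A] (D : FinalData k p r A)
    (hT : ∀ g : SP k r, ∃ N f, D.ρ f = X (false, D.top) ^ N * g ^ p ^ r) :
    IsNoetherianRing (Localization.AtPrime D.P) := by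
  have : Algebra.FiniteType k (SP k r) :=
    Algebra.FiniteType.trans (S := Polynomial k) inferInstance inferInstance
  have hN : IsNoetherianRing (Localization.Away D.t) :=
    NoethAux.noeth_away (k := k) D.ρ D.t
      (by rw [D.ht]; exact mem_nonZeroDivisors_of_ne_zero (X_ne_zero _)) D.det
      (fun c => D.mem _ _ _ (D.wt_C c) (dvd_zero _) (dvd_zero _))
      (pow_pos (Fact.out : p.Prime).pos r) (by rw [D.ht]; exact hT)
  have hle : Submonoid.powers D.t ≤ D.P.primeCompl := Submonoid.powers_le.2 D.t_notMem
  let := IsLocalization.localizationAlgebraOfSubmonoidLe (Localization.Away D.t)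
    (Localization.AtPrime D.P) _ _ hle
  have := IsLocalization.localization_isScalarTower_of_submonoid_le (Localization.Away D.t)
    (Localization.AtPrime D.P) _ _ hle
  have := IsLocalization.isLocalization_of_submonoid_le (Localization.Away D.t)
    (Localization.AtPrime D.P) _ _ hle
  exact IsLocalization.isNoetherianRing
    (D.P.primeCompl.map (algebraMap A (Localization.Away D.t))) _ hN

end Pool.Agent.Lib.MP_5f3851_al
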