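import Pool.Agent.Lib.MP_5f3851_al.Kappa
import Pool.Agent.Lib.MP_5f3851_al.Detect
import Pool.Agent.Lib.MP_5f3851_al.Borel
import Pool.Agent.Lib.MP_5f3851_al.Noeth

/-! Assembly. -/

namespace Pool.Agent.Lib.MP_5f3851_al

open MvPolynomial

universe u

theorem exists_finalData (k : Type u) [Field k] (p r : ℕ) [Fact p.Prime] [Fact (5 ≤ p)]
    [CharP k p] (hr : 0 < r) : Nonempty (FinalData k p r (Ared p (borel k p r))) := by
  obtain ⟨ψ, hinj, hlift⟩ := exists_resB k p r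
  obtain ⟨ρ, hρ⟩ := exists_lift_red p ((rho k p r).comp ψ)
  obtain ⟨t, rfl⟩ : ∃ t, r = t + 1 := ⟨r - 1, by omega⟩
  have hX : ∀ i : ℕ, xx p (ux k p (t + 1)) i ∈ HWt k p (t + 1) (t + 1) (p ^ (i + 1)) 0 := by
    intro i
    simpa [wx, wy] using xx_mem_HWt (B := k) (p := p) (r := t + 1) (b := t + 1) 0 (by simp) i
  have hY : ∀ i : ℕ, xx p (uy k p (t + 1)) i ∈ HWt k p (t + 1) (t + 1) 0 (p ^ (i + 1)) := by
    intro i
    simpa [wx, wy] using xx_mem_HWt (B := k) (p := p) (r := t + 1) (b := t + 1) 1 (by simp) i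
  obtain ⟨T, hT⟩ := hlift _ _ _ (hX t) dvd_rfl (dvd_zero _)
  refine ⟨⟨ρ, Fin.last t, rfl, toRed p _ T, ?_, ?_, ?_,
    fun a b g => ∃ x ∈ HWt k p (t + 1) (t + 1) a b, rho k p (t + 1) x = g,
    ?_, ?_, ?_, ?_, ?_, ?_, ?_⟩⟩
  · rw [hρ, RingHom.comp_apply, hT]
    exact rho_X (Fin.last t)
  · intro f hf
    obtain ⟨y, rfl⟩ := toRed_surj p f
    rw [hρ, RingHom.comp_apply] at hf
    obtain ⟨N, hN⟩ := detect t rfl _ hf
    rw [← map_mul, toRed_eq_zero_iff]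
    refine ⟨N, hinj ?_⟩
    rw [map_pow, map_mul, hT, hN, map_zero]
  · intro f n h0 hn
    obtain ⟨y, rfl⟩ := toRed_surj p f
    rw [hρ, RingHom.comp_apply]
    exact kappa _ n h0 hn
  · rintro a b a' b' _ _ ⟨x, hx, rfl⟩ ⟨y, hy, rfl⟩
    exact ⟨x * y, HWt_mul hx hy, map_mul _ _ _⟩
  · exact fun c => ⟨_, scH_mem_HWt c, rho_scH c⟩
  · exact fun i => ⟨_, hX i, rho_X i⟩
  · exact fun i => ⟨_, hY i, rho_Y i⟩
  · exact fun i j hij => exists_W i j hij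
  · exact exists_Z (Fin.last t) rfl
  · rintro a b _ ⟨x, hx, rfl⟩ ha hb
    obtain ⟨y, rfl⟩ := hlift a b x hx ha hb
    exact ⟨toRed p _ y, hρ y⟩

theorem main (k : Type u) [Field k] (p r : ℕ) [CharP k p] (hp : 5 ≤ p) (hr : 4 ≤ r) :
    ∃ (A : Type (u + 1)) (_ : CommRing A) (π : H (borel k p r) →+* A),
      Function.Surjective π ∧ (∀ x, π x = 0 ↔ IsNilpotent x) ∧
      ∃ (P : Ideal A) (_ : P.IsPrime), IsNoetherianRing (Localization.AtPrime P) ∧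
        ¬ IsCMLocal (Localization.AtPrime P) := by
  have : Fact p.Prime := ⟨(CharP.char_is_prime_or_zero k p).resolve_right (by omega)⟩
  have : Fact (5 ≤ p) := ⟨hp⟩
  obtain ⟨D⟩ := exists_finalData k p r (by omega)
  have := D.noeth D.exists_pow
  exact ⟨Ared p (borel k p r), inferInstance, toRed p _, toRed_surj p, toRed_eq_zero_iff p,
    D.P, inferInstance, this, D.not_reg hp hr⟩

end Pool.Agent.Lib.MP_5f3851_al
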