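import Pool.Agent.Lib.MP_5f3851_al.Api

/-! Maps of sites, the prism lemma, small cochains, scalars. -/

namespace Pool.Agent.Lib.MP_5f3851_al

open Finset Cochain

universe u v

/-- A map of sites: on objects, on points, and backwards on values. -/
structure SiteMap (S S' : Site.{u, v}) where
  obj : S.ι → S'.ι
  vert : ∀ i, S.V i → S'.V (obj i)
  fn : ∀ i, S'.R (obj i) →+ S.R i
  compat : ∀ i j φ m, S.Arr i j φ m → ∃ φ' m', S'.Arr (obj i) (obj j) φ' m' ∧
    (∀ v, vert j (m v) = m' (vert i v)) ∧ ∀ x, φ (fn i x) = fn j (φ' x)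

variable {S S' S'' : Site.{u, v}}

namespace SiteMap

/-- The maps on values are ring homomorphisms. -/
def IsRing (T : SiteMap S S') : Prop :=
  ∀ i, T.fn i 1 = 1 ∧ ∀ x y, T.fn i (x * y) = T.fn i x * T.fn i y

/-- The map on values as a ring homomorphism. -/
def ringFn (T : SiteMap S S') (h : T.IsRing) (i : S.ι) : S'.R (T.obj i) →+* S.R i :=
  { T.fn i with map_one' := (h i).1, map_mul' := (h i).2 }

/-- Pull-back of cochains. -/
def pull (T : SiteMap S S') : Cochain S' →+ Cochain S :=
  AddMonoidHom.mk' (fun f =>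
    { val := fun i l => T.fn i (f.val (T.obj i) (l.map (T.vert i)))
      nil := fun i => by simp [f.nil]
      bdd := by
        obtain ⟨N, hN⟩ := f.bdd
        exact ⟨N, fun i l h => by rw [hN _ _ (by simpa using h), map_zero]⟩
      nat := fun i j φ m h l => by
        obtain ⟨φ', m', h1, h2, h3⟩ := T.compat i j φ m h
        rw [h3, f.nat _ _ φ' m' h1, List.map_map, List.map_map]
        congr 3
        funext v
        exact (h2 v).symm })
    fun f g => by ext i l; simp

lemma pull_val (T : SiteMap S S') (f : Cochain S') (i : S.ι) (l : List (S.V i)) :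
    (T.pull f).val i l = T.fn i (f.val (T.obj i) (l.map (T.vert i))) := rfl

lemma pull_d (T : SiteMap S S') (f : Cochain S') : T.pull (d f) = d (T.pull f) := by
  ext i l
  rw [pull_val, d_val, d_val, dif_map, map_dif]
  rfl
lemma d_pull_eq_zero (T : SiteMap S S') {f : Cochain S'} (hf : d f = 0) : d (T.pull f) = 0 := by
  rw [← pull_d, hf, map_zero]
lemma pull_proj (T : SiteMap S S') (n : ℕ) (f : Cochain S') :
    T.pull (proj n f) = proj n (T.pull f) := by
  ext i l
  rw [pull_val, proj_val, proj_val, List.length_map]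
  split_ifs
  · rfl
  · exact map_zero _
lemma pull_hom (T : SiteMap S S') {n : ℕ} {f : Cochain S'} (h : Hom n f) : Hom n (T.pull f) := by
  rw [← h.proj_eq, pull_proj]; exact proj_hom _ _
lemma pull_one (T : SiteMap S S') (h : T.IsRing) : T.pull 1 = 1 := by
  ext i l
  rw [pull_val, one_val, one_val, cone, cone, List.length_map]
  split_ifs
  · exact (h i).1
  · exact map_zero _
lemma pull_mul (T : SiteMap S S') (h : T.IsRing) (f g : Cochain S') :
    T.pull (f * g) = T.pull f * T.pull g := by
  ext i l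
  rw [pull_val, Cochain.mul_val, Cochain.mul_val, cup, cup, map_sum, List.length_map]
  refine sum_congr rfl fun a _ => ?_
  rw [(h i).2, pull_val, pull_val, List.map_take, List.map_drop]
/-- Projection formula, left factor. -/
lemma pull_mul_left (T : SiteMap S S') (f g : Cochain S') (f₀ : Cochain S)
    (h : ∀ i l x, T.fn i (f.val (T.obj i) (l.map (T.vert i)) * x) = f₀.val i l * T.fn i x) :
    T.pull (f * g) = f₀ * T.pull g := by
  ext i l
  rw [pull_val, Cochain.mul_val, Cochain.mul_val, cup, cup, map_sum, List.length_map]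
  refine sum_congr rfl fun a _ => ?_
  rw [← List.map_take, h, pull_val, List.map_drop]
/-- Projection formula, right factor. -/
lemma pull_mul_right (T : SiteMap S S') (f g : Cochain S') (g₀ : Cochain S)
    (h : ∀ i l x, T.fn i (x * g.val (T.obj i) (l.map (T.vert i))) = T.fn i x * g₀.val i l) :
    T.pull (f * g) = T.pull f * g₀ := by
  ext i l
  rw [pull_val, Cochain.mul_val, Cochain.mul_val, cup, cup, map_sum, List.length_map]
  refine sum_congr rfl fun a _ => ?_
  rw [← List.map_drop, h, pull_val, List.map_take]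

/-- Pull-back of classes. -/
noncomputable def pullA (T : SiteMap S S') : H S' →+ H S :=
  liftH (fun f => T.pull f)
    (fun f g hf hg => by rw [map_add, cls_add (T.d_pull_eq_zero hf) (T.d_pull_eq_zero hg)])
    (fun e => by rw [pull_d, cls_d])

lemma pullA_cls (T : SiteMap S S') {f : Cochain S'} (hf : d f = 0) :
    T.pullA (cls f) = cls (T.pull f) := liftH_cls _ _ _ hf

lemma pullA_one (T : SiteMap S S') (h : T.IsRing) : T.pullA 1 = 1 := by
  rw [← cls_one, pullA_cls _ d_one, pull_one _ h, cls_one]
lemma pullA_mul (T : SiteMap S S') (h : T.IsRing) (x y : H S') :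
    T.pullA (x * y) = T.pullA x * T.pullA y := by
  obtain ⟨f, hf, rfl⟩ := cls_surj x
  obtain ⟨g, hg, rfl⟩ := cls_surj y
  rw [← cls_mul hf hg, pullA_cls _ (d_mul_eq_zero hf hg), pullA_cls _ hf, pullA_cls _ hg,
    pull_mul _ h, cls_mul (T.d_pull_eq_zero hf) (T.d_pull_eq_zero hg)]

/-- Pull-back of classes as a ring homomorphism. -/
noncomputable def pullH (T : SiteMap S S') (h : T.IsRing) : H S' →+* H S :=
  { T.pullA with map_one' := T.pullA_one h, map_mul' := T.pullA_mul h }

lemma pullH_apply (T : SiteMap S S') (h : T.IsRing) (x : H S') : T.pullH h x = T.pullA x := rfl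
lemma pullH_cls (T : SiteMap S S') (h : T.IsRing) {f : Cochain S'} (hf : d f = 0) :
    T.pullH h (cls f) = cls (T.pull f) := T.pullA_cls hf
lemma pullA_prH (T : SiteMap S S') (n : ℕ) (x : H S') :
    T.pullA (prH n x) = prH n (T.pullA x) := by
  obtain ⟨f, hf, rfl⟩ := cls_surj x
  rw [prH_cls _ hf, pullA_cls _ (d_proj_eq_zero hf n), pullA_cls _ hf,
    prH_cls _ (T.d_pull_eq_zero hf), pull_proj]
lemma pullA_mem_Hn (T : SiteMap S S') {n : ℕ} {x : H S'} (h : x ∈ Hn S' n) :
    T.pullA x ∈ Hn S n := by
  obtain ⟨f, hf, hh, rfl⟩ := h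
  rw [pullA_cls _ hf]
  exact cls_mem_Hn (T.d_pull_eq_zero hf) (T.pull_hom hh)

end SiteMap

/-- The cylinder: every point is doubled. -/
@[reducible] def cyl (S : Site.{u, v}) : Site.{u, v} where
  ι := S.ι
  R := S.R
  V i := S.V i × Bool
  Arr i j φ m := ∃ m₀, S.Arr i j φ m₀ ∧ ∀ v b, m (v, b) = (m₀ v, b)

/-- The two ends of the cylinder. -/
def cylIn (S : Site.{u, v}) (b : Bool) : SiteMap S (cyl S) where
  obj i := i
  vert _ v := (v, b)
  fn _ := AddMonoidHom.id _
  compat _ _ φ m h := ⟨φ, fun x => (m x.1, x.2), ⟨m, h, fun _ _ => rfl⟩, fun _ => rfl, fun _ => rfl⟩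

/-- The projection of the cylinder. -/
def cylPr (S : Site.{u, v}) : SiteMap (cyl S) S where
  obj i := i
  vert _ v := v.1
  fn _ := AddMonoidHom.id _
  compat _ _ φ m h := by
    obtain ⟨m₀, h₀, h₁⟩ := h
    exact ⟨φ, m₀, h₀, fun v => by rw [show v = (v.1, v.2) from rfl, h₁], fun _ => rfl⟩

lemma cylIn_isRing (b : Bool) : (cylIn S b).IsRing := fun _ => ⟨rfl, fun _ _ => rfl⟩
lemma cylPr_isRing : (cylPr S).IsRing := fun _ => ⟨rfl, fun _ _ => rfl⟩

/-- The prism operator on functions of lists. -/
def prismFn {V W A : Type*} [AddCommGroup A] (a b : V → W) (F : List W → A) (l : List V) : A :=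
  ∑ i ∈ range l.length, (-1 : ℤ) ^ i • F ((l.take (i + 1)).map a ++ (l.drop i).map b)

lemma prismFn_cons {V W A : Type*} [AddCommGroup A] (a b : V → W) (F : List W → A) (v : V)
    (l : List V) : prismFn a b F (v :: l) =
      F (a v :: (v :: l).map b) - prismFn a b (fun t => F (a v :: t)) l := by
  simp only [prismFn, List.length_cons, sum_range_succ', List.take_succ_cons, List.drop_succ_cons,
    List.map_cons, List.cons_append, pow_succ, mul_neg, mul_one, neg_smul, sum_neg_distrib,
    pow_zero, one_smul, List.take_zero, List.map_nil, List.nil_append, List.drop_zero]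
  abel

lemma prismFn_sub {V W A : Type*} [AddCommGroup A] (a b : V → W) (F G : List W → A) (l : List V) :
    prismFn a b (fun t => F t - G t) l = prismFn a b F l - prismFn a b G l := by
  simp [prismFn, smul_sub, sum_sub_distrib]

lemma dif_prismFn {V W A : Type*} [AddCommGroup A] (a b : V → W) (F : List W → A) (l : List V) :
    dif (prismFn a b F) l + prismFn a b (dif F) l = F (l.map b) - F (l.map a) := by
  induction l generalizing F with
  | nil => simp [prismFn]
  | cons v l ih =>
    have h1 : (fun t => prismFn a b F (v :: t)) =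
        fun t => F (a v :: (v :: t).map b) - prismFn a b (fun t => F (a v :: t)) t := by
      funext t; exact prismFn_cons a b F v t
    have h2 : (fun t => dif F (a v :: t)) = fun t => F t - dif (fun t => F (a v :: t)) t := by
      funext t; exact dif_cons F (a v) t
    have h3 := ih fun t => F (a v :: t)
    have h4 : dif (fun t => F (a v :: b v :: t)) (l.map b) =
        dif (fun t => F (a v :: (v :: t).map b)) l := dif_map b _ l
    rw [dif_cons, h1, dif_sub, prismFn_cons, h2, prismFn_sub, dif_cons, List.map_cons, dif_cons,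
      h4, List.map_cons]
    have h5 : dif (prismFn a b fun t => F (a v :: t)) l = F (a v :: l.map b) - F (a v :: l.map a)
        - prismFn a b (dif fun t => F (a v :: t)) l := by rw [← h3]; abel
    rw [h5]; abel

/-- The prism lemma. -/
theorem prism {F : Cochain (cyl S)} (hF : d F = 0) :
    cls ((cylIn S false).pull F) = cls ((cylIn S true).pull F) := by
  rw [eq_comm, cls_eq_iff ((cylIn S true).d_pull_eq_zero hF) ((cylIn S false).d_pull_eq_zero hF)]
  refine ⟨⟨fun i => prismFn (fun v => (v, false)) (fun v => (v, true)) (F.val i),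
    fun i => by simp [prismFn], ?_, ?_⟩, ?_⟩
  · obtain ⟨N, hN⟩ := F.bdd
    refine ⟨N, fun i l h => sum_eq_zero fun a ha => ?_⟩
    rw [mem_range] at ha
    rw [hN i _ (by simp; omega), smul_zero]
  · intro i j φ m h l
    simp only [prismFn, map_sum, map_zsmul, List.length_map]
    refine sum_congr rfl fun a _ => ?_
    rw [F.nat i j φ (fun x => (m x.1, x.2)) ⟨m, h, fun _ _ => rfl⟩]
    simp [List.map_take, List.map_drop, Function.comp_def]
  · ext i l
    have h1 := dif_prismFn (fun v => (v, false)) (fun v => (v, true)) (F.val i) l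
    have h2 : dif (F.val i) = fun _ => 0 := by
      funext t; exact congrArg (fun G => G.val i t) hF
    rw [h2] at h1
    have h3 : prismFn (fun v : S.V i => (v, false)) (fun v => (v, true))
        (fun _ => (0 : S.R i)) l = 0 := by simp [prismFn]
    rw [h3, add_zero] at h1
    rw [sub_val]
    exact h1.symm

/-- Two maps of points with a common compatibility are homotopic. -/
theorem cls_eq_of_cyl (T : SiteMap (cyl S) S') {F : Cochain S'} (hF : d F = 0)
    (f₀ f₁ : Cochain S)
    (h₀ : ∀ i l, f₀.val i l = T.fn i (F.val (T.obj i) (l.map fun v => T.vert i (v, false))))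
    (h₁ : ∀ i l, f₁.val i l = T.fn i (F.val (T.obj i) (l.map fun v => T.vert i (v, true)))) :
    cls f₀ = cls f₁ := by
  have e₀ : f₀ = (cylIn S false).pull (T.pull F) := by
    ext i l; rw [h₀, SiteMap.pull_val, SiteMap.pull_val, List.map_map]; rfl
  have e₁ : f₁ = (cylIn S true).pull (T.pull F) := by
    ext i l; rw [h₁, SiteMap.pull_val, SiteMap.pull_val, List.map_map]; rfl
  rw [e₀, e₁]
  exact prism (T.d_pull_eq_zero hF)

/-- A cochain of degree zero. -/
def c0 (a : ∀ i, S.V i → S.R i)
    (ha : ∀ i j φ m, S.Arr i j φ m → ∀ v, φ (a i v) = a j (m v)) : Cochain S where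
  val i l := match l with
    | [v] => a i v
    | _ => 0
  nil _ := rfl
  bdd := ⟨1, fun i l h => by
    match l, h with
    | _ :: _ :: _, _ => rfl⟩
  nat i j φ m h l := by
    match l with
    | [] => exact map_zero φ
    | [v] => exact ha i j φ m h v
    | _ :: _ :: _ => exact map_zero φ

/-- A cochain of degree one. -/
def c1 (a : ∀ i, S.V i → S.V i → S.R i)
    (ha : ∀ i j φ m, S.Arr i j φ m → ∀ v w, φ (a i v w) = a j (m v) (m w)) : Cochain S where
  val i l := match l with
    | [v, w] => a i v w
    | _ => 0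
  nil _ := rfl
  bdd := ⟨2, fun i l h => by
    match l, h with
    | _ :: _ :: _ :: _, _ => rfl⟩
  nat i j φ m h l := by
    match l with
    | [] => exact map_zero φ
    | [_] => exact map_zero φ
    | [v, w] => exact ha i j φ m h v w
    | _ :: _ :: _ :: _ => exact map_zero φ

/-- A cochain of degree two. -/
def c2 (a : ∀ i, S.V i → S.V i → S.V i → S.R i)
    (ha : ∀ i j φ m, S.Arr i j φ m → ∀ v w x, φ (a i v w x) = a j (m v) (m w) (m x)) :
    Cochain S where
  val i l := match l with
    | [v, w, x] => a i v w x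
    | _ => 0
  nil _ := rfl
  bdd := ⟨3, fun i l h => by
    match l, h with
    | _ :: _ :: _ :: _ :: _, _ => rfl⟩
  nat i j φ m h l := by
    match l with
    | [] => exact map_zero φ
    | [_] => exact map_zero φ
    | [_, _] => exact map_zero φ
    | [v, w, x] => exact ha i j φ m h v w x
    | _ :: _ :: _ :: _ :: _ => exact map_zero φ

@[simp] lemma c0_val (a ha) (i : S.ι) (v : S.V i) : (c0 a ha).val i [v] = a i v := rfl
@[simp] lemma c1_val (a ha) (i : S.ι) (v w : S.V i) : (c1 a ha).val i [v, w] = a i v w := rfl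
@[simp] lemma c2_val (a ha) (i : S.ι) (v w x : S.V i) :
    (c2 a ha).val i [v, w, x] = a i v w x := rfl
lemma c0_hom (a ha) : Hom 0 (c0 a ha : Cochain S) := by
  intro i l h
  match l, h with
  | [], _ => rfl
  | [_], h => exact absurd rfl h
  | _ :: _ :: _, _ => rfl
lemma c1_hom (a ha) : Hom 1 (c1 a ha : Cochain S) := by
  intro i l h
  match l, h with
  | [], _ => rfl
  | [_], _ => rfl
  | [_, _], h => exact absurd rfl h
  | _ :: _ :: _ :: _, _ => rfl
lemma c2_hom (a ha) : Hom 2 (c2 a ha : Cochain S) := by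
  intro i l h
  match l, h with
  | [], _ => rfl
  | [_], _ => rfl
  | [_, _], _ => rfl
  | [_, _, _], h => exact absurd rfl h
  | _ :: _ :: _ :: _ :: _, _ => rfl
lemma c0_mul_val (a ha) (f : Cochain S) (i : S.ι) (v : S.V i) (l : List (S.V i)) :
    (c0 a ha * f).val i (v :: l) = a i v * f.val i (v :: l) := by
  rw [(c0_hom a ha).mul_val f i _ (by simp)]; rfl
lemma c0_pow_mul_val (a ha) (n : ℕ) (f : Cochain S) (i : S.ι) (v : S.V i) (l : List (S.V i)) :
    (c0 a ha ^ n * f).val i (v :: l) = a i v ^ n * f.val i (v :: l) := by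
  induction n with
  | zero => rw [pow_zero, pow_zero, one_mul, one_mul]
  | succ n ih => rw [pow_succ', mul_assoc, c0_mul_val, ih, pow_succ', mul_assoc]

namespace Cochain
lemma Hom.ext0 {f g : Cochain S} (hf : Hom 0 f) (hg : Hom 0 g)
    (h : ∀ i a, f.val i [a] = g.val i [a]) : f = g := by
  ext i l
  by_cases hl : l.length = 0 + 1
  · match l, hl with
    | [a], _ => exact h i a
  · rw [hf i l hl, hg i l hl]
lemma Hom.ext1 {f g : Cochain S} (hf : Hom 1 f) (hg : Hom 1 g)
    (h : ∀ i a b, f.val i [a, b] = g.val i [a, b]) : f = g := by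
  ext i l
  by_cases hl : l.length = 1 + 1
  · match l, hl with
    | [a, b], _ => exact h i a b
  · rw [hf i l hl, hg i l hl]
lemma Hom.ext2 {f g : Cochain S} (hf : Hom 2 f) (hg : Hom 2 g)
    (h : ∀ i a b c, f.val i [a, b, c] = g.val i [a, b, c]) : f = g := by
  ext i l
  by_cases hl : l.length = 2 + 1
  · match l, hl with
    | [a, b, c], _ => exact h i a b c
  · rw [hf i l hl, hg i l hl]
lemma Hom.ext3 {f g : Cochain S} (hf : Hom 3 f) (hg : Hom 3 g)
    (h : ∀ i a b c e, f.val i [a, b, c, e] = g.val i [a, b, c, e]) : f = g := by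
  ext i l
  by_cases hl : l.length = 3 + 1
  · match l, hl with
    | [a, b, c, e], _ => exact h i a b c e
  · rw [hf i l hl, hg i l hl]
lemma d_val2 (f : Cochain S) (i : S.ι) (a b : S.V i) :
    (d f).val i [a, b] = f.val i [b] - f.val i [a] := by
  simp [d_val, dif, sum_range_succ, sub_eq_add_neg]
lemma d_val3 (f : Cochain S) (i : S.ι) (a b c : S.V i) :
    (d f).val i [a, b, c] = f.val i [b, c] - f.val i [a, c] + f.val i [a, b] := by
  simp [d_val, dif, sum_range_succ, sub_eq_add_neg]
lemma d_val4 (f : Cochain S) (i : S.ι) (a b c e : S.V i) :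
    (d f).val i [a, b, c, e] =
      f.val i [b, c, e] - f.val i [a, c, e] + f.val i [a, b, e] - f.val i [a, b, c] := by
  simp [d_val, dif, sum_range_succ, sub_eq_add_neg, pow_succ]
lemma Hom.mul_val11 {f g : Cochain S} (hf : Hom 1 f) (i : S.ι) (a b c : S.V i) :
    (f * g).val i [a, b, c] = f.val i [a, b] * g.val i [b, c] := by
  rw [hf.mul_val g i _ (by simp)]; rfl
end Cochain

/-- All rings of values are `B`-algebras, and admissible maps respect this. -/
structure Site.Alg (S : Site.{u, v}) (B : Type u) [CommRing B] where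
  β : ∀ i, B →+* S.R i
  nat : ∀ i j φ m, S.Arr i j φ m → ∀ b, φ (β i b) = β j b

namespace Site.Alg
variable {B : Type u} [CommRing B] (α : S.Alg B)

/-- The constant cochain of a scalar. -/
def sc (b : B) : Cochain S := c0 (fun i _ => α.β i b) fun i j φ m h _ => α.nat i j φ m h b

lemma sc_hom (b : B) : Hom 0 (α.sc b) := c0_hom _ _
lemma sc_mul_val (b : B) (f : Cochain S) (i : S.ι) (l : List (S.V i)) :
    (α.sc b * f).val i l = α.β i b * f.val i l := by
  cases l with
  | nil => rw [(α.sc b * f).nil, f.nil, mul_zero]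
  | cons v l => exact c0_mul_val _ _ f i v l
lemma mul_sc_val (b : B) (f : Cochain S) (i : S.ι) (l : List (S.V i)) :
    (f * α.sc b).val i l = α.β i b * f.val i l := by
  cases l with
  | nil => rw [(f * α.sc b).nil, f.nil, mul_zero]
  | cons v l =>
    rw [Cochain.mul_val, cup, List.length_cons, sum_range_succ, sum_eq_zero, zero_add,
      List.take_of_length_le (by simp), mul_comm]
    · obtain ⟨w, hw⟩ : ∃ w, (v :: l).drop l.length = [w] :=
        List.length_eq_one_iff.1 (by simp)
      rw [hw]; rfl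
    · intro a ha
      rw [mem_range] at ha
      rw [α.sc_hom b i _ (by rw [List.length_drop, List.length_cons]; omega), mul_zero]
lemma d_sc (b : B) : d (α.sc b) = 0 := by
  refine (α.sc_hom b).d.ext1 (hom_zero 1) fun i v w => ?_
  rw [d_val2]; exact sub_self _
lemma sc_one : α.sc 1 = 1 := by
  exact (α.sc_hom 1).ext0 hom_one fun i v => map_one (α.β i)
lemma sc_zero : α.sc 0 = 0 := by
  exact (α.sc_hom 0).ext0 (hom_zero 0) fun i v => map_zero (α.β i)
lemma sc_add (a b : B) : α.sc (a + b) = α.sc a + α.sc b := by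
  exact (α.sc_hom _).ext0 ((α.sc_hom a).add (α.sc_hom b)) fun i v => map_add (α.β i) a b
lemma sc_mul (a b : B) : α.sc (a * b) = α.sc a * α.sc b := by
  refine (α.sc_hom _).ext0 ((α.sc_hom a).mul (α.sc_hom b)) fun i v => ?_
  rw [sc_mul_val]; exact map_mul (α.β i) a b

/-- Scalars in cohomology. -/
noncomputable def scH : B →+* H S where
  toFun b := cls (α.sc b)
  map_one' := by rw [sc_one, cls_one]
  map_zero' := by rw [sc_zero, cls_zero]
  map_add' a b := by rw [sc_add, cls_add (α.d_sc a) (α.d_sc b)]
  map_mul' a b := by rw [sc_mul, cls_mul (α.d_sc a) (α.d_sc b)]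

lemma scH_apply (b : B) : α.scH b = cls (α.sc b) := rfl
lemma scH_mem (b : B) : α.scH b ∈ Hn S 0 := cls_mem_Hn (α.d_sc b) (α.sc_hom b)
lemma scH_comm (b : B) (x : H S) : α.scH b * x = x * α.scH b := by
  obtain ⟨f, hf, rfl⟩ := cls_surj x
  rw [scH_apply, ← cls_mul (α.d_sc b) hf, ← cls_mul hf (α.d_sc b)]
  congr 1
  ext i l
  rw [sc_mul_val, mul_sc_val]
/-- Pull-back of a scalar. -/
lemma pullA_scH {B' : Type u} [CommRing B'] (α' : S'.Alg B') (T : SiteMap S S') (b' : B') (b : B)
    (h : ∀ i, T.fn i (α'.β (T.obj i) b') = α.β i b) : T.pullA (α'.scH b') = α.scH b := by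
  rw [scH_apply, scH_apply, T.pullA_cls (α'.d_sc b')]
  congr 1
  exact (T.pull_hom (α'.sc_hom b')).ext0 (α.sc_hom b) fun i v => h i

end Site.Alg

/-- All rings of values have characteristic dividing `p`. -/
class CharS (S : Site.{u, v}) (p : ℕ) : Prop where
  out : ∀ i, (p : S.R i) = 0

instance (p : ℕ) [h : CharS S p] : CharS (cyl S) p := ⟨h.out⟩

end Pool.Agent.Lib.MP_5f3851_al
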