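import Pool.Agent.Lib.MP_5f3851_al.Maps

/-! The Quillen-Venkov type lemmas, from the periodic resolution by an induced module. -/

set_option linter.unusedSectionVars false

namespace Pool.Agent.Lib.MP_5f3851_al

open Finset Cochain

universe u v

/-- Cochains of `S'` form a free module over those of `S` with basis `σ^i`, `i < p`; `pd` is the
derivative in `σ` and `top` the coefficient of `sp = σ^(p-1)`. -/
structure StepData (S S' : Site.{u, v}) where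
  inc : SiteMap S' S
  ring : inc.IsRing
  σ : Cochain S'
  sp : Cochain S'
  A : Cochain S'
  l : Cochain S
  x : Cochain S
  pd : Cochain S' →+ Cochain S'
  top : Cochain S' →+ Cochain S'
  inj : ∀ f, inc.pull f = 0 → f = 0
  pd_d : ∀ F, pd (d F) = d (pd F)
  top_d : ∀ F, top (d F) = d (top F)
  ker_pd : ∀ F, pd F = 0 → ∃ f, F = inc.pull f
  dec : ∀ F, ∃ G e, F = pd G + sp * inc.pull e ∧ top F = inc.pull e
  top_pd : ∀ F, top (pd F) = 0
  top_pull : ∀ f, top (inc.pull f) = 0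
  pd_pull : ∀ f, pd (inc.pull f) = 0
  top_sp : ∀ e, top (sp * inc.pull e) = inc.pull e
  pd_mul_right : ∀ F f, pd (F * inc.pull f) = pd F * inc.pull f
  pd_mul_left : ∀ f F, pd (inc.pull f * F) = inc.pull f * pd F
  pd_σ : pd σ = 1
  d_σ : d σ = - inc.pull l
  pd_A : pd A = d sp
  d_A : d A = - inc.pull x
  d_l : d l = 0
  d_x : d x = 0

namespace StepData
variable {S S' : Site.{u, v}} (D : StepData S S')

/-- The restriction map. -/
noncomputable def rr : H S →+* H S' := D.inc.pullH D.ring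

lemma pull_sg (f : Cochain S) : D.inc.pull (sg f) = sg (D.inc.pull f) := by
  ext i l
  rw [SiteMap.pull_val, sg_val, sg_val, sgn, sgn, map_zsmul, List.length_map, SiteMap.pull_val]

lemma rr_cls {f : Cochain S} (hf : d f = 0) : D.rr (cls f) = cls (D.inc.pull f) :=
  D.inc.pullH_cls D.ring hf

lemma d_mul_pull (F : Cochain S') {f : Cochain S} (hf : d f = 0) :
    d (F * D.inc.pull f) = d F * D.inc.pull f := by
  rw [d_mul, D.inc.d_pull_eq_zero hf, mul_zero, add_zero]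

lemma key {c c' : Cochain S} {F F' : Cochain S'} (hc' : d c' = 0) (hF : D.inc.pull c = d F)
    (hF' : D.pd F = D.inc.pull c' + d F') :
    ∃ e b, d e = 0 ∧ c + D.l * c' + D.x * e = d b := by
  obtain ⟨G, e, hG, he⟩ := D.dec F'
  have h1 : D.pd (F - D.σ * D.inc.pull c') = d F' := by
    rw [map_sub, D.pd_mul_right, D.pd_σ, one_mul, hF', add_sub_cancel_left]
  have hde : d e = 0 := D.inj _ (by rw [D.inc.pull_d, ← he, ← D.top_d, ← h1, D.top_pd])
  have h2 : D.pd (F - D.σ * D.inc.pull c' - d G - D.A * D.inc.pull e) = 0 := by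
    rw [map_sub, map_sub, h1, D.pd_mul_right, D.pd_A, D.pd_d, ← D.d_mul_pull _ hde]
    conv_lhs => rw [hG, d_add]
    abel
  obtain ⟨b, hb⟩ := D.ker_pd _ h2
  refine ⟨e, b, hde, sub_eq_zero.1 (D.inj _ ?_)⟩
  rw [map_sub, D.inc.pull_d, ← hb, d_sub, d_sub, d_sub, d_d, D.d_mul_pull _ hc',
    D.d_mul_pull _ hde, D.d_σ, D.d_A, ← hF, map_add, map_add, D.inc.pull_mul D.ring,
    D.inc.pull_mul D.ring, neg_mul, neg_mul]
  abel

theorem rr_x : D.rr (cls D.x) = 0 := by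
  rw [D.rr_cls D.d_x, cls_eq_zero_iff (D.inc.d_pull_eq_zero D.d_x)]
  exact ⟨-D.A, by rw [d_neg, D.d_A, neg_neg]⟩
/-- Quillen-Venkov. -/
theorem qv {y z : H S} (hy : D.rr y = 0) (hz : D.rr z = 0) : ∃ e, z * y = cls D.x * e := by
  obtain ⟨c, hc, rfl⟩ := cls_surj y
  obtain ⟨c₁, hc₁, rfl⟩ := cls_surj z
  rw [D.rr_cls hc, cls_eq_zero_iff (D.inc.d_pull_eq_zero hc)] at hy
  rw [D.rr_cls hc₁, cls_eq_zero_iff (D.inc.d_pull_eq_zero hc₁)] at hz
  obtain ⟨F, hF⟩ := hy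
  obtain ⟨F₁, hF₁⟩ := hz
  have hs : d (sg c₁) = 0 := by rw [d_sg, hc₁, sg_zero, neg_zero]
  have h1 : D.inc.pull (c₁ * c) = d (D.inc.pull (sg c₁) * F) := by
    rw [d_mul, D.inc.d_pull_eq_zero hs, zero_mul, zero_add, D.pull_sg, sg_sg, ← hF,
      D.inc.pull_mul D.ring]
  have h2 : D.pd (D.inc.pull (sg c₁) * F) = D.inc.pull 0 + d (-(sg F₁ * D.pd F)) := by
    rw [D.pd_mul_left, map_zero, zero_add, d_neg, d_mul, ← D.pd_d, ← hF, D.pd_pull, mul_zero,
      add_zero, d_sg, ← hF₁, D.pull_sg, neg_mul, neg_neg]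
  obtain ⟨e, b, he, hb⟩ := D.key d_zero h1 h2
  refine ⟨-cls e, ?_⟩
  rw [mul_zero, add_zero] at hb
  rw [mul_neg, ← cls_mul hc₁ hc, ← cls_mul D.d_x he, eq_neg_iff_add_eq_zero,
    ← cls_add (d_mul_eq_zero hc₁ hc) (d_mul_eq_zero D.d_x he), hb, cls_d]
/-- The kernel of the restriction. -/
theorem gen_step {y : H S} (hy : D.rr y = 0) :
    ∃ w : H S', ∀ c, D.rr c = w → ∃ e, y = -(cls D.l * c) + cls D.x * e := by
  obtain ⟨c, hc, rfl⟩ := cls_surj y
  rw [D.rr_cls hc, cls_eq_zero_iff (D.inc.d_pull_eq_zero hc)] at hy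
  obtain ⟨F, hF⟩ := hy
  have hd : d (D.pd F) = 0 := by rw [← D.pd_d, ← hF, D.pd_pull]
  refine ⟨cls (D.pd F), fun c' hc' => ?_⟩
  obtain ⟨c', hc'', rfl⟩ := cls_surj c'
  rw [D.rr_cls hc'', eq_comm, cls_eq_iff hd (D.inc.d_pull_eq_zero hc'')] at hc'
  obtain ⟨F', hF'⟩ := hc'
  obtain ⟨e, b, he, hb⟩ := D.key hc'' hF (F' := F') (by rw [← hF']; abel)
  refine ⟨-cls e, ?_⟩
  have h1 := d_mul_eq_zero D.d_l hc''
  have h2 := d_mul_eq_zero D.d_x he
  have := congrArg cls hb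
  rw [cls_d, cls_add (by rw [d_add, hc, h1, add_zero]) h2, cls_add hc h1, cls_mul D.d_l hc'',
    cls_mul D.d_x he] at this
  rw [mul_neg, ← sub_eq_zero, ← this]
  abel
theorem nzd (hs : Function.Surjective D.rr) {e : H S} (he : cls D.x * e = 0) : e = 0 := by
  obtain ⟨e, hde, rfl⟩ := cls_surj e
  rw [← cls_mul D.d_x hde, cls_eq_zero_iff (d_mul_eq_zero D.d_x hde)] at he
  obtain ⟨b, hb⟩ := he
  have h1 : d (D.A * D.inc.pull e + D.inc.pull b) = 0 := by
    rw [d_add, D.d_mul_pull _ hde, D.d_A, ← D.inc.pull_d, ← hb, D.inc.pull_mul D.ring, neg_mul,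
      neg_add_cancel]
  obtain ⟨y, hy⟩ := hs (cls (D.A * D.inc.pull e + D.inc.pull b))
  obtain ⟨c', hc', rfl⟩ := cls_surj y
  rw [D.rr_cls hc', eq_comm, cls_eq_iff h1 (D.inc.d_pull_eq_zero hc')] at hy
  obtain ⟨F, hF⟩ := hy
  have h2 : d (D.sp * D.inc.pull e - D.pd F) = 0 := by
    rw [d_sub, ← D.pd_d, ← hF, map_sub, map_add, D.pd_pull, D.pd_pull, D.pd_mul_right, D.pd_A,
      D.d_mul_pull _ hde]
    abel
  obtain ⟨y, hy⟩ := hs (cls (D.sp * D.inc.pull e - D.pd F))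
  obtain ⟨c'', hc'', rfl⟩ := cls_surj y
  rw [D.rr_cls hc'', eq_comm, cls_eq_iff h2 (D.inc.d_pull_eq_zero hc'')] at hy
  obtain ⟨F', hF'⟩ := hy
  obtain ⟨G, e', -, he'⟩ := D.dec F'
  have h3 := congrArg D.top hF'
  rw [map_sub, map_sub, D.top_sp, D.top_pd, D.top_pull, D.top_d, he', ← D.inc.pull_d, sub_zero,
    sub_zero] at h3
  rw [cls_eq_zero_iff hde]
  exact ⟨e', sub_eq_zero.1 (D.inj _ (by rw [map_sub, h3, sub_self]))⟩

end StepData

end Pool.Agent.Lib.MP_5f3851_al
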