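import Pool.Agent.Lib.MP_5f3851_al.Wt
import Pool.Agent.Lib.MP_5f3851_al.QV

/-! Marked sites: cohomology with coefficients in induced modules. -/

set_option linter.unusedSectionVars false

namespace Pool.Agent.Lib.MP_5f3851_al

open Finset Cochain

universe u

/-- A `B`-algebra with three marks. -/
structure MObj (B : Type u) [CommRing B] (p r : ℕ) (j : Fin 3 → ℕ) extends Obj B where
  u : Fin 3 → R
  hu : ∀ c, u c ^ p ^ (r - j c) = 0

/-- The marked site: translation by `g` moves the mark `u c` by `g_c^(p^(j c))`. -/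
@[reducible] def ms (B : Type u) [CommRing B] (p r b : ℕ) (j : Fin 3 → ℕ) : Site.{u, u + 1} where
  ι := MObj B p r j
  R i := i.R
  V i := Pt p r b i.R
  Arr i i' φ m := φ.comp i.φ = i'.φ ∧ ∃ g : Pt p r b i'.R, (∀ v, (m v).1 = g.1 * v.1.map φ) ∧
    ∀ c, i'.u c = φ (i.u c) + g.1.co c ^ p ^ j c

variable {B : Type u} [CommRing B] {p r b : ℕ} [Fact p.Prime] [PZ p B]

instance (j : Fin 3 → ℕ) : CharS (ms B p r b j) p := ⟨fun i => PZ.of_hom i.φ⟩

/-- Forgetting the marks. -/
def fgt (B : Type u) [CommRing B] (p r b : ℕ) (j : Fin 3 → ℕ) :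
    SiteMap (ms B p r b j) (gs B p r b) where
  obj i := i.toObj
  vert _ v := v
  fn _ := AddMonoidHom.id _
  compat _ _ φ m h := ⟨φ, m, ⟨h.1, h.2.choose, h.2.choose_spec.1⟩, fun _ => rfl, fun _ => rfl⟩

/-- The restriction from the group to the marked site. -/
noncomputable def RR (B : Type u) [CommRing B] (p r b : ℕ) (j : Fin 3 → ℕ) :
    H (gs B p r b) →+* H (ms B p r b j) := (fgt B p r b j).pullH fun _ => ⟨rfl, fun _ _ => rfl⟩

lemma RR_prH (j : Fin 3 → ℕ) (n : ℕ) (x : H (gs B p r b)) :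
    RR B p r b j (prH n x) = prH n (RR B p r b j x) := (fgt B p r b j).pullA_prH n x
lemma RR_mem_Hn (j : Fin 3 → ℕ) {n : ℕ} {x : H (gs B p r b)} (hx : x ∈ Hn _ n) :
    RR B p r b j x ∈ Hn _ n := (fgt B p r b j).pullA_mem_Hn hx

namespace MarkAux

lemma zpp (R : Type u) [CommRing R] (k : ℕ) : (0 : R) ^ p ^ k = 0 :=
  zero_pow (pow_pos (Fact.out : p.Prime).pos k).ne'

lemma one_co (R : Type u) [CommRing R] (c : Fin 3) : (1 : Heis p R).co c = 0 := by
  fin_cases c <;> rfl

lemma map_id_pt {R : Type u} [CommRing R] (l : List (Pt p r b R)) :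
    l.map (Pt.map (RingHom.id R)) = l := List.map_id _

lemma ms_nat {j : Fin 3 → ℕ} (F : Cochain (ms B p r b j)) (i i' : MObj B p r j) (φ : i.R →+* i'.R)
    (hφ : φ.comp i.φ = i'.φ) (g : Pt p r b i'.R)
    (hg : ∀ c, i'.u c = φ (i.u c) + g.1.co c ^ p ^ j c) (l : List (Pt p r b i.R)) :
    φ (F.val i l) = F.val i' (l.map fun v => Pt.mul (PZ.of_hom i'.φ) g (v.map φ)) :=
  F.nat i i' φ _ ⟨hφ, g, fun _ => rfl, hg⟩ l

lemma ms_nat' {j : Fin 3 → ℕ} (F : Cochain (ms B p r b j)) (i i' : MObj B p r j)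
    (φ : i.R →+* i'.R) (hφ : φ.comp i.φ = i'.φ) (hg : ∀ c, i'.u c = φ (i.u c))
    (l : List (Pt p r b i.R)) : φ (F.val i l) = F.val i' (l.map (Pt.map φ)) :=
  F.nat i i' φ _ ⟨hφ, Pt.one p r b i'.R, fun _ => (one_mul _).symm, fun c => by
    rw [hg c]
    change _ = _ + (1 : Heis p i'.R).co c ^ _
    rw [one_co, zpp, add_zero]⟩ l

lemma fgt_val (j : Fin 3 → ℕ) (f : Cochain (gs B p r b)) (i : MObj B p r j)
    (l : List (Pt p r b i.R)) : ((fgt B p r b j).pull f).val i l = f.val i.toObj l := by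
  change f.val i.toObj (l.map id) = _
  rw [List.map_id]

lemma RR_cls (j : Fin 3 → ℕ) {f : Cochain (gs B p r b)} (hf : d f = 0) :
    RR B p r b j (cls f) = cls ((fgt B p r b j).pull f) := (fgt B p r b j).pullA_cls hf

/-- The object with zero marks. -/
@[reducible] def zobj (p r : ℕ) [Fact p.Prime] (j : Fin 3 → ℕ) (i : Obj B) : MObj B p r j :=
  ⟨i, fun _ => 0, fun _ => zpp _ _⟩

/-- Putting the zero marks. -/
def unf (hb : b ≤ r) (j : Fin 3 → ℕ) (hj : ∀ c, j c = r) :
    SiteMap (gs B p r b) (ms B p r b j) where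
  obj i := zobj p r j i
  vert _ v := v
  fn _ := AddMonoidHom.id _
  compat i i' φ m h := by
    obtain ⟨h1, g, h2⟩ := h
    refine ⟨φ, m, ⟨h1, g, h2, fun c => ?_⟩, fun _ => rfl, fun _ => rfl⟩
    have h3 := co_pow hb c g
    change (0 : i'.R) = φ 0 + _
    rw [map_zero, hj c, zero_add]
    exact h3.symm

lemma unf_val (hb : b ≤ r) (j : Fin 3 → ℕ) (hj : ∀ c, j c = r) (F : Cochain (ms B p r b j))
    (i : Obj B) (l : List (Pt p r b i.R)) :
    ((unf hb j hj).pull F).val i l = F.val (zobj p r j i) l :=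
  congrArg (F.val (zobj p r j i)) (List.map_id l)

lemma u_eq_zero {j : Fin 3 → ℕ} (i : MObj B p r j) {c : Fin 3} (hj : j c = r) : i.u c = 0 := by
  have := i.hu c
  rwa [hj, Nat.sub_self, pow_zero, pow_one] at this

end MarkAux

open MarkAux

/-- At the top level the marks are zero. -/
theorem RR_bijective (hb : b ≤ r) (j : Fin 3 → ℕ) (hj : ∀ c, j c = r) :
    Function.Bijective (RR B p r b j) := by
  refine Function.bijective_iff_has_inverse.2 ⟨(unf hb j hj).pullA, fun x => ?_, fun x => ?_⟩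
  · obtain ⟨f, hf, rfl⟩ := cls_surj x
    rw [RR_cls j hf, SiteMap.pullA_cls _ ((fgt B p r b j).d_pull_eq_zero hf)]
    congr 1
    ext i l
    exact (unf_val hb j hj _ i l).trans (fgt_val j f (zobj p r j i) l)
  · obtain ⟨F, hF, rfl⟩ := cls_surj x
    rw [SiteMap.pullA_cls _ hF, RR_cls j ((unf hb j hj).d_pull_eq_zero hF)]
    congr 1
    ext i l
    rw [fgt_val, unf_val]
    exact (ms_nat' F (zobj p r j i.toObj) i (RingHom.id _) rfl
      (fun c => u_eq_zero i (hj c)) l).trans (congrArg (F.val i) (map_id_pt l))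

/-- The coordinates on the marked site. -/
def mco (B : Type u) [CommRing B] (p r b : ℕ) (j : Fin 3 → ℕ) (c : Fin 3) (hc : c = 2 → b = 0) :
    Aff (ms B p r b j) where
  a _ v := v.1.co c
  nat i i' φ m h := (gco B p r b c hc).nat i.toObj i'.toObj φ m ⟨h.1, h.2.choose, h.2.choose_spec.1⟩

namespace MarkAux

lemma pp_split {R : Type u} [CommRing R] (x : R) {a k : ℕ} (h : a ≤ k) :
    (x ^ p ^ a) ^ p ^ (k - a) = x ^ p ^ k := by
  rw [← pow_mul, ← pow_add, Nat.add_sub_cancel' h]

/-- The invariant function `(u c)^(p^(k - j c)) - v_c^(p^k)`. -/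
def sig (j : Fin 3 → ℕ) (c : Fin 3) (k : ℕ) (i : MObj B p r j) (v : Pt p r b i.R) : i.R :=
  i.u c ^ p ^ (k - j c) - v.1.co c ^ p ^ k

lemma sig_nat (j : Fin 3 → ℕ) (c : Fin 3) (hc : c = 2 → b = 0) (k : ℕ) (h : j c ≤ k)
    (i i' : MObj B p r j) (φ : i.R →+* i'.R) (m : Pt p r b i.R → Pt p r b i'.R)
    (ha : (ms B p r b j).Arr i i' φ m) (v : Pt p r b i.R) :
    φ (sig j c k i v) = sig j c k i' (m v) := by
  obtain ⟨-, g, h2, h3⟩ := ha
  have hp : (p : i'.R) = 0 := PZ.of_hom i'.φ
  have := co_mul c hc g (v.map φ)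
  unfold sig
  rw [h3 c, h2 v]
  change _ = _ - (g.1 * (v.map φ).1).co c ^ _
  rw [this, add_pow_pp hp, add_pow_pp hp, pp_split _ h, map_sub, map_pow, map_pow]
  change _ = _ - (_ + (v.1.map φ).co c ^ _)
  rw [Heis.co_map]
  ring

lemma sig_sub (j : Fin 3 → ℕ) (c : Fin 3) (k : ℕ) (i : MObj B p r j) (v w : Pt p r b i.R) :
    sig j c k i w - sig j c k i v = - (w.1.co c - v.1.co c) ^ p ^ k := by
  rw [sub_pow_pp (PZ.of_hom i.φ)]
  unfold sig
  ring

/-- The zero-cochain of `sig`. -/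
def sigC (j : Fin 3 → ℕ) (c : Fin 3) (hc : c = 2 → b = 0) (k : ℕ) (h : j c ≤ k) :
    Cochain (ms B p r b j) := c0 (sig j c k) (sig_nat j c hc k h)

/-- The primitive of the class of degree two. -/
def AC (j : Fin 3 → ℕ) (c : Fin 3) (hc : c = 2 → b = 0) (k : ℕ) (h : j c ≤ k) :
    Cochain (ms B p r b j) :=
  c1 (fun i v w => Phi p (sig j c k i v) (sig j c k i w - sig j c k i v)) fun i i' φ m ha v w => by
    rw [map_Phi, map_sub, sig_nat j c hc k h i i' φ m ha, sig_nat j c hc k h i i' φ m ha]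

lemma odd_p [h5 : Fact (5 ≤ p)] : Odd p :=
  (Fact.out : p.Prime).odd_of_ne_two (by have := h5.out; omega)

lemma d_sigC (j : Fin 3 → ℕ) (c : Fin 3) (hc : c = 2 → b = 0) (k : ℕ) (h : j c ≤ k) :
    d (sigC (B := B) (p := p) (r := r) j c hc k h) = - lamC p (mco B p r b j c hc) k := by
  refine Hom.ext1 (Hom.d (c0_hom _ _)) (lamC_hom p _ k).neg fun i v w => ?_
  rw [d_val2, neg_val, lamC_val]
  exact sig_sub j c k i v w

lemma d_AC [Fact (5 ≤ p)] (j : Fin 3 → ℕ) (c : Fin 3) (hc : c = 2 → b = 0) (k : ℕ)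
    (h : j c ≤ k) :
    d (AC (B := B) (p := p) (r := r) j c hc k h) = - xxC p (mco B p r b j c hc) k := by
  refine Hom.ext2 (Hom.d (c1_hom _ _)) (xxC_hom p _ k).neg fun i v w x => ?_
  rw [d_val3, neg_val, xxC_val, ← Phi_neg odd_p]
  have h1 := sig_sub j c k i v w
  have h2 := sig_sub j c k i w x
  change Phi p (sig j c k i w) (sig j c k i x - sig j c k i w)
    - Phi p (sig j c k i v) (sig j c k i x - sig j c k i v)
    + Phi p (sig j c k i v) (sig j c k i w - sig j c k i v) =
    Phi p (- (w.1.co c - v.1.co c) ^ p ^ k) (- (x.1.co c - w.1.co c) ^ p ^ k)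
  rw [← h1, ← h2]
  have h3 := Phi_cocycle (p := p) (sig j c k i v) (sig j c k i w - sig j c k i v)
    (sig j c k i x - sig j c k i w)
  rw [add_sub_cancel, sub_add_sub_cancel'] at h3
  linear_combination (-1 : i.R) * h3

end MarkAux

/-- Above the level of the mark the classes of degree two vanish: with
`σ v = (u c)^(p^(k - j c)) - v_c^(p^k)` the cochain `Phi (σ v₀) (σ v₁ - σ v₀)` is a primitive. -/
theorem RR_xx_eq_zero [Fact (5 ≤ p)] (j : Fin 3 → ℕ) (c : Fin 3) (hc : c = 2 → b = 0) (k : ℕ)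
    (h : j c ≤ k) : RR B p r b j (xx p (gco B p r b c hc) k) = 0 := by
  have h1 : RR B p r b j (xx p (gco B p r b c hc) k) = xx p (mco B p r b j c hc) k :=
    pullA_xx p (fgt B p r b j) (fun _ => ⟨rfl, fun _ _ => rfl⟩) _ _ (fun _ _ _ => rfl) k
  rw [h1, xx, cls_eq_zero_iff (d_xxC p _ k)]
  exact ⟨- AC j c hc k h, by rw [d_neg, d_AC, neg_neg]⟩

/-- One step: the level of the mark `c` drops from `n + 1` to `n`. -/
structure IsStep (r : ℕ) (j j' : Fin 3 → ℕ) (c : Fin 3) (n : ℕ) : Prop where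
  lt : n < r
  hj : j c = n + 1
  hj' : j' c = n
  ne : ∀ c', c' ≠ c → j' c' = j c'

lemma incM_hu {j j' : Fin 3 → ℕ} {c : Fin 3} {n : ℕ} (h : IsStep r j j' c n) (i : MObj B p r j')
    (c' : Fin 3) : Function.update i.u c (i.u c ^ p) c' ^ p ^ (r - j c') = 0 := by
  by_cases e : c' = c
  · subst e
    have h1 := i.hu c'
    have h2 := h.lt
    rw [Function.update_self, h.hj, ← pow_mul, ← pow_succ',
      show r - (n + 1) + 1 = r - j' c' by rw [h.hj']; omega]
    exact h1
  · rw [Function.update_of_ne e, ← h.ne c' e]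
    exact i.hu c'

lemma incM_mark {j j' : Fin 3 → ℕ} {c : Fin 3} {n : ℕ} (h : IsStep r j j' c n)
    (i i' : MObj B p r j') (φ : i.R →+* i'.R) (g : Heis p i'.R)
    (hg : ∀ c, i'.u c = φ (i.u c) + g.co c ^ p ^ j' c) (c' : Fin 3) :
    Function.update i'.u c (i'.u c ^ p) c' =
      φ (Function.update i.u c (i.u c ^ p) c') + g.co c' ^ p ^ j c' := by
  by_cases e : c' = c
  · subst e
    have h1 := add_pow_pp (PZ.of_hom i'.φ : (p : i'.R) = 0) (φ (i.u c')) (g.co c' ^ p ^ n) 1
    rw [pow_one, ← pow_mul, ← pow_succ] at h1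
    rw [Function.update_self, Function.update_self, hg c', h.hj', h.hj, h1, map_pow]
  · rw [Function.update_of_ne e, Function.update_of_ne e, hg c', h.ne c' e]

/-- The map of sites `u c ↦ (u c)^p`. -/
def incM (b : ℕ) {j j' : Fin 3 → ℕ} {c : Fin 3} {n : ℕ} (h : IsStep r j j' c n) :
    SiteMap (ms B p r b j') (ms B p r b j) where
  obj i := ⟨i.toObj, Function.update i.u c (i.u c ^ p), incM_hu h i⟩
  vert _ v := v
  fn _ := AddMonoidHom.id _
  compat i i' φ m ha := by
    obtain ⟨h1, g, h2, h3⟩ := ha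
    exact ⟨φ, m, ⟨h1, g, h2, incM_mark h i i' φ g.1 h3⟩, fun _ => rfl, fun _ => rfl⟩

namespace MarkAux

/-- The object with the mark raised to the power `p`. -/
@[reducible] def iobj {j j' : Fin 3 → ℕ} {c : Fin 3} {n : ℕ} (h : IsStep r j j' c n)
    (i : MObj B p r j') : MObj B p r j :=
  ⟨i.toObj, Function.update i.u c (i.u c ^ p), incM_hu h i⟩

lemma inc_val {j j' : Fin 3 → ℕ} {c : Fin 3} {n : ℕ} (h : IsStep r j j' c n)
    (f : Cochain (ms B p r b j)) (i : MObj B p r j') (l : List (Pt p r b i.R)) :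
    ((incM b h).pull f).val i l =
      f.val (iobj h i) l :=
  congrArg (f.val (iobj h i)) (List.map_id l)

section step
variable {j j' : Fin 3 → ℕ} {c : Fin 3} {n : ℕ}

lemma of_add_rt_pow {R : Type u} [CommRing R] (hp : (p : R) = 0) (a w : R) :
    (Rt.of p a w + Rt.rt p a) ^ p = Rt.of p a (w ^ p + a) := by
  have h1 := add_pow_pp (p := p) (R := Rt p a)
    (by rw [← map_natCast (Rt.of p a), hp, map_zero]) (Rt.of p a w) (Rt.rt p a) 1
  rw [pow_one] at h1
  rw [h1, Rt.rt_pow, map_add, map_pow]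

/-- Adjoining a root of the mark. -/
@[reducible] noncomputable def robj (h : IsStep r j j' c n) (i : MObj B p r j) (a w : i.R)
    (hw : w ^ p + a = i.u c) : MObj B p r j' where
  R := Rt p a
  φ := (Rt.of p a).comp i.φ
  u := Function.update (fun c' => Rt.of p a (i.u c')) c (Rt.of p a w + Rt.rt p a)
  hu c' := by
    by_cases e : c' = c
    · subst e
      have h2 := h.lt
      rw [Function.update_self, h.hj', show r - n = (r - j c') + 1 by rw [h.hj]; omega, pow_succ',
        pow_mul, of_add_rt_pow (PZ.of_hom i.φ), hw, ← map_pow, i.hu, map_zero]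
    · rw [Function.update_of_ne e, h.ne c' e, ← map_pow, i.hu, map_zero]

lemma robj_arr (h : IsStep r j j' c n) (i i' : MObj B p r j) (a w : i.R) (hw : w ^ p + a = i.u c)
    (a' w' : i'.R) (hw' : w' ^ p + a' = i'.u c) (φ : i.R →+* i'.R) (hφ : φ.comp i.φ = i'.φ)
    (g : Pt p r b i'.R) (hg : ∀ c', c' ≠ c → i'.u c' = φ (i.u c') + g.1.co c' ^ p ^ j c')
    (ha : φ a = a') (hww : w' = φ w + g.1.co c ^ p ^ n) :
    (ms B p r b j').Arr (robj h i a w hw) (robj h i' a' w' hw') (Rt.map a a' φ ha)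
      fun v => Pt.mul (PZ.of_hom ((Rt.of p a').comp i'.φ)) (g.map (Rt.of p a'))
        (v.map (Rt.map a a' φ ha)) := by
  refine ⟨?_, g.map (Rt.of p a'), fun _ => rfl, fun c' => ?_⟩
  · ext x
    have : φ (i.φ x) = i'.φ x := DFunLike.congr_fun hφ x
    simp only [RingHom.comp_apply, Rt.map_of, this]
  · change Function.update (fun c' => Rt.of p a' (i'.u c')) c (Rt.of p a' w' + Rt.rt p a') c' =
      Rt.map a a' φ ha
        (Function.update (fun c' => Rt.of p a (i.u c')) c (Rt.of p a w + Rt.rt p a) c') +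
      (g.1.map (Rt.of p a')).co c' ^ p ^ j' c'
    rw [Heis.co_map]
    by_cases e : c' = c
    · subst e
      rw [Function.update_self, Function.update_self, h.hj', hww, map_add, map_add, map_pow,
        Rt.map_of, Rt.map_rt]
      ring
    · rw [Function.update_of_ne e, Function.update_of_ne e, hg c' e, h.ne c' e, map_add, map_pow,
        Rt.map_of]

lemma vert_eq {R R' : Type u} [CommRing R] [CommRing R'] (a : R) (a' : R') (φ : R →+* R')
    (ha : φ a = a') (hp : (p : Rt p a') = 0) (g w : Pt p r b R') (v : Pt p r b R)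
    (hw : w.1 = g.1 * v.1.map φ) :
    w.map (Rt.of p a') =
      Pt.mul hp (g.map (Rt.of p a')) ((v.map (Rt.of p a)).map (Rt.map a a' φ ha)) := by
  refine Subtype.ext ?_
  ext1 <;> simp [Pt.map, Pt.mul, hw, hh, Rt.map_of]

lemma inc_robj (h : IsStep r j j' c n) (f : Cochain (ms B p r b j)) (i : MObj B p r j)
    (a w : i.R) (hw : w ^ p + a = i.u c) (l : List (Pt p r b i.R)) :
    ((incM b h).pull f).val (robj h i a w hw) (l.map (Pt.map (Rt.of p a))) =
      Rt.of p a (f.val i l) := by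
  refine (inc_val h f _ _).trans
    (ms_nat' f i (iobj h (robj h i a w hw)) (Rt.of p a) rfl (fun c' => ?_) l).symm
  change Function.update
      (Function.update (fun c' => Rt.of p a (i.u c')) c (Rt.of p a w + Rt.rt p a)) c
      (Function.update (fun c' => Rt.of p a (i.u c')) c (Rt.of p a w + Rt.rt p a) c ^ p) c' = _
  by_cases e : c' = c
  · subst e
    rw [Function.update_self, Function.update_self, of_add_rt_pow (PZ.of_hom i.φ), hw]
  · rw [Function.update_of_ne e, Function.update_of_ne e]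

lemma sig_eq (h : IsStep r j j' c n) (i : MObj B p r j') (v : Pt p r b i.R) :
    sig j' c n i v = i.u c - v.1.co c ^ p ^ n := by
  rw [sig, h.hj', Nat.sub_self, pow_zero, pow_one]

lemma sig_robj (h : IsStep r j j' c n) (i : MObj B p r j) (a w : i.R) (hw : w ^ p + a = i.u c)
    (v : Pt p r b i.R) :
    sig j' c n (robj h i a w hw) (v.map (Rt.of p a)) =
      Rt.of p a (w - v.1.co c ^ p ^ n) + Rt.rt p a := by
  refine (sig_eq h (robj h i a w hw) (v.map (Rt.of p a))).trans ?_
  change Function.update (fun c' => Rt.of p a (i.u c')) c (Rt.of p a w + Rt.rt p a) c -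
    (v.1.map (Rt.of p a)).co c ^ p ^ n = _
  rw [Function.update_self, Heis.co_map, map_sub, map_pow]
  ring

lemma shift_hw (h : IsStep r j j' c n) (i : MObj B p r j') :
    i.u c ^ p + 0 = (iobj h i).u c := by
  change _ = Function.update i.u c (i.u c ^ p) c
  rw [Function.update_self, add_zero]

/-- The coefficient of `t^k` after the shift of the mark by `t`. -/
noncomputable def shiftM (b : ℕ) (h : IsStep r j j' c n) (k : ℕ) :
    SiteMap (ms B p r b j') (ms B p r b j') where
  obj i := robj h (iobj h i) 0 (i.u c) (shift_hw h i)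
  vert i v := v.map (Rt.of p (0 : i.R))
  fn i := Rt.coef p (0 : i.R) k
  compat i i' φ m ha := by
    obtain ⟨h1, g, h2, h3⟩ := ha
    exact ⟨_, _, robj_arr h (iobj h i) (iobj h i') 0 (i.u c) (shift_hw h i) 0 (i'.u c)
      (shift_hw h i') φ h1 g (fun c' _ => incM_mark h i i' φ g.1 h3 c') (map_zero φ)
      (by rw [h3 c, h.hj']), fun v => vert_eq _ _ φ _ _ g _ v (h2 v),
      fun x => (Rt.coef_map _ _ _ _ _ _).symm⟩

/-- The `p`-th power of the coordinate `σ`. -/
def ea (c : Fin 3) (n : ℕ) (i : MObj B p r j) (v : Pt p r b i.R) : i.R :=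
  i.u c - v.1.co c ^ p ^ (n + 1)

lemma ea_spec (i : MObj B p r j) (v : Pt p r b i.R) :
    (v.1.co c ^ p ^ n) ^ p + ea c n i v = i.u c := by
  rw [ea, ← pow_mul, ← pow_succ]
  ring

/-- The coefficient of `σ^k`, on values. -/
noncomputable def exV (h : IsStep r j j' c n) (k : ℕ) (F : Cochain (ms B p r b j'))
    (i : MObj B p r j) : List (Pt p r b i.R) → i.R
  | [] => 0
  | v :: l => Rt.coef p (ea c n i v) k
      (F.val (robj h i (ea c n i v) (v.1.co c ^ p ^ n) (ea_spec i v))
        ((v :: l).map (Pt.map (Rt.of p (ea c n i v)))))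

lemma exV_nat (h : IsStep r j j' c n) (hc : c = 2 → b = 0) (k : ℕ) (F : Cochain (ms B p r b j'))
    (i i' : MObj B p r j) (φ : i.R →+* i'.R) (m : Pt p r b i.R → Pt p r b i'.R)
    (ha : (ms B p r b j).Arr i i' φ m) (l : List (Pt p r b i.R)) :
    φ (exV h k F i l) = exV h k F i' (l.map m) := by
  obtain ⟨h1, g, h2, h3⟩ := ha
  match l with
  | [] => exact map_zero φ
  | v :: l =>
    have hp : (p : i'.R) = 0 := PZ.of_hom i'.φ
    have hco : (m v).1.co c = g.1.co c + φ (v.1.co c) := by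
      rw [h2 v, ← Heis.co_map]
      exact co_mul c hc g (v.map φ)
    have ha : φ (ea c n i v) = ea c n i' (m v) := by
      rw [ea, ea, hco, h3 c, h.hj, add_pow_pp hp, map_sub, map_pow]
      ring
    have h4 := F.nat _ _ _ _ (robj_arr h i i' _ _ (ea_spec i v) _ _ (ea_spec i' (m v)) φ h1 g
      (fun c' _ => h3 c') ha (by rw [hco, add_pow_pp hp, map_pow, add_comm]))
      ((v :: l).map (Pt.map (Rt.of p (ea c n i v))))
    refine (Rt.coef_map _ _ φ ha k _).symm.trans ?_
    refine congrArg (Rt.coef p (ea c n i' (m v)) k) (h4.trans (congrArg (F.val _) ?_))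
    refine List.map_map.trans (Eq.trans ?_ (List.map_map (l := v :: l)).symm)
    refine congrArg (fun m => List.map m (v :: l)) (funext fun x => ?_)
    exact (vert_eq _ _ φ ha (PZ.of_hom ((Rt.of p _).comp i'.φ)) g _ x (h2 x)).symm

/-- The coefficient of `σ^k`. -/
noncomputable def exC (h : IsStep r j j' c n) (hc : c = 2 → b = 0) (k : ℕ) :
    Cochain (ms B p r b j') →+ Cochain (ms B p r b j) :=
  AddMonoidHom.mk' (fun F =>
    { val := exV h k F
      nil := fun _ => rfl
      bdd := by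
        obtain ⟨N, hN⟩ := F.bdd
        refine ⟨N, fun i l hl => ?_⟩
        match l, hl with
        | [], _ => rfl
        | v :: l, hl =>
          exact (congrArg (Rt.coef p (ea c n i v) k)
            (hN _ _ (by rw [List.length_map]; exact hl))).trans (map_zero _)
      nat := exV_nat h hc k F })
    fun F G => by
      ext i l
      match l with
      | [] => exact (add_zero _).symm
      | v :: l => exact map_add (Rt.coef p (ea c n i v) k) _ _

/-- The coordinate `σ`. -/
abbrev sg0 (b : ℕ) (h : IsStep r j j' c n) (hc : c = 2 → b = 0) : Cochain (ms B p r b j') :=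
  sigC j' c hc n h.hj'.le

lemma expansion (h : IsStep r j j' c n) (hc : c = 2 → b = 0) (F : Cochain (ms B p r b j')) :
    F = ∑ k ∈ range p, sg0 b h hc ^ k * (incM b h).pull (exC h hc k F) := by
  ext i l
  match l with
  | [] => rw [F.nil, Cochain.nil]
  | v :: l =>
    have hp : (p : i.R) = 0 := PZ.of_hom i.φ
    have ht : sig j' c n i v ^ p = RingHom.id i.R (ea c n (iobj h i) v) := by
      have h1 := sub_pow_pp hp (i.u c) (v.1.co c ^ p ^ n) 1
      rw [pow_one, ← pow_mul, ← pow_succ] at h1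
      rw [sig_eq h, h1]
      change _ = Function.update i.u c (i.u c ^ p) c - _
      rw [Function.update_self]
    have h2 := ms_nat' F (robj h (iobj h i) _ _ (ea_spec (iobj h i) v)) i
      (Rt.ev _ (RingHom.id i.R) _ ht) (RingHom.ext fun x => Rt.ev_of _ _ _ ht _) (fun c' => by
        change _ = Rt.ev _ (RingHom.id i.R) _ ht (Function.update
          (fun c' => Rt.of p (ea c n (iobj h i) v) (Function.update i.u c (i.u c ^ p) c')) c
          (Rt.of p (ea c n (iobj h i) v) (v.1.co c ^ p ^ n) + Rt.rt p _) c')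
        by_cases e : c' = c
        · subst e
          rw [Function.update_self, map_add, Rt.ev_of, Rt.ev_rt, sig_eq h, RingHom.id_apply]
          ring
        · rw [Function.update_of_ne e, Function.update_of_ne e, Rt.ev_of, RingHom.id_apply])
      ((v :: l).map (Pt.map (Rt.of p (ea c n (iobj h i) v))))
    have h3 : ((v :: l).map (Pt.map (Rt.of p (ea c n (iobj h i) v)))).map
        (Pt.map (Rt.ev _ (RingHom.id i.R) _ ht)) = v :: l := by
      refine List.map_map.trans (Eq.trans ?_ (List.map_id _))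
      refine congrArg (fun m => List.map m (v :: l)) (funext fun x => Subtype.ext ?_)
      ext1 <;> exact Rt.ev_of _ _ _ ht _
    refine ((congrArg (F.val i) h3).symm.trans h2.symm).trans ?_
    rw [Rt.ev_eq_sum, sum_val]
    refine sum_congr rfl fun k _ => ?_
    refine Eq.trans ?_ (c0_pow_mul_val _ _ k _ i v l).symm
    rw [inc_val, mul_comm]
    rfl

lemma exC_term (h : IsStep r j j' c n) (hc : c = 2 → b = 0) (k : ℕ) {m : ℕ} (hm : m < p)
    (f : Cochain (ms B p r b j)) :
    exC h hc k (sg0 b h hc ^ m * (incM b h).pull f) = if k = m then f else 0 := by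
  ext i l
  match l with
  | [] => rw [Cochain.nil, Cochain.nil]
  | v :: l =>
    have h1 := c0_pow_mul_val (sig j' c n) (sig_nat j' c hc n h.hj'.le) m ((incM b h).pull f)
      (robj h i _ _ (ea_spec i v)) (v.map (Rt.of p (ea c n i v)))
      (l.map (Pt.map (Rt.of p (ea c n i v))))
    have h2 := inc_robj h f i _ _ (ea_spec (n := n) i v) (v :: l)
    have h3 := sig_robj h i _ _ (ea_spec (n := n) i v) v
    rw [sub_self, map_zero, zero_add] at h3
    refine (congrArg (Rt.coef p (ea c n i v) k) (h1.trans (congrArg₂ (fun x y => x ^ m * y) h3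
      h2))).trans ?_
    rw [mul_comm, Rt.coef_of_mul, Rt.coef_rt_pow _ _ hm]
    by_cases e : k = m <;> simp [e]

lemma shift_term (h : IsStep r j j' c n) (hc : c = 2 → b = 0) {k : ℕ} (hk : k < p) (m : ℕ)
    (f : Cochain (ms B p r b j)) :
    (shiftM b h k).pull (sg0 b h hc ^ m * (incM b h).pull f) =
      m.choose k • (sg0 b h hc ^ (m - k) * (incM b h).pull f) := by
  ext i l
  match l with
  | [] => rw [Cochain.nil, Cochain.nil]
  | v :: l =>
    have h1 := c0_pow_mul_val (sig j' c n) (sig_nat j' c hc n h.hj'.le) m ((incM b h).pull f)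
      (robj h (iobj h i) _ _ (shift_hw h i)) (v.map (Rt.of p (0 : i.R)))
      (l.map (Pt.map (Rt.of p (0 : i.R))))
    have h2 := inc_robj h f (iobj h i) _ _ (shift_hw h i) (v :: l)
    have h3 := sig_robj h (iobj h i) _ _ (shift_hw h i) v
    have h4 := c0_pow_mul_val (sig j' c n) (sig_nat j' c hc n h.hj'.le) (m - k)
      ((incM b h).pull f) i v l
    refine (congrArg (Rt.coef p (0 : i.R) k) (h1.trans (congrArg₂ (fun x y => x ^ m * y) h3
      h2))).trans ?_
    rw [nsmul_val]
    refine Eq.trans ?_ (congrArg (fun x => m.choose k • x) h4).symm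
    rw [mul_comm, Rt.coef_of_mul, Rt.coef_add_rt_pow _ hk, inc_val, sig_eq h, nsmul_eq_mul]
    ring

lemma exists_inv {m : ℕ} (h0 : 0 < m) (hm : m < p) :
    ∃ z : ℕ, ∀ f : Cochain (ms B p r b j), m • z • f = f := by
  have hp : p.Prime := Fact.out
  have hco : Nat.Coprime m p := (Nat.coprime_of_lt_prime h0.ne' hm hp).symm
  obtain ⟨z, -, hz⟩ := Nat.exists_mul_mod_eq_one_of_coprime hco hp.one_lt
  refine ⟨z, fun f => ?_⟩
  have h1 : p • f = 0 := by
    ext i l
    rw [nsmul_val, nsmul_eq_mul, (PZ.of_hom i.φ : (p : i.R) = 0), zero_mul, zero_val]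
  rw [smul_smul, nsmul_eq_mod_nsmul _ h1, hz, one_smul]

lemma shift_eq (h : IsStep r j j' c n) (hc : c = 2 → b = 0) {k : ℕ} (hk : k < p)
    (F : Cochain (ms B p r b j')) :
    (shiftM b h k).pull F =
      ∑ m ∈ range p, m.choose k • (sg0 b h hc ^ (m - k) * (incM b h).pull (exC h hc m F)) := by
  conv_lhs => rw [expansion h hc F]
  rw [map_sum]
  exact sum_congr rfl fun m _ => shift_term h hc hk m _

lemma shift_inc (h : IsStep r j j' c n) (hc : c = 2 → b = 0) {k : ℕ} (hk : k < p) (h0 : 0 < k)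
    (f : Cochain (ms B p r b j)) : (shiftM b h k).pull ((incM b h).pull f) = 0 := by
  have := shift_term h hc hk 0 f
  rwa [pow_zero, one_mul, Nat.choose_eq_zero_of_lt h0, zero_smul] at this

lemma ker_shift (h : IsStep r j j' c n) (hc : c = 2 → b = 0) (F : Cochain (ms B p r b j'))
    (hF : (shiftM b h 1).pull F = 0) : F = (incM b h).pull (exC h hc 0 F) := by
  have hp : p.Prime := Fact.out
  have key : ∀ m, 0 < m → m < p → exC h hc m F = 0 := by
    intro m h0 hm
    have h1 := congrArg (exC h hc (m - 1)) (shift_eq h hc hp.one_lt F)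
    rw [hF, map_zero, map_sum, sum_eq_single m] at h1
    · rw [map_nsmul, exC_term h hc _ (by omega), if_pos rfl, Nat.choose_one_right] at h1
      obtain ⟨z, hz⟩ := exists_inv (B := B) (r := r) (b := b) (j := j) h0 hm
      rw [← hz (exC h hc m F), smul_comm, ← h1, smul_zero]
    · intro k hk hkm
      rw [mem_range] at hk
      rw [map_nsmul, exC_term h hc _ (by omega), Nat.choose_one_right]
      by_cases e : k = 0
      · rw [e, zero_smul]
      · rw [if_neg (by omega), smul_zero]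
    · intro hh
      exact absurd (mem_range.2 hm) hh
  conv_lhs => rw [expansion h hc F]
  rw [sum_eq_single 0, pow_zero, one_mul]
  · intro k hk hk0
    rw [key k (by omega) (mem_range.1 hk), map_zero, mul_zero]
  · intro hh
    exact absurd (mem_range.2 hp.pos) hh

lemma top_eq (h : IsStep r j j' c n) (hc : c = 2 → b = 0) (F : Cochain (ms B p r b j')) :
    (shiftM b h (p - 1)).pull F = (incM b h).pull (exC h hc (p - 1) F) := by
  have hp : p.Prime := Fact.out
  have h1 := hp.one_lt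
  rw [shift_eq h hc (by omega), sum_eq_single (p - 1), Nat.choose_self, Nat.sub_self, pow_zero,
    one_mul, one_smul]
  · intro k hk hk0
    rw [mem_range] at hk
    rw [Nat.choose_eq_zero_of_lt (by omega), zero_smul]
  · intro hh
    exact absurd (mem_range.2 (by omega)) hh

lemma dec_aux (h : IsStep r j j' c n) (hc : c = 2 → b = 0) (F : Cochain (ms B p r b j')) :
    ∃ G, F = (shiftM b h 1).pull G +
      sg0 b h hc ^ (p - 1) * (incM b h).pull (exC h hc (p - 1) F) := by
  have hp : p.Prime := Fact.out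
  have h1 := hp.one_lt
  have key : ∀ m, m < p - 1 → ∀ f : Cochain (ms B p r b j),
      ∃ G, (shiftM b h 1).pull G = sg0 b h hc ^ m * (incM b h).pull f := by
    intro m hm f
    obtain ⟨z, hz⟩ := exists_inv (B := B) (r := r) (b := b) (j := j) (Nat.succ_pos m)
      (show m + 1 < p by omega)
    refine ⟨sg0 b h hc ^ (m + 1) * (incM b h).pull (z • f), ?_⟩
    rw [shift_term h hc h1, Nat.choose_one_right, Nat.add_sub_cancel, ← mul_smul_comm, ← map_nsmul,
      hz]
  choose! G hG using key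
  refine ⟨∑ m ∈ range (p - 1), G m (exC h hc m F), ?_⟩
  rw [map_sum, sum_congr rfl fun m hm => hG m (mem_range.1 hm) _, ← sum_range_succ
    (fun m => sg0 b h hc ^ m * (incM b h).pull (exC h hc m F)), Nat.sub_add_cancel h1.le]
  exact expansion h hc F

lemma top_shift (h : IsStep r j j' c n) (hc : c = 2 → b = 0) (F : Cochain (ms B p r b j')) :
    (shiftM b h (p - 1)).pull ((shiftM b h 1).pull F) = 0 := by
  have hp : p.Prime := Fact.out
  have h1 := hp.one_lt
  rw [shift_eq h hc h1, map_sum]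
  refine sum_eq_zero fun m hm => ?_
  rw [mem_range] at hm
  rw [map_nsmul, shift_term h hc (by omega), Nat.choose_eq_zero_of_lt (n := m - 1) (by omega),
    zero_smul, smul_zero]

lemma shift_AC (h : IsStep r j j' c n) (hc : c = 2 → b = 0) :
    (shiftM b h 1).pull (AC (B := B) (p := p) j' c hc n h.hj'.le) = d (sg0 b h hc ^ (p - 1)) := by
  have hp : p.Prime := Fact.out
  have h0 : Hom 0 (sg0 (B := B) (p := p) b h hc ^ (p - 1)) := (c0_hom _ _).pow (p - 1)
  have hv : ∀ (i : MObj B p r j') (v : Pt p r b i.R),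
      (sg0 b h hc ^ (p - 1)).val i [v] = sig j' c n i v ^ (p - 1) := by
    intro i v
    have := c0_pow_mul_val (S := ms B p r b j') (sig j' c n) (sig_nat j' c hc n h.hj'.le) (p - 1) 1
      i v []
    rw [mul_one] at this
    refine this.trans ?_
    rw [one_val, cone, if_pos List.length_singleton, mul_one]
  refine Hom.ext1 ((shiftM b h 1).pull_hom (c1_hom _ _)) h0.d fun i v w => ?_
  rw [d_val2, hv, hv]
  have h2 := sig_robj h (iobj h i) _ _ (shift_hw h i) v
  have h3 := sig_robj h (iobj h i) _ _ (shift_hw h i) w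
  refine (congrArg (Rt.coef p (0 : i.R) 1) (congrArg₂ (fun x y => Phi p x (y - x)) h2 h3)).trans ?_
  have h4 : Phi p (Rt.of p (0 : i.R) (i.u c - v.1.co c ^ p ^ n) + Rt.rt p 0)
      (Rt.of p (0 : i.R) (i.u c - w.1.co c ^ p ^ n) + Rt.rt p 0 -
        (Rt.of p (0 : i.R) (i.u c - v.1.co c ^ p ^ n) + Rt.rt p 0)) =
      AdjoinRoot.mk _ (Phi p (Polynomial.C (sig j' c n i v) + Polynomial.X)
        (Polynomial.C (sig j' c n i w - sig j' c n i v))) := by
    rw [map_Phi, map_add, AdjoinRoot.mk_C, AdjoinRoot.mk_C, AdjoinRoot.mk_X, add_sub_add_right_eq_sub,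
      ← map_sub, sig_eq h, sig_eq h]
  refine (congrArg (Rt.coef p (0 : i.R) 1) h4).trans ?_
  rw [Rt.coef_mk_zero _ hp.one_lt, coeff_one_Phi, add_sub_cancel]

end step

end MarkAux

/-- The data of one step: `σ v = u c - v_c^(p^n)`, `pd` and `top` are the coefficients of `t` and
`t^(p-1)` after the shift `u c ↦ u c + t`, `t^p = 0`. -/
theorem exists_stepData [Fact (5 ≤ p)] (hb : b ≤ r) {j j' : Fin 3 → ℕ} {c : Fin 3} {n : ℕ}
    (h : IsStep r j j' c n) (hc : c = 2 → b = 0) :
    ∃ D : StepData (ms B p r b j) (ms B p r b j'), D.inc = incM b h ∧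
      D.l = lamC p (mco B p r b j c hc) n ∧ D.x = xxC p (mco B p r b j c hc) n := by
  have hp : p.Prime := Fact.out
  have h1 := hp.one_lt
  have hr : (incM (B := B) (p := p) b h).IsRing := fun _ => ⟨rfl, fun _ _ => rfl⟩
  have hv : ∀ (f : Cochain (ms B p r b j)) (i : MObj B p r j') (l : List (Pt p r b i.R)),
      ((incM b h).pull f).val ((shiftM b h 1).obj i) (l.map ((shiftM b h 1).vert i)) =
        Rt.of p (0 : i.R) (((incM b h).pull f).val i l) := fun f i l =>
    (inc_robj h f (iobj h i) _ _ (shift_hw h i) l).trans (congrArg _ (inc_val h f i l).symm)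
  refine ⟨
    { inc := incM b h
      ring := hr
      σ := sg0 b h hc
      sp := sg0 b h hc ^ (p - 1)
      A := AC j' c hc n h.hj'.le
      l := lamC p (mco B p r b j c hc) n
      x := xxC p (mco B p r b j c hc) n
      pd := (shiftM b h 1).pull
      top := (shiftM b h (p - 1)).pull
      inj := fun f hf => ?_
      pd_d := (shiftM b h 1).pull_d
      top_d := (shiftM b h (p - 1)).pull_d
      ker_pd := fun F hF => ⟨_, ker_shift h hc F hF⟩
      dec := fun F => ?_
      top_pd := top_shift h hc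
      top_pull := shift_inc h hc (by omega) (by omega)
      pd_pull := shift_inc h hc h1 one_pos
      top_sp := fun e => ?_
      pd_mul_right := fun F f => (shiftM b h 1).pull_mul_right _ _ _ fun i l x => ?_
      pd_mul_left := fun f F => (shiftM b h 1).pull_mul_left _ _ _ fun i l x => ?_
      pd_σ := ?_
      d_σ := ?_
      pd_A := shift_AC h hc
      d_A := ?_
      d_l := d_lamC p _ n
      d_x := d_xxC p _ n }, rfl, rfl, rfl⟩
  · have := exC_term h hc 0 hp.pos f
    rw [pow_zero, one_mul, hf, map_zero, if_pos rfl] at this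
    exact this.symm
  · obtain ⟨G, hG⟩ := dec_aux h hc F
    exact ⟨G, _, hG, top_eq h hc F⟩
  · rw [shift_term h hc (by omega), Nat.choose_self, Nat.sub_self, pow_zero, one_mul, one_smul]
  · refine (congrArg (fun y : Rt p (0 : i.R) =>
      Rt.coef p (0 : i.R) 1 ((show Rt p (0 : i.R) from x) * y)) (hv f i l)).trans ?_
    exact ((congrArg _ (mul_comm _ _)).trans (Rt.coef_of_mul _ _ _ _)).trans (mul_comm _ _)
  · refine (congrArg (fun y : Rt p (0 : i.R) =>
      Rt.coef p (0 : i.R) 1 (y * (show Rt p (0 : i.R) from x))) (hv f i l)).trans ?_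
    exact Rt.coef_of_mul _ _ _ _
  · have := shift_term (B := B) h hc h1 1 1
    rwa [SiteMap.pull_one _ hr, pow_one, mul_one, Nat.choose_self, Nat.sub_self, pow_zero, one_mul,
      one_smul] at this
  · rw [pull_lamC p (incM b h) hr _ (mco B p r b j' c hc) (fun _ _ _ => rfl)]
    exact d_sigC j' c hc n _
  · rw [pull_xxC p (incM b h) hr _ (mco B p r b j' c hc) (fun _ _ _ => rfl)]
    exact d_AC j' c hc n _

/-- The form used later. -/
theorem exists_step [Fact (5 ≤ p)] (hb : b ≤ r) {j j' : Fin 3 → ℕ} {c : Fin 3} {n : ℕ}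
    (h : IsStep r j j' c n) (hc : c = 2 → b = 0) :
    ∃ D : StepData (ms B p r b j) (ms B p r b j'),
      (∀ x, D.rr (RR B p r b j x) = RR B p r b j' x) ∧
      cls D.l = RR B p r b j (lam p (gco B p r b c hc) n) ∧
      cls D.x = RR B p r b j (xx p (gco B p r b c hc) n) := by
  obtain ⟨D, h1, h2, h3⟩ := exists_stepData (B := B) (p := p) hb h hc
  refine ⟨D, fun x => ?_, ?_, ?_⟩
  · obtain ⟨f, hf, rfl⟩ := cls_surj x
    rw [RR_cls j hf, RR_cls j' hf, StepData.rr,
      SiteMap.pullH_cls _ _ ((fgt B p r b j).d_pull_eq_zero hf), h1]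
    congr 1
    ext i l
    rw [inc_val, fgt_val, fgt_val]
  · rw [h2]
    exact (pullA_lam p (fgt B p r b j) (fun _ => ⟨rfl, fun _ _ => rfl⟩) _ _
      (fun _ _ _ => rfl) n).symm
  · rw [h3]
    exact (pullA_xx p (fgt B p r b j) (fun _ => ⟨rfl, fun _ _ => rfl⟩) _ _
      (fun _ _ _ => rfl) n).symm

namespace MarkAux

/-- The cone point. -/
def cpt {j : Fin 3 → ℕ} (h0 : j 0 = 0) (h2 : j 2 = 0) (i : MObj B p r j) : Pt p r 0 i.R :=
  ⟨⟨i.u 0, 0, i.u 2⟩, by simpa [h0] using i.hu 0, by simp, by simpa [h2] using i.hu 2⟩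

lemma cpt_nat {j : Fin 3 → ℕ} (h0 : j 0 = 0) (h2 : j 2 = 0) (i i' : MObj B p r j)
    (φ : i.R →+* i'.R) (m : Pt p r 0 i.R → Pt p r 0 i'.R) (ha : (ms B p r 0 j).Arr i i' φ m) :
    m (cpt h0 h2 i) = cpt h0 h2 i' := by
  obtain ⟨-, g, h3, h4⟩ := ha
  have e0 : i'.u 0 = φ (i.u 0) + g.1.x := by simpa [h0] using h4 0
  have e2 : i'.u 2 = φ (i.u 2) + g.1.z := by simpa [h2] using h4 2
  refine Subtype.ext ?_
  rw [h3]
  ext <;> simp [cpt, e0, e2, g.y_eq_zero, add_comm]

open Classical in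
/-- The cone operator. -/
noncomputable def coneC {j : Fin 3 → ℕ} (h0 : j 0 = 0) (h2 : j 2 = 0)
    (F : Cochain (ms B p r 0 j)) : Cochain (ms B p r 0 j) where
  val i l := if l = [] then 0 else F.val i (cpt h0 h2 i :: l)
  nil _ := if_pos rfl
  bdd := by
    obtain ⟨N, hN⟩ := F.bdd
    refine ⟨N, fun i l hl => ?_⟩
    rw [hN i _ (by rw [List.length_cons]; omega), ite_self]
  nat i i' φ m ha l := by
    by_cases e : l = []
    · subst e
      simp
    · rw [if_neg e, if_neg (by simpa using e), F.nat i i' φ m ha, List.map_cons,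
        cpt_nat h0 h2 i i' φ m ha]

lemma dif_congr {V A : Type*} [AddCommGroup A] (f g : List V → A) (l : List V)
    (hl : 2 ≤ l.length) (h : ∀ t, t ≠ [] → f t = g t) : dif f l = dif g l := by
  refine sum_congr rfl fun k hk => ?_
  rw [mem_range] at hk
  rw [h]
  intro e
  have := List.length_eraseIdx_of_lt hk
  rw [e, List.length_nil] at this
  omega

end MarkAux

/-- At the bottom level for the abelian subgroup the site is a cone. -/
theorem bottom_surj (j : Fin 3 → ℕ) (h0 : j 0 = 0) (h1 : j 1 = r) (h2 : j 2 = 0)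
    (x : H (ms B p r 0 j)) : ∃ c : B, x = RR B p r 0 j ((galg B p r 0).scH c) := by
  obtain ⟨F, hF, rfl⟩ := cls_surj x
  obtain ⟨c, hc⟩ : ∃ c : B, F.val (zobj p r j ⟨B, RingHom.id B⟩) [Pt.one p r 0 B] = c := ⟨_, rfl⟩
  refine ⟨c, ?_⟩
  rw [Site.Alg.scH_apply, RR_cls j (Site.Alg.d_sc _ _),
    cls_eq_iff hF ((fgt B p r 0 j).d_pull_eq_zero (Site.Alg.d_sc _ _))]
  refine ⟨coneC h0 h2 F, ?_⟩
  ext i l
  have key : F.val i l = dif (fun t => F.val i (cpt h0 h2 i :: t)) l := by
    have h3 : (d F).val i (cpt h0 h2 i :: l) = 0 := by rw [hF]; rfl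
    rw [d_val, dif_cons] at h3
    exact sub_eq_zero.1 h3
  have hval : i.φ c = F.val i [cpt h0 h2 i] := by
    have h3 := ms_nat F (zobj p r j ⟨B, RingHom.id B⟩) i i.φ rfl (cpt h0 h2 i) (fun c' => by
      change _ = i.φ 0 + _
      rw [map_zero, zero_add]
      fin_cases c'
      · simp [h0, cpt]
      · simp [h1, cpt, u_eq_zero i h1, zpp]
      · simp [h2, cpt]) [Pt.one p r 0 B]
    rw [hc] at h3
    refine h3.trans (congrArg (fun v => F.val i [v]) (Subtype.ext ?_))
    ext <;> simp [Pt.mul, Pt.map, Pt.one]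
  rw [sub_val, fgt_val, d_val]
  match l, key with
  | [], _ => rw [F.nil, ((galg B p r 0).sc c).nil, sub_zero, dif_nil]
  | [v], key =>
    have h4 : ((galg B p r 0).sc c).val i.toObj [v] = i.φ c := rfl
    rw [h4, hval, key]
    simp [dif, coneC]
  | v :: w :: l, key =>
    have h4 : ((galg B p r 0).sc c).val i.toObj (v :: w :: l) = 0 := rfl
    rw [h4, sub_zero, key]
    exact MarkAux.dif_congr _ _ _ (by simp) fun t ht => by simp [coneC, ht]
theorem RR_scH_eq_zero (j : Fin 3 → ℕ) {c : B} (h : RR B p r b j ((galg B p r b).scH c) = 0) :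
    c = 0 := by
  rw [Site.Alg.scH_apply, RR_cls j (Site.Alg.d_sc _ _),
    cls_eq_zero_iff ((fgt B p r b j).d_pull_eq_zero (Site.Alg.d_sc _ _))] at h
  obtain ⟨e, he⟩ := h
  have h1 := congrArg (fun F : Cochain (ms B p r b j) =>
    F.val (zobj p r j ⟨B, RingHom.id B⟩) [Pt.one p r b B]) he
  refine h1.trans ?_
  change dif (e.val _) [_] = 0
  rw [dif_cons, dif_nil, e.nil, sub_zero]

namespace MarkAux

lemma hu1 {j : Fin 3 → ℕ} (h1 : j 1 = 0) (i : MObj B p r j) : i.u 1 ^ p ^ r = 0 := by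
  simpa [h1] using i.hu 1

/-- The point `v (0, u - y v, 0)`. -/
def rpt {j : Fin 3 → ℕ} (h1 : j 1 = 0) (i : MObj B p r j) (v : Pt p r r i.R) : Pt p r r i.R :=
  ⟨⟨v.1.x, i.u 1, v.1.z + hh p i.R * (v.1.x * (i.u 1 - v.1.y))⟩, v.2.1, hu1 h1 i, by
    change (_ + _) ^ _ = 0
    rw [add_pow_pp (PZ.of_hom i.φ), mul_pow, mul_pow, v.2.1, v.2.2.2]
    simp⟩

/-- The point `(0, -u, 0) v (0, u - y v, 0)` of the abelian subgroup. -/
def tpt {j : Fin 3 → ℕ} (i : MObj B p r j) (v : Pt p r r i.R) : Pt p r 0 i.R :=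
  ⟨⟨v.1.x, 0, v.1.z + hh p i.R * (v.1.x * (2 * i.u 1 - v.1.y))⟩, v.2.1, by simp, by
    change (_ + _) ^ _ = 0
    rw [add_pow_pp (PZ.of_hom i.φ), mul_pow, mul_pow, v.2.1, v.2.2.2]
    simp⟩

/-- The map of sites of the Shapiro lemma. -/
def shM (j : Fin 3 → ℕ) (h1 : j 1 = 0) : SiteMap (ms B p r r j) (gs B p r 0) where
  obj i := i.toObj
  vert i v := tpt i v
  fn _ := AddMonoidHom.id _
  compat i i' φ m ha := by
    obtain ⟨e1, g, e2, e3⟩ := ha
    have e4 := e3 1
    rw [h1, pow_zero, pow_one, Heis.co_one] at e4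
    let g' : Pt p r 0 i'.R :=
      ⟨⟨g.1.x, 0, g.1.z + hh p i'.R * (g.1.x * (2 * φ (i.u 1) + g.1.y))⟩, g.2.1, by simp, by
        change (_ + _) ^ _ = 0
        rw [add_pow_pp (PZ.of_hom i'.φ), mul_pow, mul_pow, g.2.1, g.2.2.2]
        simp⟩
    refine ⟨φ, fun v => Pt.mul (PZ.of_hom i'.φ) g' (v.map φ), ⟨e1, g', fun _ => rfl⟩,
      fun v => Subtype.ext ?_, fun _ => rfl⟩
    ext
    · simp [tpt, Pt.mul, Pt.map, g', e2]
    · simp [tpt, Pt.mul, Pt.map, g']
    · simp only [tpt, Pt.mul, Pt.map, g', e2, e4, Heis.mul_x, Heis.mul_y, Heis.mul_z, Heis.map_x,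
        Heis.map_y, Heis.map_z, map_add, map_mul, map_sub, Heis.map_hh, map_ofNat, map_zero]
      ring

/-- The homotopy of the Shapiro lemma. -/
def shC (j : Fin 3 → ℕ) (h1 : j 1 = 0) : SiteMap (cyl (ms B p r r j)) (gs B p r r) where
  obj i := i.toObj
  vert i v := cond v.2 (rpt h1 i v.1) v.1
  fn _ := AddMonoidHom.id _
  compat i i' φ m ha := by
    obtain ⟨m₀, ⟨e1, g, e2, e3⟩, e5⟩ := ha
    have e4 := e3 1
    rw [h1, pow_zero, pow_one, Heis.co_one] at e4
    refine ⟨φ, fun v => Pt.mul (PZ.of_hom i'.φ) g (v.map φ), ⟨e1, g, fun _ => rfl⟩,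
      fun v => Subtype.ext ?_, fun _ => rfl⟩
    obtain ⟨v, _ | _⟩ := v
    · rw [e5]
      exact e2 v
    · rw [e5]
      change (rpt h1 i' (m₀ v)).1 = g.1 * (rpt h1 i v).1.map φ
      ext
      · simp [rpt, e2]
      · simp [rpt, e4, add_comm]
      · simp only [rpt, e2, e4, Heis.mul_x, Heis.mul_y, Heis.mul_z,
          Heis.map_x, Heis.map_y, Heis.map_z, map_add, map_mul, map_sub, Heis.map_hh]
        ring

end MarkAux

/-- Shapiro: at the bottom level in `y` the marked site sees the abelian subgroup. -/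
theorem exists_shapiro (j : Fin 3 → ℕ) (h0 : j 0 = r) (h1 : j 1 = 0) (h2 : j 2 = r) :
    ∃ Sh : H (gs B p r 0) →+* H (ms B p r r j), ∀ x, Sh (resH B p r x) = RR B p r r j x := by
  have hr : (shM (B := B) (p := p) (r := r) j h1).IsRing := fun _ => ⟨rfl, fun _ _ => rfl⟩
  refine ⟨(shM j h1).pullH hr, fun x => ?_⟩
  obtain ⟨F, hF, rfl⟩ := cls_surj x
  have h4 : resH B p r (cls F) = cls ((resM B p r).pull F) := (resM B p r).pullA_cls hF
  rw [h4, SiteMap.pullH_cls _ _ ((resM B p r).d_pull_eq_zero hF), RR_cls j hF]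
  symm
  refine cls_eq_of_cyl (shC j h1) hF _ _ (fun i l => rfl) fun i l => ?_
  let g : Pt p r r i.R := ⟨⟨0, - i.u 1, 0⟩, zpp _ _, by
    change (- _) ^ _ = 0
    rw [neg_pow_pp (PZ.of_hom i.φ), hu1 h1, neg_zero], zpp _ _⟩
  have h3 := gs_nat F i.toObj i.toObj (RingHom.id _) rfl g (l.map (rpt h1 i))
  change F.val i.toObj ((l.map (tpt i)).map ((resM B p r).vert i.toObj)) =
    F.val i.toObj (l.map (rpt h1 i))
  refine Eq.trans ?_ h3.symm
  refine congrArg (F.val i.toObj) ?_
  refine List.map_map.trans (Eq.trans ?_ List.map_map.symm)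
  refine congrArg (fun m => List.map m l) (funext fun v => Subtype.ext ?_)
  change (tpt i v).1 = g.1 * (rpt h1 i v).1
  ext
  · simp [tpt, rpt, g]
  · simp [tpt, rpt, g]
  · simp only [tpt, rpt, g, Heis.mul_z]
    ring

end Pool.Agent.Lib.MP_5f3851_al
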