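import Pool.Agent.Lib.MP_5f3851_al.Chain

/-! The acyclic model construction: the equivariant diagonal and its uniqueness. -/

set_option linter.unusedSectionVars false

namespace Pool.Agent.Lib.MP_5f3851_al

open Finset

universe u u'

variable {I : Type} [Fintype I] [DecidableEq I] {V : Type u} {V' : Type u'}

/-- Recursion on the length, with fuel. -/
noncomputable def sol1 (Y : List V → Ch I V) (s : ℤ) : ℕ → List V → Ch I V
  | 0, _ => 0
  | _ + 1, [] => 0
  | n + 1, v :: l => HH v (Y (v :: l) + s • dif (sol1 Y s n) (v :: l))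

/-- The solution of `h l = H (Y l + s • dif h l)`, the cone being taken at the first point. -/
noncomputable def sol (Y : List V → Ch I V) (s : ℤ) (l : List V) : Ch I V := sol1 Y s l.length l

lemma sol_nil (Y : List V → Ch I V) (s : ℤ) : sol Y s [] = 0 := rfl
lemma dif_congr {X : Type*} [AddCommGroup X] {f g : List V → X} {l : List V}
    (h : ∀ t : List V, t.length + 1 = l.length → f t = g t) : dif f l = dif g l := by
  refine sum_congr rfl fun a ha => ?_
  rw [mem_range] at ha
  rw [h _ (by rw [List.length_eraseIdx_of_lt ha]; omega)]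

lemma dif_zsmul {X : Type*} [AddCommGroup X] (c : ℤ) (f : List V → X) (l : List V) :
    dif (fun t => c • f t) l = c • dif f l := by
  simp only [dif, smul_sum]
  exact sum_congr rfl fun a _ => smul_comm _ _ _

lemma dif_zero' {X : Type*} [AddCommGroup X] (l : List V) : dif (fun _ => (0 : X)) l = 0 := by
  simp [dif]

lemma lin_dif {X Y : Type*} [AddCommGroup X] [AddCommGroup Y] (A : X →ₗ[ℤ] Y) (f : List V → X)
    (l : List V) : A (dif f l) = dif (fun t => A (f t)) l := map_dif A.toAddMonoidHom f l

lemma sol_cons (Y : List V → Ch I V) (s : ℤ) (v : V) (l : List V) :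
    sol Y s (v :: l) = HH v (Y (v :: l) + s • dif (sol Y s) (v :: l)) := by
  have : dif (sol1 Y s l.length) (v :: l) = dif (sol Y s) (v :: l) :=
    dif_congr fun t ht => by
      have : t.length = l.length := by simpa using ht
      rw [sol, this]
  rw [← this]; rfl
lemma sol_cmap (m : V → V') (Y : List V → Ch I V) (Y' : List V' → Ch I V') (s : ℤ)
    (h : ∀ l, cmap m (Y l) = Y' (l.map m)) (l : List V) :
    cmap m (sol Y s l) = sol Y' s (l.map m) := by
  induction hn : l.length using Nat.strong_induction_on generalizing l with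
  | _ n ih =>
    cases l with
    | nil => simp [sol_nil]
    | cons v l =>
      rw [List.map_cons, sol_cons, sol_cons, cmap_HH, map_add, h, map_zsmul, lin_dif,
        ← List.map_cons, dif_map]
      congr 3
      exact dif_congr fun t ht => ih t.length (by omega) t rfl

/-- The solution of `dd (h j) = X j + T (h (j - 1)) + (-1)^j dif (h j)`. -/
noncomputable def solve (ρ : Equiv.Perm I) (p : ℕ) (X : ℕ → List V → Ch I V) :
    ℕ → List V → Ch I V
  | 0 => sol (X 0) 1
  | j + 1 => sol (fun l => X (j + 1) l + Tq (perm ρ) p j (solve ρ p X j l)) ((-1) ^ (j + 1))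

lemma solve_nil (ρ : Equiv.Perm I) (p : ℕ) (X : ℕ → List V → Ch I V) (j : ℕ) :
    solve ρ p X j [] = 0 := by cases j <;> rfl
lemma solve_cmap (ρ : Equiv.Perm I) (p : ℕ) (m : V → V') (X : ℕ → List V → Ch I V)
    (X' : ℕ → List V' → Ch I V') (h : ∀ j l, cmap m (X j l) = X' j (l.map m)) (j : ℕ)
    (l : List V) : cmap m (solve ρ p X j l) = solve ρ p X' j (l.map m) := by
  induction j generalizing l with
  | zero => exact sol_cmap m _ _ _ (h 0) l
  | succ j ih => exact sol_cmap m _ _ _ (fun t => by rw [map_add, h, cmap_Tq, ih]) l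

lemma sol_spec (Y : List V → Ch I V) (s k : ℤ) (hs : s * s = 1) (hnil : Y [] = 0)
    (hg : ∀ l, Y l ∈ Hg I V (k + l.length))
    (hP : ∀ v l, (k + (v :: l).length : ℤ) = 0 → PP v (Y (v :: l)) = 0)
    (hc : ∀ l, dd (Y l) + s • dif Y l = 0) (l : List V) :
    sol Y s l ∈ Hg I V (k + l.length + 1) ∧ (k + l.length < 0 → sol Y s l = 0) ∧
      dd (sol Y s l) = Y l + s • dif (sol Y s) l := by
  induction hn : l.length using Nat.strong_induction_on generalizing l with
  | _ n ih =>
    subst hn
    cases l with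
    | nil => simp [sol_nil, hnil]
    | cons v l =>
      have ih' := fun t (ht : t.length + 1 = (v :: l).length) => ih t.length (by omega) t rfl
      have hZ : Y (v :: l) + s • dif (sol Y s) (v :: l) ∈ Hg I V (k + (v :: l).length) := by
        refine add_mem (hg _) (zsmul_mem (dif_mem _ _ _ fun t ht => ?_) _)
        have := (ih' t ht).1
        rwa [add_assoc, ← Nat.cast_succ, Nat.succ_eq_add_one, ht] at this
      have hd : dd (Y (v :: l) + s • dif (sol Y s) (v :: l)) = 0 := by
        rw [map_add, map_zsmul, lin_dif, dif_congr fun t ht => (ih' t ht).2.2, dif_add, dif_zsmul,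
          dif_dif, smul_zero, add_zero, hc]
      have hPP : PP v (Y (v :: l) + s • dif (sol Y s) (v :: l)) = 0 := by
        rcases lt_trichotomy (k + (v :: l).length : ℤ) 0 with h | h | h
        · rw [Hg_neg h hZ, map_zero]
        · have : dif (sol Y s) (v :: l) = 0 := by
            rw [dif_congr (g := fun _ => 0) fun t ht => (ih' t ht).2.1 (by omega), dif_zero']
          rw [this, smul_zero, add_zero, hP v l h]
        · exact PP_eq_zero v h hZ
      rw [sol_cons]
      refine ⟨HH_mem v hZ, fun h => by rw [Hg_neg h hZ, map_zero], ?_⟩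
      have := LinearMap.congr_fun (dd_HH (I := I) v) (Y (v :: l) + s • dif (sol Y s) (v :: l))
      rwa [LinearMap.add_apply, Module.End.mul_apply, Module.End.mul_apply, hd, map_zero, add_zero,
        LinearMap.sub_apply, hPP, sub_zero, Module.End.one_apply] at this

lemma Tq_Tp {ρ : Equiv.Perm I} {p : ℕ} (hρ : ρ ^ p = 1) (x : ℕ → Ch I V) (j : ℕ) :
    Tq (perm ρ) p j (Tp (Tq (perm ρ) p) x j) = 0 := by
  cases j with
  | zero => exact map_zero _
  | succ j =>
    have : (perm ρ : Module.End ℤ (Ch I V)) ^ p = 1 := by rw [← perm_pow, hρ, perm_one]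
    exact LinearMap.congr_fun (Tq_mul_Tq this j) (x j)

theorem solve_spec {ρ : Equiv.Perm I} {p : ℕ} (hρ : ρ ^ p = 1) (X : ℕ → List V → Ch I V) (c : ℤ)
    (hnil : ∀ j, X j [] = 0) (hg : ∀ (j : ℕ) l, X j l ∈ Hg I V (j + l.length + c))
    (hP : ∀ (j : ℕ) v l, (j + (v :: l).length + c : ℤ) = 0 → PP v (X j (v :: l)) = 0)
    (hc : ∀ j l, dd (X j l) + Tp (Tq (perm ρ) p) (fun j => X j l) j +
      (-1 : ℤ) ^ j • dif (X j) l = 0) (j : ℕ) (l : List V) :
    solve ρ p X j l ∈ Hg I V (j + l.length + c + 1) ∧
    dd (solve ρ p X j l) = X j l + Tp (Tq (perm ρ) p) (fun j => solve ρ p X j l) j +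
      (-1 : ℤ) ^ j • dif (solve ρ p X j) l := by
  suffices h : ∀ l : List V, solve ρ p X j l ∈ Hg I V (j + c + l.length + 1) ∧
      ((j + c + l.length : ℤ) < 0 → solve ρ p X j l = 0) ∧
      dd (solve ρ p X j l) = X j l + Tp (Tq (perm ρ) p) (fun j => solve ρ p X j l) j +
        (-1 : ℤ) ^ j • dif (solve ρ p X j) l by
    refine ⟨?_, (h l).2.2⟩
    have := (h l).1
    rwa [add_right_comm (j : ℤ) c] at this
  clear l
  induction j with
  | zero =>
    intro l
    have := sol_spec (X 0) 1 ((0 : ℕ) + c) (by simp) (hnil 0)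
      (fun l => by rw [add_right_comm]; exact hg 0 l)
      (fun v l h => hP 0 v l (by rw [add_right_comm]; exact h))
      (fun l => by simpa [Tp] using hc 0 l) l
    simpa [Tp, solve] using this
  | succ j ih =>
    intro l
    have := sol_spec (fun l => X (j + 1) l + Tq (perm ρ) p j (solve ρ p X j l)) ((-1) ^ (j + 1))
      ((j + 1 : ℕ) + c) (by rw [← mul_pow]; simp) (by simp [hnil, solve_nil])
      (fun l => add_mem (by rw [add_right_comm]; exact hg (j + 1) l) (Tq_mem _ _ _ (by
        have := (ih l).1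
        have e : (j + c + l.length + 1 : ℤ) = (j + 1 : ℕ) + c + l.length := by push_cast; ring
        rwa [e] at this)))
      (fun v l h => by
        rw [(ih (v :: l)).2.1 (by push_cast at h ⊢; omega), map_zero, add_zero]
        exact hP (j + 1) v l (by rw [add_right_comm]; exact h))
      (fun l => by
        have h1 : dd (Tq (perm ρ) p j (solve ρ p X j l)) =
            Tq (perm ρ) p j (dd (solve ρ p X j l)) :=
          (LinearMap.congr_fun (Tq_dd ρ p j) _).symm
        have h2 := hc (j + 1) l
        rw [map_add, h1, (ih l).2.2, map_add, map_add, Tq_Tp hρ, map_zsmul, lin_dif, dif_add,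
          smul_add, pow_succ (-1 : ℤ) j, mul_neg_one, neg_smul, neg_smul]
        rw [pow_succ (-1 : ℤ) j, mul_neg_one, neg_smul] at h2
        rw [Tp] at h2
        refine Eq.trans ?_ h2
        abel) l
    exact this

/-- The base chain on lists of length one. -/
noncomputable def b0 : List V → Ch I V
  | [v] => base v
  | _ => 0

/-- The equivariant diagonal. -/
noncomputable def phi (ρ : Equiv.Perm I) (p j : ℕ) (l : List V) : Ch I V :=
  (if j = 0 then b0 l else 0) + solve ρ p (fun j l => if j = 0 then dif b0 l else 0) j l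

/-- The chain map equation. -/
def ChainEq (ρ : Equiv.Perm I) (p : ℕ) (X : ℕ → List V → Ch I V) : Prop :=
  ∀ j l, dd (X j l) = Tp (Tq (perm ρ) p) (fun j => X j l) j + (-1 : ℤ) ^ j • dif (X j) l

lemma phi_nil (ρ : Equiv.Perm I) (p j : ℕ) : phi ρ p j ([] : List V) = 0 := by
  simp [phi, solve_nil, b0]
lemma solve_b0_single (ρ : Equiv.Perm I) (p j : ℕ) (v : V) :
    solve ρ p (fun j l => if j = 0 then dif b0 l else 0) j [v] = (0 : Ch I V) := by
  induction j with
  | zero => rw [solve, sol_cons]; simp [dif, b0, sol_nil]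
  | succ j ih => rw [solve, sol_cons, ih]; simp [dif, sol_nil]

lemma cmap_b0 (m : V → V') (l : List V) : cmap m (b0 l : Ch I V) = b0 (l.map m) := by
  match l with
  | [] => exact map_zero _
  | [v] => exact cmap_base m v
  | _ :: _ :: _ => exact map_zero _

lemma b0_mem (l : List V) : (b0 l : Ch I V) ∈ Hg I V (l.length - 1) := by
  match l with
  | [] => exact zero_mem _
  | [v] => simpa [b0] using base_mem v
  | _ :: _ :: _ => exact zero_mem _

lemma dd_b0 (l : List V) : dd (b0 l : Ch I V) = 0 := by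
  match l with
  | [] => exact map_zero _
  | [v] => exact dd_base v
  | _ :: _ :: _ => exact map_zero _

lemma Tq_b0 (ρ : Equiv.Perm I) (p : ℕ) (l : List V) : Tq (perm ρ) p 0 (b0 l : Ch I V) = 0 := by
  match l with
  | [] => exact map_zero _
  | [v] => simp [Tq, b0, perm_base]
  | _ :: _ :: _ => exact map_zero _

lemma solve_b0_spec {ρ : Equiv.Perm I} {p : ℕ} (hρ : ρ ^ p = 1) (j : ℕ) (l : List V) :
    solve ρ p (fun j l => if j = 0 then dif b0 l else 0) j l ∈
      Hg I V (j + l.length + (-2) + 1) ∧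
    dd (solve ρ p (fun j l => if j = 0 then dif b0 l else 0) j l) =
      (if j = 0 then dif b0 l else 0) + Tp (Tq (perm ρ) p)
        (fun j => solve ρ p (fun j l => if j = 0 then dif b0 l else 0) j l) j +
      (-1 : ℤ) ^ j • dif (solve ρ p (fun j l => if j = 0 then dif b0 l else 0) j) l := by
  refine solve_spec hρ _ (-2) (fun j => by simp) (fun j l => ?_) (fun j v l h => ?_)
    (fun j l => ?_) j l
  · split_ifs with hj
    · refine dif_mem _ _ _ fun t ht => ?_
      have := b0_mem (I := I) t
      have e : (t.length - 1 : ℤ) = (j + l.length + (-2) : ℤ) := by omega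
      rwa [e] at this
    · exact zero_mem _
  · split_ifs with hj
    · obtain ⟨u, rfl⟩ : ∃ u, l = [u] :=
        List.length_eq_one_iff.1 (by rw [List.length_cons] at h; omega)
      simp [dif, sum_range_succ, b0, PP_base]
    · exact map_zero _
  · match j with
    | 0 => simp [Tp, lin_dif, dd_b0, dif_zero', dif_dif]
    | 1 => simp [Tp, lin_dif, Tq_b0, dif_zero']
    | j + 2 => simp [Tp, dif_zero']

lemma phi_zero_single (ρ : Equiv.Perm I) (p : ℕ) (v : V) : phi ρ p 0 [v] = base v := by
  simp [phi, solve_b0_single, b0]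
lemma phi_succ_single (ρ : Equiv.Perm I) (p j : ℕ) (v : V) : phi ρ p (j + 1) [v] = 0 := by
  simp [phi, solve_b0_single]
lemma phi_cmap (ρ : Equiv.Perm I) (p j : ℕ) (m : V → V') (l : List V) :
    cmap m (phi ρ p j l) = phi ρ p j (l.map m) := by
  rw [phi, phi, map_add, solve_cmap ρ p m _ (fun j l => if j = 0 then dif b0 l else 0)]
  · split_ifs
    · rw [cmap_b0]
    · rw [map_zero]
  · intro j l
    split_ifs
    · rw [lin_dif, dif_map]; exact dif_congr fun t _ => cmap_b0 m t
    · rw [map_zero]
lemma phi_mem {ρ : Equiv.Perm I} {p : ℕ} (hρ : ρ ^ p = 1) (j : ℕ) (l : List V) :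
    phi ρ p j l ∈ Hg I V (j + l.length - 1) := by
  refine add_mem ?_ ?_
  · split_ifs with hj
    · subst hj; simpa using b0_mem l
    · exact zero_mem _
  · have := (solve_b0_spec hρ j l).1
    have e : (j + l.length + (-2) + 1 : ℤ) = j + l.length - 1 := by ring
    rwa [e] at this
lemma phi_eq {ρ : Equiv.Perm I} {p : ℕ} (hρ : ρ ^ p = 1) :
    ChainEq ρ p (phi ρ p : ℕ → List V → Ch I V) := by
  intro j l
  have h := (solve_b0_spec hρ j l).2
  have e : phi ρ p j = fun l : List V => (if j = 0 then b0 l else 0) +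
      solve ρ p (fun j l => if j = 0 then dif b0 l else 0) j l := rfl
  rw [e, dif_add, map_add, h]
  match j with
  | 0 => simp [Tp, dd_b0]
  | 1 => simp [Tp, phi, Tq_b0, dif_zero']
  | j + 2 => simp [Tp, phi, dif_zero']
lemma ChainEq.sub {ρ : Equiv.Perm I} {p : ℕ} {X Y : ℕ → List V → Ch I V} (hX : ChainEq ρ p X)
    (hY : ChainEq ρ p Y) : ChainEq ρ p fun j l => X j l - Y j l := by
  intro j l
  rw [map_sub, hX, hY, dif_sub, smul_sub]
  cases j with
  | zero => simp [Tp]
  | succ j => simp only [Tp, map_sub]; abel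

/-- The null-homotopy of a chain map that vanishes on vertices. -/
noncomputable def hty (ρ : Equiv.Perm I) (p : ℕ) (X : ℕ → List V → Ch I V) :
    ℕ → List V → Ch I V := solve ρ p fun j l => (-1 : ℤ) ^ (j + l.length) • X j l

lemma hty_nil (ρ : Equiv.Perm I) (p : ℕ) (X : ℕ → List V → Ch I V) (j : ℕ) :
    hty ρ p X j [] = 0 := solve_nil _ _ _ _
lemma hty_cmap (ρ : Equiv.Perm I) (p : ℕ) (m : V → V') (X : ℕ → List V → Ch I V)
    (X' : ℕ → List V' → Ch I V') (h : ∀ j l, cmap m (X j l) = X' j (l.map m)) (j : ℕ)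
    (l : List V) : cmap m (hty ρ p X j l) = hty ρ p X' j (l.map m) := by
  exact solve_cmap ρ p m _ _ (fun j l => by rw [map_zsmul, h, List.length_map]) j l
theorem hty_spec {ρ : Equiv.Perm I} {p : ℕ} (hρ : ρ ^ p = 1) (X : ℕ → List V → Ch I V)
    (hnil : ∀ j, X j [] = 0) (hg : ∀ (j : ℕ) l, X j l ∈ Hg I V (j + l.length - 1))
    (h0 : ∀ v, X 0 [v] = 0) (hc : ChainEq ρ p X) (j : ℕ) (l : List V) :
    (-1 : ℤ) ^ (j + l.length) • X j l = dd (hty ρ p X j l) -
      Tp (Tq (perm ρ) p) (fun j => hty ρ p X j l) j - (-1 : ℤ) ^ j • dif (hty ρ p X j) l := by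
  have := (solve_spec hρ (fun j l => (-1 : ℤ) ^ (j + l.length) • X j l) (-1)
    (fun j => by simp [hnil])
    (fun j l => zsmul_mem (by rw [← sub_eq_add_neg]; exact hg j l) _) (fun j v l h => ?_)
    (fun j l => ?_) j l).2
  · rw [hty, this]; abel
  · have hj : j = 0 := by rw [List.length_cons] at h; omega
    have hl : l = [] := List.length_eq_zero_iff.1 (by rw [List.length_cons] at h; omega)
    subst hj hl
    simp [h0]
  · have h1 : dif (fun l => (-1 : ℤ) ^ (j + l.length) • X j l) l =
        -((-1 : ℤ) ^ (j + l.length) • dif (X j) l) := by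
      rw [← neg_smul, ← dif_zsmul]
      refine dif_congr fun t ht => ?_
      rw [← ht, ← add_assoc, pow_succ]; simp
    rw [h1, map_zsmul, hc j l, smul_add, smul_neg, smul_comm ((-1 : ℤ) ^ j)]
    cases j with
    | zero => simp [Tp]
    | succ j =>
      simp only [Tp, map_zsmul]
      rw [add_right_comm j 1, pow_succ (-1 : ℤ) (j + l.length)]
      simp

end Pool.Agent.Lib.MP_5f3851_al
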