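import Pool.Agent.Lib.MP_5f3851_al.Maps
import Pool.Agent.Lib.MP_5f3851_al.Solve

/-! Steenrod operations on cochains and on classes. -/

set_option linter.unusedSectionVars false

namespace Pool.Agent.Lib.MP_5f3851_al

open Finset Cochain

universe u v

variable {I : Type} [Fintype I] [DecidableEq I] {S S' : Site.{u, v}}

/-- A chain attached to every list, naturally in the set of points. -/
structure NatFam (I : Type) [Fintype I] [DecidableEq I] where
  val : ∀ V : Type u, List V → Ch I V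
  nat : ∀ (V V' : Type u) (m : V → V') (l : List V), cmap m (val V l) = val V' (l.map m)

/-- The cochain of degree `N` obtained by pairing a family of cochains with a natural family. -/
noncomputable def pairC (F : I → Cochain S) (τ : EA I →ₗ[ℤ] ℤ) (x : NatFam.{u} I) (N : ℕ) :
    Cochain S where
  val i l := if l.length = N + 1 then pair (fun k => (F k).val i) τ (x.val _ l) else 0
  nil i := by simp
  bdd := ⟨N + 1, fun i l h => by simp [h.ne']⟩
  nat i j φ m h l := by
    by_cases hl : l.length = N + 1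
    · have := pair_cmap φ m (fun k => (F k).val i) (fun k => (F k).val j) (fun _ => 1)
        (fun k t => by rw [one_mul, (F k).nat i j φ m h]) τ (x.val _ l)
      rw [List.length_map, if_pos hl, if_pos hl, ← x.nat, this]
      simp
    · rw [List.length_map, if_neg hl, if_neg hl, map_zero]

lemma pairC_val (F : I → Cochain S) (τ : EA I →ₗ[ℤ] ℤ) (x : NatFam.{u} I) (N : ℕ) (i : S.ι)
    (l : List (S.V i)) : (pairC F τ x N).val i l =
      if l.length = N + 1 then pair (fun k => (F k).val i) τ (x.val _ l) else 0 := rfl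
lemma pairC_hom (F : I → Cochain S) (τ : EA I →ₗ[ℤ] ℤ) (x : NatFam.{u} I) (N : ℕ) :
    Hom N (pairC F τ x N) := by
  exact fun i l h => if_neg h
lemma d_pairC_val (F : I → Cochain S) (τ : EA I →ₗ[ℤ] ℤ) (x : NatFam.{u} I) (N : ℕ) (i : S.ι)
    (l : List (S.V i)) (hx : x.val (S.V i) [] = 0) : (d (pairC F τ x N)).val i l =
      if l.length = N + 2 then pair (fun k => (F k).val i) τ (dif (x.val _) l) else 0 := by
  have _ := hx
  rw [d_val]
  split_ifs with hl
  · rw [ChainAux.lin_dif]
    refine sum_congr rfl fun a ha => ?_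
    rw [pairC_val, if_pos (by rw [List.length_eraseIdx_of_lt (mem_range.1 ha)]; omega)]
  · refine sum_eq_zero fun a ha => ?_
    have h1 := mem_range.1 ha
    rw [pairC_val, if_neg (by rw [List.length_eraseIdx_of_lt h1]; omega), smul_zero]

namespace SteenAux

lemma sign_cancel {X : Type*} [AddCommGroup X] (j : ℕ) (x : X) :
    (-1 : ℤ) ^ j • (-1 : ℤ) ^ j • x = x := by
  rw [smul_smul, ← mul_pow]
  simp

lemma pair_Tp {V : Type u} {R : Type*} [CommRing R] (L : Ch I V →ₗ[ℤ] R)
    (T : ℕ → Module.End ℤ (Ch I V)) (hT : ∀ j x, L (T j x) = 0) (x : ℕ → Ch I V) (j : ℕ) :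
    L (Tp T x j) = 0 := by
  cases j with
  | zero => exact map_zero L
  | succ j => exact hT j _

lemma pair_dd_cocycle (F : I → Cochain S) (hF : ∀ k, d (F k) = 0) (τ : EA I →ₗ[ℤ] ℤ) (i : S.ι)
    (x : Ch I (S.V i)) : pair (fun k => (F k).val i) τ (dd x) = 0 :=
  pair_dd_eq_zero _ (fun k => (F k).nil i)
    (fun k l => by rw [← d_val, hF k, zero_val]) τ x

/-- The coboundary of a natural family. -/
noncomputable def difN (x : NatFam.{u} I) : NatFam.{u} I :=
  ⟨fun V l => dif (x.val V) l, fun V V' m l => by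
    rw [ChainAux.lin_dif, dif_map]
    exact congrArg (fun g => dif g l) (funext fun t => x.nat V V' m t)⟩

lemma difN_mem (F : I → Cochain S) (τ : EA I →ₗ[ℤ] ℤ) (x : NatFam.{u} I)
    (hx : ∀ V, x.val V [] = 0) (N : ℕ) :
    pairC F τ (difN x) N ∈ (dA : Cochain S →+ Cochain S).range := by
  cases N with
  | zero =>
    refine ⟨0, ?_⟩
    rw [map_zero]
    ext i l
    rw [pairC_val, zero_val]
    split_ifs with hl
    · obtain ⟨v, rfl⟩ := List.length_eq_one_iff.1 hl
      have e : (difN x).val (S.V i) [v] = 0 := by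
        change dif (x.val _) [v] = 0
        simp [dif, hx]
      rw [e, map_zero]
    · rfl
  | succ N =>
    refine ⟨pairC F τ x N, ?_⟩
    ext i l
    exact d_pairC_val F τ x N i l (hx _)

lemma cls_eq_of_mem {f g : Cochain S} (hf : d f = 0) (hg : d g = 0)
    (h : f - g ∈ (dA : Cochain S →+ Cochain S).range) : cls f = cls g := by
  obtain ⟨e, he⟩ := h
  exact (cls_eq_iff hf hg).2 ⟨e, he.symm⟩

/-- A family in degree zero, extended by zero. -/
noncomputable def ext0 (x : NatFam.{u} I) : ℕ → NatFam.{u} I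
  | 0 => x
  | _ + 1 => ⟨fun _ _ => 0, fun _ _ m _ => map_zero (cmap m)⟩

lemma ext0_nil (x : NatFam.{u} I) (h : ∀ V, x.val V [] = 0) (j : ℕ) (V : Type u) :
    (ext0 x j).val V [] = 0 := by
  cases j with
  | zero => exact h V
  | succ j => rfl

lemma ext0_mem (x : NatFam.{u} I) (h : ∀ V l, x.val V l ∈ Hg I V (l.length - 1)) (j : ℕ)
    (V : Type u) (l : List V) : (ext0 x j).val V l ∈ Hg I V (j + l.length - 1) := by
  cases j with
  | zero =>
    rw [Nat.cast_zero, zero_add]
    exact h V l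
  | succ j => exact zero_mem _

lemma ext0_eq (x : NatFam.{u} I) (h : ∀ V l, dd (x.val V l) = dif (x.val V) l) (V : Type u) :
    ChainEq 1 0 fun j => (ext0 x j).val V := by
  intro j l
  cases j with
  | zero =>
    change dd (x.val V l) = 0 + (-1 : ℤ) ^ 0 • dif (x.val V) l
    rw [h, pow_zero, one_smul, zero_add]
  | succ j =>
    change dd 0 = Tq (perm 1) 0 j ((ext0 x j).val V l) + (-1 : ℤ) ^ (j + 1) • dif (fun _ => 0) l
    rw [perm_one, Tq_one_zero]
    simp [dif]

end SteenAux

open SteenAux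

/-- A natural chain map, paired with invariant cocycles, gives a cocycle. -/
lemma d_pairC_eq_zero {ρ : Equiv.Perm I} {p : ℕ} (X : ℕ → NatFam.{u} I)
    (hnil : ∀ j V, (X j).val V [] = 0) (hc : ∀ V, ChainEq ρ p fun j => (X j).val V)
    (F : I → Cochain S) (hF : ∀ k, d (F k) = 0) (τ : EA I →ₗ[ℤ] ℤ)
    (hT : ∀ i j x, pair (fun k => (F k).val i) τ (Tq (perm ρ) p j x) = 0) (j N : ℕ) :
    d (pairC F τ (X j) N) = 0 := by
  ext i l
  rw [d_pairC_val F τ (X j) N i l (hnil j _), zero_val]
  split_ifs with hl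
  · have h1 := congrArg (pair (fun k => (F k).val i) τ) (hc (S.V i) j l)
    rw [pair_dd_cocycle F hF, map_add, pair_Tp _ _ (hT i), zero_add, map_zsmul] at h1
    rw [← sign_cancel j (pair _ τ _), ← h1, smul_zero]
  · rfl

/-- Uniqueness: two natural chain maps that agree on vertices give cohomologous cochains. -/
theorem cls_pairC_eq {ρ : Equiv.Perm I} {p : ℕ} (hρ : ρ ^ p = 1) (X Y : ℕ → NatFam.{u} I)
    (hXnil : ∀ j V, (X j).val V [] = 0) (hYnil : ∀ j V, (Y j).val V [] = 0)
    (hXg : ∀ (j : ℕ) V l, (X j).val V l ∈ Hg I V (j + l.length - 1))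
    (hYg : ∀ (j : ℕ) V l, (Y j).val V l ∈ Hg I V (j + l.length - 1))
    (hXc : ∀ V, ChainEq ρ p fun j => (X j).val V) (hYc : ∀ V, ChainEq ρ p fun j => (Y j).val V)
    (h0 : ∀ V v, (X 0).val V [v] = (Y 0).val V [v])
    (F : I → Cochain S) (hF : ∀ k, d (F k) = 0) (τ : EA I →ₗ[ℤ] ℤ)
    (hT : ∀ i j x, pair (fun k => (F k).val i) τ (Tq (perm ρ) p j x) = 0) (j N : ℕ) :
    cls (pairC F τ (X j) N) = cls (pairC F τ (Y j) N) := by
  let h : NatFam.{u} I :=
    ⟨fun V l => hty ρ p (fun j l => (X j).val V l - (Y j).val V l) j l, fun V V' m l =>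
      hty_cmap ρ p m _ _ (fun j l => by rw [map_sub, (X j).nat, (Y j).nat]) j l⟩
  refine cls_eq_of_mem (d_pairC_eq_zero X hXnil hXc F hF τ hT j N)
    (d_pairC_eq_zero Y hYnil hYc F hF τ hT j N) ?_
  have e : pairC F τ (X j) N - pairC F τ (Y j) N =
      (-(-1 : ℤ) ^ (N + 1)) • pairC F τ (difN h) N := by
    ext i l
    rw [sub_val, zsmul_val, pairC_val, pairC_val, pairC_val]
    split_ifs with hl
    · have h1 := congrArg (pair (fun k => (F k).val i) τ)
        (hty_spec hρ (fun j l => (X j).val (S.V i) l - (Y j).val (S.V i) l)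
          (fun j => by rw [hXnil, hYnil, sub_zero])
          (fun j l => sub_mem (hXg j _ l) (hYg j _ l))
          (fun v => by rw [h0, sub_self]) ((hXc _).sub (hYc _)) j l)
      rw [map_sub, map_sub, pair_dd_cocycle F hF, pair_Tp _ _ (hT i), sub_zero, zero_sub,
        map_zsmul, map_zsmul, map_sub, hl] at h1
      rw [← sign_cancel (j + (N + 1)) (_ - _), h1, smul_neg, pow_add, mul_comm, mul_smul,
        sign_cancel, neg_smul]
      rfl
    · simp
  rw [e]
  exact zsmul_mem (difN_mem F τ h (fun V => hty_nil _ _ _ _) N) _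

/-- The case of plain chain maps, without a group. -/
theorem cls_pairC_eq_plain (X Y : NatFam.{u} I)
    (hXnil : ∀ V, X.val V [] = 0) (hYnil : ∀ V, Y.val V [] = 0)
    (hXg : ∀ V l, X.val V l ∈ Hg I V (l.length - 1))
    (hYg : ∀ V l, Y.val V l ∈ Hg I V (l.length - 1))
    (hXc : ∀ V l, dd (X.val V l) = dif (X.val V) l) (hYc : ∀ V l, dd (Y.val V l) = dif (Y.val V) l)
    (h0 : ∀ V v, X.val V [v] = Y.val V [v])
    (F : I → Cochain S) (hF : ∀ k, d (F k) = 0) (τ : EA I →ₗ[ℤ] ℤ) (N : ℕ) :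
    cls (pairC F τ X N) = cls (pairC F τ Y N) := by
  exact cls_pairC_eq (ρ := 1) (p := 0) (pow_zero _) (ext0 X) (ext0 Y) (ext0_nil X hXnil)
    (ext0_nil Y hYnil) (ext0_mem X hXg) (ext0_mem Y hYg) (ext0_eq X hXc) (ext0_eq Y hYc) h0 F hF τ
    (fun i j x => by rw [perm_one, Tq_one_zero, LinearMap.zero_apply, map_zero]) 0 N

/-- The cyclic permutation of `ZMod p`. -/
def rot (p : ℕ) : Equiv.Perm (ZMod p) := Equiv.addRight 1

variable (p : ℕ) [Fact p.Prime] [Fact (5 ≤ p)]

lemma odd_p : Odd p := (Fact.out : p.Prime).odd_of_ne_two (by have : 5 ≤ p := Fact.out; omega)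
lemma SteenAux.rot_pow_apply (k : ℕ) (x : ZMod p) : (rot p ^ k) x = x + k := by
  induction k with
  | zero => simp
  | succ k ih =>
    rw [pow_succ', Equiv.Perm.mul_apply, ih, Nat.cast_succ, ← add_assoc]
    rfl
lemma SteenAux.sum_cast {X : Type*} [AddCommMonoid X] (G : ZMod p → X) :
    ∑ k ∈ range p, G (k : ZMod p) = ∑ i, G i := by
  refine sum_nbij' (fun k => (k : ZMod p)) (fun a => a.val) (fun _ _ => mem_univ _)
    (fun a _ => mem_range.2 (ZMod.val_lt a)) (fun k hk => ZMod.val_cast_of_lt (mem_range.1 hk))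
    (fun a _ => ZMod.natCast_zmod_val a) (fun _ _ => rfl)
lemma rot_pow : rot p ^ p = 1 := by
  ext x
  rw [rot_pow_apply, ZMod.natCast_self, add_zero, Equiv.Perm.one_apply]
lemma sum_rot {X : Type*} [AddCommMonoid X] (G : ZMod p → X) :
    ∑ k ∈ range p, G ((rot p ^ k) 0) = ∑ i, G i := by
  simp only [rot_pow_apply, zero_add]
  exact sum_cast p G

/-- The equivariant diagonal as a natural family. -/
noncomputable def phiN (j : ℕ) : NatFam.{u} (ZMod p) :=
  ⟨fun _ l => phi (rot p) p j l, fun _ _ m l => phi_cmap _ _ _ m l⟩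

/-- The cochain operation `D_j` on cochains of degree `n`. -/
noncomputable def Dop (n j : ℕ) (f : Cochain S) : Cochain S :=
  pairC (fun _ => f) (tau (ZMod p) n) (phiN p j) (n * p - j)

lemma Dop_hom (n j : ℕ) (f : Cochain S) : Hom (n * p - j) (Dop p n j f) := pairC_hom _ _ _ _
lemma pair_Tq_rot {V : Type u} {R : Type*} [CommRing R] (hp : (p : R) = 0) (f : List V → R)
    (n j : ℕ) (x : Ch (ZMod p) V) :
    pair (fun _ => f) (tau (ZMod p) n) (Tq (perm (rot p)) p j x) = 0 := by
  exact pair_Tq _ _ _ p hp rfl (tau_emap (odd_p p) (rot_pow p) n) j x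
lemma d_Dop [CharS S p] (n j : ℕ) {f : Cochain S} (hf : d f = 0) : d (Dop p n j f) = 0 := by
  exact d_pairC_eq_zero (phiN p) (fun j V => phi_nil _ _ _) (fun V => phi_eq (rot_pow p)) _
    (fun _ => hf) _ (fun i j x => pair_Tq_rot p (CharS.out i) _ n j x) j _
lemma Dop_val {n : ℕ} (j : ℕ) {f : Cochain S} (hf : Hom n f) (i : S.ι) (l : List (S.V i)) :
    (Dop p n j f).val i l = pair (fun _ => f.val i) (tau (ZMod p) n) (phi (rot p) p j l) := by
  rw [Dop, pairC_val]
  split_ifs with hl
  · rfl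
  · cases l with
    | nil => rw [phi_nil, map_zero]
    | cons v l =>
      refine (pair_Hg _ (fun _ => n) (fun _ => hf i) _ ?_ (phi_mem (rot_pow p) j (v :: l))).symm
      rw [sum_const, card_univ, ZMod.card, smul_eq_mul, mul_comm]
      rw [List.length_cons] at hl ⊢
      omega
lemma Dop_zero (n j : ℕ) : Dop p n j (0 : Cochain S) = 0 := by
  ext i l
  rw [Dop, pairC_val, zero_val]
  split_ifs
  · exact pair_eq_zero_of_slot _ 0 (fun _ => rfl) _ _
  · rfl
lemma SteenAux.map_pair_cmap {V V' : Type u} {R R' : Type*} [CommRing R] [CommRing R']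
    (φ : R →+* R') (m : V → V') (F : I → List V' → R) (τ : EA I →ₗ[ℤ] ℤ) (x : Ch I V) :
    φ (pair F τ (cmap m x)) = pair (fun k t => φ (F k (t.map m))) τ x := by
  induction x using ChainAux.ch_ind with
  | h0 => simp
  | ha x y a b => simp only [map_add, a, b]
  | hg w e => simp only [cmap_gen, pair_gen, map_zsmul, map_prod]
lemma pull_Dop (T : SiteMap S S') (hT : T.IsRing) (n j : ℕ) (f : Cochain S') :
    T.pull (Dop p n j f) = Dop p n j (T.pull f) := by
  ext i l
  rw [SiteMap.pull_val, Dop, Dop, pairC_val, pairC_val, List.length_map]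
  split_ifs
  · rw [← (phiN p j).nat]
    exact map_pair_cmap (T.ringFn hT i) _ _ _ _
  · exact map_zero _
/-- Weights are multiplied by `p`. -/
lemma Dop_scale (n j : ℕ) (f : Cochain S) (i : S.ι) (m : S.V i → S.V i) (c : S.R i)
    (h : ∀ l, f.val i (l.map m) = c * f.val i l) (l : List (S.V i)) :
    (Dop p n j f).val i (l.map m) = c ^ p * (Dop p n j f).val i l := by
  rw [Dop, pairC_val, pairC_val, List.length_map]
  split_ifs
  · rw [← (phiN p j).nat, pair_cmap (RingHom.id _) m (fun _ => f.val i) (fun _ => f.val i)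
      (fun _ => c) (fun _ => h), prod_const, card_univ, ZMod.card]
    rfl
  · rw [mul_zero]
namespace SteenAux

/-- `f` on `A` and `g` off `A`. -/
def mix {α : Type*} (A : Finset I) (f g : α) (k : I) : α := if k ∈ A then f else g

lemma mix_val (A : Finset I) (f g : Cochain S) (i : S.ι) :
    (fun k => (mix A f g k).val i) = mix A (f.val i) (g.val i) := by
  funext k
  unfold mix
  split_ifs <;> rfl

lemma d_mix (A : Finset I) {f g : Cochain S} (hf : d f = 0) (hg : d g = 0) (k : I) :
    d (mix A f g k) = 0 := by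
  unfold mix
  split_ifs <;> assumption

lemma mix_map {α : Type*} (A : Finset I) (f g : α) (σ : Equiv.Perm I) :
    mix (A.map σ.toEmbedding) f g ∘ σ = mix A f g := by
  funext k
  simp [mix]

lemma pair_add {V : Type u} {R : Type*} [CommRing R] (f g : List V → R) (τ : EA I →ₗ[ℤ] ℤ)
    (x : Ch I V) :
    pair (fun _ l => f l + g l) τ x = ∑ A : Finset I, pair (mix A f g) τ x := by
  induction x using ChainAux.ch_ind with
  | h0 => simp
  | ha x y a b => simp only [map_add, a, b, sum_add_distrib]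
  | hg w e =>
    simp only [pair_gen]
    rw [← smul_sum, Fintype.prod_add]
    congr 1
    refine sum_congr rfl fun A _ => ?_
    rw [← prod_mul_prod_compl A]
    congr 1
    · exact prod_congr rfl fun k hk => by rw [mix, if_pos hk]
    · exact prod_congr rfl fun k hk => by rw [mix, if_neg (mem_compl.1 hk)]

/-- The operator whose product with `Tq` is the norm modulo `p`. -/
noncomputable def Tr {A : Type*} [Ring A] (s : A) (q j : ℕ) : A :=
  if Even j then - ∑ i ∈ range q, (i : ℤ) • s ^ i else 1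

lemma wsum_mul {A : Type*} [Ring A] (s : A) (n : ℕ) :
    (∑ i ∈ range n, (i : ℤ) • s ^ i) * (s - 1) = (n : ℤ) • s ^ n - ∑ i ∈ range n, s ^ (i + 1) := by
  induction n with
  | zero => simp
  | succ n ih =>
    rw [sum_range_succ, sum_range_succ, add_mul, ih, smul_mul_assoc, mul_sub, mul_one, ← pow_succ,
      smul_sub, Nat.cast_succ, add_smul, one_smul]
    abel

lemma Tr_mul_Tq {A : Type*} [Ring A] {s : A} {q : ℕ} (h : s ^ q = 1) (j : ℕ) :
    ∃ c : ℤ, Tr s q j * Tq s q j = ∑ i ∈ range q, s ^ i - ((q : ℤ) * c) • (1 : A) := by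
  unfold Tr Tq
  split_ifs
  · refine ⟨1, ?_⟩
    have h1 : ∑ i ∈ range q, s ^ (i + 1) = ∑ i ∈ range q, s ^ i := by
      have h2 := (sum_range_succ' (fun i => s ^ i) q).symm.trans (sum_range_succ (fun i => s ^ i) q)
      rw [h, pow_zero] at h2
      exact add_right_cancel h2
    rw [neg_mul, wsum_mul, h, h1, mul_one, neg_sub]
  · exact ⟨0, by simp⟩

lemma map_Tr {X Y : Type*} [AddCommGroup X] [AddCommGroup Y] (φ : X →ₗ[ℤ] Y)
    {s : Module.End ℤ X} {s' : Module.End ℤ Y} (h : ∀ x, φ (s x) = s' (φ x)) (q j : ℕ) (x : X) :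
    φ (Tr s q j x) = Tr s' q j (φ x) := by
  have hp : ∀ n x, φ ((s ^ n) x) = (s' ^ n) (φ x) := by
    intro n
    induction n with
    | zero => intro x; rfl
    | succ n ih => intro x; simp only [pow_succ, Module.End.mul_apply, ih, h]
  unfold Tr
  split_ifs
  · simp only [LinearMap.neg_apply, LinearMap.sum_apply, LinearMap.smul_apply, map_neg, map_sum,
      map_zsmul, hp]
  · rfl

lemma card_pow_smul {R : Type*} [CommRing R] (hp : (p : R) = 0) (A : Finset (ZMod p)) (y : R) :
    A.card • ((A.card : ℤ) ^ (p - 2) • y) =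
      y - (if A = ∅ then y else 0) - (if A = univ then y else 0) := by
  have h5 : 5 ≤ p := Fact.out
  have hne : (univ : Finset (ZMod p)) ≠ ∅ := univ_nonempty.ne_empty
  by_cases h0 : A = ∅
  · subst h0
    simp [hne.symm]
  by_cases h1 : A = univ
  · subst h1
    rw [card_univ, ZMod.card, nsmul_eq_mul, hp, zero_mul, if_neg hne, if_pos rfl, sub_zero,
      sub_self]
  have h2 : 0 < A.card := card_pos.2 (nonempty_iff_ne_empty.2 h0)
  have h3 : A.card < p := by
    have := (card_lt_iff_ne_univ A).2 h1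
    rwa [ZMod.card] at this
  have h4 : ((A.card : ℕ) : ZMod p) ≠ 0 := by
    rw [Ne, ZMod.natCast_eq_zero_iff]
    exact Nat.not_dvd_of_pos_of_lt h2 h3
  have h6 : (p : ℤ) ∣ (A.card : ℤ) * (A.card : ℤ) ^ (p - 2) - 1 := by
    rw [← ZMod.intCast_zmod_eq_zero_iff_dvd, ← pow_succ', show p - 2 + 1 = p - 1 by omega]
    push_cast
    rw [ZMod.pow_card_sub_one_eq_one h4, sub_self]
  obtain ⟨c, hc⟩ := h6
  rw [if_neg h0, if_neg h1, sub_zero, sub_zero, ← natCast_zsmul, smul_smul,
    eq_add_of_sub_eq hc, add_smul, one_smul, mul_smul, natCast_zsmul, nsmul_eq_mul, hp, zero_mul,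
    zero_add]

/-- The cross terms are the transfer of a sum over subsets that contain `0`. -/
lemma cross_eq {V : Type u} {R : Type*} [CommRing R] (hp : (p : R) = 0) (f g : List V → R) (n : ℕ)
    (x : Ch (ZMod p) V) :
    ∑ A : Finset (ZMod p), (if 0 ∈ A then (A.card : ℤ) ^ (p - 2) else 0) •
        pair (mix A f g) (tau (ZMod p) n) ((∑ k ∈ range p, perm (rot p) ^ k) x) =
      pair (fun _ l => f l + g l) (tau (ZMod p) n) x - pair (fun _ => g) (tau (ZMod p) n) x -
        pair (fun _ => f) (tau (ZMod p) n) x := by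
  have h1 : ∀ k : ℕ, ∑ A : Finset (ZMod p), (if 0 ∈ A then (A.card : ℤ) ^ (p - 2) else 0) •
      pair (mix A f g) (tau (ZMod p) n) ((perm (rot p) ^ k) x) =
      ∑ A : Finset (ZMod p), (if -(k : ZMod p) ∈ A then (A.card : ℤ) ^ (p - 2) else 0) •
        pair (mix A f g) (tau (ZMod p) n) x := by
    intro k
    have hk : (rot p ^ k) ^ p = 1 := by rw [← pow_mul, mul_comm, pow_mul, rot_pow, one_pow]
    have hτ : tau (ZMod p) n ∘ₗ (emap (rot p ^ k : Equiv.Perm (ZMod p))).toLinearMap =
        tau (ZMod p) n := LinearMap.ext (tau_emap (odd_p p) hk n)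
    rw [← Equiv.sum_comp (rot p ^ k).finsetCongr]
    refine sum_congr rfl fun A _ => ?_
    have h2 : (0 : ZMod p) ∈ A.map (rot p ^ k).toEmbedding ↔ -(k : ZMod p) ∈ A := by
      have h3 : (rot p ^ k).toEmbedding (-(k : ZMod p)) = 0 :=
        (rot_pow_apply p k _).trans (neg_add_cancel _)
      rw [← h3, mem_map']
    rw [Equiv.finsetCongr_apply, ← perm_pow, pair_perm, hτ, mix_map, card_map]
    simp only [h2]
  have h3 : ∀ A : Finset (ZMod p),
      ∑ k ∈ range p, (if -(k : ZMod p) ∈ A then (A.card : ℤ) ^ (p - 2) else 0) •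
        pair (mix A f g) (tau (ZMod p) n) x =
      A.card • ((A.card : ℤ) ^ (p - 2) • pair (mix A f g) (tau (ZMod p) n) x) := by
    intro A
    rw [sum_cast p fun a => (if -a ∈ A then (A.card : ℤ) ^ (p - 2) else 0) •
      pair (mix A f g) (tau (ZMod p) n) x, ← Equiv.sum_comp (Equiv.neg (ZMod p))]
    simp only [Equiv.neg_apply, neg_neg, ite_smul, zero_smul]
    rw [sum_ite_mem, univ_inter, sum_const]
  have h4 : mix (∅ : Finset (ZMod p)) f g = fun _ => g := by
    funext k
    simp [mix]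
  have h5 : mix (univ : Finset (ZMod p)) f g = fun _ => f := by
    funext k
    simp [mix]
  simp only [LinearMap.sum_apply, map_sum, smul_sum]
  rw [sum_comm]
  simp only [h1]
  rw [sum_comm]
  simp only [h3, card_pow_smul p hp, sum_sub_distrib, sum_ite_eq', mem_univ, if_true]
  rw [pair_add, h4, h5]

/-- The chains whose pairings give the primitive of the cross terms. -/
noncomputable def trN (j : ℕ) : NatFam.{u} (ZMod p) :=
  ⟨fun _ l => Tr (perm (rot p)) p j (phi (rot p) p (j + 1) l), fun _ _ m l => by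
    rw [map_Tr (cmap m) (cmap_perm m _), phi_cmap]⟩

lemma pair_norm {V : Type u} {R : Type*} [CommRing R] (hp : (p : R) = 0)
    (L : Ch (ZMod p) V →ₗ[ℤ] R) (hL : ∀ x, L (dd x) = 0) (j : ℕ) (l : List V) :
    L ((∑ k ∈ range p, perm (rot p) ^ k) (phi (rot p) p j l)) =
      (-1 : ℤ) ^ j • L ((difN (trN p j)).val V l) := by
  obtain ⟨c, hc⟩ := Tr_mul_Tq (s := (perm (rot p) : Module.End ℤ (Ch (ZMod p) V))) (q := p)
    (by rw [← perm_pow, rot_pow, perm_one]) j
  have h1 : dd (phi (rot p) p (j + 1) l) = Tq (perm (rot p)) p j (phi (rot p) p j l) +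
      (-1 : ℤ) ^ (j + 1) • dif (phi (rot p) p (j + 1)) l := phi_eq (rot_pow p) (j + 1) l
  have h2 := congrArg (fun y => L (Tr (perm (rot p)) p j y)) h1
  have h3 := map_Tr (dd : Module.End ℤ (Ch (ZMod p) V)) (s := perm (rot p)) (s' := perm (rot p))
    (fun y => (LinearMap.congr_fun (perm_dd (rot p)) y).symm) p j (phi (rot p) p (j + 1) l)
  simp only [map_add, map_zsmul] at h2
  rw [← h3, hL, ← Module.End.mul_apply, hc, LinearMap.sub_apply, map_sub, LinearMap.smul_apply,
    map_zsmul, mul_smul, natCast_zsmul, nsmul_eq_mul, hp, zero_mul, sub_zero, pow_succ,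
    mul_neg_one, neg_smul, ChainAux.lin_dif (Tr (perm (rot p)) p j)] at h2
  exact (add_neg_eq_zero.1 h2.symm)

end SteenAux

/-- Additivity on classes (transfer argument). -/
theorem cls_Dop_add [CharS S p] (n j : ℕ) {f g : Cochain S} (hf : d f = 0) (hg : d g = 0) :
    cls (Dop p n j (f + g)) = cls (Dop p n j f) + cls (Dop p n j g) := by
  have hfg : d (f + g) = 0 := by rw [d_add, hf, hg, add_zero]
  rw [← cls_add (d_Dop p n j hf) (d_Dop p n j hg)]
  refine cls_eq_of_mem (d_Dop p n j hfg)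
    (by rw [d_add, d_Dop p n j hf, d_Dop p n j hg, add_zero]) ?_
  have e : Dop p n j (f + g) - (Dop p n j f + Dop p n j g) =
      ∑ A : Finset (ZMod p), (if 0 ∈ A then (A.card : ℤ) ^ (p - 2) else 0) • (-1 : ℤ) ^ j •
        pairC (mix A f g) (tau (ZMod p) n) (difN (trN p j)) (n * p - j) := by
    ext i l
    rw [sub_val, add_val, sum_val]
    simp only [Dop, zsmul_val, pairC_val, mix_val]
    by_cases hl : l.length = n * p - j + 1
    · simp only [if_pos hl]
      have h1 := cross_eq p (CharS.out i) (f.val i) (g.val i) n (phi (rot p) p j l)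
      rw [sub_sub, add_comm] at h1
      refine h1.symm.trans (sum_congr rfl fun A _ => ?_)
      rw [pair_norm p (CharS.out i) _ (fun x => by
        rw [← mix_val]
        exact pair_dd_cocycle _ (d_mix A hf hg) _ i x)]
    · simp [if_neg hl]
  rw [e]
  refine sum_mem fun A _ => zsmul_mem (zsmul_mem (difN_mem _ _ _ (fun V => ?_) _) _) _
  simp only [trN, phi_nil, map_zero]
/-- Coboundaries go to coboundaries (cylinder argument). -/
theorem cls_Dop_d [CharS S p] (n j : ℕ) (g : Cochain S) : cls (Dop p n j (d g)) = 0 := by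
  let χ : Cochain (cyl S) := c0 (fun i v => if v.2 then 1 else 0) fun i i' φ m h v => by
    obtain ⟨m₀, -, h₁⟩ := h
    obtain ⟨v, b⟩ := v
    rw [h₁]
    cases b <;> simp
  have key : ∀ (b : Bool) (i : S.ι) (l : List (S.V i)),
      ((cylIn S b).pull (χ * (cylPr S).pull g)).val i l = (if b then 1 else 0) * g.val i l := by
    intro b i l
    cases l with
    | nil => rw [Cochain.nil, Cochain.nil, mul_zero]
    | cons v l =>
      refine (c0_mul_val _ _ ((cylPr S).pull g) i (v, b) (l.map fun v => (v, b))).trans ?_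
      change _ * g.val i (v :: (l.map fun v => (v, b)).map Prod.fst) = _
      rw [List.map_map]
      exact congrArg (fun t => (if b then 1 else 0) * g.val i (v :: t)) (List.map_id l)
  have h0 : (cylIn S false).pull (χ * (cylPr S).pull g) = 0 := by
    ext i l
    rw [key]
    simp
  have h1 : (cylIn S true).pull (χ * (cylPr S).pull g) = g := by
    ext i l
    rw [key]
    simp
  have h2 := prism (d_Dop p n j (d_d (χ * (cylPr S).pull g)))
  rw [pull_Dop p _ (cylIn_isRing false), pull_Dop p _ (cylIn_isRing true), SiteMap.pull_d,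
    SiteMap.pull_d, h0, h1, d_zero, Dop_zero, cls_zero] at h2
  exact h2.symm
lemma cls_Dop_proj_d [CharS S p] (n j : ℕ) (g : Cochain S) :
    cls (Dop p n j (proj n (d g))) = 0 := by
  cases n with
  | zero => rw [proj_zero_d, Dop_zero, cls_zero]
  | succ n => rw [← d_proj, cls_Dop_d]

/-- The operation `D_j` on the component of degree `n`. -/
noncomputable def St [CharS S p] (n j : ℕ) : H S →+ H S :=
  liftH (fun f => Dop p n j (proj n f))
    (fun f g hf hg => by
      rw [map_add, cls_Dop_add p n j (d_proj_eq_zero hf n) (d_proj_eq_zero hg n)])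
    (cls_Dop_proj_d p n j)

lemma St_cls [CharS S p] {n : ℕ} (j : ℕ) {f : Cochain S} (hf : d f = 0) (h : Hom n f) :
    St p n j (cls f) = cls (Dop p n j f) := by
  rw [St, liftH_cls _ _ _ hf, h.proj_eq]
lemma St_mem [CharS S p] (n j : ℕ) (x : H S) : St p n j x ∈ Hn S (n * p - j) := by
  obtain ⟨f, hf, rfl⟩ := cls_surj x
  rw [St, liftH_cls _ _ _ hf]
  exact cls_mem_Hn (d_Dop p n j (d_proj_eq_zero hf n)) (Dop_hom p n j _)
lemma pullA_St [CharS S p] [CharS S' p] (T : SiteMap S S') (hT : T.IsRing) (n j : ℕ) (x : H S') :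
    T.pullA (St p n j x) = St p n j (T.pullA x) := by
  obtain ⟨f, hf, rfl⟩ := cls_surj x
  rw [T.pullA_cls hf, St, St, liftH_cls _ _ _ hf, liftH_cls _ _ _ (T.d_pull_eq_zero hf),
    T.pullA_cls (d_Dop p n j (d_proj_eq_zero hf n)), pull_Dop p T hT, T.pull_proj]

end Pool.Agent.Lib.MP_5f3851_al
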