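import Pool.Agent.Lib.MP_5f3851_al.Heis
import Pool.Agent.Lib.MP_5f3851_al.Steen

/-! Weights, coefficient maps, and the effect of the basic maps on the basic classes. -/

set_option linter.unusedSectionVars false

namespace Pool.Agent.Lib.MP_5f3851_al

open Finset Cochain Polynomial

universe u

variable {B B' : Type u} [CommRing B] [CommRing B'] {p r b : ℕ} [Fact p.Prime] [PZ p B] [PZ p B']

/-- Cochains of weight `(a, e)`. -/
def Wt (a e : ℕ) (f : Cochain (gs B p r b)) : Prop :=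
  ∀ (i : Obj B) (s t : i.R) (l : List (Pt p r b i.R)),
    f.val i (l.map (Pt.scale s t)) = s ^ a * t ^ e * f.val i l

/-- Classes of weight `(a, e)`. -/
def HWt (B : Type u) [CommRing B] (p r b a e : ℕ) : AddSubgroup (H (gs B p r b)) where
  carrier := {x | ∃ f, d f = 0 ∧ Wt a e f ∧ cls f = x}
  zero_mem' := ⟨0, d_zero, fun _ _ _ _ => by simp, cls_zero⟩
  add_mem' := by
    rintro _ _ ⟨f, hf, hf', rfl⟩ ⟨g, hg, hg', rfl⟩
    exact ⟨f + g, by rw [d_add, hf, hg, add_zero],
      fun i s t l => by rw [add_val, add_val, hf', hg', mul_add], cls_add hf hg⟩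
  neg_mem' := by
    rintro _ ⟨f, hf, hf', rfl⟩
    exact ⟨-f, by rw [d_neg, hf, neg_zero], fun i s t l => by rw [neg_val, neg_val, hf', mul_neg],
      cls_neg hf⟩

lemma HWt_mul {a e a' e' : ℕ} {x y : H (gs B p r b)} (hx : x ∈ HWt B p r b a e)
    (hy : y ∈ HWt B p r b a' e') : x * y ∈ HWt B p r b (a + a') (e + e') := by
  obtain ⟨f, hf, hf', rfl⟩ := hx
  obtain ⟨g, hg, hg', rfl⟩ := hy
  refine ⟨f * g, d_mul_eq_zero hf hg, fun i s t l => ?_, cls_mul hf hg⟩
  rw [Cochain.mul_val, cup, cup, List.length_map, mul_sum]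
  refine sum_congr rfl fun k _ => ?_
  rw [← List.map_take, ← List.map_drop, hf', hg']
  ring
lemma scH_mem_HWt (c : B) : (galg B p r b).scH c ∈ HWt B p r b 0 0 := by
  refine ⟨(galg B p r b).sc c, Site.Alg.d_sc _ c, fun i s t l => ?_, rfl⟩
  rw [pow_zero, pow_zero, one_mul, one_mul]
  match l with
  | [] => rfl
  | [_] => rfl
  | _ :: _ :: _ => rfl
/-- The weight of a coordinate. -/
def wx : Fin 3 → ℕ := ![1, 0, 1]
/-- The weight of a coordinate. -/
def wy : Fin 3 → ℕ := ![0, 1, 1]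

lemma WtAux.co_scale {R : Type u} [CommRing R] (s t : R) (c : Fin 3) (v w : Pt p r b R) :
    (Pt.scale s t w).1.co c - (Pt.scale s t v).1.co c =
      s ^ wx c * t ^ wy c * (w.1.co c - v.1.co c) := by
  fin_cases c <;> simp [Pt.scale, wx, wy, Heis.co] <;> ring

lemma lam_mem_HWt (c : Fin 3) (hc : c = 2 → b = 0) (k : ℕ) :
    lam p (gco B p r b c hc) k ∈ HWt B p r b (wx c * p ^ k) (wy c * p ^ k) := by
  refine ⟨lamC p _ k, d_lamC p _ k, fun i s t l => ?_, rfl⟩
  match l with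
  | [] => exact (mul_zero _).symm
  | [_] => exact (mul_zero _).symm
  | [v, w] =>
    change ((Pt.scale s t w).1.co c - (Pt.scale s t v).1.co c) ^ p ^ k =
      _ * (w.1.co c - v.1.co c) ^ p ^ k
    rw [WtAux.co_scale, mul_pow, mul_pow, pow_mul, pow_mul]
  | _ :: _ :: _ :: _ => exact (mul_zero _).symm
lemma xx_mem_HWt (c : Fin 3) (hc : c = 2 → b = 0) (k : ℕ) :
    xx p (gco B p r b c hc) k ∈ HWt B p r b (wx c * p ^ (k + 1)) (wy c * p ^ (k + 1)) := by
  refine ⟨xxC p _ k, d_xxC p _ k, fun i s t l => ?_, rfl⟩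
  match l with
  | [] => exact (mul_zero _).symm
  | [_] => exact (mul_zero _).symm
  | [_, _] => exact (mul_zero _).symm
  | [v, w, x] =>
    change Phi p (((Pt.scale s t w).1.co c - (Pt.scale s t v).1.co c) ^ p ^ k)
        (((Pt.scale s t x).1.co c - (Pt.scale s t w).1.co c) ^ p ^ k) =
      _ * Phi p ((w.1.co c - v.1.co c) ^ p ^ k) ((x.1.co c - w.1.co c) ^ p ^ k)
    rw [WtAux.co_scale, WtAux.co_scale, mul_pow _ (w.1.co c - _), mul_pow _ (x.1.co c - _),
      Phi_mul, ← pow_mul, ← pow_succ, mul_pow, pow_mul, pow_mul]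
  | _ :: _ :: _ :: _ :: _ => exact (mul_zero _).symm
lemma frob_mem_HWt {a e : ℕ} {x : H (gs B p r b)} (hx : x ∈ HWt B p r b a e) (n : ℕ) :
    (frobM p _ n).pullA x ∈ HWt B p r b (a * p ^ n) (e * p ^ n) := by
  obtain ⟨f, hf, hf', rfl⟩ := hx
  refine ⟨(frobM p _ n).pull f, SiteMap.d_pull_eq_zero _ hf, fun i s t l => ?_,
    (SiteMap.pullA_cls _ hf).symm⟩
  rw [frobM_val, frobM_val, hf', mul_pow, mul_pow, pow_mul, pow_mul]
lemma St_mem_HWt [Fact (5 ≤ p)] {a e n : ℕ} {x : H (gs B p r b)} (hx : x ∈ HWt B p r b a e)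
    (j : ℕ) : St p n j x ∈ HWt B p r b (a * p) (e * p) := by
  obtain ⟨f, hf, hf', rfl⟩ := hx
  rw [St, liftH_cls _ _ _ hf]
  refine ⟨_, d_Dop p n j (d_proj_eq_zero hf n), fun i s t l => ?_, rfl⟩
  rw [Dop_scale p n j (proj n f) i (Pt.scale s t) (s ^ a * t ^ e), mul_pow, pow_mul, pow_mul]
  intro l
  rw [proj_val, proj_val, List.length_map]
  split_ifs
  · exact hf' i s t l
  · exact (mul_zero _).symm

/-- The projection to the weight `(a, e)`. -/
noncomputable def wtM (B : Type u) [CommRing B] (p r b : ℕ) [Fact p.Prime] [PZ p B] (a e : ℕ) :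
    SiteMap (gs B p r b) (gs B p r b) where
  obj i := ⟨i.R[X][X], (C.comp C).comp i.φ⟩
  vert i v := Pt.scale (C X) X (v.map (C.comp C))
  fn i := (lcoeff i.R a).toAddMonoidHom.comp (lcoeff i.R[X] e).toAddMonoidHom
  compat i j φ m h := by
    obtain ⟨hφ, g, hg⟩ := h
    refine ⟨mapRingHom (mapRingHom φ),
      fun v => Pt.mul (PZ.of_hom ((C.comp C).comp j.φ)) (Pt.scale (C X) X (g.map (C.comp C)))
        (v.map (mapRingHom (mapRingHom φ))), ⟨?_, _, fun _ => rfl⟩, fun v => ?_, fun x => ?_⟩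
    · ext c
      have : φ (i.φ c) = j.φ c := DFunLike.congr_fun hφ c
      simp [← this]
    · refine Subtype.ext ?_
      ext1 <;> simp [Pt.scale, Pt.map, Pt.mul, hg, hh] <;> ring
    · simp

lemma wtM_of_mem {a e : ℕ} {x : H (gs B p r b)} (hx : x ∈ HWt B p r b a e) (a' e' : ℕ) :
    (wtM B p r b a' e').pullA x = if a' = a ∧ e' = e then x else 0 := by
  obtain ⟨f, hf, hf', rfl⟩ := hx
  rw [SiteMap.pullA_cls _ hf]
  have key : ∀ (i : Obj B) (l : List (Pt p r b i.R)), ((wtM B p r b a' e').pull f).val i l =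
      if a' = a ∧ e' = e then f.val i l else 0 := by
    intro i l
    have h1 := gs_nat' f i ⟨i.R[X][X], (C.comp C).comp i.φ⟩ (C.comp C) rfl l
    have h2 := hf' ⟨i.R[X][X], (C.comp C).comp i.φ⟩ (C X) X (l.map (Pt.map (C.comp C)))
    rw [← h1, List.map_map] at h2
    change ((f.val ⟨i.R[X][X], (C.comp C).comp i.φ⟩
      (l.map (Pt.scale (C X) X ∘ Pt.map (C.comp C)))).coeff e').coeff a' = _
    rw [h2]
    change (((C X : i.R[X][X]) ^ a * X ^ e * C (C (f.val i l))).coeff e').coeff a' = _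
    rw [mul_right_comm, ← C_pow, ← C_mul, coeff_C_mul_X_pow]
    by_cases he : e' = e
    · rw [if_pos he, mul_comm, coeff_C_mul_X_pow]
      simp [he]
    · simp [he]
  split_ifs with h
  · congr 1
    ext i l
    rw [key, if_pos h]
  · rw [← cls_zero]
    congr 1
    ext i l
    rw [key, if_neg h, zero_val]

/-- The coefficient of `X^n` of a cochain over `B[X]`. -/
noncomputable def coefX (B : Type u) [CommRing B] (p r b : ℕ) [Fact p.Prime] [PZ p B] (n : ℕ) :
    SiteMap (gs B p r b) (gs B[X] p r b) where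
  obj i := ⟨i.R[X], mapRingHom i.φ⟩
  vert _ v := v.map C
  fn i := (lcoeff i.R n).toAddMonoidHom
  compat i j φ m h := by
    obtain ⟨hφ, g, hg⟩ := h
    refine ⟨mapRingHom φ, fun v => Pt.mul (PZ.of_hom (C.comp j.φ)) (g.map C)
        (v.map (mapRingHom φ)), ⟨?_, _, fun _ => rfl⟩, fun v => ?_, fun x => ?_⟩
    · rw [mapRingHom_comp, hφ]
    · refine Subtype.ext ?_
      ext1 <;> simp [Pt.map, Pt.mul, hg, hh]
    · simp

lemma WtAux.bc_coefX_val (n : ℕ) (f : Cochain (gs B p r b)) (i : Obj B)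
    (l : List (Pt p r b i.R)) :
    ((bc p r b (C : B →+* B[X])).pull f).val ((coefX B p r b n).obj i)
      (l.map ((coefX B p r b n).vert i)) = C (f.val i l) := by
  rw [SiteMap.pull_val, List.map_map]
  exact (gs_nat' f i ⟨i.R[X], (mapRingHom i.φ).comp C⟩ C (by ext c; simp) l).symm

lemma coefX_bc_mul (n : ℕ) (x : H (gs B p r b)) (y : H (gs B[X] p r b)) :
    (coefX B p r b n).pullA (bcH p r b C x * y) = x * (coefX B p r b n).pullA y := by
  obtain ⟨f, hf, rfl⟩ := cls_surj x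
  obtain ⟨g, hg, rfl⟩ := cls_surj y
  have hf' := (bc p r b (C : B →+* B[X])).d_pull_eq_zero hf
  rw [bcH, SiteMap.pullH_cls _ _ hf, ← cls_mul hf' hg,
    SiteMap.pullA_cls _ (d_mul_eq_zero hf' hg), SiteMap.pullA_cls _ hg,
    ← cls_mul hf (SiteMap.d_pull_eq_zero _ hg), SiteMap.pull_mul_left _ _ _ f]
  intro i l z
  rw [WtAux.bc_coefX_val]
  exact coeff_C_mul _
lemma coefX_bc (n : ℕ) (x : H (gs B p r b)) :
    (coefX B p r b n).pullA (bcH p r b C x) = if n = 0 then x else 0 := by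
  obtain ⟨f, hf, rfl⟩ := cls_surj x
  rw [bcH, SiteMap.pullH_cls _ _ hf, SiteMap.pullA_cls _ (SiteMap.d_pull_eq_zero _ hf)]
  have key : ∀ (i : Obj B) (l : List (Pt p r b i.R)),
      ((coefX B p r b n).pull ((bc p r b (C : B →+* B[X])).pull f)).val i l =
      if n = 0 then f.val i l else 0 := by
    intro i l
    rw [SiteMap.pull_val, WtAux.bc_coefX_val]
    exact coeff_C
  split_ifs with h
  · congr 1
    ext i l
    rw [key, if_pos h]
  · rw [← cls_zero]
    congr 1
    ext i l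
    rw [key, if_neg h, zero_val]
lemma coefX_X_pow_mul (n k : ℕ) (y : H (gs B[X] p r b)) :
    (coefX B p r b n).pullA ((galg B[X] p r b).scH (X ^ k) * y) =
      if k ≤ n then (coefX B p r b (n - k)).pullA y else 0 := by
  obtain ⟨g, hg, rfl⟩ := cls_surj y
  have hs := (galg B[X] p r b).d_sc (X ^ k)
  rw [Site.Alg.scH_apply, ← cls_mul hs hg, SiteMap.pullA_cls _ (d_mul_eq_zero hs hg),
    SiteMap.pullA_cls _ hg]
  have key : ∀ (i : Obj B) (l : List (Pt p r b i.R)),
      ((coefX B p r b n).pull ((galg B[X] p r b).sc (X ^ k) * g)).val i l =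
      if k ≤ n then ((coefX B p r b (n - k)).pull g).val i l else 0 := by
    intro i l
    rw [SiteMap.pull_val, Site.Alg.sc_mul_val]
    change (mapRingHom i.φ (X ^ k) * _).coeff n = _
    rw [map_pow, coe_mapRingHom, map_X, coeff_X_pow_mul']
    rfl
  split_ifs with h
  · congr 1
    ext i l
    rw [key, if_pos h]
  · rw [← cls_zero]
    congr 1
    ext i l
    rw [key, if_neg h, zero_val]

namespace WtAux

/-- The exponent that kills a coordinate. -/
def ex (p r b : ℕ) : Fin 3 → ℕ := ![p ^ r, p ^ b, p ^ r]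

/-- The relations of a universal list of points. -/
noncomputable def uI (B : Type u) [CommRing B] (p r b n : ℕ) :
    Ideal (MvPolynomial (Fin n × Fin 3) B) :=
  Ideal.span (Set.range fun a : Fin n × Fin 3 =>
    (MvPolynomial.X a : MvPolynomial (Fin n × Fin 3) B) ^ ex p r b a.2)

/-- The ring of a universal list of points. -/
noncomputable def uO (B : Type u) [CommRing B] (p r b n : ℕ) : Obj B :=
  ⟨MvPolynomial (Fin n × Fin 3) B ⧸ uI B p r b n, (Ideal.Quotient.mk _).comp MvPolynomial.C⟩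

omit [Fact p.Prime] [PZ p B] in
lemma u_pow (n : ℕ) (a : Fin n × Fin 3) :
    (Ideal.Quotient.mk (uI B p r b n) (MvPolynomial.X a)) ^ ex p r b a.2 = 0 := by
  rw [← map_pow, Ideal.Quotient.eq_zero_iff_mem]
  exact Ideal.subset_span ⟨a, rfl⟩

/-- The universal points. -/
noncomputable def uP (B : Type u) [CommRing B] (p r b n : ℕ) (k : Fin n) :
    Pt p r b (uO B p r b n).R :=
  ⟨⟨Ideal.Quotient.mk (uI B p r b n) (MvPolynomial.X (k, 0)),
    Ideal.Quotient.mk (uI B p r b n) (MvPolynomial.X (k, 1)),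
    Ideal.Quotient.mk (uI B p r b n) (MvPolynomial.X (k, 2))⟩,
    u_pow n (k, 0), u_pow n (k, 1), u_pow n (k, 2)⟩

lemma co_pow_ex {R : Type u} [CommRing R] (v : Pt p r b R) (c : Fin 3) :
    v.1.co c ^ ex p r b c = 0 := by
  fin_cases c
  · exact v.2.1
  · exact v.2.2.1
  · exact v.2.2.2

lemma universal (i : Obj B) (l : List (Pt p r b i.R)) :
    ∃ φ : (uO B p r b l.length).R →+* i.R, φ.comp (uO B p r b l.length).φ = i.φ ∧
      (List.ofFn (uP B p r b l.length)).map (Pt.map φ) = l := by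
  let ψ : MvPolynomial (Fin l.length × Fin 3) B →+* i.R :=
    MvPolynomial.eval₂Hom i.φ fun a => (l.get a.1).1.co a.2
  have hψ : ∀ a ∈ uI B p r b l.length, ψ a = 0 := by
    have : uI B p r b l.length ≤ RingHom.ker ψ := by
      rw [uI, Ideal.span_le]
      rintro _ ⟨a, rfl⟩
      change ψ (MvPolynomial.X a ^ _) = 0
      rw [map_pow, MvPolynomial.eval₂Hom_X']
      exact co_pow_ex _ _
    exact fun a ha => this ha
  refine ⟨Ideal.Quotient.lift _ ψ hψ, ?_, ?_⟩
  · ext c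
    exact MvPolynomial.eval₂Hom_C _ _ c
  · rw [List.map_ofFn]
    conv_rhs => rw [← List.ofFn_get l]
    congr 1
    funext k
    refine Subtype.ext ?_
    ext
    · exact MvPolynomial.eval₂Hom_X' _ _ (k, (0 : Fin 3))
    · exact MvPolynomial.eval₂Hom_X' _ _ (k, (1 : Fin 3))
    · exact MvPolynomial.eval₂Hom_X' _ _ (k, (2 : Fin 3))

end WtAux

/-- Uniform finiteness, through a universal list of each length. -/
lemma coefX_finite (y : H (gs B[X] p r b)) : ∃ M, ∀ n, M < n → (coefX B p r b n).pullA y = 0 := by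
  obtain ⟨g, hg, rfl⟩ := cls_surj y
  obtain ⟨N, hN⟩ := g.bdd
  let D : ℕ → ℕ := fun m => natDegree (R := (WtAux.uO B p r b m).R)
    (g.val ((coefX B p r b 0).obj (WtAux.uO B p r b m))
      ((List.ofFn (WtAux.uP B p r b m)).map ((coefX B p r b 0).vert _)))
  refine ⟨(range (N + 1)).sup D, fun n hn => ?_⟩
  rw [SiteMap.pullA_cls _ hg, ← cls_zero]
  congr 1
  ext i l
  rw [zero_val]
  by_cases hl : N < l.length
  · rw [SiteMap.pull_val, hN _ _ (by rwa [List.length_map]), map_zero]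
  · obtain ⟨φ, h1, h2⟩ := WtAux.universal i l
    rw [← h2, ← gs_nat' _ _ i φ h1]
    have h3 : D l.length < n :=
      lt_of_le_of_lt (le_sup (f := D) (mem_range.2 (by omega))) hn
    have h4 : ((coefX B p r b n).pull g).val (WtAux.uO B p r b l.length)
        (List.ofFn (WtAux.uP B p r b l.length)) = 0 := coeff_eq_zero_of_natDegree_lt h3
    rw [h4, map_zero]

/-- The coefficient of `t^n` of a cochain over `B[t] / t^N`. -/
noncomputable def coefR (B : Type u) [CommRing B] (p r b : ℕ) [Fact p.Prime] [PZ p B] (N : ℕ)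
    [NeZero N] (n : ℕ) : SiteMap (gs B p r b) (gs (Rt N (0 : B)) p r b) where
  obj i := ⟨Rt N (0 : i.R), Rt.map 0 0 i.φ (map_zero _)⟩
  vert i v := v.map (Rt.of N 0)
  fn i := Rt.coef N (0 : i.R) n
  compat i j φ m h := by
    obtain ⟨hφ, g, hg⟩ := h
    refine ⟨Rt.map 0 0 φ (map_zero _), fun v => Pt.mul (PZ.of_hom ((Rt.of N 0).comp j.φ))
        (g.map (Rt.of N 0)) (v.map (Rt.map 0 0 φ (map_zero _))), ⟨?_, _, fun _ => rfl⟩,
        fun v => ?_, fun x => (Rt.coef_map _ _ _ _ _ _).symm⟩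
    · refine Rt.hom_ext (fun c => ?_) ?_
      · have : φ (i.φ c) = j.φ c := DFunLike.congr_fun hφ c
        simp only [RingHom.comp_apply, Rt.map_of, this]
      · simp only [RingHom.comp_apply, Rt.map_rt]
    · refine Subtype.ext ?_
      ext1 <;> simp [Pt.map, Pt.mul, hg, hh, Rt.map_of]

lemma WtAux.bc_coefR_val (N : ℕ) [NeZero N] (n : ℕ) (f : Cochain (gs B p r b)) (i : Obj B)
    (l : List (Pt p r b i.R)) :
    ((bc p r b (Rt.of N (0 : B))).pull f).val ((coefR B p r b N n).obj i)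
      (l.map ((coefR B p r b N n).vert i)) = Rt.of N (0 : i.R) (f.val i l) := by
  have h1 : (Rt.of N (0 : i.R)).comp i.φ =
      (Rt.map (0 : B) (0 : i.R) i.φ (map_zero _)).comp (Rt.of N (0 : B)) :=
    RingHom.ext fun c => (Rt.map_of (0 : B) (0 : i.R) i.φ (map_zero _) c).symm
  have h2 := gs_nat' f i ⟨Rt N (0 : i.R), _⟩ (Rt.of N (0 : i.R)) h1 l
  rw [SiteMap.pull_val, List.map_map]
  exact h2.symm

lemma coefR_bc_mul (N : ℕ) [NeZero N] (n : ℕ) (x : H (gs B p r b))
    (y : H (gs (Rt N (0 : B)) p r b)) :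
    (coefR B p r b N n).pullA (bcH p r b (Rt.of N 0) x * y) =
      x * (coefR B p r b N n).pullA y := by
  obtain ⟨f, hf, rfl⟩ := cls_surj x
  obtain ⟨g, hg, rfl⟩ := cls_surj y
  have hf' := (bc p r b (Rt.of N (0 : B))).d_pull_eq_zero hf
  rw [bcH, SiteMap.pullH_cls _ _ hf, ← cls_mul hf' hg,
    SiteMap.pullA_cls _ (d_mul_eq_zero hf' hg), SiteMap.pullA_cls _ hg,
    ← cls_mul hf (SiteMap.d_pull_eq_zero _ hg), SiteMap.pull_mul_left _ _ _ f]
  intro i l z
  rw [WtAux.bc_coefR_val]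
  exact Rt.coef_of_mul _ _ _ _
lemma coefR_scH (N : ℕ) [NeZero N] (n : ℕ) (c : Rt N (0 : B)) :
    (coefR B p r b N n).pullA ((galg _ p r b).scH c) = (galg B p r b).scH (Rt.coef N 0 n c) := by
  exact Site.Alg.pullA_scH _ _ _ _ _ fun i => Rt.coef_map _ _ i.φ (map_zero _) _ _

/-! ### The basic maps on the basic classes -/

lemma bcH_scH (β : B →+* B') (c : B) :
    bcH p r b β ((galg B p r b).scH c) = (galg B' p r b).scH (β c) := by
  exact Site.Alg.pullA_scH _ _ _ _ _ fun i => rfl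
lemma bcH_lam (β : B →+* B') (c : Fin 3) (hc : c = 2 → b = 0) (k : ℕ) :
    bcH p r b β (lam p (gco B p r b c hc) k) = lam p (gco B' p r b c hc) k := by
  exact pullA_lam p _ (homMap_isRing _ _ _) _ _ (fun _ _ _ => rfl) k
lemma bcH_xx (β : B →+* B') (c : Fin 3) (hc : c = 2 → b = 0) (k : ℕ) :
    bcH p r b β (xx p (gco B p r b c hc) k) = xx p (gco B' p r b c hc) k := by
  exact pullA_xx p _ (homMap_isRing _ _ _) _ _ (fun _ _ _ => rfl) k

/-- The coordinate `x` on `U_r`. -/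
abbrev ux (B : Type u) [CommRing B] (p r : ℕ) : Aff (gs B p r r) := gco B p r r 0 (by simp)
/-- The coordinate `y` on `U_r`. -/
abbrev uy (B : Type u) [CommRing B] (p r : ℕ) : Aff (gs B p r r) := gco B p r r 1 (by simp)
/-- The coordinates `x` (for `false`) and `z` (for `true`) on the abelian subgroup. -/
abbrev ec (B : Type u) [CommRing B] (p r : ℕ) (c : Bool) : Aff (gs B p r 0) :=
  gco B p r 0 (if c then 2 else 0) fun _ => rfl

lemma resH_scH (c : B) : resH B p r ((galg B p r r).scH c) = (galg B p r 0).scH c := by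
  exact Site.Alg.pullA_scH _ _ _ _ _ fun i => rfl
lemma resH_xx_x (k : ℕ) : resH B p r (xx p (ux B p r) k) = xx p (ec B p r false) k := by
  exact pullA_xx p _ (homMap_isRing _ _ _) _ _ (fun _ _ _ => rfl) k
lemma resH_xx_y (k : ℕ) : resH B p r (xx p (uy B p r) k) = 0 := by
  have h := pullA_xx p (resM B p r) (homMap_isRing _ _ _) (uy B p r)
    (gco B p r 0 1 fun _ => rfl) (fun _ _ _ => rfl) k
  refine h.trans (xx_eq_zero p _ k fun i v w => ?_)
  change (w.1.y - v.1.y) ^ p ^ k = 0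
  rw [w.y_eq_zero, v.y_eq_zero, sub_zero]
  exact zero_pow (pow_pos (Fact.out : p.Prime).pos _).ne'
lemma alphaH_scH (c e : B) : alphaH p r c ((galg B p r r).scH e) = (galg B p r r).scH e := by
  exact Site.Alg.pullA_scH _ _ _ _ _ fun i => rfl
lemma alphaH_xx_x (c : B) (k : ℕ) : alphaH p r c (xx p (ux B p r) k) = xx p (ux B p r) k := by
  exact pullA_xx p _ (homMap_isRing _ _ _) _ _ (fun _ _ _ => rfl) k
lemma alphaH_xx_y (c : B) (k : ℕ) : alphaH p r c (xx p (uy B p r) k) =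
    xx p (uy B p r) k + (galg B p r r).scH (c ^ p ^ (k + 1)) * xx p (ux B p r) k := by
  have h := pullA_xx_lin p (galg B p r r) (alphaM p r c) (homMap_isRing _ _ _) (uy B p r)
    (uy B p r) (ux B p r) 1 c (fun i v w => by
      change (w.1.y + i.φ c * w.1.x) - (v.1.y + i.φ c * v.1.x) =
        i.φ 1 * (w.1.y - v.1.y) + i.φ c * (w.1.x - v.1.x)
      rw [map_one]
      ring) k
  rw [one_pow, map_one, one_mul] at h
  exact h
lemma alphaH_neg (c : B) (x : H (gs B p r r)) : alphaH p r (-c) (alphaH p r c x) = x := by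
  obtain ⟨f, hf, rfl⟩ := cls_surj x
  rw [alphaH, alphaH, SiteMap.pullH_cls _ _ hf,
    SiteMap.pullH_cls _ _ (SiteMap.d_pull_eq_zero _ hf)]
  congr 1
  ext i l
  rw [SiteMap.pull_val, SiteMap.pull_val, List.map_map]
  change f.val i (l.map _) = f.val i l
  congr 1
  refine (List.map_congr_left fun v _ => ?_).trans (List.map_id l)
  refine Subtype.ext ?_
  ext
  · rfl
  · change v.1.y + i.φ (-c) * v.1.x + i.φ c * v.1.x = v.1.y
    rw [map_neg]
    ring
  · rfl
lemma shearH_scH (c e : B) : shearH p r c ((galg B p r 0).scH e) = (galg B p r 0).scH e := by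
  exact Site.Alg.pullA_scH _ _ _ _ _ fun i => rfl
lemma shearH_lam_x (c : B) (k : ℕ) :
    shearH p r c (lam p (ec B p r false) k) = lam p (ec B p r false) k := by
  exact pullA_lam p _ (homMap_isRing _ _ _) _ _ (fun _ _ _ => rfl) k
lemma shearH_lam_z (c : B) (k : ℕ) : shearH p r c (lam p (ec B p r true) k) =
    lam p (ec B p r true) k + (galg B p r 0).scH (c ^ p ^ k) * lam p (ec B p r false) k := by
  have h := pullA_lam_lin p (galg B p r 0) (shearM p r c) (homMap_isRing _ _ _) (ec B p r true)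
    (ec B p r true) (ec B p r false) 1 c (fun i v w => by
      change (w.1.z + i.φ c * w.1.x) - (v.1.z + i.φ c * v.1.x) =
        i.φ 1 * (w.1.z - v.1.z) + i.φ c * (w.1.x - v.1.x)
      rw [map_one]
      ring) k
  rw [one_pow, map_one, one_mul] at h
  exact h
lemma shearH_xx_x (c : B) (k : ℕ) :
    shearH p r c (xx p (ec B p r false) k) = xx p (ec B p r false) k := by
  exact pullA_xx p _ (homMap_isRing _ _ _) _ _ (fun _ _ _ => rfl) k
lemma shearH_xx_z (c : B) (k : ℕ) : shearH p r c (xx p (ec B p r true) k) =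
    xx p (ec B p r true) k + (galg B p r 0).scH (c ^ p ^ (k + 1)) * xx p (ec B p r false) k := by
  have h := pullA_xx_lin p (galg B p r 0) (shearM p r c) (homMap_isRing _ _ _) (ec B p r true)
    (ec B p r true) (ec B p r false) 1 c (fun i v w => by
      change (w.1.z + i.φ c * w.1.x) - (v.1.z + i.φ c * v.1.x) =
        i.φ 1 * (w.1.z - v.1.z) + i.φ c * (w.1.x - v.1.x)
      rw [map_one]
      ring) k
  rw [one_pow, map_one, one_mul] at h
  exact h
lemma thetaM_lam (hb : b ≤ r) (c : Fin 3) (hc : c = 2 → b = 0) (k : ℕ) :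
    (thetaM B p r b hb c hc).pullA (lam p (ec B p r false) k) = lam p (gco B p r b c hc) k := by
  exact pullA_lam p _ (homMap_isRing _ _ _) _ _ (fun _ _ _ => rfl) k
lemma bcH_resH (β : B →+* B') (x : H (gs B p r r)) :
    bcH p r 0 β (resH B p r x) = resH B' p r (bcH p r r β x) := by
  obtain ⟨f, hf, rfl⟩ := cls_surj x
  rw [bcH, bcH, resH, resH, SiteMap.pullH_cls _ _ hf, SiteMap.pullH_cls _ _ hf,
    SiteMap.pullH_cls _ _ (SiteMap.d_pull_eq_zero _ hf),
    SiteMap.pullH_cls _ _ (SiteMap.d_pull_eq_zero _ hf)]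
  congr 1
  ext i l
  rw [SiteMap.pull_val, SiteMap.pull_val, SiteMap.pull_val, SiteMap.pull_val, List.map_map,
    List.map_map]
  rfl

namespace WtAux

/-- The point `(0, κ, 0)`. -/
def kp (p r : ℕ) [Fact p.Prime] {R : Type u} [CommRing R] (κ : R) (hκ : κ ^ p ^ r = 0) :
    Pt p r r R :=
  ⟨⟨0, κ, 0⟩, zero_pow (pow_pos (Fact.out : p.Prime).pos _).ne', hκ,
    zero_pow (pow_pos (Fact.out : p.Prime).pos _).ne'⟩

lemma phi_pow {κ : B} (hκ : κ ^ p ^ r = 0) (i : Obj B) : i.φ κ ^ p ^ r = 0 := by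
  rw [← map_pow, hκ, map_zero]

/-- The homotopy between the inclusion and its right translate by `(0, κ, 0)`. -/
def cylM (κ : B) (hκ : κ ^ p ^ r = 0) : SiteMap (cyl (gs B p r 0)) (gs B p r r) where
  obj i := i
  vert i v := Pt.mul (PZ.of_hom i.φ) ((resM B p r).vert i v.1)
    (if v.2 then kp p r (i.φ κ) (phi_pow hκ i) else Pt.one p r r i.R)
  fn _ := AddMonoidHom.id _
  compat i j φ m h := by
    obtain ⟨m₀, ⟨hφ, g, hg⟩, h₁⟩ := h
    refine ⟨φ, fun v => Pt.mul (PZ.of_hom j.φ) ((resM B p r).vert j g) (v.map φ),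
      ⟨hφ, _, fun _ => rfl⟩, fun v => ?_, fun _ => rfl⟩
    obtain ⟨v, c⟩ := v
    have hc : φ (i.φ κ) = j.φ κ := DFunLike.congr_fun hφ κ
    rw [h₁]
    refine Subtype.ext ?_
    cases c
    · change (m₀ v).1 * 1 = g.1 * (v.1 * 1).map φ
      rw [mul_one, mul_one, hg]
    · change (m₀ v).1 * ⟨0, j.φ κ, 0⟩ = g.1 * (v.1 * ⟨0, i.φ κ, 0⟩).map φ
      rw [hg, Heis.map_mul', mul_assoc]
      congr 2
      ext <;> simp [hc]

end WtAux

/-- Conjugation by `(0, κ, 0)` is trivial on cohomology (prism lemma). -/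
theorem shearH_resH (hp : Odd p) (κ : B) (hκ : κ ^ p ^ r = 0) (x : H (gs B p r r)) :
    shearH p r κ (resH B p r x) = resH B p r x := by
  obtain ⟨f, hf, rfl⟩ := cls_surj x
  rw [shearH, resH, SiteMap.pullH_cls _ _ hf, SiteMap.pullH_cls _ _ (SiteMap.d_pull_eq_zero _ hf)]
  refine (cls_eq_of_cyl (WtAux.cylM κ hκ) hf _ _ (fun i l => ?_) fun i l => ?_).symm
  · change f.val i (l.map _) = f.val i (l.map _)
    congr 1
    exact List.map_congr_left fun v _ => Subtype.ext (mul_one v.1).symm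
  · have hn : (-i.φ κ) ^ p ^ r = 0 := by
      rw [neg_pow, WtAux.phi_pow hκ i, mul_zero]
    have h := gs_nat f i i (RingHom.id _) rfl (WtAux.kp p r (-i.φ κ) hn)
      (l.map fun v => (WtAux.cylM κ hκ).vert i (v, true))
    refine Eq.trans ?_ h.symm
    rw [SiteMap.pull_val, SiteMap.pull_val, List.map_map, List.map_map]
    change f.val i (l.map _) = f.val i (l.map _)
    congr 1
    refine List.map_congr_left fun v _ => Subtype.ext ?_
    change (⟨v.1.x, v.1.y, v.1.z + i.φ κ * v.1.x⟩ : Heis p i.R) =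
      ⟨0, -i.φ κ, 0⟩ * (v.1 * ⟨0, i.φ κ, 0⟩)
    have h2 := two_mul_hh hp (PZ.of_hom (p := p) i.φ)
    have h3 := v.y_eq_zero
    ext
    · simp
    · simp
    · simp only [Heis.mul_x, Heis.mul_y, Heis.mul_z, h3]
      linear_combination (-(i.φ κ * v.1.x)) * h2

end Pool.Agent.Lib.MP_5f3851_al
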